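import Pool.Agent.Helper68.LA.Re

/-!
# Block LA-Prod: the product of two real characters

`χχ = changeLevel ψ * changeLevel χ` mod `r q`.  `prod_rc`: `rc (χχ) n = rc ψ n * rc χ n` for every `n`: for `(n, rq) = 1` `changeLevel_eq_cast_of_dvd`, otherwise both sides vanish
(`n` is not prime to `r` or not prime to `q`).  `prod_sq`: the square is `1`.  `prod_one`: if `χχ = 1` then `changeLevel ψ = changeLevel χ` (multiply by `changeLevel χ`, whose square is `1`).
-/

set_option autoImplicit false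

namespace Pool.Agent.Helper68.LA

/-- the product of two characters at the common level `r q` -/
noncomputable def pr {r q : ℕ} (ψ : DirichletCharacter ℂ r) (χ : DirichletCharacter ℂ q) : DirichletCharacter ℂ (r * q) :=
  DirichletCharacter.changeLevel (Dvd.intro q rfl : r ∣ r * q) ψ *
    DirichletCharacter.changeLevel (Dvd.intro_left r rfl : q ∣ r * q) χ

private theorem cl_h64 {r m : ℕ} (hd : r ∣ m) (ψ : DirichletCharacter ℂ r) {n : ℕ} (hn : n.Coprime m) :
    DirichletCharacter.changeLevel hd ψ (n : ZMod m) = ψ (n : ZMod r) := by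
  have h1 := DirichletCharacter.changeLevel_eq_cast_of_dvd ψ hd (ZMod.unitOfCoprime n hn)
  rw [ZMod.coe_unitOfCoprime] at h1
  rw [h1, ZMod.cast_natCast hd n]

private theorem z_h64 {q : ℕ} (χ : DirichletCharacter ℂ q) {n : ℕ} (hn : ¬ n.Coprime q) : χ (n : ZMod q) = 0 := by
  apply MulChar.map_nonunit
  rw [ZMod.isUnit_iff_coprime]
  exact hn

theorem prod_rc {r q : ℕ} [NeZero r] [NeZero q] {ψ : DirichletCharacter ℂ r} {χ : DirichletCharacter ℂ q}
    (hψ2 : ψ ^ 2 = 1) (hχ2 : χ ^ 2 = 1) (n : ℕ) : rc (pr ψ χ) n = rc ψ n * rc χ n := by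
  by_cases hn : n.Coprime (r * q)
  · have h1 : pr ψ χ (n : ZMod (r * q)) = ψ (n : ZMod r) * χ (n : ZMod q) := by
      unfold pr
      rw [MulChar.mul_apply, cl_h64 _ ψ hn, cl_h64 _ χ hn]
    have h2 := rc_eq hψ2 n
    have h3 := rc_eq hχ2 n
    have h4 : rc (pr ψ χ) n = ((rc ψ n : ℂ) * (rc χ n : ℂ)).re := by
      rw [← h2, ← h3, ← h1]
      rfl
    rw [h4, ← Complex.ofReal_mul, Complex.ofReal_re]
  · have h1 : rc (pr ψ χ) n = 0 := by
      unfold rc
      rw [z_h64 _ hn, Complex.zero_re]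
    rw [h1]
    rw [Nat.coprime_mul_iff_right, not_and_or] at hn
    rcases hn with hn | hn
    · have h2 : rc ψ n = 0 := by
        unfold rc
        rw [z_h64 _ hn, Complex.zero_re]
      rw [h2, zero_mul]
    · have h2 : rc χ n = 0 := by
        unfold rc
        rw [z_h64 _ hn, Complex.zero_re]
      rw [h2, mul_zero]

theorem prod_sq {r q : ℕ} [NeZero r] [NeZero q] {ψ : DirichletCharacter ℂ r} {χ : DirichletCharacter ℂ q}
    (hψ2 : ψ ^ 2 = 1) (hχ2 : χ ^ 2 = 1) : pr ψ χ ^ 2 = 1 := by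
  unfold pr
  rw [mul_pow, ← map_pow, ← map_pow, hψ2, hχ2, map_one, map_one, one_mul]

theorem prod_one {r q : ℕ} [NeZero r] [NeZero q] {ψ : DirichletCharacter ℂ r} {χ : DirichletCharacter ℂ q}
    (hχ2 : χ ^ 2 = 1) (h : pr ψ χ = 1) :
    DirichletCharacter.changeLevel (Dvd.intro q rfl : r ∣ r * q) ψ =
      DirichletCharacter.changeLevel (Dvd.intro_left r rfl : q ∣ r * q) χ := by
  unfold pr at h
  have h1 : DirichletCharacter.changeLevel (Dvd.intro_left r rfl : q ∣ r * q) χ *
      DirichletCharacter.changeLevel (Dvd.intro_left r rfl : q ∣ r * q) χ = 1 := by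
    rw [← sq, ← map_pow, hχ2, map_one]
  exact mul_right_cancel (h.trans h1.symm)

end Pool.Agent.Helper68.LA
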