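import Pool.Agent.Helper68.LA.Zero
import Pool.Agent.Helper68.LA.Prod

/-!
# Block LA-Sg: Siegel's theorem for real characters

Let `0 < ε`, `η = min (ε/1000) (1/64)`, `β₀ = 1 - η ≥ 63/64`.
Case A: `0 ≤ lf χ β₀` for all real `χ ≠ 1` (all moduli).  `low1` with `β = β₀`: `lf χ 1 ≥ (η/2) (128 q/η)^(-4η) ≥ c q^(-ε)`.
Case B: some real `ψ ≠ 1` mod `r` has `lf ψ β₀ < 0`; let `β ∈ (β₀, 1)` be a zero (`exists_zero`).  Let `χ ≠ 1` be real mod `q`.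
 If `pr ψ χ = 1`: `lf χ β = 0` (`prod_one`, `zero_transfer`) and `low1` at `β`: `lf χ 1 ≥ ((1-β)/2) (128 q/(1-β))^(-4(1-β)) ≥ c q^(-ε)` (`1 - β ≤ η`; `c` depends on `β`).
 Otherwise `low3` with `f₁ = rc ψ`, `f₂ = rc χ`, `f₃ = rc (pr ψ χ)` (`= rc ψ · rc χ` by `prod_rc`), `Q = r q` (`ld_rc`, `LD.mono`), positivity from `conv_one_nonneg`, `conv_four_nonneg`, value at one by `conv_at_one`:
 `lf ψ 1 · lf χ 1 · lf (pr ψ χ) 1 ≥ ((1-β)/2) (2 (20000 (rq)³/(1-β))^64)^(-(1-β)) ≥ c q^(-192 η)`, and `|lf ψ 1|, |lf (pr ψ χ) 1| ≤ 4 + log (rq) ≤ C q^(ε/4)` (`upper_one`), `lf χ 1 > 0` (`lf_pos`).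
`siegel` follows as `‖LFunction χ 1‖ = lf χ 1`.  The minimum of finitely many constants.
-/

set_option autoImplicit false

namespace Pool.Agent.Helper68.LA

theorem siegel_A {β : ℝ} (h0 : 3 / 4 ≤ β) (h1 : β < 1) {ε : ℝ} (hε : 4 * (1 - β) ≤ ε) : ∃ c : ℝ, 0 < c ∧
    ∀ (q : ℕ) [NeZero q] (χ : DirichletCharacter ℂ q), χ ^ 2 = 1 → χ ≠ 1 → 0 ≤ lf χ β → c * (q : ℝ) ^ (-ε) ≤ lf χ 1 := by
  have hA : 0 < 1 - β := by linarith
  have hK : 0 < 128 / (1 - β) := by positivity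
  refine ⟨(1 - β) / 2 * (128 / (1 - β)) ^ (-(4 * (1 - β))), by positivity, ?_⟩
  intro q _ χ h2 hχ hL
  have hq : (1 : ℝ) ≤ q := by exact_mod_cast Nat.one_le_iff_ne_zero.2 (NeZero.ne q)
  have hq0 : (0 : ℝ) < q := by linarith
  have h := low1 (ld_rc h2 hχ) (rc_one χ) (conv_one_nonneg (rc_one χ) (rc_mul h2) (rc_val h2)) h0 h1 hL
  refine le_trans ?_ h
  have e1 : (128 * (q : ℝ) / (1 - β)) ^ (-(4 * (1 - β))) =
      (128 / (1 - β)) ^ (-(4 * (1 - β))) * (q : ℝ) ^ (-(4 * (1 - β))) := by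
    rw [← Real.mul_rpow hK.le hq0.le]
    congr 1
    ring
  rw [e1, mul_assoc]
  refine mul_le_mul_of_nonneg_left ?_ (by positivity)
  refine mul_le_mul_of_nonneg_left ?_ (by positivity)
  exact Real.rpow_le_rpow_of_exponent_le hq (by linarith)

theorem siegel_B {r : ℕ} [NeZero r] {ψ : DirichletCharacter ℂ r} (hψ2 : ψ ^ 2 = 1) (hψ : ψ ≠ 1) {β : ℝ} (h0 : 63 / 64 ≤ β) (h1 : β < 1)
    (hz : lf ψ β = 0) {ε : ℝ} (hε : 1000 * (1 - β) ≤ ε) : ∃ c : ℝ, 0 < c ∧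
    ∀ (q : ℕ) [NeZero q] (χ : DirichletCharacter ℂ q), χ ^ 2 = 1 → χ ≠ 1 → pr ψ χ ≠ 1 → c * (q : ℝ) ^ (-ε) ≤ lf χ 1 := by
  have hA : 0 < 1 - β := by linarith
  have hε0 : 0 < ε := by nlinarith
  have hr : (1 : ℝ) ≤ r := by exact_mod_cast Nat.one_le_iff_ne_zero.2 (NeZero.ne r)
  have hr0 : (0 : ℝ) < r := by linarith
  have hlr : 0 ≤ Real.log r := Real.log_nonneg hr
  obtain ⟨A, hAd⟩ : ∃ A : ℝ, A = 1 - β := ⟨_, rfl⟩
  rw [← hAd] at hA hε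
  obtain ⟨C, hC⟩ : ∃ C : ℝ, C = 4 + Real.log r + 4 / ε := ⟨_, rfl⟩
  have hC0 : 0 < C := by rw [hC]; positivity
  obtain ⟨K, hK⟩ : ∃ K : ℝ, K = 2 * (20000 / A) ^ 64 := ⟨_, rfl⟩
  have hK0 : 0 < K := by rw [hK]; positivity
  refine ⟨A / 2 * (K ^ (-A) * (r : ℝ) ^ (-(192 * A))) / C ^ 2, by positivity, ?_⟩
  intro q _ χ h2 hχ hpr
  have hq : (1 : ℝ) ≤ q := by exact_mod_cast Nat.one_le_iff_ne_zero.2 (NeZero.ne q)
  have hq0 : (0 : ℝ) < q := by linarith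
  have hprod : (fun k => rc ψ k * rc χ k) = rc (pr ψ χ) := funext fun k => (prod_rc hψ2 h2 k).symm
  have hQ : ((r * q : ℕ) : ℝ) = (r : ℝ) * q := by push_cast; rfl
  have d1 : LD (rc ψ) ((r * q : ℕ) : ℝ) (lf ψ) := (ld_rc hψ2 hψ).mono (by rw [hQ]; nlinarith)
  have d2 : LD (rc χ) ((r * q : ℕ) : ℝ) (lf χ) := (ld_rc h2 hχ).mono (by rw [hQ]; nlinarith)
  have d3 : LD (rc (pr ψ χ)) ((r * q : ℕ) : ℝ) (lf (pr ψ χ)) := ld_rc (prod_sq hψ2 h2) hpr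
  have ha : ∀ n, 0 ≤ conv (conv (rc ψ) one) (conv (rc χ) (rc (pr ψ χ))) n := by
    intro n
    rw [← hprod]
    exact conv_four_nonneg (rc_one ψ) (rc_mul hψ2) (rc_val hψ2) (rc_one χ) (rc_mul h2) (rc_val h2) n
  have ha1 : conv (conv (rc ψ) one) (conv (rc χ) (rc (pr ψ χ))) 1 = 1 := by
    rw [conv_at_one, conv_at_one, conv_at_one, rc_one, rc_one, rc_one]
    simp [one]
  have h := low3 d1 d2 d3 h0 h1 hz (conv_one_nonneg (rc_one ψ) (rc_mul hψ2) (rc_val hψ2)) ha ha1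
  rw [← hAd] at h
  have p1 := lf_pos hψ2 hψ
  have p2 := lf_pos h2 hχ
  have p3 := lf_pos (prod_sq hψ2 h2) hpr
  have u1 := upper_one d1
  have u3 := upper_one d3
  rw [abs_of_pos p1] at u1
  rw [abs_of_pos p3] at u3
  -- the upper bound
  have hqe : (1 : ℝ) ≤ (q : ℝ) ^ (ε / 4) := Real.one_le_rpow hq (by positivity)
  have hlog : 4 + Real.log ((r * q : ℕ) : ℝ) ≤ C * (q : ℝ) ^ (ε / 4) := by
    rw [hQ, Real.log_mul hr0.ne' hq0.ne', hC]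
    have e1 := Real.log_le_rpow_div hq0.le (show 0 < ε / 4 by positivity)
    have e2 : (q : ℝ) ^ (ε / 4) / (ε / 4) = 4 / ε * (q : ℝ) ^ (ε / 4) := by
      field_simp
    rw [e2] at e1
    have e3 : 4 + Real.log r ≤ (4 + Real.log r) * (q : ℝ) ^ (ε / 4) :=
      le_mul_of_one_le_right (by positivity) hqe
    calc 4 + (Real.log r + Real.log q) = (4 + Real.log r) + Real.log q := by ring
      _ ≤ (4 + Real.log r) * (q : ℝ) ^ (ε / 4) + 4 / ε * (q : ℝ) ^ (ε / 4) := add_le_add e3 e1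
      _ = (4 + Real.log r + 4 / ε) * (q : ℝ) ^ (ε / 4) := by ring
  have hup : lf ψ 1 * lf χ 1 * lf (pr ψ χ) 1 ≤ lf χ 1 * (C ^ 2 * (q : ℝ) ^ (ε / 2)) := by
    have e1 : lf ψ 1 * lf (pr ψ χ) 1 ≤ (C * (q : ℝ) ^ (ε / 4)) * (C * (q : ℝ) ^ (ε / 4)) :=
      mul_le_mul (u1.trans hlog) (u3.trans hlog) p3.le (by positivity)
    have e2 : (C * (q : ℝ) ^ (ε / 4)) * (C * (q : ℝ) ^ (ε / 4)) = C ^ 2 * (q : ℝ) ^ (ε / 2) := by
      have : (q : ℝ) ^ (ε / 2) = (q : ℝ) ^ (ε / 4) * (q : ℝ) ^ (ε / 4) := by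
        rw [← Real.rpow_add hq0]
        congr 1
        ring
      rw [this]
      ring
    rw [e2] at e1
    calc lf ψ 1 * lf χ 1 * lf (pr ψ χ) 1 = lf χ 1 * (lf ψ 1 * lf (pr ψ χ) 1) := by ring
      _ ≤ _ := mul_le_mul_of_nonneg_left e1 p2.le
  -- the lower bound
  have hlow : (2 * (20000 * ((r * q : ℕ) : ℝ) ^ 3 / A) ^ 64) ^ (-A) =
      K ^ (-A) * (r : ℝ) ^ (-(192 * A)) * (q : ℝ) ^ (-(192 * A)) := by
    have e1 : 2 * (20000 * ((r * q : ℕ) : ℝ) ^ 3 / A) ^ 64 = K * ((r : ℝ) ^ 192 * (q : ℝ) ^ 192) := by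
      rw [hK, hQ]
      ring
    have e2 : ∀ x : ℝ, 0 < x → (x ^ 192) ^ (-A) = x ^ (-(192 * A)) := by
      intro x hx
      rw [← Real.rpow_natCast x 192, ← Real.rpow_mul hx.le]
      congr 1
      push_cast
      ring
    rw [e1, Real.mul_rpow hK0.le (by positivity), Real.mul_rpow (by positivity) (by positivity),
      e2 _ hr0, e2 _ hq0]
    ring
  rw [hlow] at h
  have h3 := h.trans hup
  have hq2 : (0 : ℝ) < (q : ℝ) ^ (ε / 2) := by positivity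
  have hfin : A / 2 * (K ^ (-A) * (r : ℝ) ^ (-(192 * A))) / C ^ 2 *
      ((q : ℝ) ^ (-(192 * A)) * (q : ℝ) ^ (-(ε / 2))) ≤ lf χ 1 := by
    have e1 : A / 2 * (K ^ (-A) * (r : ℝ) ^ (-(192 * A))) / C ^ 2 *
        ((q : ℝ) ^ (-(192 * A)) * (q : ℝ) ^ (-(ε / 2))) =
        A / 2 * (K ^ (-A) * (r : ℝ) ^ (-(192 * A)) * (q : ℝ) ^ (-(192 * A))) /
          (C ^ 2 * (q : ℝ) ^ (ε / 2)) := by
      rw [Real.rpow_neg hq0.le (ε / 2)]
      field_simp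
    rw [e1, div_le_iff₀ (by positivity)]
    exact h3
  refine le_trans ?_ hfin
  refine mul_le_mul_of_nonneg_left ?_ (by positivity)
  rw [← Real.rpow_add hq0]
  exact Real.rpow_le_rpow_of_exponent_le hq (by linarith)

theorem siegel {ε : ℝ} (hε : 0 < ε) : ∃ c : ℝ, 0 < c ∧ ∀ (q : ℕ) [NeZero q] (χ : DirichletCharacter ℂ q),
    χ ^ 2 = 1 → χ ≠ 1 → c * (q : ℝ) ^ (-ε) ≤ ‖DirichletCharacter.LFunction χ 1‖ := by
  have hnorm : ∀ (q : ℕ) [NeZero q] (χ : DirichletCharacter ℂ q),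
      lf χ 1 ≤ ‖DirichletCharacter.LFunction χ 1‖ := by
    intro q _ χ
    have : lf χ 1 = (DirichletCharacter.LFunction χ 1).re := by
      unfold lf
      norm_num
    rw [this]
    exact Complex.re_le_norm _
  obtain ⟨η, hη⟩ : ∃ η : ℝ, η = min (ε / 1000) (1 / 64) := ⟨_, rfl⟩
  have hη0 : 0 < η := by rw [hη]; exact lt_min (by positivity) (by norm_num)
  have hη1 : η ≤ ε / 1000 := by rw [hη]; exact min_le_left _ _
  have hη2 : η ≤ 1 / 64 := by rw [hη]; exact min_le_right _ _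
  by_cases hcase : ∀ (q : ℕ) [NeZero q] (χ : DirichletCharacter ℂ q), χ ^ 2 = 1 → χ ≠ 1 →
      0 ≤ lf χ (1 - η)
  · obtain ⟨c, hc, h⟩ := siegel_A (β := 1 - η) (by linarith) (by linarith) (ε := ε) (by linarith)
    exact ⟨c, hc, fun q _ χ h2 hχ => (h q χ h2 hχ (hcase q χ h2 hχ)).trans (hnorm q χ)⟩
  · push Not at hcase
    obtain ⟨r, hr, ψ, hψ2, hψ, hneg⟩ := hcase
    obtain ⟨β, hβ1, hβ2, hz⟩ := exists_zero hψ2 hψ (by linarith) hneg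
    obtain ⟨c₁, hc₁, h₁⟩ := siegel_A (β := β) (by linarith) hβ2 (ε := ε) (by linarith)
    obtain ⟨c₂, hc₂, h₂⟩ := siegel_B hψ2 hψ (β := β) (by linarith) hβ2 hz (ε := ε) (by linarith)
    refine ⟨min c₁ c₂, lt_min hc₁ hc₂, ?_⟩
    intro q _ χ h2 hχ
    refine le_trans ?_ (hnorm q χ)
    have hq0 : 0 ≤ (q : ℝ) ^ (-ε) := by positivity
    by_cases hpr : pr ψ χ = 1
    · have hz' : lf χ β = 0 :=
        zero_transfer hψ2 hψ h2 hχ (prod_one h2 hpr) (by linarith) hz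
      exact (mul_le_mul_of_nonneg_right (min_le_left _ _) hq0).trans (h₁ q χ h2 hχ hz'.ge)
    · exact (mul_le_mul_of_nonneg_right (min_le_right _ _) hq0).trans (h₂ q χ h2 hχ hpr)

end Pool.Agent.Helper68.LA
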