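import Pool.Agent.Helper68.LA.Lim

/-!
# Block LA-Cmp: the truncated sum at `1` and the L-series at `1 + x`

`shift`: `‖n^(-1+iλ) - n^(-1-x+iλ)‖ = n^(-1) (1 - n^(-x)) ≤ x log n / n ≤ x log N / n`, and `∑_{n ≤ N} 1/n ≤ 1 + log N`.
`cmp`: `shift` and `lseries_tail` with `a = ⌊z⌋₊ ≥ z/2`, `s = 1 + x - iλ` (`‖s‖ ≤ 2 + |λ|`, `a^(-σ) ≤ 1/a ≤ 2/z`).
-/

set_option autoImplicit false

namespace Pool.Agent.Helper68.LA

private lemma harm24 {m N : ℕ} (hm : m ≤ N) : ∑ n ∈ Finset.Icc 1 m, (n : ℝ)⁻¹ ≤ 1 + Real.log N := by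
  have h1 : ∑ n ∈ Finset.Icc 1 m, (n : ℝ)⁻¹ ≤ ∑ n ∈ Finset.Icc 1 N, (n : ℝ)⁻¹ := by
    refine Finset.sum_le_sum_of_subset_of_nonneg (Finset.Icc_subset_Icc_right hm) fun n _ _ => ?_
    positivity
  have h2 := harmonic_le_one_add_log N
  rw [harmonic_eq_sum_Icc] at h2
  push_cast at h2
  exact h1.trans h2

private lemma term24 {x lam : ℝ} (hx : 0 ≤ x) {n : ℕ} (hn : 1 ≤ n) :
    ‖(n : ℂ) ^ (-1 + lam * Complex.I : ℂ) - (n : ℂ) ^ (-(1 + x - lam * Complex.I) : ℂ)‖ ≤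
      x * Real.log n * (n : ℝ)⁻¹ := by
  have hn0 : (n : ℂ) ≠ 0 := by
    exact_mod_cast (by omega : n ≠ 0)
  have hnr : (0 : ℝ) < n := by exact_mod_cast hn
  have h1 : (n : ℂ) ^ (-(1 + x - lam * Complex.I) : ℂ) =
      (n : ℂ) ^ (-1 + lam * Complex.I : ℂ) * (((n : ℝ) ^ (-x) : ℝ) : ℂ) := by
    rw [Complex.ofReal_cpow hnr.le, Complex.ofReal_natCast, ← Complex.cpow_add _ _ hn0]
    congr 1
    push_cast
    ring
  have h2 : ‖(n : ℂ) ^ (-1 + lam * Complex.I : ℂ)‖ = (n : ℝ)⁻¹ := by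
    rw [Complex.norm_natCast_cpow_of_pos (by omega)]
    simp [Real.rpow_neg_one]
  have h3 : (n : ℝ) ^ (-x) ≤ 1 := Real.rpow_le_one_of_one_le_of_nonpos (by exact_mod_cast hn) (by linarith)
  have h4 : 1 - x * Real.log n ≤ (n : ℝ) ^ (-x) := by
    rw [Real.rpow_def_of_pos hnr]
    have := Real.add_one_le_exp (Real.log n * -x)
    linarith
  rw [h1]
  have h5 : (n : ℂ) ^ (-1 + lam * Complex.I : ℂ) - (n : ℂ) ^ (-1 + lam * Complex.I : ℂ) * (((n : ℝ) ^ (-x) : ℝ) : ℂ) =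
      (((1 - (n : ℝ) ^ (-x) : ℝ)) : ℂ) * (n : ℂ) ^ (-1 + lam * Complex.I : ℂ) := by
    push_cast
    ring
  rw [h5, norm_mul, h2, Complex.norm_real, Real.norm_eq_abs, abs_of_nonneg (by linarith)]
  refine mul_le_mul_of_nonneg_right (by linarith) (by positivity)

theorem shift {c : ℕ → ℂ} (hc : ∀ n, ‖c n‖ ≤ 1) {x lam : ℝ} (hx : 0 ≤ x) {m N : ℕ} (hm : m ≤ N) (hN : 1 ≤ N) :
    ‖(∑ n ∈ Finset.Icc 1 m, c n * (n : ℂ) ^ (-1 + lam * Complex.I : ℂ)) -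
        ∑ n ∈ Finset.Icc 1 m, c n * (n : ℂ) ^ (-(1 + x - lam * Complex.I) : ℂ)‖ ≤ x * (1 + Real.log N) ^ 2 := by
  have hNr : (1 : ℝ) ≤ N := by exact_mod_cast hN
  have hlog : 0 ≤ Real.log N := Real.log_nonneg hNr
  rw [← Finset.sum_sub_distrib]
  have h1 : ∀ n ∈ Finset.Icc 1 m, ‖c n * (n : ℂ) ^ (-1 + lam * Complex.I : ℂ) -
      c n * (n : ℂ) ^ (-(1 + x - lam * Complex.I) : ℂ)‖ ≤ x * Real.log N * (n : ℝ)⁻¹ := by
    intro n hn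
    rw [Finset.mem_Icc] at hn
    have hnr : (0 : ℝ) < n := by exact_mod_cast hn.1
    rw [← mul_sub, norm_mul]
    have h2 := term24 (lam := lam) hx hn.1
    have h3 : Real.log n ≤ Real.log N := Real.log_le_log hnr (by exact_mod_cast hn.2.trans hm)
    calc ‖c n‖ * ‖(n : ℂ) ^ (-1 + lam * Complex.I : ℂ) - (n : ℂ) ^ (-(1 + x - lam * Complex.I) : ℂ)‖
        ≤ 1 * (x * Real.log n * (n : ℝ)⁻¹) := mul_le_mul (hc n) h2 (norm_nonneg _) zero_le_one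
      _ ≤ x * Real.log N * (n : ℝ)⁻¹ := by
        rw [one_mul]
        gcongr
  refine (norm_sum_le_of_le _ h1).trans ?_
  rw [← Finset.mul_sum]
  have h2 := harm24 hm
  calc x * Real.log N * ∑ n ∈ Finset.Icc 1 m, (n : ℝ)⁻¹ ≤ x * Real.log N * (1 + Real.log N) :=
        mul_le_mul_of_nonneg_left h2 (by positivity)
    _ ≤ x * (1 + Real.log N) ^ 2 := by
      have : 0 ≤ x * (1 + Real.log N) := by positivity
      nlinarith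

theorem cmp {c : ℕ → ℂ} (hc : ∀ n, ‖c n‖ ≤ 1) {x lam z P : ℝ} (hx : 0 < x) (hx1 : x ≤ 1) {N : ℕ} (hz : 1 ≤ z) (hzN : z ≤ N)
    (hP : ∀ b, ‖∑ n ∈ Finset.Ioc ⌊z⌋₊ b, c n‖ ≤ P) :
    ‖(∑ n ∈ Finset.Icc 1 ⌊z⌋₊, c n * (n : ℂ) ^ (-1 + lam * Complex.I : ℂ)) - LSeries c (1 + x - lam * Complex.I)‖ ≤
      x * (1 + Real.log N) ^ 2 + 2 * P * (3 + |lam|) / z := by
  have hmN : ⌊z⌋₊ ≤ N := Nat.floor_le_of_le hzN
  have hm1 : 1 ≤ ⌊z⌋₊ := Nat.le_floor (by exact_mod_cast hz)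
  have hN : 1 ≤ N := hm1.trans hmN
  have h1 := shift (lam := lam) hc hx.le hmN hN
  have hre : (1 + x - lam * Complex.I : ℂ).re = 1 + x := by simp
  have h2 := lseries_tail hc (s := (1 + x - lam * Complex.I : ℂ)) (by rw [hre]; linarith) hm1 hP
  rw [hre] at h2
  have hP0 : 0 ≤ P := (norm_nonneg _).trans (hP 0)
  have h3 : ‖(1 + x - lam * Complex.I : ℂ)‖ ≤ 2 + |lam| := by
    have h4 : ‖(1 + x : ℂ)‖ = 1 + x := by
      have : (1 + x : ℂ) = ((1 + x : ℝ) : ℂ) := by push_cast; rfl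
      rw [this, Complex.norm_real, Real.norm_eq_abs, abs_of_nonneg (by linarith)]
    refine (norm_sub_le _ _).trans ?_
    rw [h4, norm_mul, Complex.norm_I, mul_one, Complex.norm_real, Real.norm_eq_abs]
    linarith
  have h4 : ‖(1 + x - lam * Complex.I : ℂ)‖ / (1 + x) ≤ 2 + |lam| := by
    refine le_trans (div_le_self (norm_nonneg _) (by linarith)) h3
  have hz2 : z / 2 ≤ (⌊z⌋₊ : ℝ) := by
    have h5 := Nat.lt_floor_add_one z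
    have h6 : (1 : ℝ) ≤ (⌊z⌋₊ : ℝ) := by exact_mod_cast hm1
    linarith
  have h5 : (⌊z⌋₊ : ℝ) ^ (-(1 + x)) ≤ 2 / z := by
    have h6 : (1 : ℝ) ≤ (⌊z⌋₊ : ℝ) := by exact_mod_cast hm1
    calc (⌊z⌋₊ : ℝ) ^ (-(1 + x)) ≤ (⌊z⌋₊ : ℝ) ^ (-1 : ℝ) := Real.rpow_le_rpow_of_exponent_le h6 (by linarith)
      _ = 1 / (⌊z⌋₊ : ℝ) := by rw [Real.rpow_neg_one, one_div]
      _ ≤ 1 / (z / 2) := one_div_le_one_div_of_le (by positivity) hz2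
      _ = 2 / z := by
        field_simp
  have h6 : P * (1 + ‖(1 + x - lam * Complex.I : ℂ)‖ / (1 + x)) * (⌊z⌋₊ : ℝ) ^ (-(1 + x)) ≤ P * (3 + |lam|) * (2 / z) := by
    have h7 : 0 ≤ (⌊z⌋₊ : ℝ) ^ (-(1 + x)) := by positivity
    have h8 : P * (1 + ‖(1 + x - lam * Complex.I : ℂ)‖ / (1 + x)) ≤ P * (3 + |lam|) :=
      mul_le_mul_of_nonneg_left (by linarith) hP0
    have h9 : 0 ≤ P * (3 + |lam|) := by positivity
    exact mul_le_mul h8 h5 h7 h9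
  have h7 : P * (3 + |lam|) * (2 / z) = 2 * P * (3 + |lam|) / z := by ring
  rw [h7] at h6
  rw [norm_sub_rev] at h2
  have h8 := norm_add_le ((∑ n ∈ Finset.Icc 1 ⌊z⌋₊, c n * (n : ℂ) ^ (-1 + lam * Complex.I : ℂ)) -
      ∑ n ∈ Finset.Icc 1 ⌊z⌋₊, c n * (n : ℂ) ^ (-(1 + x - lam * Complex.I) : ℂ))
    ((∑ n ∈ Finset.Icc 1 ⌊z⌋₊, c n * (n : ℂ) ^ (-(1 + x - lam * Complex.I) : ℂ)) -
      LSeries c (1 + x - lam * Complex.I))
  rw [sub_add_sub_cancel] at h8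
  linarith

end Pool.Agent.Helper68.LA
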