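import Pool.Agent.Helper68.LA.Pv
import Pool.Agent.Helper68.LA.Cmp
import Pool.Agent.Helper68.LA.Sg

/-!
# Block LA-An1r: lower bound for truncated sums, `χ^2 = 1`, `|λ| ≤ N^(-κ/2)`

`0 < κ ≤ 1`.  `‖n^(-1+iλ) - n^(-1)‖ ≤ |λ| log n / n`, so the truncated sum differs from `∑_{n ≤ z} χ n n^(-1)` by at most `|λ| (1 + log N)^2 ≤ N^(-κ/2) (1 + log N)^2`.
`br_tail` with `β = 1`, `a = ⌊z⌋₊ ≥ z/2`, `P = C q^(1/2+δ)` (`pv`, `δ = κ/100`): `‖∑_{n ≤ z} χ n n^(-1) - LFunction χ 1‖ ≤ 2 P / a ≤ 4 C q^(1/2+δ)/(√q N^κ) ≤ 4 C N^(δ-κ)`.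
`siegel` with `ε = κ/8`: `‖LFunction χ 1‖ ≥ c q^(-κ/8) ≥ c N^(-κ/8)`.  For large `N` the difference is at least `N^(-κ/4) ≥ N^(-κ)`.
-/

set_option autoImplicit false

namespace Pool.Agent.Helper68.LA

open Filter

private theorem cpow_diff31 {n : ℕ} (hn : 1 ≤ n) (lam : ℝ) :
    ‖(n : ℂ) ^ (-1 + lam * Complex.I : ℂ) - (n : ℂ) ^ (-((1 : ℝ) : ℂ))‖ ≤
      |lam| * Real.log n * (n : ℝ)⁻¹ := by
  have hn0 : (n : ℂ) ≠ 0 := by exact_mod_cast (by omega : n ≠ 0)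
  have hnr : (0 : ℝ) < n := by exact_mod_cast hn
  have h1 : (n : ℂ) ^ (-1 + lam * Complex.I : ℂ) - (n : ℂ) ^ (-((1 : ℝ) : ℂ)) =
      (n : ℂ) ^ (-1 : ℂ) * ((n : ℂ) ^ (lam * Complex.I : ℂ) - 1) := by
    rw [Complex.cpow_add _ _ hn0, Complex.ofReal_one]
    ring
  have h2 : (n : ℂ) ^ (lam * Complex.I : ℂ) = Complex.exp (((lam * Real.log n : ℝ) : ℂ) * Complex.I) := by
    rw [Complex.cpow_def_of_ne_zero hn0, ← Complex.ofReal_natCast, ← Complex.ofReal_log hnr.le]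
    congr 1
    push_cast
    ring
  have hlog : 0 ≤ Real.log n := Real.log_nonneg (by exact_mod_cast hn)
  have h3 : ‖(n : ℂ) ^ (lam * Complex.I : ℂ) - 1‖ ≤ |lam| * Real.log n := by
    rw [h2, mul_comm _ Complex.I]
    refine (Real.norm_exp_I_mul_ofReal_sub_one_le).trans ?_
    rw [Real.norm_eq_abs, abs_mul, abs_of_nonneg hlog]
  have h4 : ‖(n : ℂ) ^ (-1 : ℂ)‖ = (n : ℝ)⁻¹ := by
    rw [Complex.cpow_neg_one, norm_inv, Complex.norm_natCast]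
  rw [h1, norm_mul, h4, mul_comm]
  exact mul_le_mul_of_nonneg_right h3 (by positivity)

private theorem trunc_diff31 {c : ℕ → ℂ} (hc : ∀ n, ‖c n‖ ≤ 1) {lam : ℝ} {a N : ℕ} (ha : a ≤ N)
    (hN : 1 ≤ N) :
    ‖(∑ n ∈ Finset.Icc 1 a, c n * (n : ℂ) ^ (-1 + lam * Complex.I : ℂ)) -
        ∑ n ∈ Finset.Icc 1 a, c n * (n : ℂ) ^ (-((1 : ℝ) : ℂ))‖ ≤ |lam| * (1 + Real.log N) ^ 2 := by
  rw [← Finset.sum_sub_distrib]
  refine (norm_sum_le _ _).trans ?_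
  have hlogN : 0 ≤ Real.log N := Real.log_nonneg (by exact_mod_cast hN)
  have h1 : ∀ n ∈ Finset.Icc 1 a, ‖c n * (n : ℂ) ^ (-1 + lam * Complex.I : ℂ) -
      c n * (n : ℂ) ^ (-((1 : ℝ) : ℂ))‖ ≤ |lam| * Real.log N * (n : ℝ)⁻¹ := by
    intro n hn
    obtain ⟨hn1, hn2⟩ := Finset.mem_Icc.mp hn
    rw [← mul_sub, norm_mul]
    have h2 := cpow_diff31 hn1 lam
    have hnr : (0 : ℝ) < n := by exact_mod_cast hn1
    have h3 : Real.log n ≤ Real.log N :=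
      Real.log_le_log hnr (by exact_mod_cast hn2.trans ha)
    calc ‖c n‖ * ‖(n : ℂ) ^ (-1 + lam * Complex.I : ℂ) - (n : ℂ) ^ (-((1 : ℝ) : ℂ))‖
        ≤ 1 * (|lam| * Real.log n * (n : ℝ)⁻¹) := by
          refine mul_le_mul (hc n) h2 (norm_nonneg _) zero_le_one
      _ ≤ |lam| * Real.log N * (n : ℝ)⁻¹ := by
          rw [one_mul]
          gcongr
  refine (Finset.sum_le_sum h1).trans ?_
  rw [← Finset.mul_sum]
  have h4 : ∑ n ∈ Finset.Icc 1 a, (n : ℝ)⁻¹ ≤ 1 + Real.log N := by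
    have h5 : ∑ n ∈ Finset.Icc 1 a, (n : ℝ)⁻¹ ≤ ∑ n ∈ Finset.Icc 1 N, (n : ℝ)⁻¹ :=
      Finset.sum_le_sum_of_subset_of_nonneg (Finset.Icc_subset_Icc le_rfl ha)
        (fun _ _ _ => by positivity)
    have h6 := harmonic_le_one_add_log N
    rw [harmonic_eq_sum_Icc] at h6
    push_cast at h6
    linarith
  calc |lam| * Real.log N * ∑ n ∈ Finset.Icc 1 a, (n : ℝ)⁻¹
      ≤ |lam| * (1 + Real.log N) * (1 + Real.log N) := by
        have h7 : |lam| * Real.log N ≤ |lam| * (1 + Real.log N) :=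
          mul_le_mul_of_nonneg_left (by linarith) (abs_nonneg _)
        exact mul_le_mul h7 h4 (Finset.sum_nonneg fun _ _ => by positivity) (by positivity)
    _ = |lam| * (1 + Real.log N) ^ 2 := by ring

theorem an1_real {κ : ℝ} (hκ : 0 < κ) (hκ1 : κ ≤ 1) : ∀ᶠ N : ℕ in atTop, ∀ (q : ℕ) [NeZero q]
    (χ : DirichletCharacter ℂ q) (lam z : ℝ), q ≤ N → χ ≠ 1 → χ ^ 2 = 1 → |lam| ≤ (N : ℝ) ^ (-(κ / 2)) →
      √(q : ℝ) * (1 + |lam|) * (N : ℝ) ^ κ ≤ z → z ≤ N →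
      (N : ℝ) ^ (-κ) ≤ ‖∑ n ∈ Finset.Icc 1 ⌊z⌋₊,
        χ (n : ZMod q) * (n : ℂ) ^ (-1 + lam * Complex.I : ℂ)‖ := by
  obtain ⟨C, hC, hpv⟩ := pv (δ := κ / 100) (by positivity)
  obtain ⟨c, hc, hsg⟩ := siegel (ε := κ / 8) (by positivity)
  set C1 : ℝ := (1 + 16 / κ) ^ 2 with hC1
  have hC1' : 0 < C1 := by positivity
  have hlim : ∀ᶠ N : ℕ in atTop, (1 + 4 * C + C1) * (N : ℝ) ^ (-(κ / 4)) ≤ c := by
    have h1 : Tendsto (fun N : ℕ => (1 + 4 * C + C1) * (N : ℝ) ^ (-(κ / 4))) atTop (nhds 0) := by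
      have h2 := (tendsto_rpow_neg_atTop (show 0 < κ / 4 by positivity)).comp
        (tendsto_natCast_atTop_atTop (R := ℝ))
      have h3 := h2.const_mul (1 + 4 * C + C1)
      simpa using h3
    exact (h1.eventually (gt_mem_nhds hc)).mono fun N hN => le_of_lt hN
  filter_upwards [hlim, eventually_ge_atTop 1] with N hN hN1
  intro q _ χ lam z hqN hχ hχ2 hlam hz hzN
  have hNr : (1 : ℝ) ≤ N := by exact_mod_cast hN1
  have hN0 : (0 : ℝ) < N := by linarith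
  have hq1 : (1 : ℝ) ≤ q := by
    exact_mod_cast Nat.one_le_iff_ne_zero.mpr (NeZero.ne q)
  have hq0 : (0 : ℝ) < q := by linarith
  have hqN' : (q : ℝ) ≤ N := by exact_mod_cast hqN
  have hNκ : 1 ≤ (N : ℝ) ^ κ := Real.one_le_rpow hNr hκ.le
  have hsq : 1 ≤ √(q : ℝ) := by
    rw [Real.one_le_sqrt]; exact hq1
  have hz' : √(q : ℝ) * (N : ℝ) ^ κ ≤ z := by
    refine le_trans ?_ hz
    have : √(q : ℝ) ≤ √(q : ℝ) * (1 + |lam|) := by
      have := abs_nonneg lam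
      nlinarith
    gcongr
  have hz1 : 1 ≤ z := by
    refine le_trans ?_ hz'
    nlinarith
  set a := ⌊z⌋₊ with ha
  have ha1 : 1 ≤ a := by
    rw [ha, Nat.one_le_floor_iff]
    exact hz1
  have haN : a ≤ N := by
    rw [ha]
    exact Nat.floor_le_of_le hzN
  have haz : z / 2 ≤ a := by
    have h1 : z < a + 1 := Nat.lt_floor_add_one z
    have h2 : (1 : ℝ) ≤ a := by exact_mod_cast ha1
    linarith
  -- the three estimates
  have e1 := trunc_diff31 (c := fun n => χ (n : ZMod q)) (fun n => χ.norm_le_one _) (lam := lam) haN hN1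
  have e2 := br_tail hχ (β := 1) one_pos ha1 (fun b => hpv q χ hχ a b)
  have e3 := hsg q χ hχ2 hχ
  -- sizes
  have s1 : |lam| * (1 + Real.log N) ^ 2 ≤ C1 * (N : ℝ) ^ (-(3 * κ / 8)) := by
    have h1 : Real.log N ≤ (N : ℝ) ^ (κ / 16) / (κ / 16) := Real.log_le_rpow_div hN0.le (by positivity)
    have h2 : 1 ≤ (N : ℝ) ^ (κ / 16) := Real.one_le_rpow hNr (by positivity)
    have h3 : 1 + Real.log N ≤ (1 + 16 / κ) * (N : ℝ) ^ (κ / 16) := by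
      have h4 : (N : ℝ) ^ (κ / 16) / (κ / 16) = 16 / κ * (N : ℝ) ^ (κ / 16) := by
        field_simp
      rw [h4] at h1
      linarith
    have h5 : 0 ≤ 1 + Real.log N := by
      have := Real.log_nonneg hNr
      linarith
    have h6 : (1 + Real.log N) ^ 2 ≤ C1 * (N : ℝ) ^ (κ / 8) := by
      calc (1 + Real.log N) ^ 2 ≤ ((1 + 16 / κ) * (N : ℝ) ^ (κ / 16)) ^ 2 := by gcongr
        _ = C1 * ((N : ℝ) ^ (κ / 16) * (N : ℝ) ^ (κ / 16)) := by rw [hC1]; ring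
        _ = C1 * (N : ℝ) ^ (κ / 8) := by
          rw [← Real.rpow_add hN0]
          congr 2
          ring
    calc |lam| * (1 + Real.log N) ^ 2 ≤ (N : ℝ) ^ (-(κ / 2)) * (C1 * (N : ℝ) ^ (κ / 8)) := by
          gcongr
      _ = C1 * ((N : ℝ) ^ (-(κ / 2)) * (N : ℝ) ^ (κ / 8)) := by ring
      _ = C1 * (N : ℝ) ^ (-(3 * κ / 8)) := by
        rw [← Real.rpow_add hN0]
        congr 2
        ring
  have s2 : 2 * (C * (q : ℝ) ^ (1 / 2 + κ / 100)) * (a : ℝ) ^ (-(1 : ℝ)) ≤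
      4 * C * (N : ℝ) ^ (-(3 * κ / 8)) := by
    have h1 : (a : ℝ) ^ (-(1 : ℝ)) ≤ 2 / (√(q : ℝ) * (N : ℝ) ^ κ) := by
      rw [Real.rpow_neg_one, ← one_div]
      have h2 : √(q : ℝ) * (N : ℝ) ^ κ / 2 ≤ a := by linarith
      rw [div_le_div_iff₀ (by linarith) (by positivity)]
      linarith
    have h3 : (q : ℝ) ^ (1 / 2 + κ / 100) = √(q : ℝ) * (q : ℝ) ^ (κ / 100) := by
      rw [Real.rpow_add hq0, Real.sqrt_eq_rpow]
    have h4 : (q : ℝ) ^ (κ / 100) ≤ (N : ℝ) ^ (κ / 100) := by gcongr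
    have hsq0 : 0 < √(q : ℝ) := by linarith
    calc 2 * (C * (q : ℝ) ^ (1 / 2 + κ / 100)) * (a : ℝ) ^ (-(1 : ℝ))
        ≤ 2 * (C * (√(q : ℝ) * (N : ℝ) ^ (κ / 100))) * (2 / (√(q : ℝ) * (N : ℝ) ^ κ)) := by
          rw [h3]
          gcongr
      _ = 4 * C * ((N : ℝ) ^ (κ / 100) * ((N : ℝ) ^ κ)⁻¹) := by
          field_simp
          ring
      _ = 4 * C * (N : ℝ) ^ (κ / 100 + -κ) := by
          rw [← Real.rpow_neg hN0.le, ← Real.rpow_add hN0]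
      _ ≤ 4 * C * (N : ℝ) ^ (-(3 * κ / 8)) := by
          refine mul_le_mul_of_nonneg_left ?_ (by positivity)
          exact Real.rpow_le_rpow_of_exponent_le hNr (by linarith)
  have s3 : c * (N : ℝ) ^ (-(κ / 8)) ≤ ‖DirichletCharacter.LFunction χ 1‖ := by
    refine le_trans ?_ e3
    refine mul_le_mul_of_nonneg_left ?_ hc.le
    exact Real.rpow_le_rpow_of_nonpos hq0 hqN' (by linarith)
  have s4 : (N : ℝ) ^ (-κ) ≤ (N : ℝ) ^ (-(3 * κ / 8)) :=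
    Real.rpow_le_rpow_of_exponent_le hNr (by linarith)
  have s5 : (1 + 4 * C + C1) * (N : ℝ) ^ (-(3 * κ / 8)) ≤ c * (N : ℝ) ^ (-(κ / 8)) := by
    have h1 : (N : ℝ) ^ (-(3 * κ / 8)) = (N : ℝ) ^ (-(κ / 4)) * (N : ℝ) ^ (-(κ / 8)) := by
      rw [← Real.rpow_add hN0]
      congr 1
      ring
    rw [h1, ← mul_assoc]
    exact mul_le_mul_of_nonneg_right hN (by positivity)
  have e2' : ‖∑ n ∈ Finset.Icc 1 a, χ (n : ZMod q) * (n : ℂ) ^ (-((1 : ℝ) : ℂ)) -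
      DirichletCharacter.LFunction χ 1‖ ≤ 4 * C * (N : ℝ) ^ (-(3 * κ / 8)) := by
    have h1 := e2.trans s2
    simpa using h1
  -- the triangle inequality
  set S := ∑ n ∈ Finset.Icc 1 a, χ (n : ZMod q) * (n : ℂ) ^ (-1 + lam * Complex.I : ℂ) with hS
  set T := ∑ n ∈ Finset.Icc 1 a, χ (n : ZMod q) * (n : ℂ) ^ (-((1 : ℝ) : ℂ)) with hT
  have h1 : ‖DirichletCharacter.LFunction χ 1‖ ≤ ‖S‖ + ‖S - T‖ + ‖T - DirichletCharacter.LFunction χ 1‖ := by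
    have h2 : DirichletCharacter.LFunction χ 1 = S - (S - T) - (T - DirichletCharacter.LFunction χ 1) := by ring
    calc ‖DirichletCharacter.LFunction χ 1‖ = ‖S - (S - T) - (T - DirichletCharacter.LFunction χ 1)‖ := by
          rw [← h2]
      _ ≤ ‖S - (S - T)‖ + ‖T - DirichletCharacter.LFunction χ 1‖ := norm_sub_le _ _
      _ ≤ ‖S‖ + ‖S - T‖ + ‖T - DirichletCharacter.LFunction χ 1‖ := by
          gcongr
          exact norm_sub_le _ _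
  have h3 := e1.trans s1
  nlinarith [h1, h3, e2', s3, s4, s5]

end Pool.Agent.Helper68.LA
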