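import Pool.Agent.Helper68.LA.An1c
import Pool.Agent.Helper68.LA.An1r

/-!
# LA-An1: lower bound for truncated sums, nonprincipal characters
-/

set_option autoImplicit false

namespace Pool.Agent.Helper68.LA

open Filter

theorem an1 {κ : ℝ} (hκ : 0 < κ) : ∀ᶠ N : ℕ in atTop, ∀ (q : ℕ) [NeZero q]
    (χ : DirichletCharacter ℂ q) (lam z : ℝ), q ≤ N → χ ≠ 1 →
      √(q : ℝ) * (1 + |lam|) * (N : ℝ) ^ κ ≤ z → z ≤ N →
      (N : ℝ) ^ (-κ) ≤ ‖∑ n ∈ Finset.Icc 1 ⌊z⌋₊,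
        χ (n : ZMod q) * (n : ℂ) ^ (-1 + lam * Complex.I : ℂ)‖ := by
  have hm : 0 < min κ 1 := lt_min hκ one_pos
  filter_upwards [an1_complex hm (min_le_right κ 1), an1_real hm (min_le_right κ 1), eventually_ge_atTop 1]
    with N h1 h2 hN q _ χ lam z hq hχ hz hzN
  have hN1 : (1 : ℝ) ≤ N := by exact_mod_cast hN
  have hle : (N : ℝ) ^ (min κ 1) ≤ (N : ℝ) ^ κ := Real.rpow_le_rpow_of_exponent_le hN1 (min_le_left κ 1)
  have hle' : (N : ℝ) ^ (-κ) ≤ (N : ℝ) ^ (-(min κ 1)) :=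
    Real.rpow_le_rpow_of_exponent_le hN1 (neg_le_neg (min_le_left κ 1))
  have hz' : √(q : ℝ) * (1 + |lam|) * (N : ℝ) ^ (min κ 1) ≤ z :=
    le_trans (mul_le_mul_of_nonneg_left hle (by positivity)) hz
  refine hle'.trans ?_
  by_cases h : χ ^ 2 ≠ 1 ∨ (N : ℝ) ^ (-(min κ 1 / 2)) ≤ |lam|
  · exact h1 q χ lam z hq hχ h hz' hzN
  · push Not at h
    exact h2 q χ lam z hq hχ h.1 h.2.le hz' hzN

end Pool.Agent.Helper68.LA
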