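import Mathlib
import Pool.Agent.Helper7.GPC.Div

/-!
# Block LA-Dv: two facts on the number of divisors

`card_div_le`: a divisor `d` of `q` is at most `√q` or `q/d` is; `d ↦ q/d` is an involution of the divisors.
`le_card_mul`: multiplicativity, `p^k ≤ (k+1) p^(k-1) (p-1)` (a proof is in `Pool/Agent/Helper5/RS/Ram.lean`, theorem `q_le`; copy it).
`card_rpow`: for every `δ > 0`, eventually in `N`, all `q ≤ N`, `q ≠ 0` have at most `N^δ` divisors
(`Pool.Agent.Helper7.GPC.card_divisors_le` with `δ/2`, and `C ≤ N^(δ/2)` for large `N`).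
-/

set_option autoImplicit false

namespace Pool.Agent.Helper68.LA

open Filter

private theorem small76 (q : ℕ) : (q.divisors.filter (· ≤ Nat.sqrt q)).card ≤ Nat.sqrt q := by
  calc (q.divisors.filter (· ≤ Nat.sqrt q)).card ≤ (Finset.Icc 1 (Nat.sqrt q)).card := by
        apply Finset.card_le_card
        intro d hd
        rw [Finset.mem_filter] at hd
        rw [Finset.mem_Icc]
        exact ⟨Nat.pos_of_mem_divisors hd.1, hd.2⟩
    _ = Nat.sqrt q := by simp

private theorem large76 (q : ℕ) : (q.divisors.filter (fun d => ¬ d ≤ Nat.sqrt q)).card ≤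
    (q.divisors.filter (· ≤ Nat.sqrt q)).card := by
  apply Finset.card_le_card_of_injOn (fun d => q / d)
  · intro d hd
    rw [Finset.mem_coe, Finset.mem_filter] at hd
    rw [Finset.mem_coe, Finset.mem_filter]
    have hdq := Nat.dvd_of_mem_divisors hd.1
    have hq0 : q ≠ 0 := by
      intro h
      rw [h] at hd
      simp at hd
    refine ⟨Nat.mem_divisors.2 ⟨Nat.div_dvd_of_dvd hdq, hq0⟩, ?_⟩
    show q / d ≤ Nat.sqrt q
    by_contra hcon
    have h1 : d * (q / d) = q := Nat.mul_div_cancel' hdq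
    have h2 : (Nat.sqrt q + 1) * (Nat.sqrt q + 1) ≤ d * (q / d) :=
      Nat.mul_le_mul (by omega) (by omega)
    have h3 := Nat.lt_succ_sqrt q
    rw [h1] at h2
    exact absurd (lt_of_lt_of_le h3 h2) (lt_irrefl _)
  · intro a ha b hb hab
    rw [Finset.mem_coe, Finset.mem_filter] at ha hb
    have ha' := Nat.dvd_of_mem_divisors ha.1
    have hb' := Nat.dvd_of_mem_divisors hb.1
    have hq0 : q ≠ 0 := by
      intro h
      rw [h] at ha
      simp at ha
    have h1 : q / (q / a) = a := Nat.div_div_self ha' hq0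
    have h2 : q / (q / b) = b := Nat.div_div_self hb' hq0
    have hab' : q / a = q / b := hab
    rw [← h1, hab', h2]

theorem card_div_le (q : ℕ) : (q.divisors.card : ℝ) ≤ 2 * √(q : ℝ) := by
  have h1 : q.divisors.card ≤ 2 * Nat.sqrt q := by
    have h2 := Finset.card_filter_add_card_filter_not (s := q.divisors) (fun d => d ≤ Nat.sqrt q)
    have h3 := small76 q
    have h4 := large76 q
    omega
  have h5 : (Nat.sqrt q : ℝ) ≤ √(q : ℝ) := by
    apply Real.le_sqrt_of_sq_le
    have h6 := Nat.sqrt_le' q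
    exact_mod_cast h6
  calc (q.divisors.card : ℝ) ≤ ((2 * Nat.sqrt q : ℕ) : ℝ) := by exact_mod_cast h1
    _ = 2 * (Nat.sqrt q : ℝ) := by push_cast; ring
    _ ≤ 2 * √(q : ℝ) := by linarith

private theorem le_nat76 (q : ℕ) (hq : q ≠ 0) : q ≤ q.divisors.card * Nat.totient q := by
  induction q using Nat.recOnPosPrimePosCoprime with
  | prime_pow p k hp hk =>
    rw [Nat.divisors_prime_pow hp, Finset.card_map, Finset.card_range,
      Nat.totient_prime_pow hp hk]
    obtain ⟨m, rfl⟩ : ∃ m, k = m + 1 := ⟨k - 1, by omega⟩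
    obtain ⟨r, rfl⟩ : ∃ r, p = r + 2 := ⟨p - 2, by have := hp.two_le; omega⟩
    have h1 : r + 2 - 1 = r + 1 := by omega
    have h2 : m + 1 - 1 = m := by omega
    rw [h1, h2, pow_succ]
    have h3 : 0 < (r + 2) ^ m := by positivity
    have h4 : r + 2 ≤ (m + 1 + 1) * (r + 1) := by nlinarith
    calc (r + 2) ^ m * (r + 2) ≤ (r + 2) ^ m * ((m + 1 + 1) * (r + 1)) := Nat.mul_le_mul_left _ h4
      _ = (m + 1 + 1) * ((r + 2) ^ m * (r + 1)) := by ring
  | zero => exact absurd rfl hq
  | one => simp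
  | coprime a b ha hb hab iha ihb =>
    rw [Nat.Coprime.card_divisors_mul hab, Nat.totient_mul hab]
    have h1 := iha (by omega)
    have h2 := ihb (by omega)
    calc a * b ≤ (a.divisors.card * Nat.totient a) * (b.divisors.card * Nat.totient b) :=
          Nat.mul_le_mul h1 h2
      _ = a.divisors.card * b.divisors.card * (Nat.totient a * Nat.totient b) := by ring

theorem le_card_mul (q : ℕ) : (q : ℝ) ≤ (q.divisors.card : ℝ) * (q.totient : ℝ) := by
  rcases Nat.eq_zero_or_pos q with h | h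
  · subst h
    simp
  · have h1 := le_nat76 q (by omega)
    exact_mod_cast h1

theorem card_rpow {δ : ℝ} (hδ : 0 < δ) : ∀ᶠ N : ℕ in atTop, ∀ q : ℕ, q ≠ 0 → q ≤ N →
    (q.divisors.card : ℝ) ≤ (N : ℝ) ^ δ := by
  obtain ⟨C, hC1, hC⟩ := Pool.Agent.Helper7.GPC.card_divisors_le (ε := δ / 2) (by linarith)
  have h1 : Tendsto (fun N : ℕ => (N : ℝ) ^ (δ / 2)) atTop atTop :=
    (tendsto_rpow_atTop (by linarith)).comp tendsto_natCast_atTop_atTop
  filter_upwards [h1.eventually_ge_atTop C, eventually_ge_atTop 1] with N hN hN1 q hq hqN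
  have hN0 : (0 : ℝ) < N := by exact_mod_cast hN1
  have h2 : (q : ℝ) ^ (δ / 2) ≤ (N : ℝ) ^ (δ / 2) :=
    Real.rpow_le_rpow (by positivity) (by exact_mod_cast hqN) (by linarith)
  calc (q.divisors.card : ℝ) ≤ C * (q : ℝ) ^ (δ / 2) := hC q hq
    _ ≤ (N : ℝ) ^ (δ / 2) * (N : ℝ) ^ (δ / 2) :=
        mul_le_mul hN h2 (by positivity) (by positivity)
    _ = (N : ℝ) ^ δ := by
        rw [← Real.rpow_add hN0]
        congr 1
        ring

end Pool.Agent.Helper68.LA
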