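import Mathlib

/-!
# Block LA-N3: choice of `r`

If `|λ| log R ≥ π`: `r = exp (π/|λ|) ∈ [1, R]`, `r^(-x+iλ) = - r^(-x)`, so the norm is `1 + r^(-x) ≥ 1`.  Otherwise `r = R`, `θ = |λ| log R ∈ [0, π)`: for `θ ≥ π/2` the real part of `1 - R^(-x) e^(±iθ)` is `≥ 1`;
for `θ < π/2` the imaginary part is `R^(-x) sin θ ≥ (1/2) (2/π) θ ≥ θ/4` in absolute value (`Real.mul_le_sin`, `R^(-x) ≥ 1/2` by `x log R ≤ log 2`).
-/

set_option autoImplicit false

namespace Pool.Agent.Helper68.LA

private theorem h93_parts {x lam r : ℝ} (hr : 1 ≤ r) :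
    1 - Real.exp (-x * Real.log r) * Real.cos (lam * Real.log r) ≤
      ‖1 - (r : ℂ) ^ (-x + lam * Complex.I : ℂ)‖ ∧
    |Real.exp (-x * Real.log r) * Real.sin (lam * Real.log r)| ≤
      ‖1 - (r : ℂ) ^ (-x + lam * Complex.I : ℂ)‖ := by
  have hr0 : (0 : ℝ) < r := by linarith
  have h1 : (r : ℂ) ^ (-x + lam * Complex.I : ℂ) =
      Complex.exp (((-x * Real.log r : ℝ) : ℂ) + ((lam * Real.log r : ℝ) : ℂ) * Complex.I) := by
    rw [Complex.cpow_def_of_ne_zero (by exact_mod_cast hr0.ne'), ← Complex.ofReal_log hr0.le]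
    congr 1
    push_cast
    ring
  have hre : ((r : ℂ) ^ (-x + lam * Complex.I : ℂ)).re =
      Real.exp (-x * Real.log r) * Real.cos (lam * Real.log r) := by
    rw [h1, Complex.exp_re]
    simp
  have him : ((r : ℂ) ^ (-x + lam * Complex.I : ℂ)).im =
      Real.exp (-x * Real.log r) * Real.sin (lam * Real.log r) := by
    rw [h1, Complex.exp_im]
    simp
  constructor
  · refine le_trans ?_ (Complex.re_le_norm _)
    rw [Complex.sub_re, hre, Complex.one_re]
  · refine le_trans (le_of_eq ?_) (Complex.abs_im_le_norm _)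
    rw [Complex.sub_im, him, Complex.one_im, zero_sub, abs_neg]

theorem exists_r {x lam R : ℝ} (hx : 0 ≤ x) (hR : 1 ≤ R) (hxR : x * Real.log R ≤ Real.log 2) (hlam : lam ≠ 0) :
    ∃ r : ℝ, 1 ≤ r ∧ r ≤ R ∧ min 1 (|lam| * Real.log R / 4) ≤ ‖1 - (r : ℂ) ^ (-x + lam * Complex.I : ℂ)‖ := by
  have hl : 0 < |lam| := abs_pos.2 hlam
  have hlR : 0 ≤ Real.log R := Real.log_nonneg hR
  have hcos : ∀ y : ℝ, 0 ≤ y → Real.cos (lam * y) = Real.cos (|lam| * y) := by
    intro y hy
    rw [← Real.cos_abs (lam * y), abs_mul, abs_of_nonneg hy]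
  have hsin : ∀ y : ℝ, |Real.sin (lam * y)| = |Real.sin (|lam| * y)| := by
    intro y
    rcases abs_choice lam with h | h
    · rw [h]
    · rw [h, neg_mul, Real.sin_neg, abs_neg]
  rcases le_or_gt Real.pi (|lam| * Real.log R) with h | h
  · refine ⟨Real.exp (Real.pi / |lam|), Real.one_le_exp (by positivity), ?_, ?_⟩
    · rw [← Real.le_log_iff_exp_le (by linarith), div_le_iff₀ hl]
      linarith
    · have h1 := (h93_parts (x := x) (lam := lam) (r := Real.exp (Real.pi / |lam|))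
        (Real.one_le_exp (by positivity))).1
      rw [Real.log_exp, hcos _ (by positivity), mul_div_cancel₀ _ hl.ne', Real.cos_pi] at h1
      have h2 := Real.exp_pos (-x * (Real.pi / |lam|))
      exact (min_le_left _ _).trans (by linarith)
  · refine ⟨R, hR, le_rfl, ?_⟩
    obtain ⟨h1, h2⟩ := h93_parts (x := x) (lam := lam) (r := R) hR
    rw [hcos _ hlR] at h1
    rw [abs_mul, hsin, abs_of_pos (Real.exp_pos _)] at h2
    set θ : ℝ := |lam| * Real.log R with hθ
    have hθ0 : 0 ≤ θ := by positivity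
    rcases le_or_gt (Real.pi / 2) θ with h3 | h3
    · have h4 : Real.cos θ ≤ 0 := Real.cos_nonpos_of_pi_div_two_le_of_le h3 (by linarith [Real.pi_pos])
      have h5 := Real.exp_pos (-x * Real.log R)
      have h6 : Real.exp (-x * Real.log R) * Real.cos θ ≤ 0 := mul_nonpos_of_nonneg_of_nonpos h5.le h4
      exact (min_le_left _ _).trans (by linarith)
    · have h4 : 2 / Real.pi * θ ≤ Real.sin θ := Real.mul_le_sin hθ0 h3.le
      have h5 : (1 : ℝ) / 2 ≤ Real.exp (-x * Real.log R) := by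
        have h6 : Real.exp (-Real.log 2) ≤ Real.exp (-x * Real.log R) := Real.exp_le_exp.2 (by linarith)
        rwa [Real.exp_neg, Real.exp_log (by norm_num), ← one_div] at h6
      have h7 : (1 : ℝ) / 2 * θ ≤ 2 / Real.pi * θ := by
        refine mul_le_mul_of_nonneg_right ?_ hθ0
        rw [div_le_div_iff₀ (by norm_num) Real.pi_pos]
        linarith [Real.pi_le_four]
      have h8 : (1 : ℝ) / 2 * ((1 : ℝ) / 2 * θ) ≤ Real.exp (-x * Real.log R) * |Real.sin θ| := by
        refine mul_le_mul h5 ((h7.trans h4).trans (le_abs_self _)) (by positivity) (Real.exp_pos _).le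
      refine (min_le_right _ _).trans (le_trans ?_ (h8.trans h2))
      linarith

end Pool.Agent.Helper68.LA
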