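import Mathlib

/-!
# Block LA-Ps: partial summation

Let `C n = ∑_{k ∈ Ioc a n} c k`, `C a = 0`, `‖C n‖ ≤ P`.  For `b > a` (otherwise the sum is empty)
`∑_{n ∈ Ioc a b} c n n^(-s) = C b b^(-s) + ∑_{n = a+1}^{b-1} C n (n^(-s) - (n+1)^(-s))` and
`‖n^(-s) - (n+1)^(-s)‖ ≤ ‖s‖ ∫_n^{n+1} u^(-σ-1) du = (‖s‖/σ) (n^(-σ) - (n+1)^(-σ))` (`σ = re s > 0`), so that the norm is at most
`P b^(-σ) + P (‖s‖/σ) ((a+1)^(-σ) - b^(-σ)) ≤ P (1 + ‖s‖/σ) a^(-σ)`.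

`pow_diff` is the bound for one difference (derivative of `u ↦ u^(-s)` and the fundamental theorem of calculus,
or `norm_image_sub_le_of_norm_deriv_le_segment'` with the comparison function `(‖s‖/σ) (n^(-σ) - u^(-σ))`).
-/

set_option autoImplicit false

namespace Pool.Agent.Helper68.LA

theorem pow_diff {s : ℂ} (hs : 0 < s.re) {n : ℕ} (hn : 1 ≤ n) :
    ‖(n : ℂ) ^ (-s) - ((n + 1 : ℕ) : ℂ) ^ (-s)‖ ≤ ‖s‖ / s.re * ((n : ℝ) ^ (-s.re) - ((n + 1 : ℕ) : ℝ) ^ (-s.re)) := by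
  have hn0 : (0 : ℝ) < n := by exact_mod_cast hn
  have hs0 : s ≠ 0 := by
    rintro rfl
    simp at hs
  have hd : ∀ x : ℝ, (n : ℝ) ≤ x → HasDerivAt (fun u : ℝ => ((n : ℝ) : ℂ) ^ (-s) - (u : ℂ) ^ (-s)) (s * (x : ℂ) ^ (-s - 1)) x := by
    intro x hx
    have hx0 : 0 < x := lt_of_lt_of_le hn0 hx
    have h1 := hasDerivAt_ofReal_cpow_const hx0.ne' (neg_ne_zero.2 hs0)
    exact (h1.const_sub (((n : ℝ) : ℂ) ^ (-s))).congr_deriv (by ring)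
  have hB : ∀ x : ℝ, (n : ℝ) ≤ x → HasDerivAt (fun u : ℝ => ‖s‖ / s.re * ((n : ℝ) ^ (-s.re) - u ^ (-s.re)))
      (‖s‖ * x ^ (-s.re - 1)) x := by
    intro x hx
    have hx0 : 0 < x := lt_of_lt_of_le hn0 hx
    have h1 := ((Real.hasDerivAt_rpow_const (p := -s.re) (Or.inl hx0.ne')).const_sub ((n : ℝ) ^ (-s.re))).const_mul (‖s‖ / s.re)
    refine h1.congr_deriv ?_
    field_simp
  have key := image_norm_le_of_norm_deriv_right_le_deriv_boundary' (a := (n : ℝ)) (b := (n : ℝ) + 1)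
    (f := fun u : ℝ => ((n : ℝ) : ℂ) ^ (-s) - (u : ℂ) ^ (-s)) (f' := fun x => s * (x : ℂ) ^ (-s - 1))
    (fun x hx => (hd x hx.1).continuousAt.continuousWithinAt) (fun x hx => (hd x hx.1).hasDerivWithinAt)
    (B := fun u : ℝ => ‖s‖ / s.re * ((n : ℝ) ^ (-s.re) - u ^ (-s.re))) (B' := fun x => ‖s‖ * x ^ (-s.re - 1))
    (by simp) (fun x hx => (hB x hx.1).continuousAt.continuousWithinAt) (fun x hx => (hB x hx.1).hasDerivWithinAt)
    (by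
      intro x hx
      have hx0 : 0 < x := lt_of_lt_of_le hn0 hx.1
      rw [norm_mul, Complex.norm_cpow_eq_rpow_re_of_pos hx0]
      simp)
  have h := key (x := (n : ℝ) + 1) ⟨by linarith, le_refl _⟩
  simpa using h

theorem psum {c : ℕ → ℂ} {P : ℝ} {a : ℕ} (ha : 1 ≤ a) (hP : ∀ b, ‖∑ n ∈ Finset.Ioc a b, c n‖ ≤ P) {s : ℂ}
    (hs : 0 < s.re) (b : ℕ) :
    ‖∑ n ∈ Finset.Ioc a b, c n * (n : ℂ) ^ (-s)‖ ≤ P * (1 + ‖s‖ / s.re) * (a : ℝ) ^ (-s.re) := by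
  have hP0 : 0 ≤ P := by simpa using hP a
  have hr : 0 ≤ ‖s‖ / s.re := div_nonneg (norm_nonneg _) hs.le
  rcases lt_or_ge b a with hba | hab
  · rw [Finset.Ioc_eq_empty (by omega)]
    simp only [Finset.sum_empty, norm_zero]
    positivity
  have hid : ∀ b, a ≤ b → ∑ n ∈ Finset.Ioc a b, c n * (n : ℂ) ^ (-s) =
      (∑ n ∈ Finset.Ioc a b, c n) * (b : ℂ) ^ (-s) +
        ∑ n ∈ Finset.Ico a b, (∑ m ∈ Finset.Ioc a n, c m) * ((n : ℂ) ^ (-s) - ((n + 1 : ℕ) : ℂ) ^ (-s)) := by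
    intro b hb
    induction b, hb using Nat.le_induction with
    | base => simp
    | succ b hb ih =>
      rw [Finset.sum_Ioc_succ_top (by omega), ih, Finset.sum_Ico_succ_top hb, Finset.sum_Ioc_succ_top (f := c) (by omega)]
      ring
  have htel : ∀ b, a ≤ b → ∑ n ∈ Finset.Ico a b, ((n : ℝ) ^ (-s.re) - ((n + 1 : ℕ) : ℝ) ^ (-s.re)) =
      (a : ℝ) ^ (-s.re) - (b : ℝ) ^ (-s.re) := by
    intro b hb
    induction b, hb using Nat.le_induction with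
    | base => simp
    | succ b hb ih =>
      rw [Finset.sum_Ico_succ_top hb, ih]
      ring
  rw [hid b hab]
  have h1 : ‖(∑ n ∈ Finset.Ioc a b, c n) * (b : ℂ) ^ (-s)‖ ≤ P * (b : ℝ) ^ (-s.re) := by
    rw [norm_mul, Complex.norm_natCast_cpow_of_pos (by omega), Complex.neg_re]
    exact mul_le_mul_of_nonneg_right (hP b) (by positivity)
  have h2 : ‖∑ n ∈ Finset.Ico a b, (∑ m ∈ Finset.Ioc a n, c m) * ((n : ℂ) ^ (-s) - ((n + 1 : ℕ) : ℂ) ^ (-s))‖ ≤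
      P * (‖s‖ / s.re) * ((a : ℝ) ^ (-s.re) - (b : ℝ) ^ (-s.re)) := by
    refine (norm_sum_le _ _).trans ?_
    rw [← htel b hab, Finset.mul_sum]
    refine Finset.sum_le_sum fun n hn => ?_
    rw [Finset.mem_Ico] at hn
    rw [norm_mul, mul_assoc]
    exact mul_le_mul (hP n) (pow_diff hs (by omega)) (norm_nonneg _) hP0
  have h3 : (b : ℝ) ^ (-s.re) ≤ (a : ℝ) ^ (-s.re) :=
    Real.rpow_le_rpow_of_nonpos (by exact_mod_cast ha) (by exact_mod_cast hab) (by linarith)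
  have h4 : 0 ≤ (b : ℝ) ^ (-s.re) := by positivity
  refine (norm_add_le _ _).trans ((add_le_add h1 h2).trans ?_)
  nlinarith [mul_nonneg hP0 hr, mul_nonneg (mul_nonneg hP0 hr) h4, mul_nonneg hP0 (sub_nonneg.2 h3)]

/-- the real case -/
theorem psum_real {c : ℕ → ℝ} {P : ℝ} {a : ℕ} (ha : 1 ≤ a) (hP : ∀ b, |∑ n ∈ Finset.Ioc a b, c n| ≤ P) {β : ℝ}
    (hβ : 0 < β) (b : ℕ) :
    |∑ n ∈ Finset.Ioc a b, c n * (n : ℝ) ^ (-β)| ≤ 2 * P * (a : ℝ) ^ (-β) := by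
  have h := psum (c := fun n => (c n : ℂ)) (P := P) ha (by
    intro b
    have := hP b
    rw [← Complex.ofReal_sum, Complex.norm_real]
    exact this) (s := (β : ℂ)) (by simpa using hβ) b
  have h1 : ‖(β : ℂ)‖ / (β : ℂ).re = 1 := by
    rw [Complex.norm_real, Complex.ofReal_re, Real.norm_of_nonneg hβ.le, div_self hβ.ne']
  rw [h1, Complex.ofReal_re] at h
  have h2 : ∑ n ∈ Finset.Ioc a b, (c n : ℂ) * (n : ℂ) ^ (-(β : ℂ)) =
      ((∑ n ∈ Finset.Ioc a b, c n * (n : ℝ) ^ (-β) : ℝ) : ℂ) := by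
    rw [Complex.ofReal_sum]
    refine Finset.sum_congr rfl fun n _ => ?_
    rw [Complex.ofReal_mul, Complex.ofReal_cpow (Nat.cast_nonneg n)]
    push_cast
    rfl
  rw [h2, Complex.norm_real] at h
  rw [← Real.norm_eq_abs]
  linarith

end Pool.Agent.Helper68.LA
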