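import Pool.Agent.Helper68.LA.N2
import Pool.Agent.Helper68.LA.Ps

/-!
# Block LA-N4: principal character, small `λ`

`‖n^(-1+iλ) - n^(-1)‖ ≤ |λ| log N / n`, `∑_{n ≤ N} 1/n ≤ 1 + log N`, `‖r^(iλ) - 1‖ ≤ |λ| log r`: the left side is at least `‖sn q 0 z - sn q 0 (z/r)‖ - 3 |λ| (1 + log N)^2`.
With `a = ⌊z/r⌋₊ ≥ z/(2r)`, `b = ⌊z⌋₊`: `sn q 0 z - sn q 0 (z/r) = ∑_{n ∈ Ioc a b, (n,q)=1} 1/n = (φ(q)/q) ∑_{n ∈ Ioc a b} 1/n + ∑_{n ∈ Ioc a b} c n / n`, `c n = 1_{(n,q)=1} - φ(q)/q`,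
`|∑_{Ioc a b'} c| ≤ 2 #divisors(q)` (`card_coprime` twice), `psum_real` (`β = 1`): second sum at most `4 #divisors(q)/a ≤ 8 #divisors(q) r/z`.
`∑_{n ∈ Ioc a b} 1/n ≥ log ((b+1)/(a+1)) ≥ log (z/(z/r + 1)) = log r - log (1 + r/z) ≥ log r - r/z`.
-/

set_option autoImplicit false

namespace Pool.Agent.Helper68.LA

private lemma ei24 (y : ℝ) : ‖Complex.exp (y * Complex.I) - 1‖ ≤ |y| := by
  have := Real.norm_exp_I_mul_ofReal_sub_one_le (x := y)
  rwa [mul_comm, Real.norm_eq_abs] at this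

private lemma unit24 {r : ℝ} (hr : 0 < r) (lam : ℝ) :
    ‖(r : ℂ) ^ (lam * Complex.I : ℂ)‖ = 1 ∧ ‖(r : ℂ) ^ (lam * Complex.I : ℂ) - 1‖ ≤ |lam| * |Real.log r| := by
  have h0 : (r : ℂ) ≠ 0 := by exact_mod_cast hr.ne'
  have h1 : (r : ℂ) ^ (lam * Complex.I : ℂ) = Complex.exp (((lam * Real.log r : ℝ) : ℂ) * Complex.I) := by
    rw [Complex.cpow_def_of_ne_zero h0, ← Complex.ofReal_log hr.le]
    congr 1
    push_cast
    ring
  constructor
  · rw [h1, Complex.norm_exp_ofReal_mul_I]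
  · rw [h1]
    refine (ei24 _).trans ?_
    rw [abs_mul]

private lemma harm24 (N : ℕ) : ∑ n ∈ Finset.Icc 1 N, (n : ℝ)⁻¹ ≤ 1 + Real.log N := by
  have h2 := harmonic_le_one_add_log N
  rw [harmonic_eq_sum_Icc] at h2
  push_cast at h2
  exact h2

/-- sum of reciprocals over a part of `Icc 1 N` -/
private lemma part24 {q N m : ℕ} (hm : m ≤ N) :
    ∑ n ∈ (Finset.Icc 1 m).filter (fun n => n.Coprime q), (n : ℝ)⁻¹ ≤ 1 + Real.log N := by
  refine le_trans ?_ (harm24 N)
  refine Finset.sum_le_sum_of_subset_of_nonneg ?_ fun n _ _ => ?_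
  · exact (Finset.filter_subset _ _).trans (Finset.Icc_subset_Icc_right hm)
  · positivity

/-- replacement of `lam` by `0` -/
private lemma zero24 {q N : ℕ} {lam z : ℝ} (hzN : z ≤ N) (hN : 1 ≤ N) :
    ‖sn q lam z - sn q 0 z‖ ≤ |lam| * (1 + Real.log N) ^ 2 := by
  have hNr : (1 : ℝ) ≤ N := by exact_mod_cast hN
  have hlog : 0 ≤ Real.log N := Real.log_nonneg hNr
  unfold sn
  rw [← Finset.sum_sub_distrib]
  have h1 : ∀ n ∈ (Finset.Icc 1 ⌊z⌋₊).filter (fun n => n.Coprime q),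
      ‖(n : ℂ) ^ (-1 + lam * Complex.I : ℂ) - (n : ℂ) ^ (-1 + (0 : ℝ) * Complex.I : ℂ)‖ ≤
        |lam| * Real.log N * (n : ℝ)⁻¹ := by
    intro n hn
    rw [Finset.mem_filter, Finset.mem_Icc] at hn
    have hn1 := hn.1.1
    have hnN : n ≤ N := hn.1.2.trans (Nat.floor_le_of_le hzN)
    have hnr : (0 : ℝ) < n := by exact_mod_cast hn1
    have hn0 : (n : ℂ) ≠ 0 := by exact_mod_cast hnr.ne'
    have h2 : (n : ℂ) ^ (-1 + lam * Complex.I : ℂ) - (n : ℂ) ^ (-1 + (0 : ℝ) * Complex.I : ℂ) =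
        (n : ℂ)⁻¹ * (((n : ℝ) : ℂ) ^ (lam * Complex.I : ℂ) - 1) := by
      rw [Complex.cpow_add _ _ hn0, Complex.ofReal_zero, zero_mul, add_zero, Complex.cpow_neg_one, Complex.ofReal_natCast]
      ring
    have h3 := (unit24 hnr lam).2
    have h4 : Real.log n ≤ Real.log N := Real.log_le_log hnr (by exact_mod_cast hnN)
    have h5 : 0 ≤ Real.log n := Real.log_nonneg (by exact_mod_cast hn1)
    rw [h2, norm_mul, norm_inv, Complex.norm_natCast]
    rw [abs_of_nonneg h5] at h3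
    calc (n : ℝ)⁻¹ * ‖((n : ℝ) : ℂ) ^ (lam * Complex.I : ℂ) - 1‖ ≤ (n : ℝ)⁻¹ * (|lam| * Real.log n) :=
          mul_le_mul_of_nonneg_left h3 (by positivity)
      _ ≤ (n : ℝ)⁻¹ * (|lam| * Real.log N) := by gcongr
      _ = |lam| * Real.log N * (n : ℝ)⁻¹ := by ring
  refine (norm_sum_le_of_le _ h1).trans ?_
  rw [← Finset.mul_sum]
  have h2 := part24 (q := q) (Nat.floor_le_of_le hzN)
  calc |lam| * Real.log N * ∑ n ∈ (Finset.Icc 1 ⌊z⌋₊).filter (fun n => n.Coprime q), (n : ℝ)⁻¹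
      ≤ |lam| * Real.log N * (1 + Real.log N) := mul_le_mul_of_nonneg_left h2 (by positivity)
    _ ≤ |lam| * (1 + Real.log N) ^ 2 := by
      have : 0 ≤ |lam| * (1 + Real.log N) := by positivity
      nlinarith

/-- the value at `0` is a real sum -/
private lemma real24 (q : ℕ) (z : ℝ) :
    sn q 0 z = ((∑ n ∈ (Finset.Icc 1 ⌊z⌋₊).filter (fun n => n.Coprime q), (n : ℝ)⁻¹ : ℝ) : ℂ) := by
  unfold sn
  push_cast
  refine Finset.sum_congr rfl fun n _ => ?_
  rw [zero_mul, add_zero, Complex.cpow_neg_one]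

private lemma log24 {a b : ℕ} (hab : a ≤ b) :
    Real.log ((b + 1 : ℝ) / (a + 1)) ≤ ∑ n ∈ Finset.Ioc a b, (n : ℝ)⁻¹ := by
  induction b, hab using Nat.le_induction with
  | base => simp
  | succ b hb ih =>
    rw [Finset.sum_Ioc_succ_top (by omega)]
    have hb0 : (0 : ℝ) < (b : ℝ) + 1 := by positivity
    have ha0 : (0 : ℝ) < (a : ℝ) + 1 := by positivity
    have h1 : ((b + 1 : ℕ) + 1 : ℝ) / (a + 1) = ((b + 1 : ℝ) / (a + 1)) * (1 + 1 / (b + 1 : ℝ)) := by
      push_cast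
      field_simp
    rw [h1, Real.log_mul (by positivity) (by positivity)]
    have h2 := Real.log_le_sub_one_of_pos (show 0 < 1 + 1 / ((b : ℝ) + 1) by positivity)
    have h3 : (((b + 1 : ℕ) : ℝ))⁻¹ = 1 / ((b : ℝ) + 1) := by
      push_cast
      rw [one_div]
    rw [h3]
    linarith

/-- the real sum -/
private lemma main24 {q a b : ℕ} (hq : q ≠ 0) (ha : 1 ≤ a) (hab : a ≤ b) :
    (q.totient : ℝ) / q * Real.log ((b + 1 : ℝ) / (a + 1)) - 4 * q.divisors.card / a ≤
      ∑ n ∈ (Finset.Ioc a b).filter (fun n => n.Coprime q), (n : ℝ)⁻¹ := by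
  classical
  set ρ := (q.totient : ℝ) / q with hρ
  set c : ℕ → ℝ := fun n => (if n.Coprime q then 1 else 0) - ρ with hc
  have hρ0 : 0 ≤ ρ := by positivity
  have hP : ∀ b', |∑ n ∈ Finset.Ioc a b', c n| ≤ 2 * q.divisors.card := by
    intro b'
    rcases le_or_gt b' a with h | h
    · rw [Finset.Ioc_eq_empty (by omega), Finset.sum_empty, abs_zero]
      positivity
    · have h1 : ∀ m : ℕ, ∑ n ∈ Finset.Icc 1 m, c n =
          (((Finset.Icc 1 m).filter fun k => k.Coprime q).card : ℝ) - ρ * m := by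
        intro m
        simp only [hc]
        rw [Finset.sum_sub_distrib, Finset.sum_const, Nat.card_Icc, nsmul_eq_mul, Finset.sum_boole]
        simp only [Nat.add_sub_cancel]
        ring
      have h2 : ∑ n ∈ Finset.Icc 1 a, c n + ∑ n ∈ Finset.Ioc a b', c n = ∑ n ∈ Finset.Icc 1 b', c n := by
        have hd : Disjoint (Finset.Icc 1 a) (Finset.Ioc a b') := by
          rw [Finset.disjoint_left]
          intro x hx hx'
          rw [Finset.mem_Icc] at hx
          rw [Finset.mem_Ioc] at hx'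
          omega
        rw [← Finset.sum_union hd]
        congr 1
        ext x
        simp only [Finset.mem_union, Finset.mem_Icc, Finset.mem_Ioc]
        omega
      rw [h1, h1] at h2
      have h3 := abs_le.mp (card_coprime hq a)
      have h4 := abs_le.mp (card_coprime hq b')
      rw [abs_le]
      constructor <;> linarith [h3.1, h3.2, h4.1, h4.2]
  have h1 := psum_real ha hP (show (0 : ℝ) < 1 by norm_num) b
  rw [Real.rpow_neg_one] at h1
  have h2 : ∑ n ∈ Finset.Ioc a b, c n * (n : ℝ) ^ (-1 : ℝ) =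
      ∑ n ∈ (Finset.Ioc a b).filter (fun n => n.Coprime q), (n : ℝ)⁻¹ - ρ * ∑ n ∈ Finset.Ioc a b, (n : ℝ)⁻¹ := by
    rw [Finset.sum_filter, Finset.mul_sum, ← Finset.sum_sub_distrib]
    refine Finset.sum_congr rfl fun n _ => ?_
    rw [Real.rpow_neg_one]
    simp only [hc]
    split_ifs <;> ring
  rw [h2] at h1
  have h3 := mul_le_mul_of_nonneg_left (log24 hab) hρ0
  have h4 : 2 * (2 * (q.divisors.card : ℝ)) * (a : ℝ)⁻¹ = 4 * q.divisors.card / a := by
    rw [div_eq_mul_inv]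
    ring
  rw [h4] at h1
  have h5 := (abs_le.mp h1).1
  linarith

theorem sn_small {q N : ℕ} [NeZero q] {lam z r : ℝ} (hr : 1 ≤ r) (hrz : r ≤ z) (hzN : z ≤ N) :
    (q.totient : ℝ) / q * Real.log r - 4 * |lam| * (1 + Real.log N) ^ 2 - 16 * q.divisors.card * r / z ≤
      ‖sn q lam z - (r : ℂ) ^ (lam * Complex.I : ℂ) * sn q lam (z / r)‖ := by
  have hq : q ≠ 0 := NeZero.ne q
  have hr0 : 0 < r := by linarith
  have hz0 : 0 < z := by linarith
  have hzr1 : 1 ≤ z / r := by rwa [le_div_iff₀ hr0, one_mul]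
  have hzrz : z / r ≤ z := div_le_self hz0.le hr
  have hN1r : (1 : ℝ) ≤ N := by linarith
  have hN1 : 1 ≤ N := by exact_mod_cast hN1r
  have hlogN : 0 ≤ Real.log N := Real.log_nonneg hN1r
  have hlogr : Real.log r ≤ Real.log N := Real.log_le_log hr0 (hrz.trans hzN)
  have hlogr0 : 0 ≤ Real.log r := Real.log_nonneg hr
  -- the three errors
  have e1 := zero24 (q := q) (lam := lam) hzN hN1
  have e2 := zero24 (q := q) (lam := lam) (z := z / r) (hzrz.trans hzN) hN1
  have e3 := unit24 hr0 lam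
  rw [abs_of_nonneg hlogr0] at e3
  have e4 : ‖sn q 0 (z / r)‖ ≤ 1 + Real.log N := by
    rw [real24, Complex.norm_real, Real.norm_eq_abs, abs_of_nonneg (by positivity)]
    exact part24 (Nat.floor_le_of_le (hzrz.trans hzN))
  set W := (r : ℂ) ^ (lam * Complex.I : ℂ) with hW
  have e5 : ‖(W - 1) * sn q 0 (z / r)‖ ≤ |lam| * (1 + Real.log N) ^ 2 := by
    rw [norm_mul]
    calc ‖W - 1‖ * ‖sn q 0 (z / r)‖ ≤ (|lam| * Real.log N) * (1 + Real.log N) :=
          mul_le_mul (e3.2.trans (mul_le_mul_of_nonneg_left hlogr (abs_nonneg _))) e4 (norm_nonneg _) (by positivity)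
      _ ≤ |lam| * (1 + Real.log N) ^ 2 := by
        have : 0 ≤ |lam| * (1 + Real.log N) := by positivity
        nlinarith
  have e6 : ‖W * (sn q lam (z / r) - sn q 0 (z / r))‖ ≤ |lam| * (1 + Real.log N) ^ 2 := by
    rw [norm_mul, e3.1, one_mul]
    exact e2
  have e7 : ‖sn q 0 z - sn q 0 (z / r)‖ ≤ ‖sn q lam z - W * sn q lam (z / r)‖ + 3 * (|lam| * (1 + Real.log N) ^ 2) := by
    have h1 : sn q 0 z - sn q 0 (z / r) = (sn q lam z - W * sn q lam (z / r)) - (sn q lam z - sn q 0 z) +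
        W * (sn q lam (z / r) - sn q 0 (z / r)) + (W - 1) * sn q 0 (z / r) := by ring
    rw [h1]
    refine (norm_add_le _ _).trans ?_
    have h2 := norm_add_le ((sn q lam z - W * sn q lam (z / r)) - (sn q lam z - sn q 0 z))
      (W * (sn q lam (z / r) - sn q 0 (z / r)))
    have h3 := norm_sub_le (sn q lam z - W * sn q lam (z / r)) (sn q lam z - sn q 0 z)
    linarith
  -- the real sum
  set a := ⌊z / r⌋₊ with ha
  set b := ⌊z⌋₊ with hb
  have ha1 : 1 ≤ a := Nat.le_floor (by exact_mod_cast hzr1)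
  have hab : a ≤ b := Nat.floor_le_floor hzrz
  have e8 : sn q 0 z - sn q 0 (z / r) =
      ((∑ n ∈ (Finset.Ioc a b).filter (fun n => n.Coprime q), (n : ℝ)⁻¹ : ℝ) : ℂ) := by
    rw [real24, real24, ← Complex.ofReal_sub]
    congr 1
    rw [← ha, ← hb, sub_eq_iff_eq_add, ← Finset.sum_union]
    · congr 1
      ext x
      simp only [Finset.mem_union, Finset.mem_filter, Finset.mem_Icc, Finset.mem_Ioc]
      constructor
      · rintro ⟨⟨h1, h2⟩, h3⟩
        by_cases h : a < x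
        · exact Or.inl ⟨⟨h, h2⟩, h3⟩
        · exact Or.inr ⟨⟨h1, by omega⟩, h3⟩
      · rintro (⟨⟨h1, h2⟩, h3⟩ | ⟨⟨h1, h2⟩, h3⟩)
        · exact ⟨⟨by omega, h2⟩, h3⟩
        · exact ⟨⟨h1, by omega⟩, h3⟩
    · rw [Finset.disjoint_left]
      intro x hx hx'
      rw [Finset.mem_filter, Finset.mem_Ioc] at hx
      rw [Finset.mem_filter, Finset.mem_Icc] at hx'
      omega
  have e9 : ‖sn q 0 z - sn q 0 (z / r)‖ = ∑ n ∈ (Finset.Ioc a b).filter (fun n => n.Coprime q), (n : ℝ)⁻¹ := by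
    rw [e8, Complex.norm_real, Real.norm_eq_abs, abs_of_nonneg (by positivity)]
  have e10 := main24 hq ha1 hab
  rw [e9] at e7
  have har : (1 : ℝ) ≤ a := by exact_mod_cast ha1
  have haz : z / r / 2 ≤ a := by
    have := Nat.lt_floor_add_one (z / r)
    rw [← ha] at this
    linarith
  have hale : (a : ℝ) ≤ z / r := Nat.floor_le (by positivity)
  have hbz : z ≤ (b : ℝ) + 1 := (Nat.lt_floor_add_one z).le
  have hd1 : (1 : ℝ) ≤ q.divisors.card := by
    have : 0 < q.divisors.card := Finset.card_pos.2 ⟨1, Nat.one_mem_divisors.2 hq⟩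
    exact_mod_cast this
  have hφ0 : 0 ≤ (q.totient : ℝ) / q := by positivity
  have hφ1 : (q.totient : ℝ) / q ≤ 1 := by
    have hqr : (0 : ℝ) < q := by exact_mod_cast Nat.pos_of_ne_zero hq
    rw [div_le_one hqr]
    exact_mod_cast Nat.totient_le q
  have e11 : Real.log r - r / z ≤ Real.log ((b + 1 : ℝ) / (a + 1)) := by
    have h1 : r * (1 / (1 + r / z)) ≤ (b + 1 : ℝ) / (a + 1) := by
      rw [le_div_iff₀ (by positivity)]
      have h2 : r * (1 / (1 + r / z)) * (z / r + 1) = z := by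
        field_simp
      have h3 : r * (1 / (1 + r / z)) * ((a : ℝ) + 1) ≤ r * (1 / (1 + r / z)) * (z / r + 1) :=
        mul_le_mul_of_nonneg_left (by linarith) (by positivity)
      linarith
    have h2 := Real.log_le_log (by positivity) h1
    rw [Real.log_mul hr0.ne' (by positivity), one_div, Real.log_inv] at h2
    have h3 := Real.log_le_sub_one_of_pos (show 0 < 1 + r / z by positivity)
    linarith
  have e12 : 4 * (q.divisors.card : ℝ) / a ≤ 8 * q.divisors.card * r / z := by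
    have h1 : 4 * (q.divisors.card : ℝ) / a ≤ 4 * q.divisors.card / (z / r / 2) :=
      div_le_div_of_nonneg_left (by positivity) (by positivity) haz
    refine h1.trans (le_of_eq ?_)
    field_simp
    ring
  have e13 := mul_le_mul_of_nonneg_left e11 hφ0
  have hrz0 : 0 ≤ r / z := by positivity
  have e14 : (q.totient : ℝ) / q * (r / z) ≤ q.divisors.card * (r / z) :=
    mul_le_mul_of_nonneg_right (hφ1.trans hd1) hrz0
  have e15 : 16 * (q.divisors.card : ℝ) * r / z = 16 * (q.divisors.card * (r / z)) := by ring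
  have e16 : 8 * (q.divisors.card : ℝ) * r / z = 8 * (q.divisors.card * (r / z)) := by ring
  have e17 : 0 ≤ (q.divisors.card : ℝ) * (r / z) := by positivity
  have e18 : 0 ≤ |lam| * (1 + Real.log N) ^ 2 := by positivity
  have e19 : 4 * |lam| * (1 + Real.log N) ^ 2 = 4 * (|lam| * (1 + Real.log N) ^ 2) := by ring
  rw [e16] at e12
  rw [e15, e19]
  have e20 : (q.totient : ℝ) / q * (Real.log r - r / z) =
      (q.totient : ℝ) / q * Real.log r - (q.totient : ℝ) / q * (r / z) := by ring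
  rw [e20] at e13
  linarith

end Pool.Agent.Helper68.LA
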