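import Pool.Agent.Helper68.LA.Lim

/-!
# Block LA-T341: the inequality 3-4-1

`DirichletCharacter.norm_LSeries_product_ge_one` (Mathlib, `Mathlib/NumberTheory/LSeries/Nonvanishing.lean`): `‖L(χ₀,1+x)^3 L(χ,1+x+iy)^4 L(χ^2,1+x+2iy)‖ ≥ 1`, and
`‖L(χ₀,1+x)‖ ≤ 2/x` (`lseries_le`, `DirichletCharacter.norm_le_one`).
-/

set_option autoImplicit false

namespace Pool.Agent.Helper68.LA

theorem three_four_one {q : ℕ} [NeZero q] (χ : DirichletCharacter ℂ q) {x : ℝ} (hx : 0 < x) (hx1 : x ≤ 1) (y : ℝ) {U : ℝ}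
    (hU : ‖LSeries (fun n => (χ ^ 2) n) (1 + x + 2 * Complex.I * y)‖ ≤ U) (hU0 : 0 < U) :
    x ^ 3 / (8 * U) ≤ ‖LSeries (fun n => χ n) (1 + x + Complex.I * y)‖ ^ 4 := by
  have h1 := DirichletCharacter.norm_LSeries_product_ge_one χ hx y
  rw [norm_mul, norm_mul, norm_pow, norm_pow] at h1
  have h2 : ‖LSeries (fun n : ℕ => (1 : DirichletCharacter ℂ q) n) (1 + x)‖ ≤ 2 / x :=
    lseries_le (fun n => DirichletCharacter.norm_le_one _ _) hx hx1 (by simp)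
  set A := ‖LSeries (fun n : ℕ => (1 : DirichletCharacter ℂ q) n) (1 + x)‖ with hA
  set B := ‖LSeries (fun n => χ n) (1 + x + Complex.I * y)‖ with hB
  set C := ‖LSeries (fun n => (χ ^ 2) n) (1 + x + 2 * Complex.I * y)‖ with hC
  have h3 : (1 : ℝ) ≤ A ^ 3 * B ^ 4 * C := h1
  have hA0 : 0 ≤ A := norm_nonneg _
  have hB0 : 0 ≤ B := norm_nonneg _
  have h4 : A ^ 3 ≤ (2 / x) ^ 3 := pow_le_pow_left₀ hA0 h2 3
  have h5 : A ^ 3 * B ^ 4 * C ≤ (2 / x) ^ 3 * B ^ 4 * U := by gcongr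
  have h6 : (2 / x) ^ 3 * B ^ 4 * U = (8 * U / x ^ 3) * B ^ 4 := by
    field_simp
    ring
  rw [div_le_iff₀ (by positivity)]
  have h7 : 1 ≤ (8 * U / x ^ 3) * B ^ 4 := by
    rw [← h6]
    exact h3.trans h5
  rw [div_mul_eq_mul_div, le_div_iff₀ (by positivity)] at h7
  linarith

end Pool.Agent.Helper68.LA
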