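import Pool.Agent.Helper68.LA.N2
import Pool.Agent.Helper68.LA.N3
import Pool.Agent.Helper68.LA.N4
import Pool.Agent.Helper68.LA.T341
import Pool.Agent.Helper68.LA.Dv

/-!
# Block LA-An2: lower bound for the principal character

`0 < κ ≤ 1`, `δ = κ/100`, `R = N^(κ/2)`, `x = N^(-κ/2)`; `#divisors(q) ≤ N^δ` (`card_rpow`).  `r ≤ R ≤ z` as `z ≥ N^κ`.
Case `|λ| ≥ N^(-κ/20)`: `r` from `exists_r` (`x log R ≤ log 2` for large `N`), `‖1 - r^(-x+iλ)‖ ≥ min 1 (|λ| (κ/8) log N) ≥ N^(-κ/20)` for large `N`.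
 `three_four_one` with `χ = 1` (`χ^2 = 1`), `y = -λ`, `U = 30 + 4 log N + 1/(2|λ|) ≤ N^(κ/20+δ)/8` (`principal_upper`, `‖1 + x - 2iλ‖ ≤ 2 + 2|λ| ≤ 4N`): `‖L‖^4 ≥ N^(-3κ/2 - κ/20 - δ)`, `‖L‖ ≥ N^(-3κ/8 - κ/80 - δ/4)`.
 The product is at least `N^(-(3/8 + 1/80 + 1/20) κ - δ/4) = N^(-(0.4375) κ - δ/4)`; errors in `sn_comb`: `4 N^(-κ/2) (1 + log N)^2` and `32 N^δ 3 (1+|λ|) N^(κ/2) / ((1+|λ|) N^κ) = 96 N^(-κ/2+δ)`.
 The difference is at least `N^(-κ)` for large `N`.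
Case `|λ| < N^(-κ/20)`: `r = R`; `sn_small`: `φ(q)/q ≥ 1/#divisors(q) ≥ N^(-δ)` (`le_card_mul`), `log r = (κ/2) log N ≥ 2` for large `N`; the two errors are at most `4 N^(-κ/20) (1 + log N)^2` and
 `16 N^δ N^(κ/2) / N^κ`; so the norm is at least `2 N^(-δ) - N^(-δ) ≥ N^(-κ)`.
`an2` follows from `an2_le` (with `min κ 1`) as in `An1.lean`.
-/

set_option autoImplicit false

namespace Pool.Agent.Helper68.LA

open Filter

private theorem ev4 {κ : ℝ} (hκ : 0 < κ) : ∀ᶠ N : ℕ in atTop, 2 ≤ N ∧ 98 ≤ (N : ℝ) ^ (κ / 100) ∧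
    4 * (1 + Real.log N) ^ 2 ≤ (N : ℝ) ^ (κ / 100) ∧ 8 / κ ≤ Real.log N ∧
    ∀ q : ℕ, q ≠ 0 → q ≤ N → (q.divisors.card : ℝ) ≤ (N : ℝ) ^ (κ / 100) := by
  have h1 : Tendsto (fun N : ℕ => (N : ℝ) ^ (κ / 100)) atTop atTop :=
    (tendsto_rpow_atTop (by positivity)).comp tendsto_natCast_atTop_atTop
  have h2 : Tendsto (fun N : ℕ => Real.log N) atTop atTop :=
    Real.tendsto_log_atTop.comp tendsto_natCast_atTop_atTop
  have h3 : ∀ᶠ N : ℕ in atTop, ‖2 + 2 * Real.log N‖ ≤ 1 * ‖(N : ℝ) ^ (κ / 200)‖ := by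
    have h4 : (fun y : ℝ => 2 + 2 * Real.log y) =o[atTop] fun y : ℝ => y ^ (κ / 200) := by
      refine Asymptotics.IsLittleO.add ?_ ((isLittleO_log_rpow_atTop (by positivity)).const_mul_left 2)
      exact Asymptotics.isLittleO_const_left.2
        (Or.inr (tendsto_norm_atTop_atTop.comp (tendsto_rpow_atTop (by positivity))))
    exact tendsto_natCast_atTop_atTop.eventually (h4.bound one_pos)
  filter_upwards [eventually_ge_atTop 2, h1.eventually_ge_atTop 98, h3, h2.eventually_ge_atTop (8 / κ),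
    card_rpow (δ := κ / 100) (by positivity)] with N hN ha hb hc hd
  refine ⟨hN, ha, ?_, hc, hd⟩
  have hn1 : (1 : ℝ) ≤ N := by exact_mod_cast (by omega : 1 ≤ N)
  have hlog : 0 ≤ Real.log N := Real.log_nonneg hn1
  rw [Real.norm_of_nonneg (by positivity), Real.norm_of_nonneg (by positivity), one_mul] at hb
  have h5 : (N : ℝ) ^ (κ / 100) = ((N : ℝ) ^ (κ / 200)) ^ 2 := by
    rw [← Real.rpow_mul_natCast (by positivity)]
    congr 1
    push_cast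
    ring
  rw [h5]
  calc 4 * (1 + Real.log N) ^ 2 = (2 + 2 * Real.log N) ^ 2 := by ring
    _ ≤ _ := pow_le_pow_left₀ (by positivity) hb 2

private theorem pw4 {N : ℕ} (κ : ℝ) {A : ℝ} (hA : A = (N : ℝ) ^ (κ / 100)) (k : ℕ) :
    (N : ℝ) ^ (k * (κ / 100)) = A ^ k := by
  rw [hA, ← Real.rpow_mul_natCast (by positivity)]
  congr 1
  ring

theorem an2_large {κ : ℝ} (hκ : 0 < κ) (hκ1 : κ ≤ 1) : ∀ᶠ N : ℕ in atTop, ∀ (q : ℕ) (lam z : ℝ), 0 < q → q ≤ N →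
    (1 + |lam|) * (N : ℝ) ^ κ ≤ z → z ≤ N → (N : ℝ) ^ (-(κ / 20)) ≤ |lam| →
    ∃ r : ℝ, 1 ≤ r ∧ r ≤ (N : ℝ) ^ (κ / 2) ∧
      (N : ℝ) ^ (-κ) ≤ ‖sn q lam z - (r : ℂ) ^ (lam * Complex.I : ℂ) * sn q lam (z / r)‖ := by
  filter_upwards [ev4 hκ] with N hev q lam z hq hqN hz hzN hlam
  obtain ⟨hN, hA98, hlog2, hlogκ, hdiv⟩ := hev
  have : NeZero q := ⟨hq.ne'⟩
  have hn1 : (1 : ℝ) ≤ N := by exact_mod_cast (by omega : 1 ≤ N)
  have hn0 : (0 : ℝ) < N := by linarith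
  obtain ⟨A, hA⟩ : ∃ A, A = (N : ℝ) ^ (κ / 100) := ⟨_, rfl⟩
  rw [← hA] at hA98 hlog2
  have hd := hdiv q hq.ne' hqN
  rw [← hA] at hd
  have h100 : (N : ℝ) ^ κ = A ^ 100 := by
    rw [← pw4 κ hA 100]
    congr 1
    push_cast
    ring
  have h50 : (N : ℝ) ^ (κ / 2) = A ^ 50 := by
    rw [← pw4 κ hA 50]
    congr 1
    push_cast
    ring
  have h5 : (N : ℝ) ^ (κ / 20) = A ^ 5 := by
    rw [← pw4 κ hA 5]
    congr 1
    push_cast
    ring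
  have hnegκ : (N : ℝ) ^ (-κ) = (A ^ 100)⁻¹ := by rw [Real.rpow_neg hn0.le, h100]
  have hneg5 : (N : ℝ) ^ (-(κ / 20)) = (A ^ 5)⁻¹ := by rw [Real.rpow_neg hn0.le, h5]
  rw [hneg5] at hlam
  rw [h100] at hz
  have hA0 : 0 < A := by linarith
  have hlog0 : 0 ≤ Real.log N := Real.log_nonneg hn1
  have hlogA : 1 + Real.log N ≤ A := by nlinarith
  have hlam0 : 0 < |lam| := lt_of_lt_of_le (by positivity) hlam
  have hlamne : lam ≠ 0 := abs_pos.1 hlam0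
  have hA1 : 1 ≤ A := by linarith
  -- the choice of `r`
  obtain ⟨x, hx⟩ : ∃ x : ℝ, x = (A ^ 50)⁻¹ := ⟨_, rfl⟩
  have hx0 : 0 < x := by rw [hx]; positivity
  have hx1 : x ≤ 1 := by
    rw [hx]
    exact inv_le_one_of_one_le₀ (one_le_pow₀ hA1)
  have hlogR : Real.log (A ^ 50) = κ / 2 * Real.log N := by rw [← h50, Real.log_rpow hn0]
  have hxR : x * Real.log (A ^ 50) ≤ Real.log 2 := by
    have h6 : κ / 2 * Real.log N ≤ A / 2 := by nlinarith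
    have h7 : x * (κ / 2 * Real.log N) ≤ 1 / 2 := by
      calc x * (κ / 2 * Real.log N) ≤ (A ^ 50)⁻¹ * (A / 2) := by
            rw [hx]
            exact mul_le_mul_of_nonneg_left h6 (by positivity)
        _ = (A ^ 49)⁻¹ * (1 / 2) := by field_simp
        _ ≤ 1 * (1 / 2) := by
            apply mul_le_mul_of_nonneg_right _ (by norm_num)
            exact inv_le_one_of_one_le₀ (one_le_pow₀ hA1)
        _ = 1 / 2 := one_mul _
    rw [hlogR]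
    have h8 := Real.log_two_gt_d9
    linarith
  obtain ⟨r, hr1, hrR, hrn⟩ := exists_r hx0.le (one_le_pow₀ hA1 : 1 ≤ A ^ 50) hxR hlamne
  have hmin : (A ^ 5)⁻¹ ≤ min 1 (|lam| * Real.log (A ^ 50) / 4) := by
    refine le_min (inv_le_one_of_one_le₀ (one_le_pow₀ hA1)) ?_
    rw [hlogR]
    have h6 : 1 ≤ κ / 2 * Real.log N / 4 := by
      rw [div_le_iff₀ hκ] at hlogκ
      linarith
    calc (A ^ 5)⁻¹ ≤ |lam| * 1 := by rw [mul_one]; exact hlam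
      _ ≤ |lam| * (κ / 2 * Real.log N / 4) := mul_le_mul_of_nonneg_left h6 hlam0.le
      _ = |lam| * (κ / 2 * Real.log N) / 4 := by ring
  have hrn' := hmin.trans hrn
  have hz0 : 0 < z := lt_of_lt_of_le (by positivity) hz
  have hrz : r ≤ z := by
    refine hrR.trans (le_trans ?_ hz)
    calc A ^ 50 ≤ A ^ 100 := pow_le_pow_right₀ hA1 (by norm_num)
      _ = 1 * A ^ 100 := (one_mul _).symm
      _ ≤ (1 + |lam|) * A ^ 100 := mul_le_mul_of_nonneg_right (by linarith) (by positivity)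
  -- the lower bound for the L-series
  have hlamN : 1 + |lam| ≤ N := by
    refine le_trans ?_ (hz.trans hzN)
    calc 1 + |lam| = (1 + |lam|) * 1 := (mul_one _).symm
      _ ≤ (1 + |lam|) * A ^ 100 := mul_le_mul_of_nonneg_left (one_le_pow₀ hA1) (by positivity)
  have hre : (1 + x + 2 * Complex.I * ((-lam : ℝ) : ℂ) : ℂ).re = 1 + x := by simp
  have him : (1 + x + 2 * Complex.I * ((-lam : ℝ) : ℂ) : ℂ).im = -(2 * lam) := by simp
  have hnorm : ‖(1 + x + 2 * Complex.I * ((-lam : ℝ) : ℂ) : ℂ)‖ ≤ 4 * N := by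
    have h6 : ‖(1 + x + 2 * Complex.I * ((-lam : ℝ) : ℂ) : ℂ)‖ ≤ 1 + x + 2 * |lam| := by
      refine (norm_add_le _ _).trans (add_le_add ?_ ?_)
      · rw [← Complex.ofReal_one, ← Complex.ofReal_add, Complex.norm_real,
          Real.norm_of_nonneg (by positivity)]
      · rw [norm_mul, norm_mul, Complex.norm_I, Complex.norm_real, Real.norm_eq_abs, abs_neg]
        simp
    linarith
  have hU := principal_upper (q := q) hN hqN hx0 hx1 hre hnorm (by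
    rw [him]
    exact neg_ne_zero.2 (mul_ne_zero two_ne_zero hlamne))
  rw [him, abs_neg, abs_mul, abs_two] at hU
  have hU2 : 8 * (30 + 4 * Real.log N + 1 / (2 * |lam|)) ≤ A ^ 6 := by
    have h6 : 1 / (2 * |lam|) ≤ A ^ 5 / 2 := by
      rw [div_le_div_iff₀ (by positivity) two_pos]
      have h7 : 1 ≤ |lam| * A ^ 5 := by
        calc (1 : ℝ) = (A ^ 5)⁻¹ * A ^ 5 := by rw [inv_mul_cancel₀ (by positivity)]
          _ ≤ |lam| * A ^ 5 := mul_le_mul_of_nonneg_right hlam (by positivity)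
      linarith
    have h7 : A ≤ A ^ 5 := by
      calc A = A ^ 1 := (pow_one A).symm
        _ ≤ A ^ 5 := pow_le_pow_right₀ hA1 (by norm_num)
    have h8 : 98 * A ^ 5 ≤ A ^ 6 := by
      calc 98 * A ^ 5 ≤ A * A ^ 5 := mul_le_mul_of_nonneg_right hA98 (by positivity)
        _ = A ^ 6 := by ring
    have h9 : 30 + 4 * Real.log N ≤ 5 * A ^ 5 := by linarith
    linarith
  have h341 := three_four_one (1 : DirichletCharacter ℂ q) hx0 hx1 (-lam)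
    (U := 30 + 4 * Real.log N + 1 / (2 * |lam|)) (by rw [one_pow]; exact hU) (by positivity)
  obtain ⟨L, hL⟩ : ∃ L, L = LSeries (fun n => (1 : DirichletCharacter ℂ q) n) (1 + x - lam * Complex.I) :=
    ⟨_, rfl⟩
  have hsame : (1 + x + Complex.I * ((-lam : ℝ) : ℂ) : ℂ) = 1 + x - lam * Complex.I := by
    push_cast
    ring
  rw [hsame, ← hL] at h341
  have hL4 : ((A ^ 39)⁻¹) ^ 4 ≤ ‖L‖ ^ 4 := by
    refine le_trans ?_ h341
    rw [le_div_iff₀ (by positivity)]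
    calc ((A ^ 39)⁻¹) ^ 4 * (8 * (30 + 4 * Real.log N + 1 / (2 * |lam|)))
        ≤ ((A ^ 39)⁻¹) ^ 4 * A ^ 6 := mul_le_mul_of_nonneg_left hU2 (by positivity)
      _ = x ^ 3 := by
          rw [hx]
          field_simp
  have hL1 : (A ^ 39)⁻¹ ≤ ‖L‖ := le_of_pow_le_pow_left₀ (by norm_num) (norm_nonneg _) hL4
  refine ⟨r, hr1, by rw [h50]; exact hrR, ?_⟩
  have hcomb := sn_comb (q := q) (N := N) (lam := lam) hx0 hx1 hr1 hrz hzN
  rw [← hL] at hcomb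
  obtain ⟨Y, hY⟩ : ∃ Y, Y = sn q lam z - (r : ℂ) ^ (lam * Complex.I : ℂ) * sn q lam (z / r) := ⟨_, rfl⟩
  rw [← hY] at hcomb ⊢
  obtain ⟨T, hT⟩ : ∃ T, T = (1 - (r : ℂ) ^ (-x + lam * Complex.I : ℂ)) := ⟨_, rfl⟩
  rw [← hT] at hcomb hrn'
  have hprod : (A ^ 44)⁻¹ ≤ ‖L * T‖ := by
    rw [norm_mul]
    calc (A ^ 44)⁻¹ = (A ^ 39)⁻¹ * (A ^ 5)⁻¹ := by rw [← mul_inv, ← pow_add]
      _ ≤ ‖L‖ * ‖T‖ := mul_le_mul hL1 hrn' (by positivity) (norm_nonneg _)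
  have hdist : ‖L * T‖ ≤ ‖Y‖ + ‖Y - L * T‖ := by
    calc ‖L * T‖ = ‖Y - (Y - L * T)‖ := by congr 1; ring
      _ ≤ _ := norm_sub_le _ _
  have he1 : 4 * x * (1 + Real.log N) ^ 2 ≤ (A ^ 49)⁻¹ := by
    calc 4 * x * (1 + Real.log N) ^ 2 = x * (4 * (1 + Real.log N) ^ 2) := by ring
      _ ≤ x * A := mul_le_mul_of_nonneg_left hlog2 hx0.le
      _ = (A ^ 49)⁻¹ := by rw [hx]; field_simp
  have he2 : 32 * q.divisors.card * (3 + |lam|) * r / z ≤ 96 * (A ^ 49)⁻¹ := by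
    rw [div_le_iff₀ hz0]
    calc 32 * (q.divisors.card : ℝ) * (3 + |lam|) * r ≤ 32 * A * (3 * (1 + |lam|)) * A ^ 50 := by
          apply mul_le_mul _ hrR (by linarith) (by positivity)
          apply mul_le_mul _ (by linarith) (by positivity) (by positivity)
          linarith
      _ = 96 * (A ^ 49)⁻¹ * ((1 + |lam|) * A ^ 100) := by field_simp; ring
      _ ≤ 96 * (A ^ 49)⁻¹ * z := mul_le_mul_of_nonneg_left hz (by positivity)
  have hfin : (A ^ 100)⁻¹ + 97 * (A ^ 49)⁻¹ ≤ (A ^ 44)⁻¹ := by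
    have h6 : (A ^ 100)⁻¹ ≤ (A ^ 49)⁻¹ :=
      inv_anti₀ (by positivity) (pow_le_pow_right₀ hA1 (by norm_num))
    have h7 : 98 * (A ^ 49)⁻¹ ≤ (A ^ 44)⁻¹ := by
      have h8 : (A ^ 44)⁻¹ = A ^ 5 * (A ^ 49)⁻¹ := by field_simp
      rw [h8]
      apply mul_le_mul_of_nonneg_right _ (by positivity)
      calc (98 : ℝ) ≤ A := hA98
        _ = A ^ 1 := (pow_one A).symm
        _ ≤ A ^ 5 := pow_le_pow_right₀ hA1 (by norm_num)
    linarith
  rw [hnegκ]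
  linarith

theorem an2_small {κ : ℝ} (hκ : 0 < κ) (hκ1 : κ ≤ 1) : ∀ᶠ N : ℕ in atTop, ∀ (q : ℕ) (lam z : ℝ), 0 < q → q ≤ N →
    (1 + |lam|) * (N : ℝ) ^ κ ≤ z → z ≤ N → |lam| ≤ (N : ℝ) ^ (-(κ / 20)) →
    ∃ r : ℝ, 1 ≤ r ∧ r ≤ (N : ℝ) ^ (κ / 2) ∧
      (N : ℝ) ^ (-κ) ≤ ‖sn q lam z - (r : ℂ) ^ (lam * Complex.I : ℂ) * sn q lam (z / r)‖ := by
  filter_upwards [ev4 hκ] with N hev q lam z hq hqN hz hzN hlam
  obtain ⟨hN, hA98, hlog2, hlogκ, hdiv⟩ := hev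
  have : NeZero q := ⟨hq.ne'⟩
  have hn1 : (1 : ℝ) ≤ N := by exact_mod_cast (by omega : 1 ≤ N)
  have hn0 : (0 : ℝ) < N := by linarith
  obtain ⟨A, hA⟩ : ∃ A, A = (N : ℝ) ^ (κ / 100) := ⟨_, rfl⟩
  rw [← hA] at hA98 hlog2
  have hd := hdiv q hq.ne' hqN
  rw [← hA] at hd
  have h100 : (N : ℝ) ^ κ = A ^ 100 := by
    rw [← pw4 κ hA 100]
    congr 1
    push_cast
    ring
  have h50 : (N : ℝ) ^ (κ / 2) = A ^ 50 := by
    rw [← pw4 κ hA 50]
    congr 1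
    push_cast
    ring
  have h5 : (N : ℝ) ^ (κ / 20) = A ^ 5 := by
    rw [← pw4 κ hA 5]
    congr 1
    push_cast
    ring
  have hnegκ : (N : ℝ) ^ (-κ) = (A ^ 100)⁻¹ := by rw [Real.rpow_neg hn0.le, h100]
  have hneg5 : (N : ℝ) ^ (-(κ / 20)) = (A ^ 5)⁻¹ := by rw [Real.rpow_neg hn0.le, h5]
  rw [hneg5] at hlam
  rw [h100] at hz
  have hA0 : 0 < A := by linarith
  have hlog0 : 0 ≤ Real.log N := Real.log_nonneg hn1
  have hA1 : 1 ≤ A := by linarith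
  have hlogR : Real.log (A ^ 50) = κ / 2 * Real.log N := by rw [← h50, Real.log_rpow hn0]
  have hz0 : 0 < z := lt_of_lt_of_le (by positivity) hz
  have hzA : A ^ 100 ≤ z := by
    refine le_trans ?_ hz
    calc A ^ 100 = 1 * A ^ 100 := (one_mul _).symm
      _ ≤ (1 + |lam|) * A ^ 100 :=
        mul_le_mul_of_nonneg_right (by linarith [abs_nonneg lam]) (by positivity)
  have hr1 : 1 ≤ A ^ 50 := one_le_pow₀ hA1
  have hrz : A ^ 50 ≤ z := (pow_le_pow_right₀ hA1 (by norm_num)).trans hzA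
  refine ⟨A ^ 50, hr1, h50.ge, ?_⟩
  have hsm := sn_small (q := q) (N := N) (lam := lam) hr1 hrz hzN
  refine le_trans ?_ hsm
  have h1 : 2 * A⁻¹ ≤ (q.totient : ℝ) / q * Real.log (A ^ 50) := by
    have hq0 : (0 : ℝ) < q := by exact_mod_cast hq
    have h6 : A⁻¹ ≤ (q.totient : ℝ) / q := by
      rw [le_div_iff₀ hq0, inv_mul_le_iff₀ hA0]
      exact (le_card_mul q).trans (mul_le_mul_of_nonneg_right hd (Nat.cast_nonneg _))
    have h7 : 2 ≤ Real.log (A ^ 50) := by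
      rw [hlogR]
      rw [div_le_iff₀ hκ] at hlogκ
      linarith
    calc 2 * A⁻¹ = A⁻¹ * 2 := mul_comm _ _
      _ ≤ _ := mul_le_mul h6 h7 (by norm_num) (by positivity)
  have h2 : 4 * |lam| * (1 + Real.log N) ^ 2 ≤ A⁻¹ / 2 := by
    calc 4 * |lam| * (1 + Real.log N) ^ 2 = |lam| * (4 * (1 + Real.log N) ^ 2) := by ring
      _ ≤ (A ^ 5)⁻¹ * A := mul_le_mul hlam hlog2 (by positivity) (by positivity)
      _ = A⁻¹ * (A ^ 3)⁻¹ := by field_simp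
      _ ≤ A⁻¹ * (1 / 2) := by
          apply mul_le_mul_of_nonneg_left _ (by positivity)
          rw [one_div]
          apply inv_anti₀ two_pos
          calc (2 : ℝ) ≤ A := by linarith
            _ = A ^ 1 := (pow_one A).symm
            _ ≤ A ^ 3 := pow_le_pow_right₀ hA1 (by norm_num)
      _ = A⁻¹ / 2 := by ring
  have h3 : 16 * q.divisors.card * A ^ 50 / z ≤ A⁻¹ / 2 := by
    rw [div_le_iff₀ hz0]
    calc 16 * (q.divisors.card : ℝ) * A ^ 50 ≤ 16 * A * A ^ 50 := by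
          apply mul_le_mul_of_nonneg_right _ (by positivity)
          linarith
      _ = 32 * A ^ 52 * (A⁻¹ / 2) := by field_simp; ring
      _ ≤ A ^ 100 * (A⁻¹ / 2) := by
          apply mul_le_mul_of_nonneg_right _ (by positivity)
          calc 32 * A ^ 52 ≤ A * A ^ 52 := mul_le_mul_of_nonneg_right (by linarith) (by positivity)
            _ = A ^ 53 := by ring
            _ ≤ A ^ 100 := pow_le_pow_right₀ hA1 (by norm_num)
      _ ≤ z * (A⁻¹ / 2) := mul_le_mul_of_nonneg_right hzA (by positivity)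
      _ = A⁻¹ / 2 * z := mul_comm _ _
  have h4 : (A ^ 100)⁻¹ ≤ A⁻¹ := by
    apply inv_anti₀ hA0
    calc A = A ^ 1 := (pow_one A).symm
      _ ≤ A ^ 100 := pow_le_pow_right₀ hA1 (by norm_num)
  rw [hnegκ]
  linarith

theorem an2 {κ : ℝ} (hκ : 0 < κ) : ∀ᶠ N : ℕ in atTop, ∀ (q : ℕ) (lam z : ℝ), 0 < q → q ≤ N →
    (1 + |lam|) * (N : ℝ) ^ κ ≤ z → z ≤ N →
    ∃ r : ℝ, 1 ≤ r ∧ r ≤ (N : ℝ) ^ (κ / 2) ∧
      (N : ℝ) ^ (-κ) ≤ ‖sn q lam z - (r : ℂ) ^ (lam * Complex.I : ℂ) * sn q lam (z / r)‖ := by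
  have hm : 0 < min κ 1 := lt_min hκ one_pos
  filter_upwards [an2_large hm (min_le_right κ 1), an2_small hm (min_le_right κ 1), eventually_ge_atTop 1]
    with N h1 h2 hN q lam z hq hqN hz hzN
  have hN1 : (1 : ℝ) ≤ N := by exact_mod_cast hN
  have hle : (N : ℝ) ^ (min κ 1) ≤ (N : ℝ) ^ κ := Real.rpow_le_rpow_of_exponent_le hN1 (min_le_left κ 1)
  have hle2 : (N : ℝ) ^ (min κ 1 / 2) ≤ (N : ℝ) ^ (κ / 2) :=
    Real.rpow_le_rpow_of_exponent_le hN1 (by have := min_le_left κ 1; linarith)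
  have hle' : (N : ℝ) ^ (-κ) ≤ (N : ℝ) ^ (-(min κ 1)) :=
    Real.rpow_le_rpow_of_exponent_le hN1 (neg_le_neg (min_le_left κ 1))
  have hz' : (1 + |lam|) * (N : ℝ) ^ (min κ 1) ≤ z :=
    le_trans (mul_le_mul_of_nonneg_left hle (by positivity)) hz
  rcases le_total ((N : ℝ) ^ (-(min κ 1 / 20))) |lam| with h | h
  · obtain ⟨r, hr1, hr2, hr3⟩ := h1 q lam z hq hqN hz' hzN h
    exact ⟨r, hr1, hr2.trans hle2, hle'.trans hr3⟩
  · obtain ⟨r, hr1, hr2, hr3⟩ := h2 q lam z hq hqN hz' hzN h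
    exact ⟨r, hr1, hr2.trans hle2, hle'.trans hr3⟩

end Pool.Agent.Helper68.LA
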