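import Mathlib

/-!
# Block LA-Rie: a Riemann sum

Let `m₀ = ⌊z⌋₊/d + 1` be the first `m` with `d m > z`.  If `d m₀ > Y` the sum is empty and `(1/d) ∫_z^Y ‖F‖ ≤ M (Y - z)/d ≤ M`.
Otherwise `‖(1/d) ∫_z^{d m₀} F‖ ≤ M` as `d m₀ - z ≤ d`, and for every `m ∈ Ioc (⌊z⌋₊/d) (⌊Y⌋₊/d)`:
`‖F (d m) - (1/d) ∫_{dm}^{d(m+1)} F‖ ≤ K d`; there are at most `Y/d` such `m`, and the intervals `[dm, d(m+1)]` cover `[d m₀, Y]`, `F = 0` beyond `Y`.
Total: `M + K Y`.
-/

set_option autoImplicit false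

namespace Pool.Agent.Helper68.LA

theorem riemann {d : ℕ} (hd : 0 < d) {F : ℝ → ℂ} {z Y M K : ℝ} (hz : 0 ≤ z) (hzY : z ≤ Y)
    (hM : ∀ x, z ≤ x → ‖F x‖ ≤ M) (hK0 : 0 ≤ K)
    (hK : ∀ x y, z ≤ x → z ≤ y → ‖F x - F y‖ ≤ K * |x - y|) (hF : ∀ x, Y ≤ x → F x = 0) :
    ‖(∑ m ∈ Finset.Ioc (⌊z⌋₊ / d) (⌊Y⌋₊ / d), F ((d * m : ℕ) : ℝ)) - 1 / (d : ℂ) * ∫ x in z..Y, F x‖ ≤
      2 * M + 2 * (K * Y) := by
  have hd' : (0 : ℝ) < d := by exact_mod_cast hd
  have hdc : (d : ℂ) ≠ 0 := by exact_mod_cast hd.ne'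
  have hY0 : 0 ≤ Y := hz.trans hzY
  have hM0 : 0 ≤ M := (norm_nonneg _).trans (hM z le_rfl)
  set m₀ := ⌊z⌋₊ / d with hm₀
  set m₁ := ⌊Y⌋₊ / d with hm₁
  have hle : m₀ ≤ m₁ := Nat.div_le_div_right (Nat.floor_le_floor hzY)
  have hcont : ContinuousOn F (Set.Ici z) := by
    have : LipschitzOnWith ⟨K, hK0⟩ F (Set.Ici z) := by
      refine LipschitzOnWith.of_dist_le_mul fun x hx y hy => ?_
      rw [dist_eq_norm, Real.dist_eq]
      exact hK x y hx hy
    exact this.continuousOn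
  have hint : ∀ u v : ℝ, z ≤ u → z ≤ v → IntervalIntegrable F MeasureTheory.volume u v := by
    intro u v hu hv
    apply ContinuousOn.intervalIntegrable
    apply hcont.mono
    intro x hx
    exact le_trans (le_min hu hv) hx.1
  let a : ℕ → ℝ := fun j => (d : ℝ) * ((m₀ : ℝ) + 1 + j)
  have ha : ∀ j, a j = (d : ℝ) * ((m₀ : ℝ) + 1 + j) := fun _ => rfl
  have ha0 : z ≤ a 0 := by
    have h1 : ⌊z⌋₊ + 1 ≤ d * (m₀ + 1) := Nat.lt_mul_div_succ _ hd
    have h2 : ((⌊z⌋₊ : ℝ) + 1) ≤ (d : ℝ) * ((m₀ : ℝ) + 1) := by exact_mod_cast h1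
    have h3 := Nat.lt_floor_add_one z
    rw [ha]
    push_cast
    linarith
  have ha0' : a 0 ≤ z + d := by
    have h1 : d * m₀ ≤ ⌊z⌋₊ := Nat.mul_div_le _ _
    have h2 : (d : ℝ) * (m₀ : ℝ) ≤ (⌊z⌋₊ : ℝ) := by exact_mod_cast h1
    have h3 := Nat.floor_le hz
    rw [ha]
    push_cast
    linarith
  have hstep : ∀ j, a (j + 1) = a j + d := by
    intro j
    rw [ha, ha]
    push_cast
    ring
  have haz : ∀ j, z ≤ a j := by
    intro j
    induction j with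
    | zero => exact ha0
    | succ j ih => rw [hstep]; linarith
  have haN : Y ≤ a (m₁ - m₀) := by
    have h1 : ⌊Y⌋₊ + 1 ≤ d * (m₁ + 1) := Nat.lt_mul_div_succ _ hd
    have h2 : ((⌊Y⌋₊ : ℝ) + 1) ≤ (d : ℝ) * ((m₁ : ℝ) + 1) := by exact_mod_cast h1
    have h3 := Nat.lt_floor_add_one Y
    rw [ha, Nat.cast_sub hle]
    have h4 : (d : ℝ) * ((m₀ : ℝ) + 1 + ((m₁ : ℝ) - m₀)) = (d : ℝ) * ((m₁ : ℝ) + 1) := by ring
    rw [h4]
    linarith
  -- the integral
  have hI : ∫ x in z..Y, F x = (∫ x in z..a 0, F x) +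
      ∑ j ∈ Finset.range (m₁ - m₀), ∫ x in a j..a (j + 1), F x := by
    rw [intervalIntegral.sum_integral_adjacent_intervals (fun k _ => hint _ _ (haz _) (haz _)),
      intervalIntegral.integral_add_adjacent_intervals (hint _ _ le_rfl (haz _))
        (hint _ _ (haz _) (haz _)),
      ← intervalIntegral.integral_add_adjacent_intervals (hint z Y le_rfl hzY)
        (hint Y _ hzY (haz _))]
    have h0 : ∫ x in Y..a (m₁ - m₀), F x = 0 := by
      rw [intervalIntegral.integral_congr (g := fun _ => (0 : ℂ))]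
      · simp
      · intro x hx
        rw [Set.uIcc_of_le haN] at hx
        exact hF x hx.1
    rw [h0, add_zero]
  have hS : ∑ m ∈ Finset.Ioc m₀ m₁, F ((d * m : ℕ) : ℝ) =
      ∑ j ∈ Finset.range (m₁ - m₀), F (a j) := by
    have h1 : Finset.Ioc m₀ m₁ = Finset.Ico (m₀ + 1) (m₁ + 1) := by
      ext x
      simp only [Finset.mem_Ioc, Finset.mem_Ico]
      omega
    rw [h1, Finset.sum_Ico_eq_sum_range]
    have h2 : m₁ + 1 - (m₀ + 1) = m₁ - m₀ := by omega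
    rw [h2]
    refine Finset.sum_congr rfl fun j _ => ?_
    congr 1
    rw [ha]
    push_cast
    ring
  have hterm : ∀ j, ‖F (a j) - 1 / (d : ℂ) * ∫ x in a j..a (j + 1), F x‖ ≤ K * d := by
    intro j
    have h1 : F (a j) - 1 / (d : ℂ) * ∫ x in a j..a (j + 1), F x =
        1 / (d : ℂ) * ∫ x in a j..a (j + 1), (F (a j) - F x) := by
      rw [intervalIntegral.integral_sub (by simp) (hint _ _ (haz _) (haz _)),
        intervalIntegral.integral_const, hstep]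
      have h2 : ((a j + (d : ℝ) - a j) • F (a j)) = (d : ℂ) * F (a j) := by
        rw [add_sub_cancel_left, Complex.real_smul]
        simp
      rw [h2]
      field_simp
    have h3 : ‖∫ x in a j..a (j + 1), (F (a j) - F x)‖ ≤ K * d * |a (j + 1) - a j| := by
      apply intervalIntegral.norm_integral_le_of_norm_le_const
      intro x hx
      rw [hstep, Set.uIoc_of_le (by linarith)] at hx
      refine (hK _ _ (haz j) ((haz j).trans hx.1.le)).trans ?_
      apply mul_le_mul_of_nonneg_left _ hK0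
      rw [abs_le]
      constructor
      · linarith [hx.2]
      · linarith [hx.1]
    have h4 : |a (j + 1) - a j| = d := by
      rw [hstep, add_sub_cancel_left, abs_of_pos hd']
    rw [h4] at h3
    rw [h1, norm_mul, norm_div, norm_one, Complex.norm_natCast]
    calc 1 / (d : ℝ) * ‖∫ x in a j..a (j + 1), (F (a j) - F x)‖ ≤ 1 / (d : ℝ) * (K * d * d) :=
          mul_le_mul_of_nonneg_left h3 (by positivity)
      _ = K * d := by field_simp
  have hfirst : ‖1 / (d : ℂ) * ∫ x in z..a 0, F x‖ ≤ M := by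
    have h3 : ‖∫ x in z..a 0, F x‖ ≤ M * |a 0 - z| := by
      apply intervalIntegral.norm_integral_le_of_norm_le_const
      intro x hx
      rw [Set.uIoc_of_le ha0] at hx
      exact hM x hx.1.le
    rw [abs_of_nonneg (by linarith)] at h3
    have h5 : M * (a 0 - z) ≤ M * d := mul_le_mul_of_nonneg_left (by linarith) hM0
    rw [norm_mul, norm_div, norm_one, Complex.norm_natCast]
    calc 1 / (d : ℝ) * ‖∫ x in z..a 0, F x‖ ≤ 1 / (d : ℝ) * (M * d) :=
          mul_le_mul_of_nonneg_left (h3.trans h5) (by positivity)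
      _ = M := by field_simp
  have hN : ((m₁ - m₀ : ℕ) : ℝ) * (K * d) ≤ K * Y := by
    have h1 : d * m₁ ≤ ⌊Y⌋₊ := Nat.mul_div_le _ _
    have h2 : (d : ℝ) * (m₁ : ℝ) ≤ (⌊Y⌋₊ : ℝ) := by exact_mod_cast h1
    have h3 := Nat.floor_le hY0
    have h4 : ((m₁ - m₀ : ℕ) : ℝ) ≤ m₁ := by exact_mod_cast Nat.sub_le _ _
    calc ((m₁ - m₀ : ℕ) : ℝ) * (K * d) ≤ (m₁ : ℝ) * (K * d) :=
          mul_le_mul_of_nonneg_right h4 (by positivity)
      _ = K * (d * m₁) := by ring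
      _ ≤ K * Y := mul_le_mul_of_nonneg_left (h2.trans h3) hK0
  have hKY : 0 ≤ K * Y := mul_nonneg hK0 hY0
  have hfin : (∑ j ∈ Finset.range (m₁ - m₀), F (a j)) - 1 / (d : ℂ) * ∫ x in z..Y, F x =
      (∑ j ∈ Finset.range (m₁ - m₀), (F (a j) - 1 / (d : ℂ) * ∫ x in a j..a (j + 1), F x)) -
        1 / (d : ℂ) * ∫ x in z..a 0, F x := by
    rw [hI, Finset.sum_sub_distrib, ← Finset.mul_sum]
    ring
  rw [hS, hfin]
  calc _ ≤ ‖∑ j ∈ Finset.range (m₁ - m₀), (F (a j) - 1 / (d : ℂ) * ∫ x in a j..a (j + 1), F x)‖ +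
        ‖1 / (d : ℂ) * ∫ x in z..a 0, F x‖ := norm_sub_le _ _
    _ ≤ ((m₁ - m₀ : ℕ) : ℝ) * (K * d) + M := by
        refine add_le_add ?_ hfirst
        refine (norm_sum_le _ _).trans ?_
        refine (Finset.sum_le_sum fun j _ => hterm j).trans ?_
        rw [Finset.sum_const, Finset.card_range, nsmul_eq_mul]
    _ ≤ 2 * M + 2 * (K * Y) := by linarith

end Pool.Agent.Helper68.LA
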