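import Pool.Agent.Helper68.LA.Mob
import Pool.Agent.Helper68.LA.Rie

/-!
# Block LA-Cop: sums over integers prime to `q` and integrals

`sum_coprime`, `totient_div`, `riemann`, `|μ| ≤ 1`.
-/

set_option autoImplicit false

namespace Pool.Agent.Helper68.LA

theorem cop {q : ℕ} (hq : 0 < q) {F : ℝ → ℂ} {z Y M K : ℝ} (hz : 0 ≤ z) (hzY : z ≤ Y)
    (hM : ∀ x, z ≤ x → ‖F x‖ ≤ M) (hK0 : 0 ≤ K)
    (hK : ∀ x y, z ≤ x → z ≤ y → ‖F x - F y‖ ≤ K * |x - y|) (hF : ∀ x, Y ≤ x → F x = 0) :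
    ‖(∑ n ∈ (Finset.Ioc ⌊z⌋₊ ⌊Y⌋₊).filter fun n => n.Coprime q, F n) -
        ((q.totient : ℂ) / q) * ∫ x in z..Y, F x‖ ≤ q.divisors.card * (2 * M + 2 * (K * Y)) := by
  have h1 := sum_coprime hq.ne' (fun n : ℕ => F n) ⌊z⌋₊ ⌊Y⌋₊
  rw [h1, totient_div hq.ne', Finset.sum_mul, ← Finset.sum_sub_distrib]
  refine (norm_sum_le _ _).trans ?_
  have h2 : ∀ d ∈ q.divisors,
      ‖(ArithmeticFunction.moebius d : ℂ) * ∑ m ∈ Finset.Ioc (⌊z⌋₊ / d) (⌊Y⌋₊ / d), F ((d * m : ℕ) : ℝ) -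
        (ArithmeticFunction.moebius d : ℂ) / d * ∫ x in z..Y, F x‖ ≤ 2 * M + 2 * (K * Y) := by
    intro d hd
    have hd0 : 0 < d := Nat.pos_of_mem_divisors hd
    have h3 := riemann hd0 hz hzY hM hK0 hK hF
    have h4 : (ArithmeticFunction.moebius d : ℂ) * ∑ m ∈ Finset.Ioc (⌊z⌋₊ / d) (⌊Y⌋₊ / d), F ((d * m : ℕ) : ℝ) -
        (ArithmeticFunction.moebius d : ℂ) / d * ∫ x in z..Y, F x =
        (ArithmeticFunction.moebius d : ℂ) *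
          ((∑ m ∈ Finset.Ioc (⌊z⌋₊ / d) (⌊Y⌋₊ / d), F ((d * m : ℕ) : ℝ)) - 1 / (d : ℂ) * ∫ x in z..Y, F x) := by
      ring
    rw [h4, norm_mul]
    have h5 : ‖(ArithmeticFunction.moebius d : ℂ)‖ ≤ 1 := by
      rw [Complex.norm_intCast]
      exact_mod_cast ArithmeticFunction.abs_moebius_le_one
    calc ‖(ArithmeticFunction.moebius d : ℂ)‖ *
          ‖(∑ m ∈ Finset.Ioc (⌊z⌋₊ / d) (⌊Y⌋₊ / d), F ((d * m : ℕ) : ℝ)) - 1 / (d : ℂ) * ∫ x in z..Y, F x‖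
        ≤ 1 * ‖(∑ m ∈ Finset.Ioc (⌊z⌋₊ / d) (⌊Y⌋₊ / d), F ((d * m : ℕ) : ℝ)) - 1 / (d : ℂ) * ∫ x in z..Y, F x‖ :=
          mul_le_mul_of_nonneg_right h5 (norm_nonneg _)
      _ ≤ 2 * M + 2 * (K * Y) := by rw [one_mul]; exact h3
  refine (Finset.sum_le_sum h2).trans ?_
  rw [Finset.sum_const, nsmul_eq_mul]

end Pool.Agent.Helper68.LA
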