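import Pool.Agent.Helper68.LA.Pv
import Pool.Agent.Helper68.LA.Cop
import Pool.Agent.Helper68.LA.Dv
import Pool.Agent.Helper68.LA.An1
import Pool.Agent.Helper68.LA.An2

/-!
# LA-Main: all files of PART A

`pv`, `cop`, `card_div_le`, `an1`, `an2` are the statements of `Pool/Agent/Helper17/L3/A0.lean`.
-/
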