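import Mathlib

/-!
# Block LA-Per: interval sums of a nonprincipal character are at most `q`

Sums over complete residue systems vanish (`MulChar.sum_eq_zero_of_ne_one`; `DirichletCharacter`, `χ ≠ 1`), the function is periodic with period `q`;
the rest has fewer than `q` terms of norm at most one.
-/

set_option autoImplicit false

namespace Pool.Agent.Helper68.LA

private theorem full71 {q : ℕ} [NeZero q] {χ : DirichletCharacter ℂ q} (hχ : χ ≠ 1) :
    ∑ n ∈ Finset.range q, χ (n : ZMod q) = 0 := by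
  have h := MulChar.sum_eq_zero_of_ne_one hχ
  rw [← h]
  refine Finset.sum_nbij' (fun n => (n : ZMod q)) (fun x => x.val) ?_ ?_ ?_ ?_ ?_
  · intro n _
    exact Finset.mem_univ _
  · intro x _
    exact Finset.mem_range.2 (ZMod.val_lt x)
  · intro n hn
    exact ZMod.val_cast_of_lt (Finset.mem_range.1 hn)
  · intro x _
    exact ZMod.natCast_zmod_val x
  · intro n _
    rfl

private theorem per71 {q : ℕ} [NeZero q] {χ : DirichletCharacter ℂ q} (hχ : χ ≠ 1) :
    Function.Periodic (fun m => ∑ n ∈ Finset.range m, χ (n : ZMod q)) q := by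
  intro m
  induction m with
  | zero =>
    simp only [Nat.zero_add, Finset.range_zero, Finset.sum_empty]
    exact full71 hχ
  | succ m ih =>
    simp only at ih ⊢
    rw [show m + 1 + q = (m + q) + 1 by ring, Finset.sum_range_succ, Finset.sum_range_succ, ih]
    congr 2
    push_cast
    rw [ZMod.natCast_self, add_zero]

theorem sum_le_q {q : ℕ} [NeZero q] {χ : DirichletCharacter ℂ q} (hχ : χ ≠ 1) (a b : ℕ) :
    ‖∑ n ∈ Finset.Ioc a b, χ (n : ZMod q)‖ ≤ q := by
  have hq : 0 < q := NeZero.pos q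
  have key : ∀ r s : ℕ, r ≤ s → s < q →
      ‖(∑ n ∈ Finset.range s, χ (n : ZMod q)) - ∑ n ∈ Finset.range r, χ (n : ZMod q)‖ ≤ q := by
    intro r s hrs hs
    rw [← Finset.sum_Ico_eq_sub _ hrs]
    refine (norm_sum_le _ _).trans ?_
    calc ∑ n ∈ Finset.Ico r s, ‖χ (n : ZMod q)‖ ≤ ∑ n ∈ Finset.Ico r s, (1 : ℝ) :=
          Finset.sum_le_sum fun n _ => DirichletCharacter.norm_le_one χ _
      _ = ((s - r : ℕ) : ℝ) := by rw [Finset.sum_const, Nat.card_Ico, nsmul_eq_mul, mul_one]
      _ ≤ q := by exact_mod_cast (by omega : s - r ≤ q)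
  rcases lt_or_ge b a with hab | hab
  · rw [Finset.Ioc_eq_empty (by omega), Finset.sum_empty, norm_zero]
    positivity
  · have h1 : Finset.Ioc a b = Finset.Ico (a + 1) (b + 1) := by
      ext n
      simp only [Finset.mem_Ioc, Finset.mem_Ico]
      omega
    have hp := per71 hχ
    have e1 : ∑ n ∈ Finset.range (b + 1), χ (n : ZMod q) =
        ∑ n ∈ Finset.range ((b + 1) % q), χ (n : ZMod q) := (hp.map_mod_nat (b + 1)).symm
    have e2 : ∑ n ∈ Finset.range (a + 1), χ (n : ZMod q) =
        ∑ n ∈ Finset.range ((a + 1) % q), χ (n : ZMod q) := (hp.map_mod_nat (a + 1)).symm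
    rw [h1, Finset.sum_Ico_eq_sub _ (by omega), e1, e2]
    rcases le_total ((a + 1) % q) ((b + 1) % q) with h2 | h2
    · exact key _ _ h2 (Nat.mod_lt _ hq)
    · rw [norm_sub_rev]
      exact key _ _ h2 (Nat.mod_lt _ hq)

end Pool.Agent.Helper68.LA
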