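import Pool.Agent.Helper68.LA.Lim
import Pool.Agent.Helper68.LA.Per

/-!
# Block LA-Np: upper bound for the L-series of a nonprincipal character

`lseries_tail` with `a = N^4`, `P = q ≤ N` (`sum_le_q`), `‖s‖ ≤ 4N`: the tail is at most `N (1 + 4N) / N^4 ≤ 5`; the partial sum is at most
`1 + 4 log N` (`psum_le_log`).
-/

set_option autoImplicit false

namespace Pool.Agent.Helper68.LA

theorem nonprincipal_upper {N q : ℕ} [NeZero q] (hN : 2 ≤ N) (hq : q ≤ N) {χ : DirichletCharacter ℂ q} (hχ : χ ≠ 1)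
    {x : ℝ} (hx : 0 < x) (hx1 : x ≤ 1) {s : ℂ} (hs : s.re = 1 + x) (hs4 : ‖s‖ ≤ 4 * N) :
    ‖LSeries (fun n => χ n) s‖ ≤ 30 + 4 * Real.log N := by
  have hc : ∀ n : ℕ, ‖(fun n : ℕ => χ n) n‖ ≤ 1 := fun n => DirichletCharacter.norm_le_one χ n
  have hN1 : (1 : ℝ) ≤ N := by exact_mod_cast (by omega : 1 ≤ N)
  have hN0 : (0 : ℝ) < N := by linarith
  have ha : 1 ≤ N ^ 4 := Nat.one_le_pow _ _ (by omega)
  have hre1 : 1 < s.re := by rw [hs]; linarith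
  have hP : ∀ b, ‖∑ n ∈ Finset.Ioc (N ^ 4) b, (fun n : ℕ => χ n) n‖ ≤ (N : ℝ) := fun b =>
    (sum_le_q hχ (N ^ 4) b).trans (by exact_mod_cast hq)
  have h1 := lseries_tail hc hre1 ha hP
  have h2 := psum_le_log hc hre1.le ha
  have h3 : Real.log ((N ^ 4 : ℕ) : ℝ) = 4 * Real.log N := by
    push_cast
    rw [Real.log_pow]
    norm_num
  rw [h3] at h2
  have h4 : (((N ^ 4 : ℕ) : ℝ)) ^ (-s.re) ≤ ((N : ℝ) ^ 4)⁻¹ := by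
    have h5 : (1 : ℝ) ≤ ((N ^ 4 : ℕ) : ℝ) := by exact_mod_cast ha
    calc (((N ^ 4 : ℕ) : ℝ)) ^ (-s.re) ≤ (((N ^ 4 : ℕ) : ℝ)) ^ (-1 : ℝ) :=
          Real.rpow_le_rpow_of_exponent_le h5 (by linarith)
      _ = ((N : ℝ) ^ 4)⁻¹ := by rw [Real.rpow_neg_one]; push_cast; rfl
  have h6 : ‖s‖ / s.re ≤ 4 * N := by
    rw [div_le_iff₀ (by linarith)]
    nlinarith [norm_nonneg s]
  have h7 : (N : ℝ) * (1 + ‖s‖ / s.re) * (((N ^ 4 : ℕ) : ℝ)) ^ (-s.re) ≤ 5 := by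
    have h8 : (N : ℝ) * (1 + ‖s‖ / s.re) ≤ 5 * (N : ℝ) ^ 4 := by
      have h9 : (N : ℝ) * (1 + ‖s‖ / s.re) ≤ N * (1 + 4 * N) :=
        mul_le_mul_of_nonneg_left (by linarith) hN0.le
      have h10 : (1 : ℝ) ≤ (N : ℝ) ^ 2 := one_le_pow₀ hN1
      have h11 : (N : ℝ) ≤ (N : ℝ) ^ 2 := by nlinarith
      have h12 : (N : ℝ) ^ 2 ≤ (N : ℝ) ^ 4 := by nlinarith
      nlinarith
    have h9 : (0 : ℝ) ≤ (((N ^ 4 : ℕ) : ℝ)) ^ (-s.re) := by positivity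
    calc (N : ℝ) * (1 + ‖s‖ / s.re) * (((N ^ 4 : ℕ) : ℝ)) ^ (-s.re)
        ≤ (5 * (N : ℝ) ^ 4) * ((N : ℝ) ^ 4)⁻¹ := mul_le_mul h8 h4 h9 (by positivity)
      _ = 5 := by field_simp
  have h8 := norm_sub_norm_le (LSeries (fun n : ℕ => χ n) s)
    (∑ n ∈ Finset.Icc 1 (N ^ 4), (fun n : ℕ => χ n) n * (n : ℂ) ^ (-s))
  linarith

end Pool.Agent.Helper68.LA
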