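import Mathlib

/-!
# Block LA-Mob: sums over the integers prime to `q`

`sum_coprime`: `∑_{d ∣ gcd(n,q)} μ(d) = 1` if `(n,q) = 1` and `0` otherwise (`ArithmeticFunction.sum_moebius_mul_log_eq`, `coe_zeta_mul_moebius`
or `ArithmeticFunction.moebius` facts of Mathlib); exchange the sums: the `n ∈ Ioc a b` divisible by `d` are the `d m`,
`m ∈ Ioc (a/d) (b/d)` (`a < d m ≤ b` iff `a/d < m ≤ b/d`).
`totient_div`: `φ(q) = ∑_{d ∣ q} μ(d) q/d` (Mathlib: `Nat.totient`, `sum_totient`, Moebius inversion), or from `sum_coprime` with `f = 1`, `a = 0`, `b = q`.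
`card_coprime`: `∑_{d ∣ q} μ(d) (⌊t/d⌋ - t/d)` is at most the number of divisors.
-/

set_option autoImplicit false

namespace Pool.Agent.Helper68.LA

private theorem sum_mu67 {q n : ℕ} (hq : q ≠ 0) :
    (∑ d ∈ q.divisors, if d ∣ n then (ArithmeticFunction.moebius d : ℂ) else 0) =
      if n.Coprime q then 1 else 0 := by
  have h1 : (∑ d ∈ (Nat.gcd n q).divisors, ArithmeticFunction.moebius d) =
      if Nat.gcd n q = 1 then (1 : ℤ) else 0 := by
    rw [← ArithmeticFunction.coe_mul_zeta_apply, ArithmeticFunction.moebius_mul_coe_zeta,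
      ArithmeticFunction.one_apply]
  have h2 : (Nat.gcd n q).divisors = q.divisors.filter (fun d => d ∣ n) := by
    ext d
    simp only [Nat.mem_divisors, Finset.mem_filter, Nat.dvd_gcd_iff]
    constructor
    · rintro ⟨⟨h, h'⟩, _⟩
      exact ⟨⟨h', hq⟩, h⟩
    · rintro ⟨⟨h', _⟩, h⟩
      exact ⟨⟨h, h'⟩, fun h0 => hq (Nat.eq_zero_of_gcd_eq_zero_right h0)⟩
  rw [h2] at h1
  rw [← Finset.sum_filter]
  have h3 := congrArg (fun z : ℤ => (z : ℂ)) h1
  simp only [Int.cast_sum] at h3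
  rw [h3]
  by_cases hc : n.Coprime q
  · rw [if_pos hc, if_pos (Nat.coprime_iff_gcd_eq_one.mp hc)]
    simp
  · rw [if_neg hc, if_neg (fun h => hc (Nat.coprime_iff_gcd_eq_one.mpr h))]
    simp

private theorem sum_mult67 {d : ℕ} (hd : 0 < d) (f : ℕ → ℂ) (a b : ℕ) :
    (∑ n ∈ Finset.Ioc a b, if d ∣ n then f n else 0) =
      ∑ m ∈ Finset.Ioc (a / d) (b / d), f (d * m) := by
  rw [← Finset.sum_filter]
  have h : (Finset.Ioc a b).filter (fun n => d ∣ n) =
      (Finset.Ioc (a / d) (b / d)).image (fun m => d * m) := by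
    ext n
    simp only [Finset.mem_filter, Finset.mem_Ioc, Finset.mem_image]
    constructor
    · rintro ⟨⟨h1, h2⟩, m, rfl⟩
      refine ⟨m, ⟨?_, ?_⟩, rfl⟩
      · rw [Nat.div_lt_iff_lt_mul hd, mul_comm]
        exact h1
      · rw [Nat.le_div_iff_mul_le hd, mul_comm]
        exact h2
    · rintro ⟨m, ⟨h1, h2⟩, rfl⟩
      rw [Nat.div_lt_iff_lt_mul hd, mul_comm] at h1
      rw [Nat.le_div_iff_mul_le hd, mul_comm] at h2
      exact ⟨⟨h1, h2⟩, Dvd.intro m rfl⟩
  rw [h, Finset.sum_image]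
  intro x _ y _ hxy
  exact Nat.eq_of_mul_eq_mul_left hd hxy

theorem sum_coprime {q : ℕ} (hq : q ≠ 0) (f : ℕ → ℂ) (a b : ℕ) :
    ∑ n ∈ (Finset.Ioc a b).filter (fun n => n.Coprime q), f n =
      ∑ d ∈ q.divisors, (ArithmeticFunction.moebius d : ℂ) * ∑ m ∈ Finset.Ioc (a / d) (b / d), f (d * m) := by
  rw [Finset.sum_filter]
  have h1 : ∀ n ∈ Finset.Ioc a b, (if n.Coprime q then f n else 0) =
      ∑ d ∈ q.divisors, (ArithmeticFunction.moebius d : ℂ) * (if d ∣ n then f n else 0) := by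
    intro n _
    have h2 := sum_mu67 (n := n) hq
    have h3 : (if n.Coprime q then f n else 0) = (if n.Coprime q then (1 : ℂ) else 0) * f n := by
      split_ifs <;> simp
    rw [h3, ← h2, Finset.sum_mul]
    refine Finset.sum_congr rfl fun d _ => ?_
    split_ifs <;> simp
  rw [Finset.sum_congr rfl h1, Finset.sum_comm]
  refine Finset.sum_congr rfl fun d hd => ?_
  have hd0 : 0 < d := Nat.pos_of_mem_divisors hd
  rw [← Finset.mul_sum, sum_mult67 hd0]

private theorem count67 {q : ℕ} (hq : q ≠ 0) (n : ℕ) :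
    ((((Finset.Ioc 0 n).filter fun k => k.Coprime q).card : ℕ) : ℂ) =
      ∑ d ∈ q.divisors, (ArithmeticFunction.moebius d : ℂ) * ((n / d : ℕ) : ℂ) := by
  have h := sum_coprime hq (fun _ => (1 : ℂ)) 0 n
  simp only [Finset.sum_const, nsmul_eq_mul, mul_one, Nat.zero_div, Nat.card_Ioc, Nat.sub_zero] at h
  exact h

theorem totient_div {q : ℕ} (hq : q ≠ 0) :
    ((q.totient : ℂ) / q) = ∑ d ∈ q.divisors, (ArithmeticFunction.moebius d : ℂ) / d := by
  have h := count67 hq q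
  have h1 : ((Finset.Ioc 0 q).filter fun k => k.Coprime q).card = q.totient := by
    have h2 := Nat.filter_coprime_Ico_eq_totient q 1
    rw [← h2]
    congr 1
    ext k
    simp only [Finset.mem_filter, Finset.mem_Ioc, Finset.mem_Ico]
    constructor
    · rintro ⟨⟨h3, h4⟩, h5⟩
      exact ⟨⟨by omega, by omega⟩, h5.symm⟩
    · rintro ⟨⟨h3, h4⟩, h5⟩
      exact ⟨⟨by omega, by omega⟩, h5.symm⟩
  rw [h1] at h
  rw [h, Finset.sum_div]
  refine Finset.sum_congr rfl fun d hd => ?_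
  have hd0 : (d : ℂ) ≠ 0 := by
    exact_mod_cast (Nat.pos_of_mem_divisors hd).ne'
  have hq0 : (q : ℂ) ≠ 0 := by exact_mod_cast hq
  rw [Nat.cast_div (Nat.dvd_of_mem_divisors hd) hd0]
  field_simp

theorem card_coprime {q : ℕ} (hq : q ≠ 0) (n : ℕ) :
    |(((Finset.Icc 1 n).filter fun k => k.Coprime q).card : ℝ) - (q.totient : ℝ) / q * n| ≤ q.divisors.card := by
  have h0 : Finset.Icc 1 n = Finset.Ioc 0 n := by
    ext k
    simp only [Finset.mem_Icc, Finset.mem_Ioc]
    omega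
  rw [h0]
  have h := count67 hq n
  have ht := totient_div hq
  have key : ((((((Finset.Ioc 0 n).filter fun k => k.Coprime q).card : ℝ) - (q.totient : ℝ) / q * n : ℝ)) : ℂ) =
      ∑ d ∈ q.divisors, (ArithmeticFunction.moebius d : ℂ) * (((n / d : ℕ) : ℂ) - (n : ℂ) / d) := by
    push_cast
    rw [h, ht, Finset.sum_mul, ← Finset.sum_sub_distrib]
    refine Finset.sum_congr rfl fun d _ => ?_
    ring
  rw [← Real.norm_eq_abs, ← Complex.norm_real, key]
  refine (norm_sum_le _ _).trans ?_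
  have hb : ∀ d ∈ q.divisors,
      ‖(ArithmeticFunction.moebius d : ℂ) * (((n / d : ℕ) : ℂ) - (n : ℂ) / d)‖ ≤ 1 := by
    intro d hd
    have hd0 : (0 : ℝ) < d := by exact_mod_cast Nat.pos_of_mem_divisors hd
    rw [norm_mul]
    have h1 : ‖(ArithmeticFunction.moebius d : ℂ)‖ ≤ 1 := by
      rw [Complex.norm_intCast]
      exact_mod_cast ArithmeticFunction.abs_moebius_le_one
    have h2 : ‖(((n / d : ℕ) : ℂ) - (n : ℂ) / d)‖ ≤ 1 := by
      have h3 : (((n / d : ℕ) : ℂ) - (n : ℂ) / d) = ((((n / d : ℕ) : ℝ) - (n : ℝ) / d : ℝ) : ℂ) := by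
        push_cast
        rfl
      rw [h3, Complex.norm_real, Real.norm_eq_abs, abs_le]
      have h4 : ((n / d : ℕ) : ℝ) ≤ (n : ℝ) / d := Nat.cast_div_le
      have h5 : (n : ℝ) / d < ((n / d : ℕ) : ℝ) + 1 := by
        rw [div_lt_iff₀ hd0]
        have h6 : n < (n / d + 1) * d := by
          have h7 := Nat.div_add_mod n d
          have h8 := Nat.mod_lt n (Nat.pos_of_mem_divisors hd)
          calc n = d * (n / d) + n % d := h7.symm
            _ < d * (n / d) + d := by omega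
            _ = (n / d + 1) * d := by ring
        exact_mod_cast h6
      constructor <;> linarith
    calc ‖(ArithmeticFunction.moebius d : ℂ)‖ * ‖(((n / d : ℕ) : ℂ) - (n : ℂ) / d)‖ ≤ 1 * 1 :=
          mul_le_mul h1 h2 (norm_nonneg _) zero_le_one
      _ = 1 := one_mul 1
  calc ∑ d ∈ q.divisors, ‖(ArithmeticFunction.moebius d : ℂ) * (((n / d : ℕ) : ℂ) - (n : ℂ) / d)‖
      ≤ ∑ d ∈ q.divisors, (1 : ℝ) := Finset.sum_le_sum hb
    _ = q.divisors.card := by simp

end Pool.Agent.Helper68.LA
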