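import Pool.Agent.Helper68.LA.Lim

/-!
# Block LA-Zt: the tail of the zeta series

For `n ≥ 1`: `‖∫_n^{n+1} u^(-s) du - (n+1)^(-s)‖ ≤ sup ‖u^(-s) - (n+1)^(-s)‖ ≤ (‖s‖/σ) (n^(-σ) - (n+1)^(-σ))` (as `pow_diff`; derivative of `u^(-s)`), hence for `a ≥ 1`, `re s > 1`
`‖∑_{n > a} n^(-s) - a^(1-s)/(s-1)‖ ≤ (‖s‖/σ) a^(-σ) ≤ ‖s‖ / a` (`∫_a^∞ u^(-s) du = a^(1-s)/(s-1)`, `integral_Ioi_cpow_of_lt`; or telescope with the antiderivative `u^(1-s)/(1-s)`).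
For real `z ≥ 1`, `a = ⌊z⌋₊`: `‖z^(1-s)/(s-1) - a^(1-s)/(s-1)‖ = ‖∫_a^z u^(-s) du‖ ≤ a^(-σ) ≤ 1/a ≤ 2/z`.
Total `≤ 2 (1 + ‖s‖)/z`.
-/

set_option autoImplicit false

namespace Pool.Agent.Helper68.LA

open Filter

private theorem cpow_neg_diff68 {s : ℂ} (hs : 1 < s.re) {A B : ℝ} (hA : 1 ≤ A) (hB : B ≤ A + 1) {u : ℝ}
    (hu : u ∈ Set.Icc A B) : ‖(u : ℂ) ^ (-s) - (B : ℂ) ^ (-s)‖ ≤ ‖s‖ / A ^ 2 := by
  have hs0 : -s ≠ 0 := by
    intro h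
    have h2 := congrArg Complex.re h
    rw [Complex.neg_re, Complex.zero_re] at h2
    linarith
  have h1 : ∀ x ∈ Set.Icc A B, HasDerivWithinAt (fun y : ℝ => (y : ℂ) ^ (-s)) (-s * (x : ℂ) ^ (-s - 1)) (Set.Icc A B) x := by
    intro x hx
    have hx0 : x ≠ 0 := by
      have := hx.1
      linarith
    exact (hasDerivAt_ofReal_cpow_const hx0 hs0).hasDerivWithinAt
  have h2 : ∀ x ∈ Set.Icc A B, ‖-s * (x : ℂ) ^ (-s - 1)‖ ≤ ‖s‖ / A ^ 2 := by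
    intro x hx
    have hx1 := hx.1
    have hx0 : 0 < x := by linarith
    rw [norm_mul, norm_neg, Complex.norm_cpow_eq_rpow_re_of_pos hx0, div_eq_mul_inv]
    refine mul_le_mul_of_nonneg_left ?_ (norm_nonneg _)
    have e : (-s - 1).re = -(s.re + 1) := by
      simp
      ring
    rw [e, Real.rpow_neg hx0.le]
    refine inv_anti₀ (by positivity) ?_
    calc A ^ 2 ≤ x ^ 2 := pow_le_pow_left₀ (by linarith) hx1 2
      _ = x ^ (2 : ℝ) := by norm_num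
      _ ≤ x ^ (s.re + 1) := Real.rpow_le_rpow_of_exponent_le (by linarith) (by linarith)
  have h3 := Convex.norm_image_sub_le_of_norm_hasDerivWithin_le h1 h2 (convex_Icc A B)
    (Set.right_mem_Icc.2 (hu.1.trans hu.2)) hu
  refine h3.trans ?_
  have h4 : ‖u - B‖ ≤ 1 := by
    rw [Real.norm_eq_abs, abs_le]
    constructor
    · linarith [hu.1]
    · linarith [hu.2]
  have h5 : 0 ≤ ‖s‖ / A ^ 2 := by positivity
  exact (mul_le_mul_of_nonneg_left h4 h5).trans (mul_one _).le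

private theorem step68 {s : ℂ} (hs : 1 < s.re) {A B : ℝ} (hA : 1 ≤ A) (hAB : A ≤ B) (hB : B ≤ A + 1) :
    ‖((B : ℂ) ^ (-s + 1) / (-s + 1) - (A : ℂ) ^ (-s + 1) / (-s + 1)) - ((B - A : ℝ) : ℂ) * (B : ℂ) ^ (-s)‖ ≤ ‖s‖ / A ^ 2 := by
  have hs1 : -s ≠ -1 := by
    intro h
    have h2 := congrArg Complex.re h
    rw [Complex.neg_re, Complex.neg_re, Complex.one_re] at h2
    linarith
  have h1 : ∀ x ∈ Set.Icc A B, HasDerivWithinAt (fun y : ℝ => (y : ℂ) ^ (-s + 1) / (-s + 1) - (y : ℂ) * (B : ℂ) ^ (-s))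
      ((x : ℂ) ^ (-s) - 1 * (B : ℂ) ^ (-s)) (Set.Icc A B) x := by
    intro x hx
    have hx0 : x ≠ 0 := by
      have := hx.1
      linarith
    exact ((hasDerivAt_ofReal_cpow_const' hx0 hs1).sub ((HasDerivAt.ofReal_comp (hasDerivAt_id x)).mul_const _)).hasDerivWithinAt
  have h2 : ∀ x ∈ Set.Icc A B, ‖(x : ℂ) ^ (-s) - 1 * (B : ℂ) ^ (-s)‖ ≤ ‖s‖ / A ^ 2 := by
    intro x hx
    rw [one_mul]
    exact cpow_neg_diff68 hs hA hB hx
  have h3 := Convex.norm_image_sub_le_of_norm_hasDerivWithin_le h1 h2 (convex_Icc A B)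
    (Set.left_mem_Icc.2 hAB) (Set.right_mem_Icc.2 hAB)
  have h4 : ‖B - A‖ ≤ 1 := by
    rw [Real.norm_eq_abs, abs_le]
    constructor <;> linarith
  have h5 : 0 ≤ ‖s‖ / A ^ 2 := by positivity
  have h6 := h3.trans ((mul_le_mul_of_nonneg_left h4 h5).trans (mul_one _).le)
  have e : ((B : ℂ) ^ (-s + 1) / (-s + 1) - (A : ℂ) ^ (-s + 1) / (-s + 1)) - ((B - A : ℝ) : ℂ) * (B : ℂ) ^ (-s) =
      ((B : ℂ) ^ (-s + 1) / (-s + 1) - (B : ℂ) * (B : ℂ) ^ (-s)) -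
        ((A : ℂ) ^ (-s + 1) / (-s + 1) - (A : ℂ) * (B : ℂ) ^ (-s)) := by
    push_cast
    ring
  rw [e]
  exact h6

private theorem short68 {s : ℂ} (hs : 1 < s.re) {A B : ℝ} (hA : 1 ≤ A) (hAB : A ≤ B) (hB : B ≤ A + 1) :
    ‖(B : ℂ) ^ (-s + 1) / (-s + 1) - (A : ℂ) ^ (-s + 1) / (-s + 1)‖ ≤ 1 / A := by
  have hs1 : -s ≠ -1 := by
    intro h
    have h2 := congrArg Complex.re h
    rw [Complex.neg_re, Complex.neg_re, Complex.one_re] at h2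
    linarith
  have h1 : ∀ x ∈ Set.Icc A B, HasDerivWithinAt (fun y : ℝ => (y : ℂ) ^ (-s + 1) / (-s + 1))
      ((x : ℂ) ^ (-s)) (Set.Icc A B) x := by
    intro x hx
    have hx0 : x ≠ 0 := by
      have := hx.1
      linarith
    exact (hasDerivAt_ofReal_cpow_const' hx0 hs1).hasDerivWithinAt
  have h2 : ∀ x ∈ Set.Icc A B, ‖(x : ℂ) ^ (-s)‖ ≤ 1 / A := by
    intro x hx
    have hx1 := hx.1
    have hx0 : 0 < x := by linarith
    rw [Complex.norm_cpow_eq_rpow_re_of_pos hx0, Complex.neg_re, Real.rpow_neg hx0.le, one_div]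
    refine inv_anti₀ (by linarith) ?_
    calc A ≤ x := hx1
      _ = x ^ (1 : ℝ) := (Real.rpow_one x).symm
      _ ≤ x ^ s.re := Real.rpow_le_rpow_of_exponent_le (by linarith) hs.le
  have h3 := Convex.norm_image_sub_le_of_norm_hasDerivWithin_le h1 h2 (convex_Icc A B)
    (Set.left_mem_Icc.2 hAB) (Set.right_mem_Icc.2 hAB)
  have h4 : ‖B - A‖ ≤ 1 := by
    rw [Real.norm_eq_abs, abs_le]
    constructor <;> linarith
  have h5 : 0 ≤ 1 / A := by positivity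
  exact h3.trans ((mul_le_mul_of_nonneg_left h4 h5).trans (mul_one _).le)

private theorem tel68 {s : ℂ} (hs : 1 < s.re) {a : ℕ} (ha : 1 ≤ a) {M : ℕ} (hM : a ≤ M) :
    ‖∑ n ∈ Finset.Icc 1 M, (n : ℂ) ^ (-s) - ∑ n ∈ Finset.Icc 1 a, (n : ℂ) ^ (-s) -
      ((((M : ℝ) : ℂ)) ^ (-s + 1) / (-s + 1) - (((a : ℝ) : ℂ)) ^ (-s + 1) / (-s + 1))‖ ≤
      2 * ‖s‖ * (1 / a - 1 / M) := by
  induction M, hM using Nat.le_induction with
  | base => simp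
  | succ M hM ih =>
    have hM1 : (1 : ℝ) ≤ (M : ℝ) := by exact_mod_cast ha.trans hM
    have h1 := step68 hs (A := (M : ℝ)) (B := ((M + 1 : ℕ) : ℝ)) hM1 (by push_cast; linarith) (by push_cast; linarith)
    have e1 : (((((M + 1 : ℕ) : ℝ) - (M : ℝ) : ℝ)) : ℂ) = 1 := by
      push_cast
      ring
    rw [e1, one_mul] at h1
    rw [Finset.sum_Icc_succ_top (by omega)]
    have e2 : ∑ n ∈ Finset.Icc 1 M, (n : ℂ) ^ (-s) + ((M + 1 : ℕ) : ℂ) ^ (-s) - ∑ n ∈ Finset.Icc 1 a, (n : ℂ) ^ (-s) -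
        (((((M + 1 : ℕ) : ℝ) : ℂ)) ^ (-s + 1) / (-s + 1) - (((a : ℝ) : ℂ)) ^ (-s + 1) / (-s + 1)) =
        (∑ n ∈ Finset.Icc 1 M, (n : ℂ) ^ (-s) - ∑ n ∈ Finset.Icc 1 a, (n : ℂ) ^ (-s) -
          ((((M : ℝ) : ℂ)) ^ (-s + 1) / (-s + 1) - (((a : ℝ) : ℂ)) ^ (-s + 1) / (-s + 1))) -
        ((((((M + 1 : ℕ) : ℝ) : ℂ)) ^ (-s + 1) / (-s + 1) - (((M : ℝ) : ℂ)) ^ (-s + 1) / (-s + 1)) -
          ((((M + 1 : ℕ) : ℝ) : ℂ)) ^ (-s)) := by
      rw [Complex.ofReal_natCast (M + 1)]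
      ring
    rw [e2]
    refine (norm_sub_le _ _).trans ?_
    have h3 : ‖s‖ / (M : ℝ) ^ 2 ≤ 2 * ‖s‖ * (1 / (M : ℝ) - 1 / ((M + 1 : ℕ) : ℝ)) := by
      have h4 : 1 / (M : ℝ) ^ 2 ≤ 2 * (1 / (M : ℝ) - 1 / ((M + 1 : ℕ) : ℝ)) := by
        push_cast
        have h5 : 1 / (M : ℝ) - 1 / ((M : ℝ) + 1) = 1 / ((M : ℝ) * (M + 1)) := by
          field_simp
          ring
        rw [h5, mul_one_div, div_le_div_iff₀ (by positivity) (by positivity)]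
        nlinarith
      have h6 := mul_le_mul_of_nonneg_left h4 (norm_nonneg s)
      calc ‖s‖ / (M : ℝ) ^ 2 = ‖s‖ * (1 / (M : ℝ) ^ 2) := by ring
        _ ≤ _ := h6
        _ = _ := by ring
    have h7 := add_le_add ih (h1.trans h3)
    refine h7.trans (le_of_eq ?_)
    ring

theorem zeta_tail {s : ℂ} (hs : 1 < s.re) {z : ℝ} (hz : 1 ≤ z) :
    ‖LSeries 1 s - ∑ n ∈ Finset.Icc 1 ⌊z⌋₊, (n : ℂ) ^ (-s) - (z : ℂ) ^ (1 - s) / (s - 1)‖ ≤ 4 * (1 + ‖s‖) / z := by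
  set a : ℕ := ⌊z⌋₊ with hadef
  have ha : 1 ≤ a := Nat.one_le_floor_iff _ |>.2 hz
  have ha1 : (1 : ℝ) ≤ (a : ℝ) := by exact_mod_cast ha
  have haz : (a : ℝ) ≤ z := Nat.floor_le (by linarith)
  have hza : z ≤ a + 1 := (Nat.lt_floor_add_one z).le
  have hs1 : (-s + 1) ≠ 0 := by
    intro h
    have h2 := congrArg Complex.re h
    rw [Complex.add_re, Complex.neg_re, Complex.one_re, Complex.zero_re] at h2
    linarith
  have h1 : Tendsto (fun M : ℕ => ∑ n ∈ Finset.Icc 1 M, (n : ℂ) ^ (-s)) atTop (nhds (LSeries 1 s)) := by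
    have h := lseries_psum (c := 1) (fun n => by simp) hs
    refine h.congr fun M => ?_
    refine Finset.sum_congr rfl fun n _ => ?_
    simp
  have h2 : Tendsto (fun M : ℕ => (((M : ℝ) : ℂ)) ^ (-s + 1) / (-s + 1)) atTop (nhds 0) := by
    rw [tendsto_zero_iff_norm_tendsto_zero]
    have h3 : Tendsto (fun M : ℕ => (M : ℝ) ^ (-(s.re - 1)) / ‖-s + 1‖) atTop (nhds 0) := by
      have h4 := ((tendsto_rpow_neg_atTop (y := s.re - 1) (by linarith)).comp tendsto_natCast_atTop_atTop).div_const ‖-s + 1‖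
      rw [zero_div] at h4
      exact h4
    refine h3.congr' ?_
    filter_upwards [eventually_ge_atTop 1] with M hM
    have hM0 : (0 : ℝ) < (M : ℝ) := by exact_mod_cast hM
    rw [norm_div, Complex.norm_cpow_eq_rpow_re_of_pos hM0]
    congr 2
    simp
    ring
  have h3 : ‖LSeries 1 s - ∑ n ∈ Finset.Icc 1 a, (n : ℂ) ^ (-s) - (0 - (((a : ℝ) : ℂ)) ^ (-s + 1) / (-s + 1))‖ ≤
      2 * ‖s‖ * (1 / a) := by
    refine le_of_tendsto (((h1.sub_const _).sub (h2.sub_const _)).norm) ?_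
    filter_upwards [eventually_ge_atTop a] with M hM
    refine (tel68 hs ha hM).trans ?_
    refine mul_le_mul_of_nonneg_left ?_ (by positivity)
    have : (0 : ℝ) ≤ 1 / (M : ℝ) := by positivity
    linarith
  have h4 := short68 hs ha1 haz hza
  have e1 : LSeries 1 s - ∑ n ∈ Finset.Icc 1 a, (n : ℂ) ^ (-s) - (z : ℂ) ^ (1 - s) / (s - 1) =
      (LSeries 1 s - ∑ n ∈ Finset.Icc 1 a, (n : ℂ) ^ (-s) - (0 - (((a : ℝ) : ℂ)) ^ (-s + 1) / (-s + 1))) +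
        ((z : ℂ) ^ (-s + 1) / (-s + 1) - (((a : ℝ) : ℂ)) ^ (-s + 1) / (-s + 1)) := by
    have e2 : (z : ℂ) ^ (1 - s) / (s - 1) = -((z : ℂ) ^ (-s + 1) / (-s + 1)) := by
      have e3 : (1 : ℂ) - s = -s + 1 := by ring
      have e4 : s - 1 = -(-s + 1) := by ring
      rw [e3, e4, div_neg]
    rw [e2]
    ring
  rw [e1]
  refine (norm_add_le _ _).trans ((add_le_add h3 h4).trans ?_)
  have h5 : 1 / (a : ℝ) ≤ 2 / z := by
    rw [div_le_div_iff₀ (by linarith) (by linarith)]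
    linarith
  have h6 : 0 ≤ ‖s‖ := norm_nonneg s
  have h7 := mul_le_mul_of_nonneg_left h5 (by positivity : (0 : ℝ) ≤ 2 * ‖s‖ + 1)
  calc 2 * ‖s‖ * (1 / (a : ℝ)) + 1 / a = (2 * ‖s‖ + 1) * (1 / a) := by ring
    _ ≤ (2 * ‖s‖ + 1) * (2 / z) := h7
    _ = (4 * ‖s‖ + 2) / z := by ring
    _ ≤ 4 * (1 + ‖s‖) / z := by
      refine div_le_div_of_nonneg_right ?_ (by linarith)
      linarith

end Pool.Agent.Helper68.LA
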