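import Pool.Agent.Helper68.LA.Lim
import Pool.Agent.Helper68.LA.Zt
import Pool.Agent.Helper68.LA.Mob

/-!
# Block LA-Pr: the tail of the L-series of the principal character

Let `c n = 1_{(n,q)=1} - φ(q)/q` (norm at most 1); by `card_coprime` all sums over `Ioc a b` are at most `2 #divisors(q)` in absolute value.
`LSeries 1_{(n,q)=1} s = LSeries c s + (φ(q)/q) LSeries 1 s` (re s > 1; `LSeries_add`, `LSeries_smul`, or by the limits of partial sums), `lseries_tail` for `c` at `a = ⌊z⌋₊ ≥ z/2`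
(`a^(-σ) ≤ 1/a ≤ 2/z`, `‖s‖/σ ≤ ‖s‖`) and `zeta_tail`.  (`χ n` for the principal character `χ = 1` mod `q` is the indicator of `(n,q) = 1`: `ZMod.isUnit_iff_coprime`, `MulChar.one_apply`.)

`principal_upper`: take `z = N^4` in `principal_tail` (`#divisors(q) ≤ q ≤ N`, `‖s‖ ≤ 4 N`, `8 N (1 + 4N)/N^4 ≤ 20`; `‖z^(1-s)‖ = z^(-x) ≤ 1`, `‖s-1‖ ≥ |im s|`),
the partial sum is at most `1 + 4 log N` (`psum_le_log`).
-/

set_option autoImplicit false

namespace Pool.Agent.Helper68.LA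

private theorem chi_eq63 (q : ℕ) [NeZero q] (n : ℕ) :
    (1 : DirichletCharacter ℂ q) n = if n.Coprime q then 1 else 0 := by
  by_cases h : n.Coprime q
  · rw [if_pos h, MulChar.one_apply ((ZMod.isUnit_iff_coprime n q).mpr h)]
  · rw [if_neg h]
    exact MulChar.map_nonunit _ (fun hu => h ((ZMod.isUnit_iff_coprime n q).mp hu))

private theorem tot_le63 {q : ℕ} (hq : q ≠ 0) : (q.totient : ℝ) / q ≤ 1 := by
  have hq' : (0 : ℝ) < q := by exact_mod_cast Nat.pos_of_ne_zero hq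
  rw [div_le_one hq']
  exact_mod_cast Nat.totient_le q

private theorem tot_nonneg63 (q : ℕ) : 0 ≤ (q.totient : ℝ) / q := by positivity

/-- the coefficient function minus its mean -/
private noncomputable def cc63 (q : ℕ) (n : ℕ) : ℂ :=
  (if n.Coprime q then 1 else 0) - ((q.totient : ℝ) / q : ℝ)

private theorem cc_le63 {q : ℕ} (hq : q ≠ 0) (n : ℕ) : ‖cc63 q n‖ ≤ 1 := by
  have h1 := tot_le63 hq
  have h0 := tot_nonneg63 q
  unfold cc63
  split_ifs
  · rw [show (1 : ℂ) - ((q.totient : ℝ) / q : ℝ) = ((1 - (q.totient : ℝ) / q : ℝ) : ℂ) by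
      push_cast; ring, Complex.norm_real, Real.norm_eq_abs, abs_le]
    constructor <;> linarith
  · rw [zero_sub, norm_neg, Complex.norm_real, Real.norm_eq_abs, abs_le]
    constructor <;> linarith

private theorem cc_sum63 {q : ℕ} (hq : q ≠ 0) (a b : ℕ) :
    ‖∑ n ∈ Finset.Ioc a b, cc63 q n‖ ≤ 2 * q.divisors.card := by
  rcases le_total a b with hab | hab
  swap
  · rw [Finset.Ioc_eq_empty (not_lt.mpr hab)]
    simp only [Finset.sum_empty, norm_zero]
    positivity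
  have hA := card_coprime hq a
  have hB := card_coprime hq b
  have hsum : ∀ m : ℕ, ∑ n ∈ Finset.Icc 1 m, cc63 q n =
      (((((Finset.Icc 1 m).filter fun k => k.Coprime q).card : ℝ) -
        (q.totient : ℝ) / q * m : ℝ) : ℂ) := by
    intro m
    unfold cc63
    rw [Finset.sum_sub_distrib, Finset.sum_const, Nat.card_Icc, ← Finset.sum_filter,
      Finset.sum_const]
    simp only [nsmul_eq_mul, add_tsub_cancel_right]
    push_cast
    ring
  have hsplit : ∑ n ∈ Finset.Icc 1 b, cc63 q n =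
      ∑ n ∈ Finset.Icc 1 a, cc63 q n + ∑ n ∈ Finset.Ioc a b, cc63 q n := by
    have e1 : ∀ m : ℕ, Finset.Icc 1 m = Finset.Ioc 0 m := by
      intro m; ext k; simp only [Finset.mem_Icc, Finset.mem_Ioc]; omega
    rw [e1, e1]
    exact (Finset.sum_Ioc_consecutive _ (Nat.zero_le a) hab).symm
  have h2 : ∑ n ∈ Finset.Ioc a b, cc63 q n =
      ∑ n ∈ Finset.Icc 1 b, cc63 q n - ∑ n ∈ Finset.Icc 1 a, cc63 q n := by
    rw [hsplit]; ring
  rw [h2, hsum, hsum, ← Complex.ofReal_sub, Complex.norm_real, Real.norm_eq_abs]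
  refine (abs_sub _ _).trans ?_
  linarith

private theorem lsplit63 {q : ℕ} [NeZero q] {s : ℂ} (hs : 1 < s.re) :
    LSeries (fun n => (1 : DirichletCharacter ℂ q) n) s =
      LSeries (cc63 q) s + (q.totient : ℂ) / q * LSeries 1 s := by
  have hc : LSeriesSummable (cc63 q) s :=
    LSeriesSummable_of_bounded_of_one_lt_re (m := 1)
      (fun n _ => cc_le63 (NeZero.ne q) n) hs
  have h1 : LSeriesSummable (1 : ℕ → ℂ) s :=
    LSeriesSummable_of_bounded_of_one_lt_re (m := 1) (fun n _ => by simp) hs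
  have h2 : (fun n : ℕ => (1 : DirichletCharacter ℂ q) n) =
      cc63 q + ((q.totient : ℂ) / q) • (1 : ℕ → ℂ) := by
    funext n
    simp only [Pi.add_apply, Pi.smul_apply, Pi.one_apply, smul_eq_mul, mul_one]
    rw [chi_eq63]
    unfold cc63
    push_cast
    ring
  rw [h2, LSeries_add hc (h1.smul _), LSeries_smul]

theorem principal_tail {q : ℕ} [NeZero q] {s : ℂ} (hs : 1 < s.re) {z : ℝ} (hz : 1 ≤ z) :
    ‖LSeries (fun n => (1 : DirichletCharacter ℂ q) n) s -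
        ∑ n ∈ (Finset.Icc 1 ⌊z⌋₊).filter (fun n => n.Coprime q), (n : ℂ) ^ (-s) -
        (q.totient : ℂ) / q * ((z : ℂ) ^ (1 - s) / (s - 1))‖ ≤ 8 * q.divisors.card * (1 + ‖s‖) / z := by
  have hq : q ≠ 0 := NeZero.ne q
  have hz0 : 0 < z := by linarith
  have ha : 1 ≤ ⌊z⌋₊ := (Nat.one_le_floor_iff _).mpr hz
  have hD : (1 : ℝ) ≤ q.divisors.card := by
    have : 0 < q.divisors.card := Finset.card_pos.mpr ⟨1, Nat.one_mem_divisors.mpr hq⟩
    exact_mod_cast this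
  have hT := lseries_tail (c := cc63 q) (cc_le63 hq) hs ha
    (P := 2 * q.divisors.card) (fun b => cc_sum63 hq _ b)
  have hZ := zeta_tail hs hz
  have hsum : ∑ n ∈ Finset.Icc 1 ⌊z⌋₊, cc63 q n * (n : ℂ) ^ (-s) =
      ∑ n ∈ (Finset.Icc 1 ⌊z⌋₊).filter (fun n => n.Coprime q), (n : ℂ) ^ (-s) -
        (q.totient : ℂ) / q * ∑ n ∈ Finset.Icc 1 ⌊z⌋₊, (n : ℂ) ^ (-s) := by
    rw [Finset.sum_filter, Finset.mul_sum, ← Finset.sum_sub_distrib]
    refine Finset.sum_congr rfl fun n _ => ?_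
    unfold cc63
    split_ifs
    · push_cast; ring
    · push_cast; ring
  have hkey : LSeries (fun n => (1 : DirichletCharacter ℂ q) n) s -
        ∑ n ∈ (Finset.Icc 1 ⌊z⌋₊).filter (fun n => n.Coprime q), (n : ℂ) ^ (-s) -
        (q.totient : ℂ) / q * ((z : ℂ) ^ (1 - s) / (s - 1)) =
      (LSeries (cc63 q) s - ∑ n ∈ Finset.Icc 1 ⌊z⌋₊, cc63 q n * (n : ℂ) ^ (-s)) +
      (q.totient : ℂ) / q * (LSeries 1 s - ∑ n ∈ Finset.Icc 1 ⌊z⌋₊, (n : ℂ) ^ (-s) -
        (z : ℂ) ^ (1 - s) / (s - 1)) := by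
    rw [lsplit63 hs, hsum]; ring
  rw [hkey]
  refine (norm_add_le _ _).trans ?_
  rw [norm_mul]
  have hφ : ‖(q.totient : ℂ) / q‖ ≤ 1 := by
    rw [norm_div, Complex.norm_natCast, Complex.norm_natCast]
    exact tot_le63 hq
  have hσ : 0 < s.re := by linarith
  have hpow : ((⌊z⌋₊ : ℕ) : ℝ) ^ (-s.re) ≤ 2 / z := by
    have ha' : (1 : ℝ) ≤ ((⌊z⌋₊ : ℕ) : ℝ) := by exact_mod_cast ha
    have h1 : ((⌊z⌋₊ : ℕ) : ℝ) ^ (-s.re) ≤ ((⌊z⌋₊ : ℕ) : ℝ) ^ (-1 : ℝ) :=
      Real.rpow_le_rpow_of_exponent_le ha' (by linarith)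
    refine h1.trans ?_
    rw [Real.rpow_neg_one, inv_eq_one_div, div_le_div_iff₀ (by linarith) hz0]
    have := Nat.lt_floor_add_one z
    linarith
  have hfr : ‖s‖ / s.re ≤ ‖s‖ := div_le_self (norm_nonneg _) hs.le
  have hn := norm_nonneg s
  calc _ ≤ 2 * (q.divisors.card : ℝ) * (1 + ‖s‖ / s.re) * ((⌊z⌋₊ : ℕ) : ℝ) ^ (-s.re) +
        1 * (4 * (1 + ‖s‖) / z) := by
          refine add_le_add hT (mul_le_mul hφ hZ (norm_nonneg _) zero_le_one)
    _ ≤ 2 * (q.divisors.card : ℝ) * (1 + ‖s‖) * (2 / z) +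
        (q.divisors.card : ℝ) * (4 * (1 + ‖s‖) / z) := by
          refine add_le_add ?_ ?_
          · have h0 : 0 ≤ ‖s‖ / s.re := by positivity
            refine mul_le_mul (mul_le_mul_of_nonneg_left (by linarith) (by positivity)) hpow
              (by positivity) (by positivity)
          · exact mul_le_mul_of_nonneg_right hD (by positivity)
    _ = 8 * q.divisors.card * (1 + ‖s‖) / z := by ring

theorem principal_upper {N q : ℕ} [NeZero q] (hN : 2 ≤ N) (hq : q ≤ N) {x : ℝ} (hx : 0 < x) (hx1 : x ≤ 1) {s : ℂ}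
    (hs : s.re = 1 + x) (hs4 : ‖s‖ ≤ 4 * N) (him : s.im ≠ 0) :
    ‖LSeries (fun n => (1 : DirichletCharacter ℂ q) n) s‖ ≤ 30 + 4 * Real.log N + 1 / |s.im| := by
  have hq0 : q ≠ 0 := NeZero.ne q
  have hN' : (2 : ℝ) ≤ N := by exact_mod_cast hN
  have hs1 : 1 < s.re := by linarith
  have hzc : ((N ^ 4 : ℕ) : ℝ) = (N : ℝ) ^ 4 := by push_cast; ring
  have hz : (1 : ℝ) ≤ ((N ^ 4 : ℕ) : ℝ) := by
    have : 1 ≤ N ^ 4 := Nat.one_le_pow _ _ (by omega)
    exact_mod_cast this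
  have hT := principal_tail (q := q) hs1 hz
  rw [Nat.floor_natCast] at hT
  have hM : 1 ≤ N ^ 4 := Nat.one_le_pow _ _ (by omega)
  have hP := psum_le_log (c := fun n => if n.Coprime q then 1 else 0)
    (fun n => by split_ifs <;> simp) hs1.le hM
  have hP' : ‖∑ n ∈ (Finset.Icc 1 (N ^ 4)).filter (fun n => n.Coprime q), (n : ℂ) ^ (-s)‖ ≤
      1 + 4 * Real.log N := by
    have e : ∑ n ∈ (Finset.Icc 1 (N ^ 4)).filter (fun n => n.Coprime q), (n : ℂ) ^ (-s) =
        ∑ n ∈ Finset.Icc 1 (N ^ 4), (if n.Coprime q then (1 : ℂ) else 0) * (n : ℂ) ^ (-s) := by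
      rw [Finset.sum_filter]
      refine Finset.sum_congr rfl fun n _ => ?_
      split_ifs <;> simp
    rw [e]
    refine hP.trans (le_of_eq ?_)
    rw [hzc, Real.log_pow]
    push_cast
    ring
  have hzpos : (0 : ℝ) < ((N ^ 4 : ℕ) : ℝ) := by linarith
  have hR : ‖(q.totient : ℂ) / q * ((((N ^ 4 : ℕ) : ℝ) : ℂ) ^ (1 - s) / (s - 1))‖ ≤ 1 / |s.im| := by
    rw [norm_mul, norm_div, norm_div, Complex.norm_natCast, Complex.norm_natCast,
      Complex.norm_cpow_eq_rpow_re_of_pos hzpos]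
    have h1 : ((N ^ 4 : ℕ) : ℝ) ^ ((1 - s).re) ≤ 1 := by
      refine Real.rpow_le_one_of_one_le_of_nonpos hz ?_
      simp only [Complex.sub_re, Complex.one_re]
      linarith
    have h2 : |s.im| ≤ ‖s - 1‖ := by
      have := Complex.abs_im_le_norm (s - 1)
      simpa using this
    have h3 : 0 < |s.im| := abs_pos.mpr him
    have h4 : ((N ^ 4 : ℕ) : ℝ) ^ ((1 - s).re) / ‖s - 1‖ ≤ 1 / |s.im| :=
      div_le_div₀ zero_le_one h1 h3 h2
    calc _ ≤ 1 * (1 / |s.im|) :=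
          mul_le_mul (tot_le63 hq0) h4 (by positivity) zero_le_one
      _ = _ := one_mul _
  have hE : 8 * (q.divisors.card : ℝ) * (1 + ‖s‖) / ((N ^ 4 : ℕ) : ℝ) ≤ 20 := by
    rw [div_le_iff₀ hzpos, hzc]
    have hd : (q.divisors.card : ℝ) ≤ N := by
      have : q.divisors.card ≤ N := (Nat.card_divisors_le_self q).trans hq
      exact_mod_cast this
    have hd0 : (0 : ℝ) ≤ q.divisors.card := by positivity
    calc 8 * (q.divisors.card : ℝ) * (1 + ‖s‖) ≤ 8 * N * (1 + 4 * N) := by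
          refine mul_le_mul (mul_le_mul_of_nonneg_left hd (by norm_num)) (by linarith)
            (by positivity) (by positivity)
      _ ≤ 20 * (N : ℝ) ^ 4 := by
          have h2 : (4 : ℝ) ≤ (N : ℝ) ^ 2 := by nlinarith
          have h3 : 4 * (N : ℝ) ^ 2 ≤ (N : ℝ) ^ 4 := by nlinarith
          nlinarith
  have hdec : LSeries (fun n => (1 : DirichletCharacter ℂ q) n) s =
      (LSeries (fun n => (1 : DirichletCharacter ℂ q) n) s -
        ∑ n ∈ (Finset.Icc 1 (N ^ 4)).filter (fun n => n.Coprime q), (n : ℂ) ^ (-s) -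
        (q.totient : ℂ) / q * ((((N ^ 4 : ℕ) : ℝ) : ℂ) ^ (1 - s) / (s - 1))) +
      ∑ n ∈ (Finset.Icc 1 (N ^ 4)).filter (fun n => n.Coprime q), (n : ℂ) ^ (-s) +
      (q.totient : ℂ) / q * ((((N ^ 4 : ℕ) : ℝ) : ℂ) ^ (1 - s) / (s - 1)) := by ring
  rw [hdec]
  refine (norm_add_le _ _).trans ((add_le_add_left (norm_add_le _ _) _).trans ?_)
  have hT' := hT.trans hE
  linarith

end Pool.Agent.Helper68.LA
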