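import Pool.Agent.Helper68.LA.Pv
import Pool.Agent.Helper68.LA.Cmp
import Pool.Agent.Helper68.LA.T341
import Pool.Agent.Helper68.LA.Np
import Pool.Agent.Helper68.LA.Pr

/-!
# Block LA-An1c: lower bound for truncated sums, `χ^2 ≠ 1` or `|λ| ≥ N^(-κ/2)`

`0 < κ ≤ 1`, `δ = κ/100`, `C` from `pv` with `δ`, `P = C q^(1/2+δ)`, `x = N^(-κ)`, `s = 1 + x - iλ` (`y = -λ` in `three_four_one`; `1 + x + I * ((-λ : ℝ))` and `1 + x - λ * I` are equal).
`cmp` (`c n = χ n`): the truncated sum differs from `LSeries χ s` by at most `x (1 + log N)^2 + 2 P (3 + |λ|)/z ≤ N^(-κ) (1 + log N)^2 + 6 C q^δ N^(-κ) ≤ N^(-κ+2δ)` for large `N`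
(`z ≥ √q (1 + |λ|) N^κ`, `3 + |λ| ≤ 3 (1 + |λ|)`, `q^δ ≤ N^δ`).
`U = 30 + 4 log N` if `χ^2 ≠ 1` (`nonprincipal_upper`), `U = 30 + 4 log N + 1/(2|λ|)` if `χ^2 = 1` (`principal_upper`; `im = -2λ ≠ 0`); norms: `‖1 + x + 2 I y‖ ≤ 2 + 2|λ| ≤ 4 N` because `(1 + |λ|) N^κ ≤ z ≤ N`.
In both cases `8 U ≤ N^(κ/2 + δ)` for large `N`, so `three_four_one`: `‖LSeries χ s‖^4 ≥ N^(-3κ - κ/2 - δ)`, `‖LSeries χ s‖ ≥ N^(-7κ/8 - δ/4) `, and `N^(-7κ/8 - δ/4) - N^(-κ + 2δ) ≥ N^(-κ)` for large `N`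
(`7κ/8 + δ/4 < κ - 2δ`).
-/

set_option autoImplicit false

namespace Pool.Agent.Helper68.LA

open Filter

theorem an1_complex {κ : ℝ} (hκ : 0 < κ) (hκ1 : κ ≤ 1) : ∀ᶠ N : ℕ in atTop, ∀ (q : ℕ) [NeZero q]
    (χ : DirichletCharacter ℂ q) (lam z : ℝ), q ≤ N → χ ≠ 1 → (χ ^ 2 ≠ 1 ∨ (N : ℝ) ^ (-(κ / 2)) ≤ |lam|) →
      √(q : ℝ) * (1 + |lam|) * (N : ℝ) ^ κ ≤ z → z ≤ N →
      (N : ℝ) ^ (-κ) ≤ ‖∑ n ∈ Finset.Icc 1 ⌊z⌋₊,
        χ (n : ZMod q) * (n : ℂ) ^ (-1 + lam * Complex.I : ℂ)‖ := by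
  set δ : ℝ := κ / 100 with hδdef
  have hδ : 0 < δ := by positivity
  obtain ⟨C, hC, hpv⟩ := pv hδ
  have hlim : Tendsto (fun N : ℕ => (N : ℝ) ^ δ) atTop atTop :=
    (tendsto_rpow_atTop hδ).comp tendsto_natCast_atTop_atTop
  have hlog : ∀ᶠ N : ℕ in atTop, Real.log N ≤ (N : ℝ) ^ (δ / 2) := by
    have h := (isLittleO_log_rpow_atTop (by positivity : 0 < δ / 2)).bound (c := 1) one_pos
    have h2 := tendsto_natCast_atTop_atTop.eventually h
    filter_upwards [h2] with N hN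
    rw [one_mul, Real.norm_eq_abs, Real.norm_eq_abs,
      abs_of_nonneg (by positivity : (0 : ℝ) ≤ (N : ℝ) ^ (δ / 2))] at hN
    exact (le_abs_self _).trans hN
  filter_upwards [eventually_ge_atTop 2, hlog, hlim.eventually_ge_atTop (284 + 6 * C)] with N hN2 hlogN hNδ
  intro q _ χ lam z hq hχ hcase hz hzN
  have hN2r : (2 : ℝ) ≤ N := by exact_mod_cast hN2
  have hN1 : (1 : ℝ) ≤ N := by linarith
  have hN0 : (0 : ℝ) < N := by linarith
  have hlog0 : 0 ≤ Real.log N := Real.log_nonneg hN1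
  obtain ⟨w, hw⟩ : ∃ w : ℝ, w = (N : ℝ) ^ δ := ⟨_, rfl⟩
  obtain ⟨u, hu⟩ : ∃ u : ℝ, u = (N : ℝ) ^ (δ / 2) := ⟨_, rfl⟩
  obtain ⟨x, hxdef⟩ : ∃ x : ℝ, x = (N : ℝ) ^ (-κ) := ⟨_, rfl⟩
  rw [← hw] at hNδ
  rw [← hu] at hlogN
  have hw284 : 284 ≤ w := by linarith
  have hw1 : 1 ≤ w := by linarith
  have hw0 : 0 < w := by linarith
  have hu1 : 1 ≤ u := by
    rw [hu]
    exact Real.one_le_rpow hN1 (by positivity)
  have huw : u ^ 2 = w := by
    rw [hu, hw, ← Real.rpow_natCast, ← Real.rpow_mul hN0.le]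
    congr 1
    push_cast
    ring
  have hw50 : (N : ℝ) ^ (κ / 2) = w ^ 50 := by
    rw [hw, ← Real.rpow_natCast, ← Real.rpow_mul hN0.le]
    congr 1
    rw [hδdef]
    push_cast
    ring
  have hw100 : (N : ℝ) ^ κ = w ^ 100 := by
    rw [hw, ← Real.rpow_natCast, ← Real.rpow_mul hN0.le]
    congr 1
    rw [hδdef]
    push_cast
    ring
  have hx0 : 0 < x := by
    rw [hxdef]
    positivity
  have hxw : x * w ^ 100 = 1 := by
    rw [hxdef, ← hw100, ← Real.rpow_add hN0]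
    simp
  have hx1 : x ≤ 1 := by
    rw [hxdef]
    exact Real.rpow_le_one_of_one_le_of_nonpos hN1 (by linarith)
  have hq0 : q ≠ 0 := NeZero.ne q
  have hq1 : (1 : ℝ) ≤ q := by exact_mod_cast Nat.one_le_iff_ne_zero.2 hq0
  have hqp : (0 : ℝ) < q := by linarith
  have hqN : (q : ℝ) ≤ N := by exact_mod_cast hq
  have hsq1 : 1 ≤ √(q : ℝ) := Real.one_le_sqrt.2 hq1
  have hlam0 := abs_nonneg lam
  have hw100' : 1 ≤ w ^ 100 := one_le_pow₀ hw1
  rw [hw100] at hz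
  have hz2 : 1 + |lam| ≤ z := by
    refine le_trans ?_ hz
    have h1 : 1 * (1 + |lam|) * 1 ≤ √(q : ℝ) * (1 + |lam|) * w ^ 100 := by gcongr
    linarith
  have hz1 : 1 ≤ z := by linarith
  have hz0 : 0 < z := by linarith
  have hlamN : 1 + |lam| ≤ N := hz2.trans hzN
  -- the comparison
  have hc : ∀ n : ℕ, ‖(fun n : ℕ => χ (n : ZMod q)) n‖ ≤ 1 := fun n => DirichletCharacter.norm_le_one χ n
  have hcmp := cmp (c := fun n : ℕ => χ (n : ZMod q)) hc (lam := lam) (P := C * (q : ℝ) ^ (1 / 2 + δ))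
    hx0 hx1 hz1 hzN (fun b => hpv q χ hχ ⌊z⌋₊ b)
  have herr : x * (1 + Real.log N) ^ 2 + 2 * (C * (q : ℝ) ^ (1 / 2 + δ)) * (3 + |lam|) / z ≤
      x * (w * w) := by
    have h1 : (1 + Real.log N) ^ 2 ≤ 4 * w := by
      rw [← huw]
      nlinarith
    have h2 : 2 * (C * (q : ℝ) ^ (1 / 2 + δ)) * (3 + |lam|) / z ≤ 6 * C * w * x := by
      rw [div_le_iff₀ hz0]
      have h3 : (q : ℝ) ^ (1 / 2 + δ) = √(q : ℝ) * (q : ℝ) ^ δ := by
        rw [Real.rpow_add hqp, ← Real.sqrt_eq_rpow]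
      have h4 : (q : ℝ) ^ δ ≤ w := by
        rw [hw]
        exact Real.rpow_le_rpow hqp.le hqN hδ.le
      have h5 : 0 ≤ (q : ℝ) ^ δ := by positivity
      calc 2 * (C * (q : ℝ) ^ (1 / 2 + δ)) * (3 + |lam|)
          = 2 * C * √(q : ℝ) * (q : ℝ) ^ δ * (3 + |lam|) := by rw [h3]; ring
        _ ≤ 2 * C * √(q : ℝ) * w * (3 * (1 + |lam|)) := by
            gcongr
            linarith
        _ = 6 * C * w * (x * w ^ 100) * (√(q : ℝ) * (1 + |lam|)) := by rw [hxw]; ring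
        _ = 6 * C * w * x * (√(q : ℝ) * (1 + |lam|) * w ^ 100) := by ring
        _ ≤ 6 * C * w * x * z := mul_le_mul_of_nonneg_left hz (by positivity)
    have h3 : x * (1 + Real.log N) ^ 2 ≤ x * (4 * w) := mul_le_mul_of_nonneg_left h1 hx0.le
    have h4 : (4 + 6 * C) * w ≤ w * w := mul_le_mul_of_nonneg_right (by linarith) hw0.le
    have h5 := mul_le_mul_of_nonneg_left h4 hx0.le
    linarith
  -- the bound for the square of the character
  have hlogw : Real.log N ≤ w ^ 50 := by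
    have h1 : u ≤ w := by
      rw [← huw]
      nlinarith
    have h2 : w ≤ w ^ 50 := le_self_pow₀ hw1 (by norm_num)
    linarith
  have hw50' : 1 ≤ w ^ 50 := one_le_pow₀ hw1
  set U : ℝ := 30 + 4 * Real.log N + w ^ 50 with hUdef
  have hU0 : 0 < U := by positivity
  have hU8 : 8 * U ≤ w ^ 51 := by
    have h1 : 8 * U ≤ 280 * w ^ 50 := by
      rw [hUdef]
      linarith
    have h2 : 280 * w ^ 50 ≤ w * w ^ 50 := mul_le_mul_of_nonneg_right (by linarith) (by positivity)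
    calc 8 * U ≤ w * w ^ 50 := h1.trans h2
      _ = w ^ 51 := by ring
  have hre : (1 + x + 2 * Complex.I * ((-lam : ℝ) : ℂ) : ℂ).re = 1 + x := by simp
  have him : (1 + x + 2 * Complex.I * ((-lam : ℝ) : ℂ) : ℂ).im = - 2 * lam := by simp
  have hnorm : ‖(1 + x + 2 * Complex.I * ((-lam : ℝ) : ℂ) : ℂ)‖ ≤ 4 * N := by
    refine (Complex.norm_le_abs_re_add_abs_im _).trans ?_
    rw [hre, him, abs_mul, abs_of_pos (by linarith : 0 < 1 + x)]
    have : |(-2 : ℝ)| = 2 := by norm_num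
    rw [this]
    linarith
  have hUb : ‖LSeries (fun n : ℕ => (χ ^ 2) n) (1 + x + 2 * Complex.I * ((-lam : ℝ) : ℂ))‖ ≤ U := by
    by_cases h2 : χ ^ 2 = 1
    · have h3 : (N : ℝ) ^ (-(κ / 2)) ≤ |lam| := by
        rcases hcase with h | h
        · exact absurd h2 h
        · exact h
      have h4 : (N : ℝ) ^ (-(κ / 2)) = (w ^ 50)⁻¹ := by
        rw [Real.rpow_neg hN0.le, hw50]
      rw [h4] at h3
      have hlp : 0 < |lam| := lt_of_lt_of_le (by positivity) h3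
      have hl0 : lam ≠ 0 := abs_pos.1 hlp
      rw [h2]
      have h5 := principal_upper hN2 hq hx0 hx1 hre hnorm (by rw [him]; simpa using hl0)
      rw [him] at h5
      have h6 : 1 / |(-2) * lam| ≤ w ^ 50 := by
        have h7 : |(-2) * lam| = 2 * |lam| := by
          rw [abs_mul]
          norm_num
        rw [h7, div_le_iff₀ (by positivity)]
        have h8 : w ^ 50 * (w ^ 50)⁻¹ ≤ w ^ 50 * |lam| := mul_le_mul_of_nonneg_left h3 (by positivity)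
        rw [mul_inv_cancel₀ (by positivity)] at h8
        linarith
      rw [hUdef]
      linarith
    · have h5 := nonprincipal_upper hN2 hq h2 hx0 hx1 hre hnorm
      rw [hUdef]
      linarith
  have h341 := three_four_one χ hx0 hx1 (-lam) hUb hU0
  have heq : (1 + x - lam * Complex.I : ℂ) = 1 + x + Complex.I * ((-lam : ℝ) : ℂ) := by
    push_cast
    ring
  rw [heq] at hcmp
  set L := LSeries (fun n : ℕ => χ (n : ZMod q)) (1 + x + Complex.I * ((-lam : ℝ) : ℂ)) with hL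
  set T := ∑ n ∈ Finset.Icc 1 ⌊z⌋₊, χ (n : ZMod q) * (n : ℂ) ^ (-1 + lam * Complex.I : ℂ) with hT
  rw [← hxdef]
  by_contra hcon
  push Not at hcon
  have hTL : ‖T - L‖ ≤ x * (w * w) := hcmp.trans herr
  have hLn : ‖L‖ ≤ ‖T‖ + ‖T - L‖ := by
    have h1 := norm_sub_le T (T - L)
    rw [sub_sub_cancel] at h1
    exact h1
  have hww : 1 ≤ w * w := by nlinarith
  have hL2 : ‖L‖ < 2 * x * w ^ 2 := by
    have h1 : x * 1 ≤ x * (w * w) := mul_le_mul_of_nonneg_left hww hx0.le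
    nlinarith
  have hL4 : ‖L‖ ^ 4 < 16 * x ^ 4 * w ^ 8 := by
    have h1 := pow_lt_pow_left₀ hL2 (norm_nonneg _) (by norm_num : (4 : ℕ) ≠ 0)
    calc ‖L‖ ^ 4 < (2 * x * w ^ 2) ^ 4 := h1
      _ = 16 * x ^ 4 * w ^ 8 := by ring
  have h9 : x ^ 3 < x ^ 3 := by
    have h10 : x ^ 3 / (8 * U) < 16 * x ^ 4 * w ^ 8 := lt_of_le_of_lt h341 hL4
    rw [div_lt_iff₀ (by positivity)] at h10
    have h11 : 16 * (x * w ^ 59) ≤ 1 := by
      have h12 : 16 ≤ w ^ 41 := by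
        have h13 : w ≤ w ^ 41 := le_self_pow₀ hw1 (by norm_num)
        linarith
      calc 16 * (x * w ^ 59) ≤ w ^ 41 * (x * w ^ 59) :=
            mul_le_mul_of_nonneg_right h12 (by positivity)
        _ = x * w ^ 100 := by ring
        _ = 1 := hxw
    calc x ^ 3 < 16 * x ^ 4 * w ^ 8 * (8 * U) := h10
      _ ≤ 16 * x ^ 4 * w ^ 8 * w ^ 51 := mul_le_mul_of_nonneg_left hU8 (by positivity)
      _ = x ^ 3 * (16 * (x * w ^ 59)) := by ring
      _ ≤ x ^ 3 * 1 := mul_le_mul_of_nonneg_left h11 (by positivity)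
      _ = x ^ 3 := mul_one _
  exact lt_irrefl _ h9

end Pool.Agent.Helper68.LA
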