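import Pool.Agent.Helper68.LA.Lim
import Pool.Agent.Helper68.LA.Per

/-!
# Block LA-Br: `LFunction χ β` is the limit of the partial sums for real `β > 0`, `χ ≠ 1`

Let `P_M(s) = ∑_{n ≤ M} χ n n^(-s)`.  By `psum` with `P = q` (`sum_le_q`): `‖P_{M'}(s) - P_M(s)‖ ≤ q (1 + ‖s‖/σ) M^(-σ)` for `M' ≥ M ≥ 1`, `σ = re s > 0`; so
`P_M` converges locally uniformly on the half plane `re s > 0`, the limit `D` is holomorphic there (`TendstoLocallyUniformlyOn.differentiableOn`), it equals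
`LSeries χ = LFunction χ` (`DirichletCharacter.LFunction_eq_LSeries`) for `re s > 1` and `LFunction χ` is entire (`DirichletCharacter.differentiable_LFunction`), so `D = LFunction χ` on
the half plane (`AnalyticOnNhd.eqOn_of_preconnected_of_eventuallyEq`).  The error for real `s = β`: `‖s‖/σ = 1`.

`br_tail`: the same with `P` instead of `q` for one start `a`.
-/

set_option autoImplicit false

namespace Pool.Agent.Helper68.LA

open Filter

/-- the difference of two partial sums -/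
private theorem diff88 (f : ℕ → ℂ) {a b : ℕ} (hab : a ≤ b) :
    ∑ n ∈ Finset.Icc 1 b, f n - ∑ n ∈ Finset.Icc 1 a, f n = ∑ n ∈ Finset.Ioc a b, f n := by
  have h : ∀ M, Finset.Icc 1 M = Finset.Ioc 0 M := fun M => by
    ext n; simp only [Finset.mem_Icc, Finset.mem_Ioc]; omega
  rw [h, h, ← Finset.sum_Ioc_consecutive f (Nat.zero_le a) hab]
  ring

private theorem unif88 {q : ℕ} [NeZero q] {χ : DirichletCharacter ℂ q} (hχ : χ ≠ 1) {δ R : ℝ} (hδ : 0 < δ) (hR : 0 ≤ R)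
    {s : ℂ} (hs : δ < s.re) (hs' : ‖s‖ < R) {a b : ℕ} (ha : 1 ≤ a) (hab : a ≤ b) :
    ‖∑ n ∈ Finset.Icc 1 a, χ (n : ZMod q) * (n : ℂ) ^ (-s) - ∑ n ∈ Finset.Icc 1 b, χ (n : ZMod q) * (n : ℂ) ^ (-s)‖ ≤
      q * (1 + R / δ) * (a : ℝ) ^ (-δ) := by
  rw [norm_sub_rev, diff88 (fun n => χ (n : ZMod q) * (n : ℂ) ^ (-s)) hab]
  have hs0 : 0 < s.re := hδ.trans hs
  refine (psum ha (fun b => sum_le_q hχ a b) hs0 b).trans ?_
  have h1 : ‖s‖ / s.re ≤ R / δ := div_le_div₀ hR hs'.le hδ hs.le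
  have ha1 : (1 : ℝ) ≤ a := by exact_mod_cast ha
  have h2 : (a : ℝ) ^ (-s.re) ≤ (a : ℝ) ^ (-δ) := Real.rpow_le_rpow_of_exponent_le ha1 (by linarith)
  have h3 : 0 ≤ (a : ℝ) ^ (-s.re) := by positivity
  have hq : (0 : ℝ) ≤ q := Nat.cast_nonneg q
  have h4 : 0 ≤ R / δ := by positivity
  calc (q : ℝ) * (1 + ‖s‖ / s.re) * (a : ℝ) ^ (-s.re) ≤ q * (1 + R / δ) * (a : ℝ) ^ (-s.re) := by gcongr
    _ ≤ q * (1 + R / δ) * (a : ℝ) ^ (-δ) := by gcongr

theorem br_tendsto {q : ℕ} [NeZero q] {χ : DirichletCharacter ℂ q} (hχ : χ ≠ 1) {β : ℝ} (hβ : 0 < β) :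
    Tendsto (fun M : ℕ => ∑ n ∈ Finset.Icc 1 M, χ (n : ZMod q) * (n : ℂ) ^ (-(β : ℂ))) atTop
      (nhds (DirichletCharacter.LFunction χ β)) := by
  set δ : ℝ := min (β / 2) 1 with hδdef
  have hδ : 0 < δ := lt_min (by linarith) one_pos
  have hδβ : δ < β := lt_of_le_of_lt (min_le_left _ _) (by linarith)
  have hδ2 : δ < 2 := lt_of_le_of_lt (min_le_right _ _) (by norm_num)
  set R : ℝ := β + 3 with hRdef
  have hR : 0 ≤ R := by positivity
  set U : Set ℂ := {s : ℂ | δ < s.re} ∩ Metric.ball 0 R with hU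
  have hUo : IsOpen U := (isOpen_lt continuous_const Complex.continuous_re).inter Metric.isOpen_ball
  have hUc : IsPreconnected U := by
    refine Convex.isPreconnected ?_
    exact (convex_halfSpace_re_gt δ).inter (convex_ball 0 R)
  have hmem : ∀ s ∈ U, δ < s.re ∧ ‖s‖ < R := by
    intro s hs
    exact ⟨hs.1, by simpa using hs.2⟩
  have h2U : (2 : ℂ) ∈ U := by
    refine ⟨?_, ?_⟩
    · show δ < (2 : ℂ).re
      simpa using hδ2
    · rw [Metric.mem_ball, dist_zero_right]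
      have : ‖(2 : ℂ)‖ = 2 := by norm_num
      rw [this]
      linarith
  have hβU : (β : ℂ) ∈ U := by
    refine ⟨?_, ?_⟩
    · show δ < (β : ℂ).re
      simpa using hδβ
    · rw [Metric.mem_ball, dist_zero_right, Complex.norm_real, Real.norm_eq_abs, abs_of_pos hβ]
      linarith
  set F : ℕ → ℂ → ℂ := fun M s => ∑ n ∈ Finset.Icc 1 (M + 1), χ (n : ZMod q) * (n : ℂ) ^ (-s) with hF
  set bd : ℕ → ℝ := fun M => q * (1 + R / δ) * ((M + 1 : ℕ) : ℝ) ^ (-δ) with hbd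
  have hbd0 : Tendsto bd atTop (nhds 0) := by
    have h1 : Tendsto (fun M : ℕ => ((M + 1 : ℕ) : ℝ) ^ (-δ)) atTop (nhds 0) :=
      (tendsto_rpow_neg_atTop hδ).comp (tendsto_natCast_atTop_atTop.comp (tendsto_add_atTop_nat 1))
    have h2 := h1.const_mul (q * (1 + R / δ))
    rwa [mul_zero] at h2
  have hdist : ∀ s ∈ U, ∀ M M' : ℕ, M ≤ M' → dist (F M s) (F M' s) ≤ bd M := by
    intro s hs M M' hM
    rw [dist_eq_norm]
    exact unif88 hχ hδ hR (hmem s hs).1 (hmem s hs).2 (by omega) (by omega)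
  have hex : ∀ s ∈ U, ∃ d, Tendsto (fun M => F M s) atTop (nhds d) := fun s hs =>
    cauchySeq_tendsto_of_complete (cauchySeq_of_le_tendsto_0' bd (hdist s hs) hbd0)
  classical
  set Dl : ℂ → ℂ := fun s => if h : ∃ d, Tendsto (fun M => F M s) atTop (nhds d) then h.choose else 0 with hDl
  have hDlt : ∀ s ∈ U, Tendsto (fun M => F M s) atTop (nhds (Dl s)) := by
    intro s hs
    have h := hex s hs
    have h1 : Dl s = h.choose := dif_pos h
    rw [h1]
    exact h.choose_spec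
  have hunif : TendstoUniformlyOn F Dl atTop U := by
    rw [Metric.tendstoUniformlyOn_iff]
    intro ε hε
    filter_upwards [hbd0.eventually (gt_mem_nhds hε)] with M hM s hs
    refine lt_of_le_of_lt ?_ hM
    have h1 : Tendsto (fun M' => dist (F M' s) (F M s)) atTop (nhds (dist (Dl s) (F M s))) :=
      (hDlt s hs).dist tendsto_const_nhds
    refine le_of_tendsto h1 ?_
    filter_upwards [eventually_ge_atTop M] with M' hM'
    rw [dist_comm]
    exact hdist s hs M M' hM'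
  have hFd : ∀ M, Differentiable ℂ (F M) := by
    intro M
    rw [hF]
    refine Differentiable.fun_sum fun n hn => ?_
    have hn0 : (n : ℂ) ≠ 0 := by
      have : 1 ≤ n := (Finset.mem_Icc.1 hn).1
      exact_mod_cast (by omega : n ≠ 0)
    refine (differentiable_const _).mul ?_
    exact (differentiable_neg).const_cpow (Or.inl hn0)
  have hDd : DifferentiableOn ℂ Dl U :=
    hunif.tendstoLocallyUniformlyOn.differentiableOn
      (Eventually.of_forall fun M => (hFd M).differentiableOn) hUo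
  have hDa : AnalyticOnNhd ℂ Dl U := hDd.analyticOnNhd hUo
  have hLa : AnalyticOnNhd ℂ (DirichletCharacter.LFunction χ) U :=
    (DirichletCharacter.differentiable_LFunction hχ).differentiableOn.analyticOnNhd hUo
  have hev : Dl =ᶠ[nhds (2 : ℂ)] DirichletCharacter.LFunction χ := by
    have hV : {s : ℂ | 1 < s.re} ∩ U ∈ nhds (2 : ℂ) := by
      refine ((isOpen_lt continuous_const Complex.continuous_re).inter hUo).mem_nhds ⟨?_, h2U⟩
      show (1 : ℝ) < (2 : ℂ).re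
      norm_num
    filter_upwards [hV] with s hs
    have h1 : Tendsto (fun M : ℕ => F M s) atTop (nhds (LSeries (fun n => χ (n : ZMod q)) s)) := by
      have h2 := lseries_psum (c := fun n => χ (n : ZMod q)) (fun n => DirichletCharacter.norm_le_one χ _) hs.1
      exact h2.comp (tendsto_add_atTop_nat 1)
    rw [DirichletCharacter.LFunction_eq_LSeries χ hs.1]
    exact tendsto_nhds_unique (hDlt s hs.2) h1
  have heq := hDa.eqOn_of_preconnected_of_eventuallyEq hLa hUc h2U hev hβU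
  have hfin := hDlt _ hβU
  rw [heq] at hfin
  exact (tendsto_add_atTop_iff_nat 1).1 hfin

theorem br_tail {q : ℕ} [NeZero q] {χ : DirichletCharacter ℂ q} (hχ : χ ≠ 1) {β : ℝ} (hβ : 0 < β) {P : ℝ} {a : ℕ} (ha : 1 ≤ a)
    (hP : ∀ b, ‖∑ n ∈ Finset.Ioc a b, χ (n : ZMod q)‖ ≤ P) :
    ‖∑ n ∈ Finset.Icc 1 a, χ (n : ZMod q) * (n : ℂ) ^ (-(β : ℂ)) - DirichletCharacter.LFunction χ β‖ ≤
      2 * P * (a : ℝ) ^ (-β) := by
  have h1 : Tendsto (fun b : ℕ => ‖∑ n ∈ Finset.Icc 1 a, χ (n : ZMod q) * (n : ℂ) ^ (-(β : ℂ)) -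
      ∑ n ∈ Finset.Icc 1 b, χ (n : ZMod q) * (n : ℂ) ^ (-(β : ℂ))‖) atTop
      (nhds ‖∑ n ∈ Finset.Icc 1 a, χ (n : ZMod q) * (n : ℂ) ^ (-(β : ℂ)) - DirichletCharacter.LFunction χ β‖) :=
    (tendsto_const_nhds.sub (br_tendsto hχ hβ)).norm
  refine le_of_tendsto h1 ?_
  filter_upwards [eventually_ge_atTop a] with b hb
  rw [norm_sub_rev, diff88 (fun n => χ (n : ZMod q) * (n : ℂ) ^ (-(β : ℂ))) hb]
  have hre : 0 < ((β : ℂ)).re := by simpa using hβ
  have h2 := psum ha hP hre b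
  have h3 : ‖(β : ℂ)‖ / ((β : ℂ)).re = 1 := by
    rw [Complex.norm_real, Complex.ofReal_re, Real.norm_eq_abs, abs_of_pos hβ, div_self hβ.ne']
  rw [h3, Complex.ofReal_re] at h2
  calc _ ≤ P * (1 + 1) * (a : ℝ) ^ (-β) := h2
    _ = 2 * P * (a : ℝ) ^ (-β) := by ring

theorem br {q : ℕ} [NeZero q] {χ : DirichletCharacter ℂ q} (hχ : χ ≠ 1) {β : ℝ} (hβ : 0 < β) {M : ℕ} (hM : 1 ≤ M) :
    ‖∑ n ∈ Finset.Icc 1 M, χ (n : ZMod q) * (n : ℂ) ^ (-(β : ℂ)) - DirichletCharacter.LFunction χ β‖ ≤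
      2 * q * (M : ℝ) ^ (-β) :=
  br_tail hχ hβ hM fun b => sum_le_q hχ M b

end Pool.Agent.Helper68.LA
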