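import Mathlib

/-!
# Project LA (MP_b6b996_nt, PART A of the exponent 1/3): definitions

Real Dirichlet characters as functions `f : ℕ → ℝ` with L-data `LD f Q L`: `|f| ≤ 1`, all interval sums are at most `Q`, and the partial sums
of `∑ f n n^(-β)` converge to `L β` for `1/2 ≤ β ≤ 1` with error `2 Q M^(-β)`.
-/

set_option autoImplicit false

namespace Pool.Agent.Helper68.LA

/-- Dirichlet convolution of real functions -/
noncomputable def conv (u v : ℕ → ℝ) (n : ℕ) : ℝ := ∑ p ∈ n.divisorsAntidiagonal, u p.1 * v p.2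

/-- the constant function one -/
def one : ℕ → ℝ := fun _ => 1

/-- partial sums of `f` are bounded by `Q`, and `∑ f n n^(-β) = L β` with a good rate -/
structure LD (f : ℕ → ℝ) (Q : ℝ) (L : ℝ → ℝ) : Prop where
  one_le : 1 ≤ Q
  bd : ∀ n, |f n| ≤ 1
  per : ∀ a b : ℕ, |∑ n ∈ Finset.Ioc a b, f n| ≤ Q
  app : ∀ β : ℝ, 1 / 2 ≤ β → β ≤ 1 → ∀ M : ℕ, 1 ≤ M →
    |∑ n ∈ Finset.Icc 1 M, f n * (n : ℝ) ^ (-β) - L β| ≤ 2 * Q * (M : ℝ) ^ (-β)

theorem LD.mono {f : ℕ → ℝ} {Q Q' : ℝ} {L : ℝ → ℝ} (h : LD f Q L) (hQ : Q ≤ Q') : LD f Q' L where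
  one_le := h.one_le.trans hQ
  bd := h.bd
  per a b := (h.per a b).trans hQ
  app β h0 h1 M hM := (h.app β h0 h1 M hM).trans (by
    have : 0 ≤ (M : ℝ) ^ (-β) := by positivity
    nlinarith)

theorem LD.abs_one_le {f : ℕ → ℝ} {Q : ℝ} {L : ℝ → ℝ} (h : LD f Q L) {β : ℝ} (h0 : 1 / 2 ≤ β) (h1 : β ≤ 1) :
    |L β| ≤ 3 * Q := by
  have h2 := h.app β h0 h1 1 le_rfl
  have h3 := h.bd 1
  have h4 := h.one_le
  simp only [Finset.Icc_self, Finset.sum_singleton, Nat.cast_one, Real.one_rpow, mul_one] at h2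
  rw [abs_le] at *
  constructor <;> linarith [h2.1, h2.2, h3.1, h3.2]

end Pool.Agent.Helper68.LA
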