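import Mathlib

/-!
# Block LA-Zc: `∑_{a ≤ t} a^(-β)` for `1/2 ≤ β < 1`

Let `e n = ∑_{a ≤ n} a^(-β) - n^(1-β)/(1-β)` (`n ≥ 1`).  `e n - e (n-1) = n^(-β) - ∫_{n-1}^n u^(-β) du ∈ [-((n-1)^(-β) - n^(-β)), 0]`, so `e` decreases to a limit `ζ` with
`0 ≤ e n - ζ ≤ n^(-β)`; `ζ ≤ e 1 = -β/(1-β) ≤ 0` and `ζ ≥ e 1 - 1 = -1/(1-β)`.  For real `t ≥ 1`, `n = ⌊t⌋₊`: `t^(1-β)/(1-β) - n^(1-β)/(1-β) = ∫_n^t u^(-β) du ∈ [0, n^(-β)]`, so the error is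
at most `n^(-β) ≤ 2 t^(-β)` (`n ≥ t/2`, `2^β ≤ 2`).
(Instead of integrals: for `0 < a ≤ b`, `(b - a) b^(-β) ≤ (b^(1-β) - a^(1-β))/(1-β) ≤ (b - a) a^(-β)`, mean value theorem or Bernoulli.)
`sum_rpow_le`: `∑_{a ≤ n} a^(-β) ≤ n^(1-β)/(1-β)`.
-/

set_option autoImplicit false

namespace Pool.Agent.Helper68.LA

private theorem bern53 {p x y : ℝ} (hx : 0 < x) (hy : 0 ≤ y) (h0 : 0 ≤ p) (h1 : p ≤ 1) :
    y ^ p ≤ x ^ p + p * (y - x) * x ^ (p - 1) := by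
  have h := rpow_one_add_le_one_add_mul_self (s := y / x - 1)
    (by have := div_nonneg hy hx.le; linarith) h0 h1
  rw [show 1 + (y / x - 1) = y / x by ring, Real.div_rpow hy hx.le] at h
  have hxp : 0 < x ^ p := Real.rpow_pos_of_pos hx p
  rw [div_le_iff₀ hxp] at h
  have h2 : x ^ (p - 1) = x ^ p / x := Real.rpow_sub_one hx.ne' p
  rw [h2]
  calc y ^ p ≤ (1 + p * (y / x - 1)) * x ^ p := h
    _ = x ^ p + p * (y - x) * (x ^ p / x) := by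
        field_simp

private theorem up53 {β x y : ℝ} (hx : 0 < x) (hxy : x ≤ y) (h0 : 0 ≤ β) (h1 : β < 1) :
    (y ^ (1 - β) - x ^ (1 - β)) / (1 - β) ≤ (y - x) * x ^ (-β) := by
  have h := bern53 (p := 1 - β) hx (hx.le.trans hxy) (by linarith) (by linarith)
  rw [show 1 - β - 1 = -β by ring] at h
  rw [div_le_iff₀ (by linarith)]
  linarith

private theorem lo53 {β x y : ℝ} (hx : 0 ≤ x) (hy : 0 < y) (h0 : 0 ≤ β) (h1 : β < 1) :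
    (y - x) * y ^ (-β) ≤ (y ^ (1 - β) - x ^ (1 - β)) / (1 - β) := by
  have h := bern53 (p := 1 - β) hy hx (by linarith) (by linarith)
  rw [show 1 - β - 1 = -β by ring] at h
  rw [le_div_iff₀ (by linarith)]
  linarith

private noncomputable def ee53 (β : ℝ) (n : ℕ) : ℝ :=
  ∑ a ∈ Finset.Icc 1 n, (a : ℝ) ^ (-β) - (n : ℝ) ^ (1 - β) / (1 - β)

private theorem ee_succ53 (β : ℝ) (n : ℕ) : ee53 β (n + 1) = ee53 β n +
    (((n + 1 : ℕ) : ℝ) ^ (-β) - (((n + 1 : ℕ) : ℝ) ^ (1 - β) - (n : ℝ) ^ (1 - β)) / (1 - β)) := by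
  unfold ee53
  rw [Finset.sum_Icc_succ_top (by omega)]
  ring

private theorem ee_anti53 {β : ℝ} (h0 : 0 ≤ β) (h1 : β < 1) (n : ℕ) : ee53 β (n + 1) ≤ ee53 β n := by
  have h := lo53 (x := (n : ℝ)) (y := ((n + 1 : ℕ) : ℝ)) (by positivity) (by positivity) h0 h1
  rw [show ((n + 1 : ℕ) : ℝ) - n = 1 by push_cast; ring, one_mul] at h
  rw [ee_succ53]
  linarith

private theorem gg_mono53 {β : ℝ} (h0 : 0 ≤ β) (h1 : β < 1) {n : ℕ} (hn : 1 ≤ n) :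
    ee53 β n - (n : ℝ) ^ (-β) ≤ ee53 β (n + 1) - ((n + 1 : ℕ) : ℝ) ^ (-β) := by
  have hn' : (0 : ℝ) < n := by exact_mod_cast hn
  have h := up53 (x := (n : ℝ)) (y := ((n + 1 : ℕ) : ℝ)) hn' (by push_cast; linarith) h0 h1
  rw [show ((n + 1 : ℕ) : ℝ) - n = 1 by push_cast; ring, one_mul] at h
  rw [ee_succ53]
  linarith

private theorem gg_le_ee53 {β : ℝ} (h0 : 0 ≤ β) (h1 : β < 1) (m n : ℕ) :
    ee53 β (n + 1) - ((n + 1 : ℕ) : ℝ) ^ (-β) ≤ ee53 β (m + 1) := by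
  have ha : Antitone fun n => ee53 β (n + 1) := antitone_nat_of_succ_le fun n => ee_anti53 h0 h1 (n + 1)
  have hg : Monotone fun n : ℕ => ee53 β (n + 1) - ((n + 1 : ℕ) : ℝ) ^ (-β) :=
    monotone_nat_of_le_succ fun n => gg_mono53 h0 h1 (by omega)
  have hp : ∀ n : ℕ, 0 ≤ ((n + 1 : ℕ) : ℝ) ^ (-β) := fun n => Real.rpow_nonneg (by positivity) _
  have h2 := hg (le_max_left n m)
  have h3 := ha (le_max_right n m)
  simp only [] at h2 h3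
  linarith [hp (max n m)]

theorem exists_zc {β : ℝ} (h0 : 1 / 2 ≤ β) (h1 : β < 1) : ∃ ζ : ℝ, ζ ≤ 0 ∧ -(1 / (1 - β)) ≤ ζ ∧ ∀ t : ℝ, 1 ≤ t →
    |∑ a ∈ Finset.Icc 1 ⌊t⌋₊, (a : ℝ) ^ (-β) - t ^ (1 - β) / (1 - β) - ζ| ≤ 2 * t ^ (-β) := by
  have hb0 : 0 ≤ β := by linarith
  have hb1 : 0 < 1 - β := by linarith
  have hbdd : BddAbove (Set.range fun n : ℕ => ee53 β (n + 1) - ((n + 1 : ℕ) : ℝ) ^ (-β)) := by
    refine ⟨ee53 β (0 + 1), ?_⟩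
    rintro _ ⟨n, rfl⟩
    exact gg_le_ee53 hb0 h1 0 n
  set ζ : ℝ := ⨆ n : ℕ, (ee53 β (n + 1) - ((n + 1 : ℕ) : ℝ) ^ (-β)) with hζ
  have hlo : ∀ n : ℕ, ee53 β (n + 1) - ((n + 1 : ℕ) : ℝ) ^ (-β) ≤ ζ := fun n => le_ciSup hbdd n
  have hup : ∀ m : ℕ, ζ ≤ ee53 β (m + 1) := fun m => ciSup_le fun n => gg_le_ee53 hb0 h1 m n
  have he1 : ee53 β (0 + 1) = 1 - 1 / (1 - β) := by
    unfold ee53
    simp
  have hd1 : 1 ≤ 1 / (1 - β) := by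
    rw [le_div_iff₀ hb1]
    linarith
  refine ⟨ζ, ?_, ?_, ?_⟩
  · have := hup 0
    rw [he1] at this
    linarith
  · have := hlo 0
    rw [he1] at this
    simp only [zero_add, Nat.cast_one, Real.one_rpow] at this
    linarith
  · intro t ht
    obtain ⟨n, hn⟩ : ∃ n : ℕ, ⌊t⌋₊ = n + 1 := by
      have : 1 ≤ ⌊t⌋₊ := Nat.one_le_floor_iff t |>.2 ht
      exact ⟨⌊t⌋₊ - 1, by omega⟩
    have hn1 : ((n + 1 : ℕ) : ℝ) ≤ t := by
      rw [← hn]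
      exact Nat.floor_le (by linarith)
    have hn2 : t < ((n + 1 : ℕ) : ℝ) + 1 := by
      rw [← hn]
      exact Nat.lt_floor_add_one t
    have hn0 : (0 : ℝ) < ((n + 1 : ℕ) : ℝ) := by positivity
    rw [hn]
    have hA := hlo n
    have hB := hup n
    have hC := up53 hn0 hn1 hb0 h1
    have hD : 0 ≤ (t ^ (1 - β) - ((n + 1 : ℕ) : ℝ) ^ (1 - β)) / (1 - β) := by
      refine div_nonneg (sub_nonneg.2 ?_) hb1.le
      exact Real.rpow_le_rpow hn0.le hn1 hb1.le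
    have hp : 0 < ((n + 1 : ℕ) : ℝ) ^ (-β) := Real.rpow_pos_of_pos hn0 _
    have hC' : (t ^ (1 - β) - ((n + 1 : ℕ) : ℝ) ^ (1 - β)) / (1 - β) ≤ ((n + 1 : ℕ) : ℝ) ^ (-β) := by
      refine hC.trans ?_
      have : (t - ((n + 1 : ℕ) : ℝ)) * ((n + 1 : ℕ) : ℝ) ^ (-β) ≤ 1 * ((n + 1 : ℕ) : ℝ) ^ (-β) :=
        mul_le_mul_of_nonneg_right (by linarith) hp.le
      linarith
    have hE : ((n + 1 : ℕ) : ℝ) ^ (-β) ≤ 2 * t ^ (-β) := by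
      have ht0 : 0 < t := by linarith
      have h2 : t / 2 ≤ ((n + 1 : ℕ) : ℝ) := by
        have : (1 : ℝ) ≤ ((n + 1 : ℕ) : ℝ) := by push_cast; linarith [(Nat.cast_nonneg n : (0 : ℝ) ≤ n)]
        linarith
      have h3 : ((n + 1 : ℕ) : ℝ) ^ (-β) ≤ (t / 2) ^ (-β) :=
        Real.rpow_le_rpow_of_nonpos (by linarith) h2 (by linarith)
      refine h3.trans ?_
      rw [Real.div_rpow ht0.le (by norm_num), Real.rpow_neg (by norm_num : (0 : ℝ) ≤ 2), div_inv_eq_mul, mul_comm]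
      refine mul_le_mul_of_nonneg_right ?_ (Real.rpow_nonneg ht0.le _)
      calc (2 : ℝ) ^ β ≤ (2 : ℝ) ^ (1 : ℝ) := Real.rpow_le_rpow_of_exponent_le (by norm_num) h1.le
        _ = 2 := Real.rpow_one 2
    have hid : ∑ a ∈ Finset.Icc 1 (n + 1), (a : ℝ) ^ (-β) - t ^ (1 - β) / (1 - β) - ζ =
        (ee53 β (n + 1) - ζ) - (t ^ (1 - β) - ((n + 1 : ℕ) : ℝ) ^ (1 - β)) / (1 - β) := by
      unfold ee53
      ring
    rw [hid, abs_le]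
    constructor
    · linarith
    · linarith

theorem sum_rpow_le {β : ℝ} (h0 : 0 ≤ β) (h1 : β < 1) (n : ℕ) :
    ∑ a ∈ Finset.Icc 1 n, (a : ℝ) ^ (-β) ≤ (n : ℝ) ^ (1 - β) / (1 - β) := by
  have h : ee53 β n ≤ 0 := by
    induction n with
    | zero =>
      unfold ee53
      have : (0 : ℝ) ^ (1 - β) = 0 := Real.zero_rpow (by linarith)
      simp [this]
    | succ n ih => exact (ee_anti53 h0 h1 n).trans ih
  unfold ee53 at h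
  linarith

end Pool.Agent.Helper68.LA
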