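import Pool.Agent.Helper68.LA.Hyp
import Pool.Agent.Helper68.LA.Zc

/-!
# Block LA-E1: partial sums of `(f * 1)(k) k^(-β)`

Let `x = ⌊t⌋₊`, `y = Nat.sqrt x ≥ 1` (`√t/3 ≤ y ≤ √t`), `ζ` from `exists_zc`.  By `conv_weight` and `sum_conv` (`u = f · ^(-β)`, `v = · ^(-β)`) the sum is
`∑_{a ≤ y} f a a^(-β) Z(x/a) + ∑_{b ≤ x/(y+1)} b^(-β) ∑_{a ∈ Ioc y (x/b)} f a a^(-β)`.
First part: `⌊t⌋₊ / a = ⌊t/a⌋₊` (`Nat.floor_div_natCast`), `Z(⌊t/a⌋₊) = (t/a)^(1-β)/(1-β) + ζ + O(2 (t/a)^(-β))`, so it is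
`t^(1-β)/(1-β) ∑_{a ≤ y} f a a^(-1) + ζ ∑_{a ≤ y} f a a^(-β) + O(2 y t^(-β))`; by `h.app` (`β = 1` and `β`) this is `t^(1-β)/(1-β) L 1 + ζ L β` up to
`t^(1-β) 2Q/(y (1-β)) + |ζ| 2 Q y^(-β) + 2 y t^(-β) ≤ (6 + 6 + 2) Q t^(-1/4)/(1-β)` (`|ζ| ≤ 1/(1-β)`, `1/2 - β ≤ -1/4`, `-β/2 ≤ -1/4`).
Second part: the inner sums are at most `4 Q y^(-β)` (`h.app` twice, `x/b ≥ y+1`), `∑_{b ≤ x/(y+1)} b^(-β) ≤ (√t)^(1-β)/(1-β)` (`sum_rpow_le`, `x/(y+1) ≤ √t`); `y^(-β) ≤ 3 t^(-β/2)`: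
at most `12 Q t^(1/2-β)/(1-β)`.
-/

set_option autoImplicit false

namespace Pool.Agent.Helper68.LA

/-- elementary bounds with `y = sqrt ⌊t⌋` -/
private lemma sqrtfacts26 {t : ℝ} (ht : 1 ≤ t) :
    1 ≤ Nat.sqrt ⌊t⌋₊ ∧ (Nat.sqrt ⌊t⌋₊ : ℝ) ≤ Real.sqrt t ∧ Real.sqrt t ≤ 2 * (Nat.sqrt ⌊t⌋₊ : ℝ) ∧
      ⌊t⌋₊ / (Nat.sqrt ⌊t⌋₊ + 1) ≤ Nat.sqrt ⌊t⌋₊ := by
  have h1 : 1 ≤ ⌊t⌋₊ := by
    rw [Nat.le_floor_iff (by linarith)]
    simpa using ht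
  have h2 : 1 ≤ Nat.sqrt ⌊t⌋₊ := by
    rw [Nat.le_sqrt]
    simpa using h1
  have h3 := Nat.sqrt_le ⌊t⌋₊
  have h4 : ⌊t⌋₊ < (Nat.sqrt ⌊t⌋₊ + 1) * (Nat.sqrt ⌊t⌋₊ + 1) := Nat.lt_succ_sqrt ⌊t⌋₊
  set x := ⌊t⌋₊ with hx
  set y := Nat.sqrt x with hy
  have hxt : (x : ℝ) ≤ t := Nat.floor_le (by linarith)
  have htx : t < (x : ℝ) + 1 := Nat.lt_floor_add_one t
  refine ⟨h2, ?_, ?_, ?_⟩
  · apply Real.le_sqrt_of_sq_le
    have : ((y * y : ℕ) : ℝ) ≤ (x : ℝ) := by exact_mod_cast h3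
    push_cast at this
    nlinarith
  · rw [Real.sqrt_le_left (by positivity)]
    have h5 : ((x + 1 : ℕ) : ℝ) ≤ (((y + 1) * (y + 1) : ℕ) : ℝ) := by exact_mod_cast h4
    push_cast at h5
    have h6 : (1 : ℝ) ≤ (y : ℝ) := by exact_mod_cast h2
    nlinarith
  · have : x < (y + 1) * (y + 1) := h4
    exact Nat.lt_succ_iff.1 (Nat.div_lt_of_lt_mul this)


/-- the first part -/
private lemma part1_26 {β : ℝ} (h0 : 3 / 4 ≤ β) (h1 : β < 1) {ζ : ℝ}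
    (hz : ∀ t : ℝ, 1 ≤ t → |∑ a ∈ Finset.Icc 1 ⌊t⌋₊, (a : ℝ) ^ (-β) - t ^ (1 - β) / (1 - β) - ζ| ≤ 2 * t ^ (-β))
    {f : ℕ → ℝ} (hf : ∀ n, |f n| ≤ 1) {t : ℝ} (ht : 1 ≤ t) {y : ℕ} (hy : (y : ℝ) ≤ t) :
    |∑ a ∈ Finset.Icc 1 y, (f a * (a : ℝ) ^ (-β)) * ∑ b ∈ Finset.Icc 1 (⌊t⌋₊ / a), (one b * (b : ℝ) ^ (-β)) -
      (t ^ (1 - β) / (1 - β) * ∑ a ∈ Finset.Icc 1 y, f a * (a : ℝ) ^ (-(1 : ℝ)) +
        ζ * ∑ a ∈ Finset.Icc 1 y, f a * (a : ℝ) ^ (-β))| ≤ y * (2 * t ^ (-β)) := by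
  rw [Finset.mul_sum, Finset.mul_sum, ← Finset.sum_add_distrib, ← Finset.sum_sub_distrib]
  refine (Finset.abs_sum_le_sum_abs _ _).trans ?_
  have hb : ∀ a ∈ Finset.Icc 1 y, |(f a * (a : ℝ) ^ (-β)) * ∑ b ∈ Finset.Icc 1 (⌊t⌋₊ / a), (one b * (b : ℝ) ^ (-β)) -
      (t ^ (1 - β) / (1 - β) * (f a * (a : ℝ) ^ (-(1 : ℝ))) + ζ * (f a * (a : ℝ) ^ (-β)))| ≤ 2 * t ^ (-β) := by
    intro a ha
    rw [Finset.mem_Icc] at ha
    have ha0 : (0 : ℝ) < a := by exact_mod_cast ha.1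
    have hat : (a : ℝ) ≤ t := le_trans (by exact_mod_cast ha.2) hy
    have ht0 : 0 < t := by linarith
    have h2 : 1 ≤ t / a := by rw [le_div_iff₀ ha0]; linarith
    have h3 := hz (t / a) h2
    rw [Nat.floor_div_natCast] at h3
    have e1 : ∑ b ∈ Finset.Icc 1 (⌊t⌋₊ / a), (one b * (b : ℝ) ^ (-β)) = ∑ b ∈ Finset.Icc 1 (⌊t⌋₊ / a), (b : ℝ) ^ (-β) :=
      Finset.sum_congr rfl fun b _ => by simp [one]
    rw [e1]
    have e2 : (a : ℝ) ^ (-β) * (t / a) ^ (1 - β) = t ^ (1 - β) * (a : ℝ) ^ (-(1 : ℝ)) := by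
      rw [Real.div_rpow ht0.le ha0.le, mul_div_assoc', mul_comm, mul_div_assoc, ← Real.rpow_sub ha0]
      congr 2
      ring
    have e3 : (a : ℝ) ^ (-β) * (t / a) ^ (-β) = t ^ (-β) := by
      rw [← Real.mul_rpow ha0.le (by positivity)]
      congr 1
      field_simp
    have e4 : (f a * (a : ℝ) ^ (-β)) * ∑ b ∈ Finset.Icc 1 (⌊t⌋₊ / a), (b : ℝ) ^ (-β) -
        (t ^ (1 - β) / (1 - β) * (f a * (a : ℝ) ^ (-(1 : ℝ))) + ζ * (f a * (a : ℝ) ^ (-β))) =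
        f a * ((a : ℝ) ^ (-β) * (∑ b ∈ Finset.Icc 1 (⌊t⌋₊ / a), (b : ℝ) ^ (-β) - (t / a) ^ (1 - β) / (1 - β) - ζ)) := by
      have : t ^ (1 - β) / (1 - β) * (f a * (a : ℝ) ^ (-(1 : ℝ))) = f a * ((t ^ (1 - β) * (a : ℝ) ^ (-(1 : ℝ))) / (1 - β)) := by
        ring
      rw [this, ← e2]
      ring
    rw [e4, abs_mul, abs_mul, abs_of_nonneg (by positivity : 0 ≤ (a : ℝ) ^ (-β))]
    calc |f a| * ((a : ℝ) ^ (-β) * |∑ b ∈ Finset.Icc 1 (⌊t⌋₊ / a), (b : ℝ) ^ (-β) - (t / a) ^ (1 - β) / (1 - β) - ζ|)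
        ≤ 1 * ((a : ℝ) ^ (-β) * (2 * (t / a) ^ (-β))) := by
          gcongr
          exact hf a
      _ = 2 * ((a : ℝ) ^ (-β) * (t / a) ^ (-β)) := by ring
      _ = 2 * t ^ (-β) := by rw [e3]
  refine (Finset.sum_le_sum hb).trans ?_
  rw [Finset.sum_const, Nat.card_Icc, nsmul_eq_mul]
  simp

/-- the second part -/
private lemma part2_26 {β : ℝ} (h0 : 3 / 4 ≤ β) (h1 : β < 1) {f : ℕ → ℝ} {Q : ℝ} {L : ℝ → ℝ} (h : LD f Q L)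
    {x y : ℕ} (hy : 1 ≤ y) (hxy : x / (y + 1) ≤ y) :
    |∑ b ∈ Finset.Icc 1 (x / (y + 1)), (one b * (b : ℝ) ^ (-β)) * ∑ a ∈ Finset.Ioc y (x / b), (f a * (a : ℝ) ^ (-β))| ≤
      4 * Q * (y : ℝ) ^ (-β) * ((y : ℝ) ^ (1 - β) / (1 - β)) := by
  have hQ := h.one_le
  have hy0 : (0 : ℝ) < y := by exact_mod_cast hy
  refine (Finset.abs_sum_le_sum_abs _ _).trans ?_
  have hb : ∀ b ∈ Finset.Icc 1 (x / (y + 1)), |(one b * (b : ℝ) ^ (-β)) * ∑ a ∈ Finset.Ioc y (x / b), (f a * (a : ℝ) ^ (-β))| ≤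
      4 * Q * (y : ℝ) ^ (-β) * (b : ℝ) ^ (-β) := by
    intro b hb
    rw [Finset.mem_Icc] at hb
    have h2 : y + 1 ≤ x / b := by
      rw [Nat.le_div_iff_mul_le (by omega)]
      have := (Nat.le_div_iff_mul_le (by omega)).1 hb.2
      nlinarith
    have e1 : ∑ a ∈ Finset.Ioc y (x / b), (f a * (a : ℝ) ^ (-β)) =
        ∑ a ∈ Finset.Icc 1 (x / b), (f a * (a : ℝ) ^ (-β)) - ∑ a ∈ Finset.Icc 1 y, (f a * (a : ℝ) ^ (-β)) := by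
      have e3 : Finset.Icc 1 (x / b) = Finset.Icc 1 y ∪ Finset.Ioc y (x / b) := by
        ext i
        simp only [Finset.mem_Icc, Finset.mem_union, Finset.mem_Ioc]
        omega
      rw [e3, Finset.sum_union]
      · ring
      · rw [Finset.disjoint_left]
        intro i hi hi'
        simp only [Finset.mem_Icc, Finset.mem_Ioc] at hi hi'
        omega
    have h3 := h.app β (by linarith) h1.le (x / b) (by omega)
    have h4 := h.app β (by linarith) h1.le y hy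
    have h5 : ((x / b : ℕ) : ℝ) ^ (-β) ≤ (y : ℝ) ^ (-β) := by
      apply Real.rpow_le_rpow_of_nonpos hy0 _ (by linarith)
      exact_mod_cast (by omega : y ≤ x / b)
    have h6 : |∑ a ∈ Finset.Ioc y (x / b), (f a * (a : ℝ) ^ (-β))| ≤ 4 * Q * (y : ℝ) ^ (-β) := by
      rw [e1]
      have h7 : 2 * Q * ((x / b : ℕ) : ℝ) ^ (-β) ≤ 2 * Q * (y : ℝ) ^ (-β) := by gcongr
      rw [abs_le] at *
      constructor <;> linarith [h3.1, h3.2, h4.1, h4.2]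
    have e2 : one b * (b : ℝ) ^ (-β) = (b : ℝ) ^ (-β) := by simp [one]
    rw [e2, abs_mul, abs_of_nonneg (by positivity : 0 ≤ (b : ℝ) ^ (-β)), mul_comm]
    gcongr
  refine (Finset.sum_le_sum hb).trans ?_
  rw [← Finset.mul_sum]
  have h3 := sum_rpow_le (β := β) (by linarith) h1 (x / (y + 1))
  have h4 : ((x / (y + 1) : ℕ) : ℝ) ^ (1 - β) ≤ (y : ℝ) ^ (1 - β) := by
    apply Real.rpow_le_rpow (by positivity) _ (by linarith)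
    exact_mod_cast hxy
  have h5 : 0 < 1 - β := by linarith
  gcongr
  refine h3.trans ?_
  gcongr

theorem e1 {β : ℝ} (h0 : 3 / 4 ≤ β) (h1 : β < 1) : ∃ ζ : ℝ, ζ ≤ 0 ∧ ∀ (f : ℕ → ℝ) (Q : ℝ) (L : ℝ → ℝ), LD f Q L →
    ∀ t : ℝ, 1 ≤ t → |∑ k ∈ Finset.Icc 1 ⌊t⌋₊, conv f one k * (k : ℝ) ^ (-β) - (ζ * L β + L 1 * t ^ (1 - β) / (1 - β))| ≤
      64 * Q * t ^ (-(1 / 4) : ℝ) / (1 - β) := by
  obtain ⟨ζ, hz0, hz1, hz⟩ := exists_zc (β := β) (by linarith) h1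
  refine ⟨ζ, hz0, fun f Q L h t ht => ?_⟩
  have hQ := h.one_le
  obtain ⟨hy1, hys, hsy, hxy⟩ := sqrtfacts26 ht
  set x := ⌊t⌋₊ with hx
  set y := Nat.sqrt x with hy
  have ht0 : 0 < t := by linarith
  have hb0 : 0 < 1 - β := by linarith
  have hy0 : (0 : ℝ) < y := by exact_mod_cast hy1
  have hy1' : (1 : ℝ) ≤ y := by exact_mod_cast hy1
  have hs : Real.sqrt t = t ^ (1 / 2 : ℝ) := Real.sqrt_eq_rpow t
  have hs0 : 0 < Real.sqrt t := Real.sqrt_pos.2 ht0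
  have hst : Real.sqrt t ≤ t := by
    rw [hs]
    nth_rewrite 2 [← Real.rpow_one t]
    exact Real.rpow_le_rpow_of_exponent_le ht (by norm_num)
  set T : ℝ := t ^ (-(1 / 4) : ℝ) with hT
  have hT0 : 0 < T := by positivity
  -- the sum
  have e0 : ∑ k ∈ Finset.Icc 1 x, conv f one k * (k : ℝ) ^ (-β) =
      ∑ a ∈ Finset.Icc 1 y, (f a * (a : ℝ) ^ (-β)) * ∑ b ∈ Finset.Icc 1 (x / a), (one b * (b : ℝ) ^ (-β)) +
        ∑ b ∈ Finset.Icc 1 (x / (y + 1)), (one b * (b : ℝ) ^ (-β)) * ∑ a ∈ Finset.Ioc y (x / b), (f a * (a : ℝ) ^ (-β)) := by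
    rw [← sum_conv]
    exact Finset.sum_congr rfl fun k _ => conv_weight f one β k
  have p1 := part1_26 h0 h1 hz h.bd ht (y := y) (hys.trans hst)
  have p2 := part2_26 h0 h1 h (x := x) hy1 hxy
  have a1 := h.app 1 (by norm_num) le_rfl y hy1
  have a2 := h.app β (by linarith) h1.le y hy1
  -- powers
  have F1 : (y : ℝ) * (2 * t ^ (-β)) ≤ 2 * T := by
    have : Real.sqrt t * t ^ (-β) ≤ T := by
      rw [hs, ← Real.rpow_add ht0]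
      exact Real.rpow_le_rpow_of_exponent_le ht (by linarith)
    have h3 : (y : ℝ) * t ^ (-β) ≤ Real.sqrt t * t ^ (-β) := by gcongr
    linarith
  have F2 : t ^ (1 - β) * (y : ℝ) ^ (-(1 : ℝ)) ≤ 2 * T := by
    have h3 : (y : ℝ) ^ (-(1 : ℝ)) ≤ 2 * t ^ (-(1 / 2) : ℝ) := by
      rw [Real.rpow_neg_one, Real.rpow_neg ht0.le, ← hs, inv_eq_one_div, inv_eq_one_div, mul_one_div, div_le_div_iff₀ hy0 hs0]
      linarith
    calc t ^ (1 - β) * (y : ℝ) ^ (-(1 : ℝ)) ≤ t ^ (1 - β) * (2 * t ^ (-(1 / 2) : ℝ)) := by gcongr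
      _ = 2 * (t ^ (1 - β) * t ^ (-(1 / 2) : ℝ)) := by ring
      _ = 2 * t ^ (1 - β + -(1 / 2)) := by rw [Real.rpow_add ht0]
      _ ≤ 2 * T := by
        have := Real.rpow_le_rpow_of_exponent_le ht (by linarith : 1 - β + -(1 / 2) ≤ -(1 / 4))
        linarith
  have F3 : (y : ℝ) ^ (-β) ≤ 2 * T := by
    have h3 : (y : ℝ) ^ (-β) ≤ (Real.sqrt t / 2) ^ (-β) :=
      Real.rpow_le_rpow_of_nonpos (by positivity) (by linarith) (by linarith)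
    rw [Real.div_rpow hs0.le (by norm_num)] at h3
    have h4 : (1 : ℝ) / 2 ≤ 2 ^ (-β) := by
      have := Real.rpow_le_rpow_of_exponent_le (by norm_num : (1 : ℝ) ≤ 2) (by linarith : (-1 : ℝ) ≤ -β)
      rw [Real.rpow_neg_one] at this
      linarith
    have h5 : Real.sqrt t ^ (-β) ≤ T := by
      rw [hs, ← Real.rpow_mul ht0.le]
      exact Real.rpow_le_rpow_of_exponent_le ht (by linarith)
    refine h3.trans ?_
    rw [div_le_iff₀ (by positivity)]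
    nlinarith
  have F4 : (y : ℝ) ^ (-β) * (y : ℝ) ^ (1 - β) ≤ 2 * T := by
    rw [← Real.rpow_add hy0]
    have h3 : (y : ℝ) ^ (-β + (1 - β)) ≤ (Real.sqrt t / 2) ^ (-β + (1 - β)) :=
      Real.rpow_le_rpow_of_nonpos (by positivity) (by linarith) (by linarith)
    rw [Real.div_rpow hs0.le (by norm_num)] at h3
    have h4 : (1 : ℝ) / 2 ≤ 2 ^ (-β + (1 - β)) := by
      have := Real.rpow_le_rpow_of_exponent_le (by norm_num : (1 : ℝ) ≤ 2) (by linarith : (-1 : ℝ) ≤ -β + (1 - β))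
      rw [Real.rpow_neg_one] at this
      linarith
    have h5 : Real.sqrt t ^ (-β + (1 - β)) ≤ T := by
      rw [hs, ← Real.rpow_mul ht0.le]
      exact Real.rpow_le_rpow_of_exponent_le ht (by linarith)
    refine h3.trans ?_
    rw [div_le_iff₀ (by positivity)]
    nlinarith
  have hone : 1 ≤ 1 / (1 - β) := by rw [le_div_iff₀ hb0]; linarith
  -- assemble
  set A := ∑ a ∈ Finset.Icc 1 y, f a * (a : ℝ) ^ (-(1 : ℝ)) with hA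
  set B := ∑ a ∈ Finset.Icc 1 y, f a * (a : ℝ) ^ (-β) with hB
  set P := ∑ a ∈ Finset.Icc 1 y, (f a * (a : ℝ) ^ (-β)) * ∑ b ∈ Finset.Icc 1 (x / a), (one b * (b : ℝ) ^ (-β)) with hP
  set R := ∑ b ∈ Finset.Icc 1 (x / (y + 1)), (one b * (b : ℝ) ^ (-β)) * ∑ a ∈ Finset.Ioc y (x / b), (f a * (a : ℝ) ^ (-β)) with hR
  have c1 : |P - (t ^ (1 - β) / (1 - β) * A + ζ * B)| ≤ 2 * Q * T / (1 - β) := by
    refine p1.trans (F1.trans ?_)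
    rw [le_div_iff₀ hb0]
    have : 1 - β ≤ Q := by linarith
    nlinarith
  have c2 : |t ^ (1 - β) / (1 - β) * (A - L 1)| ≤ 4 * Q * T / (1 - β) := by
    rw [abs_mul, abs_of_nonneg (by positivity : 0 ≤ t ^ (1 - β) / (1 - β))]
    calc t ^ (1 - β) / (1 - β) * |A - L 1| ≤ t ^ (1 - β) / (1 - β) * (2 * Q * (y : ℝ) ^ (-(1 : ℝ))) := by gcongr
      _ = 2 * Q * (t ^ (1 - β) * (y : ℝ) ^ (-(1 : ℝ))) / (1 - β) := by ring
      _ ≤ 2 * Q * (2 * T) / (1 - β) := by gcongr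
      _ = 4 * Q * T / (1 - β) := by ring
  have c3 : |ζ * (B - L β)| ≤ 4 * Q * T / (1 - β) := by
    rw [abs_mul, abs_of_nonpos hz0]
    calc -ζ * |B - L β| ≤ (1 / (1 - β)) * (2 * Q * (y : ℝ) ^ (-β)) := by
          gcongr
          linarith
      _ ≤ (1 / (1 - β)) * (2 * Q * (2 * T)) := by gcongr
      _ = 4 * Q * T / (1 - β) := by ring
  have c4 : |R| ≤ 8 * Q * T / (1 - β) := by
    refine p2.trans ?_
    calc 4 * Q * (y : ℝ) ^ (-β) * ((y : ℝ) ^ (1 - β) / (1 - β)) = 4 * Q * ((y : ℝ) ^ (-β) * (y : ℝ) ^ (1 - β)) / (1 - β) := by ring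
      _ ≤ 4 * Q * (2 * T) / (1 - β) := by gcongr
      _ = 8 * Q * T / (1 - β) := by ring
  rw [e0]
  have e5 : P + R - (ζ * L β + L 1 * t ^ (1 - β) / (1 - β)) =
      (P - (t ^ (1 - β) / (1 - β) * A + ζ * B)) + t ^ (1 - β) / (1 - β) * (A - L 1) + ζ * (B - L β) + R := by
    ring
  rw [e5]
  have hfin : 18 * Q * T / (1 - β) ≤ 64 * Q * T / (1 - β) := by
    gcongr
    norm_num
  have h18 : 2 * Q * T / (1 - β) + 4 * Q * T / (1 - β) + 4 * Q * T / (1 - β) + 8 * Q * T / (1 - β) = 18 * Q * T / (1 - β) := by ring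
  refine (abs_add_le _ _).trans ?_
  have q1 := abs_add_le ((P - (t ^ (1 - β) / (1 - β) * A + ζ * B)) + t ^ (1 - β) / (1 - β) * (A - L 1)) (ζ * (B - L β))
  have q2 := abs_add_le (P - (t ^ (1 - β) / (1 - β) * A + ζ * B)) (t ^ (1 - β) / (1 - β) * (A - L 1))
  linarith

end Pool.Agent.Helper68.LA
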