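import Pool.Agent.Helper68.LA.Hyp

/-!
# Block LA-E2a: partial sums and tails of `f * g`, both of bounded partial sums

`conv_sum`: `sum_conv` with `y = Nat.sqrt x`: `∑_{a ≤ y} |f a| Q + ∑_{b ≤ x/(y+1)} |g b| Q ≤ 2 Q √x` (`Icc 1 n = Ioc 0 n`, `x/(y+1) ≤ √x`).
`conv_tail`: for `G n = ∑_{m ∈ Ioc y n} conv f g m`: `|G n| ≤ 4 Q √n`; Abel summation
`∑_{m ∈ Ioc y x} conv f g m m^(-β) = G x x^(-β) + ∑_{n ∈ Ioo y x} G n (n^(-β) - (n+1)^(-β))`, `n^(-β) - (n+1)^(-β) ≤ β n^(-β-1) ≤ n^(-7/4)`, `√n n^(-7/4) = n^(-5/4)`,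
`∑_{n > y} n^(-5/4) ≤ 4 y^(-1/4)`; total at most `4 Q y^(-1/4) + 16 Q y^(-1/4)`.
(`n^(-5/4) ≤ 4 ((n-1)^(-1/4) - n^(-1/4))` by the mean value theorem or convexity.)
-/

set_option autoImplicit false

namespace Pool.Agent.Helper68.LA

private theorem mid_bd41 {f : ℕ → ℝ} {Q : ℝ} {L : ℝ → ℝ} (hf : LD f Q L) (n : ℕ) :
    |∑ b ∈ Finset.Icc 1 n, f b| ≤ Q := by
  have h := hf.per 0 n
  have h2 : Finset.Ioc 0 n = Finset.Icc 1 n := by
    ext a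
    simp only [Finset.mem_Ioc, Finset.mem_Icc]
    omega
  rwa [h2] at h

private theorem half_bd41 {u w : ℕ → ℝ} {Q : ℝ} (s : Finset ℕ) (hu : ∀ n, |u n| ≤ 1)
    (hw : ∀ n, |w n| ≤ Q) : |∑ a ∈ s, u a * w a| ≤ Q * s.card := by
  refine (Finset.abs_sum_le_sum_abs _ _).trans ?_
  have : ∀ a ∈ s, |u a * w a| ≤ Q := by
    intro a _
    rw [abs_mul]
    calc |u a| * |w a| ≤ 1 * Q := mul_le_mul (hu a) (hw a) (abs_nonneg _) zero_le_one
      _ = Q := one_mul Q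
  refine (Finset.sum_le_sum this).trans ?_
  rw [Finset.sum_const, nsmul_eq_mul, mul_comm]

theorem conv_sum {f g : ℕ → ℝ} {Q : ℝ} {L L' : ℝ → ℝ} (hf : LD f Q L) (hg : LD g Q L') (x : ℕ) :
    |∑ n ∈ Finset.Icc 1 x, conv f g n| ≤ 2 * Q * √(x : ℝ) := by
  rw [sum_conv f g x (Nat.sqrt x)]
  have hQ : 0 ≤ Q := zero_le_one.trans hf.one_le
  have h1 := half_bd41 (Finset.Icc 1 (Nat.sqrt x)) hf.bd
    (w := fun a => ∑ b ∈ Finset.Icc 1 (x / a), g b) (fun n => mid_bd41 hg _)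
  have h2 := half_bd41 (Finset.Icc 1 (x / (Nat.sqrt x + 1))) hg.bd
    (w := fun b => ∑ a ∈ Finset.Ioc (Nat.sqrt x) (x / b), f a) (fun n => hf.per _ _)
  rw [Nat.card_Icc, Nat.add_sub_cancel] at h1 h2
  have h3 : ((Nat.sqrt x : ℕ) : ℝ) ≤ √(x : ℝ) := by
    apply Real.le_sqrt_of_sq_le
    have := Nat.sqrt_le' x
    exact_mod_cast this
  have h4 : ((x / (Nat.sqrt x + 1) : ℕ) : ℝ) ≤ √(x : ℝ) := by
    have h5 : x / (Nat.sqrt x + 1) ≤ Nat.sqrt x := by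
      rw [Nat.div_le_iff_le_mul_add_pred (by omega)]
      have := Nat.sqrt_le_add x
      have h6 : x ≤ Nat.sqrt x * Nat.sqrt x + Nat.sqrt x + Nat.sqrt x := this
      have h7 : (Nat.sqrt x + 1) * Nat.sqrt x = Nat.sqrt x * Nat.sqrt x + Nat.sqrt x := by ring
      omega
    exact le_trans (by exact_mod_cast h5) h3
  refine (abs_add_le _ _).trans ?_
  have h5 := mul_le_mul_of_nonneg_left h3 hQ
  have h6 := mul_le_mul_of_nonneg_left h4 hQ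
  linarith

private theorem abel41 (c w : ℕ → ℝ) (y x : ℕ) (hx : y ≤ x) :
    ∑ m ∈ Finset.Ioc y x, c m * w m =
      (∑ m ∈ Finset.Ioc y x, c m) * w (x + 1) +
        ∑ n ∈ Finset.Ioc y x, (∑ m ∈ Finset.Ioc y n, c m) * (w n - w (n + 1)) := by
  induction x, hx using Nat.le_induction with
  | base => simp
  | succ x hx ih =>
    have h1 : ∀ F : ℕ → ℝ, ∑ m ∈ Finset.Ioc y (x + 1), F m = ∑ m ∈ Finset.Ioc y x, F m + F (x + 1) :=
      fun F => Finset.sum_Ioc_succ_top (by omega) F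
    rw [h1, ih, h1 (fun n => (∑ m ∈ Finset.Ioc y n, c m) * (w n - w (n + 1))), h1 c]
    ring

private theorem pow_diff41 {β : ℝ} (h0 : 0 ≤ β) (h1 : β ≤ 1) {n : ℕ} (hn : 1 ≤ n) :
    (n : ℝ) ^ (-β) - ((n + 1 : ℕ) : ℝ) ^ (-β) ≤ (n : ℝ) ^ (-β - 1) := by
  have hn' : (0 : ℝ) < n := by exact_mod_cast hn
  have h2 : ((n + 1 : ℕ) : ℝ) = (n : ℝ) * (1 + 1 / n) := by
    push_cast
    field_simp
  have h3 : (1 + 1 / (n : ℝ)) ^ β ≤ 1 + β * (1 / n) := by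
    have := rpow_one_add_le_one_add_mul_self (s := 1 / (n : ℝ)) (p := β)
      (by have : (0 : ℝ) ≤ 1 / n := by positivity
          linarith) h0 h1
    exact this
  have h4 : (0 : ℝ) < (1 + 1 / (n : ℝ)) ^ β := by positivity
  have h5 : 1 - 1 / (n : ℝ) ≤ (1 + 1 / (n : ℝ)) ^ (-β) := by
    rw [Real.rpow_neg (by positivity), ← one_div, le_div_iff₀ h4]
    have h6 : (1 + 1 / (n : ℝ)) ^ β ≤ 1 + 1 / n := by
      refine h3.trans ?_
      have : β * (1 / n) ≤ 1 * (1 / (n : ℝ)) := mul_le_mul_of_nonneg_right h1 (by positivity)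
      linarith
    have h7 : 1 ≤ (n : ℝ) := by exact_mod_cast hn
    have h8 : 0 ≤ 1 - 1 / (n : ℝ) := by
      rw [sub_nonneg, div_le_one hn']
      exact h7
    calc (1 - 1 / (n : ℝ)) * (1 + 1 / (n : ℝ)) ^ β ≤ (1 - 1 / (n : ℝ)) * (1 + 1 / n) :=
          mul_le_mul_of_nonneg_left h6 h8
      _ = 1 - (1 / (n : ℝ)) ^ 2 := by ring
      _ ≤ 1 := by
        have := sq_nonneg (1 / (n : ℝ))
        linarith
  rw [h2, Real.mul_rpow hn'.le (by positivity)]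
  have h6 : (n : ℝ) ^ (-β - 1) = (n : ℝ) ^ (-β) * (1 / n) := by
    rw [Real.rpow_sub hn', Real.rpow_one]
    ring
  rw [h6]
  have h7 : (0 : ℝ) ≤ (n : ℝ) ^ (-β) := by positivity
  nlinarith [mul_le_mul_of_nonneg_left h5 h7]

private theorem quarter41 {n : ℕ} (hn : 1 ≤ n) :
    ((n + 1 : ℕ) : ℝ) ^ (-(5 / 4) : ℝ) ≤
      4 * ((n : ℝ) ^ (-(1 / 4) : ℝ) - ((n + 1 : ℕ) : ℝ) ^ (-(1 / 4) : ℝ)) := by
  have hn' : (0 : ℝ) < n := by exact_mod_cast hn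
  set N : ℝ := ((n + 1 : ℕ) : ℝ) with hN
  have hN' : N = n + 1 := by rw [hN]; push_cast; ring
  have hN0 : 0 < N := by linarith
  have h2 : (n : ℝ) = N * (1 + -(1 / N)) := by
    have : N * (1 + -(1 / N)) = N - 1 := by field_simp; ring
    rw [this, hN']
    ring
  have hq : 0 < 1 + -(1 / N) := by
    have : 0 < N * (1 + -(1 / N)) := by rw [← h2]; exact hn'
    exact (mul_pos_iff_of_pos_left hN0).1 this
  have h3 : (1 + -(1 / N)) ^ (1 / 4 : ℝ) ≤ 1 + (1 / 4) * -(1 / N) :=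
    rpow_one_add_le_one_add_mul_self (by linarith) (by norm_num) (by norm_num)
  have h4 : (0 : ℝ) < (1 + -(1 / N)) ^ (1 / 4 : ℝ) := by positivity
  have h5 : 1 + 1 / (4 * N) ≤ (1 + -(1 / N)) ^ (-(1 / 4) : ℝ) := by
    rw [Real.rpow_neg hq.le, ← one_div, le_div_iff₀ h4]
    calc (1 + 1 / (4 * N)) * (1 + -(1 / N)) ^ (1 / 4 : ℝ)
        ≤ (1 + 1 / (4 * N)) * (1 + (1 / 4) * -(1 / N)) :=
          mul_le_mul_of_nonneg_left h3 (by positivity)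
      _ = 1 - (1 / (4 * N)) ^ 2 := by field_simp; ring
      _ ≤ 1 := by
        have := sq_nonneg (1 / (4 * N))
        linarith
  have h6 : N ^ (-(5 / 4) : ℝ) = N ^ (-(1 / 4) : ℝ) * (1 / N) := by
    rw [show (-(5 / 4) : ℝ) = -(1 / 4) - 1 by norm_num, Real.rpow_sub hN0, Real.rpow_one]
    ring
  have h7 : (n : ℝ) ^ (-(1 / 4) : ℝ) = N ^ (-(1 / 4) : ℝ) * (1 + -(1 / N)) ^ (-(1 / 4) : ℝ) := by
    rw [← Real.mul_rpow hN0.le hq.le, ← h2]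
  have h10 : N ^ (-(1 / 4) : ℝ) * (1 / N) = N ^ (-(1 / 4) : ℝ) * (4 * (1 / (4 * N))) := by
    have : (1 : ℝ) / N = 4 * (1 / (4 * N)) := by field_simp
    rw [← this]
  rw [h6, h7, h10]
  have h8 : (0 : ℝ) ≤ N ^ (-(1 / 4) : ℝ) := by positivity
  have h9 := mul_le_mul_of_nonneg_left h5 h8
  linarith

private theorem tail_sum41 {y : ℕ} (hy : 1 ≤ y) (x : ℕ) (hx : y ≤ x) :
    ∑ n ∈ Finset.Ioc y x, (n : ℝ) ^ (-(5 / 4) : ℝ) ≤
      4 * ((y : ℝ) ^ (-(1 / 4) : ℝ) - (x : ℝ) ^ (-(1 / 4) : ℝ)) := by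
  induction x, hx using Nat.le_induction with
  | base => simp
  | succ x hx ih =>
    rw [Finset.sum_Ioc_succ_top (by omega)]
    have := quarter41 (n := x) (by omega)
    linarith

theorem conv_tail {f g : ℕ → ℝ} {Q : ℝ} {L L' : ℝ → ℝ} (hf : LD f Q L) (hg : LD g Q L') {β : ℝ} (h0 : 3 / 4 ≤ β) (h1 : β ≤ 1)
    {y : ℕ} (hy : 1 ≤ y) (x : ℕ) :
    |∑ m ∈ Finset.Ioc y x, conv f g m * (m : ℝ) ^ (-β)| ≤ 32 * Q * (y : ℝ) ^ (-(1 / 4) : ℝ) := by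
  have hQ : 0 ≤ Q := zero_le_one.trans hf.one_le
  have hy' : (0 : ℝ) < y := by exact_mod_cast hy
  have hy4 : (0 : ℝ) ≤ (y : ℝ) ^ (-(1 / 4) : ℝ) := by positivity
  rcases le_or_gt x y with hx | hx
  · rw [Finset.Ioc_eq_empty_of_le hx, Finset.sum_empty, abs_zero]
    positivity
  have hG : ∀ n : ℕ, y ≤ n → |∑ m ∈ Finset.Ioc y n, conv f g m| ≤ 4 * Q * √(n : ℝ) := by
    intro n hn
    have h2 : ∑ m ∈ Finset.Ioc y n, conv f g m =
        ∑ m ∈ Finset.Icc 1 n, conv f g m - ∑ m ∈ Finset.Icc 1 y, conv f g m := by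
      have h3 : ∀ k : ℕ, Finset.Icc 1 k = Finset.Ioc 0 k := by
        intro k
        ext a
        simp only [Finset.mem_Ioc, Finset.mem_Icc]
        omega
      rw [h3, h3, ← Finset.sum_Ioc_consecutive (conv f g) (Nat.zero_le y) hn]
      ring
    rw [h2]
    have h3 := conv_sum hf hg n
    have h4 := conv_sum hf hg y
    have h5 : √(y : ℝ) ≤ √(n : ℝ) := Real.sqrt_le_sqrt (by exact_mod_cast hn)
    have h6 := mul_le_mul_of_nonneg_left h5 hQ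
    refine (abs_sub _ _).trans ?_
    linarith
  have hpt : ∀ n : ℕ, 1 ≤ n → √(n : ℝ) * (n : ℝ) ^ (-β) ≤ (n : ℝ) ^ (-(1 / 4) : ℝ) := by
    intro n hn
    have hn' : (1 : ℝ) ≤ n := by exact_mod_cast hn
    rw [Real.sqrt_eq_rpow, ← Real.rpow_add (by linarith)]
    exact Real.rpow_le_rpow_of_exponent_le hn' (by linarith)
  rw [abel41 (conv f g) (fun m => (m : ℝ) ^ (-β)) y x hx.le]
  refine (abs_add_le _ _).trans ?_
  have e1 : |(∑ m ∈ Finset.Ioc y x, conv f g m) * ((x + 1 : ℕ) : ℝ) ^ (-β)| ≤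
      4 * Q * (y : ℝ) ^ (-(1 / 4) : ℝ) := by
    rw [abs_mul, abs_of_nonneg (by positivity : (0 : ℝ) ≤ ((x + 1 : ℕ) : ℝ) ^ (-β))]
    have hx' : (0 : ℝ) < x := by
      have : 0 < x := by omega
      exact_mod_cast this
    have h2 : ((x + 1 : ℕ) : ℝ) ^ (-β) ≤ (x : ℝ) ^ (-β) :=
      Real.rpow_le_rpow_of_nonpos hx' (by push_cast; linarith) (by linarith)
    calc |∑ m ∈ Finset.Ioc y x, conv f g m| * ((x + 1 : ℕ) : ℝ) ^ (-β)
        ≤ (4 * Q * √(x : ℝ)) * (x : ℝ) ^ (-β) :=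
          mul_le_mul (hG x hx.le) h2 (by positivity) (by positivity)
      _ = 4 * Q * (√(x : ℝ) * (x : ℝ) ^ (-β)) := by ring
      _ ≤ 4 * Q * (x : ℝ) ^ (-(1 / 4) : ℝ) :=
          mul_le_mul_of_nonneg_left (hpt x (by omega)) (by positivity)
      _ ≤ 4 * Q * (y : ℝ) ^ (-(1 / 4) : ℝ) := by
          refine mul_le_mul_of_nonneg_left ?_ (by positivity)
          exact Real.rpow_le_rpow_of_nonpos hy' (by exact_mod_cast hx.le) (by norm_num)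
  have e2 : |∑ n ∈ Finset.Ioc y x, (∑ m ∈ Finset.Ioc y n, conv f g m) *
      ((n : ℝ) ^ (-β) - ((n + 1 : ℕ) : ℝ) ^ (-β))| ≤ 16 * Q * (y : ℝ) ^ (-(1 / 4) : ℝ) := by
    refine (Finset.abs_sum_le_sum_abs _ _).trans ?_
    have h2 : ∀ n ∈ Finset.Ioc y x, |(∑ m ∈ Finset.Ioc y n, conv f g m) *
        ((n : ℝ) ^ (-β) - ((n + 1 : ℕ) : ℝ) ^ (-β))| ≤ 4 * Q * (n : ℝ) ^ (-(5 / 4) : ℝ) := by
      intro n hn
      rw [Finset.mem_Ioc] at hn
      have hn1 : 1 ≤ n := by omega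
      have hn' : (0 : ℝ) < n := by exact_mod_cast hn1
      have h3 : ((n + 1 : ℕ) : ℝ) ^ (-β) ≤ (n : ℝ) ^ (-β) :=
        Real.rpow_le_rpow_of_nonpos hn' (by push_cast; linarith) (by linarith)
      have h4 := pow_diff41 (β := β) (by linarith) h1 hn1
      rw [abs_mul, abs_of_nonneg (sub_nonneg.2 h3)]
      calc |∑ m ∈ Finset.Ioc y n, conv f g m| * ((n : ℝ) ^ (-β) - ((n + 1 : ℕ) : ℝ) ^ (-β))
          ≤ (4 * Q * √(n : ℝ)) * (n : ℝ) ^ (-β - 1) :=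
            mul_le_mul (hG n hn.1.le) h4 (sub_nonneg.2 h3) (by positivity)
        _ = 4 * Q * ((√(n : ℝ) * (n : ℝ) ^ (-β)) * (n : ℝ) ^ (-1 : ℝ)) := by
            rw [show (-β - 1 : ℝ) = -β + -1 by ring, Real.rpow_add hn']
            ring
        _ ≤ 4 * Q * ((n : ℝ) ^ (-(1 / 4) : ℝ) * (n : ℝ) ^ (-1 : ℝ)) := by
            refine mul_le_mul_of_nonneg_left ?_ (by positivity)
            exact mul_le_mul_of_nonneg_right (hpt n hn1) (by positivity)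
        _ = 4 * Q * (n : ℝ) ^ (-(5 / 4) : ℝ) := by
            rw [← Real.rpow_add hn']
            norm_num
    refine (Finset.sum_le_sum h2).trans ?_
    rw [← Finset.mul_sum]
    have h3 := tail_sum41 hy x hx.le
    have h4 : (0 : ℝ) ≤ (x : ℝ) ^ (-(1 / 4) : ℝ) := by positivity
    calc 4 * Q * ∑ n ∈ Finset.Ioc y x, (n : ℝ) ^ (-(5 / 4) : ℝ)
        ≤ 4 * Q * (4 * (y : ℝ) ^ (-(1 / 4) : ℝ)) :=
          mul_le_mul_of_nonneg_left (by linarith) (by positivity)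
      _ = 16 * Q * (y : ℝ) ^ (-(1 / 4) : ℝ) := by ring
  have e3 : 0 ≤ Q * (y : ℝ) ^ (-(1 / 4) : ℝ) := by positivity
  refine (add_le_add e1 e2).trans ?_
  linarith

end Pool.Agent.Helper68.LA
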