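import Pool.Agent.Helper68.LA.Hyp

/-!
# Block LA-E2b: `∑_{m ≤ y} (f * g)(m)/m` is close to `L(1) L'(1)`

`w = Nat.sqrt y ≥ 1`, `√y/2 ≤ w ≤ √y`.  `conv_weight` (`β = 1`) and `sum_conv`: first part `∑_{a ≤ w} f a a^(-1) G(y/a)` with `G(M) = ∑_{b ≤ M} g b b^(-1) = L' 1 + O(2Q/M)`, `M = y/a ≥ y/(2a)`: it is
`L' 1 (L 1 + O(2Q/w)) + O(∑_{a ≤ w} (1/a) 4 Q a/y)`, error at most `3Q 2Q/w + 4Qw/y ≤ 16 Q²/√y` (`LD.abs_one_le`).
Second part: `∑_{b ≤ y/(w+1)} (1/b) |∑_{a ∈ Ioc w (y/b)} f a a^(-1)| ≤ (1 + log y) 4Q/w ≤ 8 Q (1 + log y)/√y`, and `(1 + log y) y^(-1/4) ≤ 2` (`log y ≤ 4 y^(1/4) - 4`... any proof; e.g. `log u ≤ u/e`, `u = y^(1/4)`).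
-/

set_option autoImplicit false

namespace Pool.Agent.Helper68.LA

private theorem harm30 (B y : ℕ) (hB : B ≤ y) :
    ∑ b ∈ Finset.Icc 1 B, (1 : ℝ) / b ≤ 1 + Real.log y := by
  have h1 := harmonic_le_one_add_log B
  have h2 : ((harmonic B : ℚ) : ℝ) = ∑ b ∈ Finset.Icc 1 B, (1 : ℝ) / b := by
    rw [harmonic_eq_sum_Icc]
    push_cast
    exact Finset.sum_congr rfl fun k _ => by rw [one_div]
  rw [h2] at h1
  refine h1.trans (add_le_add le_rfl ?_)
  rcases Nat.eq_zero_or_pos B with h0 | h0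
  · rw [h0, Nat.cast_zero, Real.log_zero]
    exact Real.log_natCast_nonneg y
  · exact Real.log_le_log (by exact_mod_cast h0) (by exact_mod_cast hB)

theorem conv_one {f g : ℕ → ℝ} {Q : ℝ} {L L' : ℝ → ℝ} (hf : LD f Q L) (hg : LD g Q L') {y : ℕ} (hy : 1 ≤ y) :
    |∑ m ∈ Finset.Icc 1 y, conv f g m * (m : ℝ) ^ (-(1 : ℝ)) - L 1 * L' 1| ≤ 128 * Q ^ 2 * (y : ℝ) ^ (-(1 / 4) : ℝ) := by
  have hQ := hf.one_le
  have hQ0 : 0 ≤ Q := zero_le_one.trans hQ
  have hyR : (1 : ℝ) ≤ y := by exact_mod_cast hy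
  have hy0 : (0 : ℝ) < y := by linarith
  set w : ℕ := Nat.sqrt y with hw
  have hw1 : 1 ≤ w := by
    rw [hw, Nat.le_sqrt]
    simpa using hy
  have hwR : (1 : ℝ) ≤ w := by exact_mod_cast hw1
  have hw0 : (0 : ℝ) < w := by linarith
  have hww : w * w ≤ y := Nat.sqrt_le y
  have hwwR : (w : ℝ) * w ≤ y := by exact_mod_cast hww
  have hlt : y < (w + 1) * (w + 1) := Nat.lt_succ_sqrt y
  have hltR : (y : ℝ) ≤ (w + 1) * (w + 1) := by exact_mod_cast hlt.le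
  have hsq0 : 0 < √(y : ℝ) := Real.sqrt_pos.2 hy0
  have hws : (w : ℝ) ≤ √(y : ℝ) := Real.le_sqrt_of_sq_le (by rw [pow_two]; exact hwwR)
  have hsw : √(y : ℝ) / 2 ≤ w := by
    have h1 : √(y : ℝ) ≤ w + 1 := by
      rw [Real.sqrt_le_left (by positivity), pow_two]
      exact hltR
    linarith
  have happF : ∀ M : ℕ, 1 ≤ M → |∑ n ∈ Finset.Icc 1 M, f n * (n : ℝ) ^ (-(1 : ℝ)) - L 1| ≤ 2 * Q / M := by
    intro M hM
    have := hf.app 1 (by norm_num) le_rfl M hM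
    rwa [Real.rpow_neg_one, ← div_eq_mul_inv] at this
  have happG : ∀ M : ℕ, 1 ≤ M → |∑ n ∈ Finset.Icc 1 M, g n * (n : ℝ) ^ (-(1 : ℝ)) - L' 1| ≤ 2 * Q / M := by
    intro M hM
    have := hg.app 1 (by norm_num) le_rfl M hM
    rwa [Real.rpow_neg_one, ← div_eq_mul_inv] at this
  have hFb : ∀ a : ℕ, |f a * (a : ℝ) ^ (-(1 : ℝ))| ≤ 1 / a := by
    intro a
    rw [abs_mul, Real.rpow_neg_one, abs_of_nonneg (by positivity : (0 : ℝ) ≤ (a : ℝ)⁻¹), one_div]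
    exact mul_le_of_le_one_left (by positivity) (hf.bd a)
  have hGb : ∀ a : ℕ, |g a * (a : ℝ) ^ (-(1 : ℝ))| ≤ 1 / a := by
    intro a
    rw [abs_mul, Real.rpow_neg_one, abs_of_nonneg (by positivity : (0 : ℝ) ≤ (a : ℝ)⁻¹), one_div]
    exact mul_le_of_le_one_left (by positivity) (hg.bd a)
  have e0 : ∑ m ∈ Finset.Icc 1 y, conv f g m * (m : ℝ) ^ (-(1 : ℝ)) =
      ∑ a ∈ Finset.Icc 1 w, (f a * (a : ℝ) ^ (-(1 : ℝ))) * ∑ b ∈ Finset.Icc 1 (y / a), g b * (b : ℝ) ^ (-(1 : ℝ)) +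
        ∑ b ∈ Finset.Icc 1 (y / (w + 1)), (g b * (b : ℝ) ^ (-(1 : ℝ))) *
          ∑ a ∈ Finset.Ioc w (y / b), f a * (a : ℝ) ^ (-(1 : ℝ)) := by
    rw [← sum_conv]
    exact Finset.sum_congr rfl fun m _ => conv_weight f g 1 m
  -- first part
  have e1 : |∑ a ∈ Finset.Icc 1 w, (f a * (a : ℝ) ^ (-(1 : ℝ))) * ∑ b ∈ Finset.Icc 1 (y / a), g b * (b : ℝ) ^ (-(1 : ℝ)) -
      L 1 * L' 1| ≤ 3 * Q * (2 * Q / w) + w * (4 * Q / y) := by
    have h1 : ∑ a ∈ Finset.Icc 1 w, (f a * (a : ℝ) ^ (-(1 : ℝ))) * ∑ b ∈ Finset.Icc 1 (y / a), g b * (b : ℝ) ^ (-(1 : ℝ)) -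
        L 1 * L' 1 = L' 1 * (∑ a ∈ Finset.Icc 1 w, f a * (a : ℝ) ^ (-(1 : ℝ)) - L 1) +
        ∑ a ∈ Finset.Icc 1 w, (f a * (a : ℝ) ^ (-(1 : ℝ))) *
          (∑ b ∈ Finset.Icc 1 (y / a), g b * (b : ℝ) ^ (-(1 : ℝ)) - L' 1) := by
      simp only [mul_sub, Finset.sum_sub_distrib]
      rw [Finset.sum_congr rfl fun a (_ : a ∈ Finset.Icc 1 w) => mul_comm (f a * (a : ℝ) ^ (-(1 : ℝ))) (L' 1),
        ← Finset.mul_sum]
      ring
    rw [h1]
    refine (abs_add_le _ _).trans (add_le_add ?_ ?_)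
    · rw [abs_mul]
      exact mul_le_mul (hg.abs_one_le (by norm_num) le_rfl) (happF w hw1) (abs_nonneg _) (by positivity)
    · refine (Finset.abs_sum_le_sum_abs _ _).trans ?_
      have h2 : ∀ a ∈ Finset.Icc 1 w, |(f a * (a : ℝ) ^ (-(1 : ℝ))) *
          (∑ b ∈ Finset.Icc 1 (y / a), g b * (b : ℝ) ^ (-(1 : ℝ)) - L' 1)| ≤ 4 * Q / y := by
        intro a ha
        rw [Finset.mem_Icc] at ha
        have ha0 : (0 : ℝ) < a := by exact_mod_cast (by omega : 0 < a)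
        have hay : a ≤ y := ha.2.trans ((Nat.le_mul_of_pos_left w hw1).trans hww)
        have hM : 1 ≤ y / a := (Nat.one_le_div_iff (by omega)).2 hay
        have hM' : (y : ℝ) / (2 * a) ≤ ((y / a : ℕ) : ℝ) := by
          rw [div_le_iff₀ (by positivity)]
          have h3 : y ≤ 2 * (a * (y / a)) := by
            have h4 := Nat.div_add_mod y a
            have h5 := Nat.mod_lt y (show 0 < a by omega)
            have h6 : a * 1 ≤ a * (y / a) := Nat.mul_le_mul_left a hM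
            omega
          have h4 : (y : ℝ) ≤ 2 * (a * ((y / a : ℕ) : ℝ)) := by exact_mod_cast h3
          linarith
        rw [abs_mul]
        have h5 : |∑ b ∈ Finset.Icc 1 (y / a), g b * (b : ℝ) ^ (-(1 : ℝ)) - L' 1| ≤ 2 * Q / ((y : ℝ) / (2 * a)) :=
          (happG _ hM).trans (div_le_div_of_nonneg_left (by positivity) (by positivity) hM')
        calc _ ≤ 1 / (a : ℝ) * (2 * Q / ((y : ℝ) / (2 * a))) :=
              mul_le_mul (hFb a) h5 (abs_nonneg _) (by positivity)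
          _ = 4 * Q / y := by field_simp; ring
      refine (Finset.sum_le_sum h2).trans ?_
      rw [Finset.sum_const, nsmul_eq_mul, Nat.card_Icc, Nat.add_sub_cancel]
  -- second part
  have e2 : |∑ b ∈ Finset.Icc 1 (y / (w + 1)), (g b * (b : ℝ) ^ (-(1 : ℝ))) *
      ∑ a ∈ Finset.Ioc w (y / b), f a * (a : ℝ) ^ (-(1 : ℝ))| ≤ (1 + Real.log y) * (4 * Q / w) := by
    refine (Finset.abs_sum_le_sum_abs _ _).trans ?_
    have h2 : ∀ b ∈ Finset.Icc 1 (y / (w + 1)), |(g b * (b : ℝ) ^ (-(1 : ℝ))) *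
        ∑ a ∈ Finset.Ioc w (y / b), f a * (a : ℝ) ^ (-(1 : ℝ))| ≤ 1 / (b : ℝ) * (4 * Q / w) := by
      intro b hb
      rw [Finset.mem_Icc] at hb
      have hN : w + 1 ≤ y / b := by
        rw [Nat.le_div_iff_mul_le (by omega)]
        have := (Nat.le_div_iff_mul_le (by omega)).1 hb.2
        rw [mul_comm]
        exact this
      have h3 : ∑ a ∈ Finset.Ioc w (y / b), f a * (a : ℝ) ^ (-(1 : ℝ)) =
          (∑ a ∈ Finset.Icc 1 (y / b), f a * (a : ℝ) ^ (-(1 : ℝ)) - L 1) -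
          (∑ a ∈ Finset.Icc 1 w, f a * (a : ℝ) ^ (-(1 : ℝ)) - L 1) := by
        have h4 : ∀ k : ℕ, Finset.Icc 1 k = Finset.Ioc 0 k := by
          intro k
          ext a
          simp only [Finset.mem_Ioc, Finset.mem_Icc]
          omega
        rw [h4, h4, ← Finset.sum_Ioc_consecutive (fun a : ℕ => f a * (a : ℝ) ^ (-(1 : ℝ))) (Nat.zero_le w)
          (show w ≤ y / b by omega)]
        ring
      have h4 : |∑ a ∈ Finset.Ioc w (y / b), f a * (a : ℝ) ^ (-(1 : ℝ))| ≤ 4 * Q / w := by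
        rw [h3]
        refine (abs_sub _ _).trans ?_
        have h5 := happF (y / b) (by omega)
        have h6 := happF w hw1
        have h7 : 2 * Q / ((y / b : ℕ) : ℝ) ≤ 2 * Q / w := by
          apply div_le_div_of_nonneg_left (by positivity) hw0
          exact_mod_cast (show w ≤ y / b by omega)
        have h8 : 4 * Q / w = 2 * Q / w + 2 * Q / w := by ring
        rw [h8]
        linarith
      rw [abs_mul]
      exact mul_le_mul (hGb b) h4 (abs_nonneg _) (by positivity)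
    refine (Finset.sum_le_sum h2).trans ?_
    rw [← Finset.sum_mul]
    exact mul_le_mul_of_nonneg_right (harm30 _ y (Nat.div_le_self _ _)) (by positivity)
  -- conclusion
  set u : ℝ := (y : ℝ) ^ (1 / 4 : ℝ) with hu
  have hu1 : 1 ≤ u := Real.one_le_rpow hyR (by norm_num)
  have hu0 : 0 < u := by linarith
  have huinv : (y : ℝ) ^ (-(1 / 4) : ℝ) = 1 / u := by
    rw [Real.rpow_neg hy0.le, ← hu]
    exact (one_div u).symm
  have husq : √(y : ℝ) = u * u := by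
    rw [hu, ← Real.rpow_add hy0, Real.sqrt_eq_rpow]
    norm_num
  have hlog : Real.log y ≤ 4 * (u - 1) := by
    have h1 : Real.log u ≤ u - 1 := Real.log_le_sub_one_of_pos hu0
    have h2 : Real.log u = 1 / 4 * Real.log y := by rw [hu, Real.log_rpow hy0]
    linarith
  have hlog0 : 0 ≤ Real.log y := Real.log_nonneg hyR
  have t1 : 3 * Q * (2 * Q / w) ≤ 12 * Q ^ 2 / (u * u) := by
    rw [← husq]
    calc 3 * Q * (2 * Q / w) = 6 * Q ^ 2 / w := by ring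
      _ ≤ 6 * Q ^ 2 / (√(y : ℝ) / 2) := div_le_div_of_nonneg_left (by positivity) (by positivity) hsw
      _ = 12 * Q ^ 2 / √(y : ℝ) := by field_simp; ring
  have t2 : w * (4 * Q / y) ≤ 4 * Q ^ 2 / (u * u) := by
    rw [← husq]
    have h1 : (y : ℝ) = √(y : ℝ) * √(y : ℝ) := (Real.mul_self_sqrt hy0.le).symm
    calc (w : ℝ) * (4 * Q / y) ≤ √(y : ℝ) * (4 * Q / y) := mul_le_mul_of_nonneg_right hws (by positivity)
      _ = 4 * Q / √(y : ℝ) := by
        conv_lhs => rw [h1]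
        rw [Real.sqrt_mul_self hsq0.le]
        field_simp
      _ ≤ 4 * Q ^ 2 / √(y : ℝ) := by
        apply div_le_div_of_nonneg_right _ hsq0.le
        nlinarith
  have t3 : (1 + Real.log y) * (4 * Q / w) ≤ 32 * Q ^ 2 / u := by
    have h1 : 4 * Q / w ≤ 8 * Q / (u * u) := by
      rw [← husq]
      calc 4 * Q / w ≤ 4 * Q / (√(y : ℝ) / 2) := div_le_div_of_nonneg_left (by positivity) (by positivity) hsw
        _ = 8 * Q / √(y : ℝ) := by field_simp; ring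
    calc (1 + Real.log y) * (4 * Q / w) ≤ (4 * u) * (8 * Q / (u * u)) :=
          mul_le_mul (by linarith) h1 (by positivity) (by positivity)
      _ = 32 * Q / u := by field_simp; ring
      _ ≤ 32 * Q ^ 2 / u := by
        apply div_le_div_of_nonneg_right _ hu0.le
        nlinarith
  have t4 : Q ^ 2 / (u * u) ≤ Q ^ 2 / u := by
    apply div_le_div_of_nonneg_left (by positivity) hu0
    nlinarith
  rw [e0, huinv, add_sub_right_comm]
  refine (abs_add_le _ _).trans ?_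
  have t5 : 12 * Q ^ 2 / (u * u) = 12 * (Q ^ 2 / (u * u)) := by ring
  have t6 : 4 * Q ^ 2 / (u * u) = 4 * (Q ^ 2 / (u * u)) := by ring
  have t7 : 32 * Q ^ 2 / u = 32 * (Q ^ 2 / u) := by ring
  have t8 : 128 * Q ^ 2 * (1 / u) = 128 * (Q ^ 2 / u) := by ring
  have t9 : 0 ≤ Q ^ 2 / u := by positivity
  rw [t8]
  rw [t5] at t1
  rw [t6] at t2
  rw [t7] at t3
  linarith

end Pool.Agent.Helper68.LA
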