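import Pool.Agent.Helper68.LA.E1
import Pool.Agent.Helper68.LA.E2a
import Pool.Agent.Helper68.LA.E2b

/-!
# Block LA-E3: the inequality of Siegel's theorem

`r = conv f₁ one ≥ 0`, `g = conv f₂ f₃`, `conv r g ≥ 0`, value `1` at `1`, so `1 ≤ ∑_{n ≤ x} conv r g n n^(-β)`.  Let `y = ⌊x^(1/8)⌋₊ ≥ 1` (`y ≥ x^(1/8)/2`).
`conv_comm`, `conv_weight`, `sum_conv` (with `u = g`, `v = r`): the sum is
`∑_{m ≤ y} g m m^(-β) R(x/m) + ∑_{k ≤ x/(y+1)} r k k^(-β) ∑_{m ∈ Ioc y (x/k)} g m m^(-β)`.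
First part: `e1` with `t = x/m` (`⌊x/m⌋₊ = x / m` in `ℕ`), `L₁ β = 0`: `R(x/m) = L₁ 1 (x/m)^(1-β)/(1-β) + O(64 Q (x/m)^(-1/4)/(1-β))`.  Main term:
`L₁ 1 x^(1-β)/(1-β) ∑_{m ≤ y} g m m^(-1)` and `conv_one`, `|L₁ 1| ≤ 3 Q`: `(L₁ 1 L₂ 1 L₃ 1) x^(1-β)/(1-β) + O(384 Q³ y^(-1/4) x^(1-β)/(1-β))`.  Error:
`∑_{m ≤ y} m · m^(-β) · 64 Q (x/m)^(-1/4)/(1-β) ≤ 64 Q x^(-1/4) y^(3/2)/(1-β) ≤ 64 Q x^(-1/16)/(1-β)` (`conv_abs`, `m^(5/4-β) ≤ m^(1/2) ≤ y^(1/2)`).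
Second part: `conv_tail`, and `∑_{k ≤ x/(y+1)} r k k^(-β) ≤ |L₁ 1| x^(1-β)/(1-β) + 64 Q/(1-β) ≤ 67 Q x^(1-β)/(1-β)` by `e1` (`r ≥ 0`; if `x/(y+1) = 0` the sum is `0`): at most
`2144 Q² y^(-1/4) x^(1-β)/(1-β)`.  Finally `y^(-1/4) ≤ 2 x^(-1/32)` and `1 - β ≤ 1/64`: `x^(1-β) x^(-1/32) ≤ x^(-1/64)`.
Total constant: `768 + 64 + 4288 ≤ 10000`.
-/

set_option autoImplicit false

namespace Pool.Agent.Helper68.LA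

private theorem R_est86 {f₁ : ℕ → ℝ} {Q : ℝ} {L₁ : ℝ → ℝ} (d₁ : LD f₁ Q L₁) {β : ℝ}
    (h0 : 63 / 64 ≤ β) (h1 : β < 1) (hz : L₁ β = 0) : ∀ t : ℝ, 1 ≤ t →
    |∑ k ∈ Finset.Icc 1 ⌊t⌋₊, conv f₁ one k * (k : ℝ) ^ (-β) - L₁ 1 * t ^ (1 - β) / (1 - β)| ≤
      64 * Q * t ^ (-(1 / 4) : ℝ) / (1 - β) := by
  obtain ⟨ζ, -, he⟩ := e1 (show (3 : ℝ) / 4 ≤ β by linarith) h1
  intro t ht
  have h := he f₁ Q L₁ d₁ t ht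
  rw [hz, mul_zero, zero_add] at h
  exact h

private theorem part_one86 {f₁ f₂ f₃ : ℕ → ℝ} {Q : ℝ} {L₁ L₂ L₃ : ℝ → ℝ} (d₁ : LD f₁ Q L₁)
    (d₂ : LD f₂ Q L₂) (d₃ : LD f₃ Q L₃) {β : ℝ}
    (h0 : 63 / 64 ≤ β) (h1 : β < 1) (hz : L₁ β = 0) {x y : ℕ} (hy : 1 ≤ y) (hyx : y ≤ x) :
    |∑ a ∈ Finset.Icc 1 y, (conv f₂ f₃ a * (a : ℝ) ^ (-β)) *
        ∑ b ∈ Finset.Icc 1 (x / a), conv f₁ one b * (b : ℝ) ^ (-β) -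
        (L₁ 1 * L₂ 1 * L₃ 1) * ((x : ℝ) ^ (1 - β) / (1 - β))| ≤
      384 * Q ^ 3 * (y : ℝ) ^ (-(1 / 4) : ℝ) * (x : ℝ) ^ (1 - β) / (1 - β) +
        64 * Q * (x : ℝ) ^ (-(1 / 4) : ℝ) * (y : ℝ) ^ (3 / 2 : ℝ) / (1 - β) := by
  have hc0 : 0 < 1 - β := by linarith
  have hQ := d₁.one_le
  have hx1 : 1 ≤ x := hy.trans hyx
  have hX : (1 : ℝ) ≤ x := by exact_mod_cast hx1
  have hX0 : (0 : ℝ) < x := by linarith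
  have hY : (1 : ℝ) ≤ y := by exact_mod_cast hy
  have hY0 : (0 : ℝ) < y := by linarith
  have hRe := R_est86 d₁ h0 h1 hz
  -- termwise estimate
  have key : ∀ a ∈ Finset.Icc 1 y,
      |(conv f₂ f₃ a * (a : ℝ) ^ (-β)) * ∑ b ∈ Finset.Icc 1 (x / a), conv f₁ one b * (b : ℝ) ^ (-β) -
        (L₁ 1 * ((x : ℝ) ^ (1 - β) / (1 - β))) * (conv f₂ f₃ a * (a : ℝ) ^ (-(1 : ℝ)))| ≤
      64 * Q * (x : ℝ) ^ (-(1 / 4) : ℝ) / (1 - β) * (y : ℝ) ^ (1 / 2 : ℝ) := by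
    intro a ha
    rw [Finset.mem_Icc] at ha
    have ha1 : (1 : ℝ) ≤ a := by exact_mod_cast ha.1
    have ha0 : (0 : ℝ) < a := by linarith
    have hay : (a : ℝ) ≤ y := by exact_mod_cast ha.2
    have hax : (a : ℝ) ≤ x := by exact_mod_cast ha.2.trans hyx
    have ht : 1 ≤ (x : ℝ) / a := by rw [le_div_iff₀ ha0]; linarith
    have h2 := hRe _ ht
    have hfl : ⌊(x : ℝ) / a⌋₊ = x / a := by
      rw [Nat.floor_div_natCast, Nat.floor_natCast]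
    rw [hfl] at h2
    have h3 : (L₁ 1 * ((x : ℝ) ^ (1 - β) / (1 - β))) * (conv f₂ f₃ a * (a : ℝ) ^ (-(1 : ℝ))) =
        (conv f₂ f₃ a * (a : ℝ) ^ (-β)) * (L₁ 1 * ((x : ℝ) / a) ^ (1 - β) / (1 - β)) := by
      rw [Real.div_rpow hX0.le ha0.le]
      have h4 : (a : ℝ) ^ (-(1 : ℝ)) = (a : ℝ) ^ (-β) / (a : ℝ) ^ (1 - β) := by
        rw [← Real.rpow_sub ha0]
        congr 1
        ring
      rw [h4]
      have h5 : (a : ℝ) ^ (1 - β) ≠ 0 := (Real.rpow_pos_of_pos ha0 _).ne'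
      field_simp
    rw [h3, ← mul_sub, abs_mul]
    have h4 : |conv f₂ f₃ a * (a : ℝ) ^ (-β)| ≤ a * (a : ℝ) ^ (-β) := by
      rw [abs_mul, abs_of_nonneg (Real.rpow_nonneg ha0.le _)]
      exact mul_le_mul_of_nonneg_right (conv_abs d₂.bd d₃.bd a) (Real.rpow_nonneg ha0.le _)
    refine (mul_le_mul h4 h2 (abs_nonneg _) (by positivity)).trans ?_
    rw [Real.div_rpow hX0.le ha0.le]
    have h6 : (a : ℝ) * (a : ℝ) ^ (-β) / (a : ℝ) ^ (-(1 / 4) : ℝ) ≤ (y : ℝ) ^ (1 / 2 : ℝ) := by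
      have h7 : (a : ℝ) * (a : ℝ) ^ (-β) / (a : ℝ) ^ (-(1 / 4) : ℝ) = (a : ℝ) ^ (5 / 4 - β) := by
        have h8 : (a : ℝ) = (a : ℝ) ^ (1 : ℝ) := (Real.rpow_one _).symm
        calc (a : ℝ) * (a : ℝ) ^ (-β) / (a : ℝ) ^ (-(1 / 4) : ℝ)
            = (a : ℝ) ^ (1 : ℝ) * (a : ℝ) ^ (-β) / (a : ℝ) ^ (-(1 / 4) : ℝ) := by rw [← h8]
          _ = (a : ℝ) ^ (5 / 4 - β) := by
              rw [← Real.rpow_add ha0, ← Real.rpow_sub ha0]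
              congr 1
              ring
      rw [h7]
      calc (a : ℝ) ^ (5 / 4 - β) ≤ (a : ℝ) ^ (1 / 2 : ℝ) :=
            Real.rpow_le_rpow_of_exponent_le ha1 (by linarith)
        _ ≤ (y : ℝ) ^ (1 / 2 : ℝ) := Real.rpow_le_rpow ha0.le hay (by norm_num)
    have h9 : (a : ℝ) * (a : ℝ) ^ (-β) *
        (64 * Q * ((x : ℝ) ^ (-(1 / 4) : ℝ) / (a : ℝ) ^ (-(1 / 4) : ℝ)) / (1 - β)) =
        64 * Q * (x : ℝ) ^ (-(1 / 4) : ℝ) / (1 - β) *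
          ((a : ℝ) * (a : ℝ) ^ (-β) / (a : ℝ) ^ (-(1 / 4) : ℝ)) := by
      have h5 : (a : ℝ) ^ (-(1 / 4) : ℝ) ≠ 0 := (Real.rpow_pos_of_pos ha0 _).ne'
      field_simp
    rw [h9]
    exact mul_le_mul_of_nonneg_left h6 (by positivity)
  -- sum of the termwise estimates
  have hsum : |∑ a ∈ Finset.Icc 1 y, (conv f₂ f₃ a * (a : ℝ) ^ (-β)) *
        ∑ b ∈ Finset.Icc 1 (x / a), conv f₁ one b * (b : ℝ) ^ (-β) -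
        (L₁ 1 * ((x : ℝ) ^ (1 - β) / (1 - β))) *
          ∑ a ∈ Finset.Icc 1 y, conv f₂ f₃ a * (a : ℝ) ^ (-(1 : ℝ))| ≤
      64 * Q * (x : ℝ) ^ (-(1 / 4) : ℝ) * (y : ℝ) ^ (3 / 2 : ℝ) / (1 - β) := by
    rw [Finset.mul_sum, ← Finset.sum_sub_distrib]
    refine (Finset.abs_sum_le_sum_abs _ _).trans ((Finset.sum_le_sum key).trans (le_of_eq ?_))
    rw [Finset.sum_const, Nat.card_Icc, Nat.add_sub_cancel, nsmul_eq_mul]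
    have h10 : (y : ℝ) ^ (3 / 2 : ℝ) = y * (y : ℝ) ^ (1 / 2 : ℝ) := by
      rw [show (3 / 2 : ℝ) = 1 + 1 / 2 by norm_num, Real.rpow_add hY0, Real.rpow_one]
    rw [h10]
    ring
  have hone := conv_one d₂ d₃ hy
  have hL1 : |L₁ 1| ≤ 3 * Q := d₁.abs_one_le (by norm_num) le_rfl
  have hmain : |(L₁ 1 * ((x : ℝ) ^ (1 - β) / (1 - β))) *
          ∑ a ∈ Finset.Icc 1 y, conv f₂ f₃ a * (a : ℝ) ^ (-(1 : ℝ)) -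
        (L₁ 1 * L₂ 1 * L₃ 1) * ((x : ℝ) ^ (1 - β) / (1 - β))| ≤
      384 * Q ^ 3 * (y : ℝ) ^ (-(1 / 4) : ℝ) * (x : ℝ) ^ (1 - β) / (1 - β) := by
    have h11 : (L₁ 1 * ((x : ℝ) ^ (1 - β) / (1 - β))) *
          ∑ a ∈ Finset.Icc 1 y, conv f₂ f₃ a * (a : ℝ) ^ (-(1 : ℝ)) -
        (L₁ 1 * L₂ 1 * L₃ 1) * ((x : ℝ) ^ (1 - β) / (1 - β)) =
        (L₁ 1 * ((x : ℝ) ^ (1 - β) / (1 - β))) *
          (∑ a ∈ Finset.Icc 1 y, conv f₂ f₃ a * (a : ℝ) ^ (-(1 : ℝ)) - L₂ 1 * L₃ 1) := by ring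
    have hp : 0 ≤ (x : ℝ) ^ (1 - β) / (1 - β) := by positivity
    rw [h11, abs_mul, abs_mul, abs_of_nonneg hp]
    calc |L₁ 1| * ((x : ℝ) ^ (1 - β) / (1 - β)) *
          |∑ a ∈ Finset.Icc 1 y, conv f₂ f₃ a * (a : ℝ) ^ (-(1 : ℝ)) - L₂ 1 * L₃ 1|
        ≤ (3 * Q) * ((x : ℝ) ^ (1 - β) / (1 - β)) * (128 * Q ^ 2 * (y : ℝ) ^ (-(1 / 4) : ℝ)) :=
          mul_le_mul (mul_le_mul_of_nonneg_right hL1 hp) hone (abs_nonneg _) (by positivity)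
      _ = 384 * Q ^ 3 * (y : ℝ) ^ (-(1 / 4) : ℝ) * (x : ℝ) ^ (1 - β) / (1 - β) := by ring
  calc _ = |(∑ a ∈ Finset.Icc 1 y, (conv f₂ f₃ a * (a : ℝ) ^ (-β)) *
        ∑ b ∈ Finset.Icc 1 (x / a), conv f₁ one b * (b : ℝ) ^ (-β) -
        (L₁ 1 * ((x : ℝ) ^ (1 - β) / (1 - β))) *
          ∑ a ∈ Finset.Icc 1 y, conv f₂ f₃ a * (a : ℝ) ^ (-(1 : ℝ))) +
        ((L₁ 1 * ((x : ℝ) ^ (1 - β) / (1 - β))) *
          ∑ a ∈ Finset.Icc 1 y, conv f₂ f₃ a * (a : ℝ) ^ (-(1 : ℝ)) -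
        (L₁ 1 * L₂ 1 * L₃ 1) * ((x : ℝ) ^ (1 - β) / (1 - β)))| := by congr 1; ring
    _ ≤ _ := (abs_add_le _ _).trans (by linarith)

private theorem part_two86 {f₁ f₂ f₃ : ℕ → ℝ} {Q : ℝ} {L₁ L₂ L₃ : ℝ → ℝ} (d₁ : LD f₁ Q L₁)
    (d₂ : LD f₂ Q L₂) (d₃ : LD f₃ Q L₃) {β : ℝ}
    (h0 : 63 / 64 ≤ β) (h1 : β < 1) (hz : L₁ β = 0) (hr : ∀ n, 0 ≤ conv f₁ one n)
    {x y : ℕ} (hx : 1 ≤ x) (hy : 1 ≤ y) :
    |∑ b ∈ Finset.Icc 1 (x / (y + 1)), (conv f₁ one b * (b : ℝ) ^ (-β)) *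
        ∑ a ∈ Finset.Ioc y (x / b), conv f₂ f₃ a * (a : ℝ) ^ (-β)| ≤
      2144 * Q ^ 2 * (y : ℝ) ^ (-(1 / 4) : ℝ) * (x : ℝ) ^ (1 - β) / (1 - β) := by
  have hc0 : 0 < 1 - β := by linarith
  have hQ := d₁.one_le
  have hX : (1 : ℝ) ≤ x := by exact_mod_cast hx
  have hX0 : (0 : ℝ) < x := by linarith
  have hY : (1 : ℝ) ≤ y := by exact_mod_cast hy
  have hY0 : (0 : ℝ) < y := by linarith
  have hX1 : 1 ≤ (x : ℝ) ^ (1 - β) := Real.one_le_rpow hX hc0.le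
  have hR : ∑ b ∈ Finset.Icc 1 (x / (y + 1)), conv f₁ one b * (b : ℝ) ^ (-β) ≤
      67 * Q * ((x : ℝ) ^ (1 - β) / (1 - β)) := by
    rcases Nat.eq_zero_or_pos (x / (y + 1)) with h | h
    · rw [h]
      simp only [Finset.Icc_eq_empty_of_lt Nat.zero_lt_one, Finset.sum_empty]
      positivity
    · have hN : (1 : ℝ) ≤ ((x / (y + 1) : ℕ) : ℝ) := by exact_mod_cast h
      have hN0 : (0 : ℝ) < ((x / (y + 1) : ℕ) : ℝ) := by linarith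
      have hNx : ((x / (y + 1) : ℕ) : ℝ) ≤ x := by exact_mod_cast Nat.div_le_self _ _
      have h2 := R_est86 d₁ h0 h1 hz _ hN
      rw [Nat.floor_natCast] at h2
      have h3 := (abs_le.1 h2).2
      have hL1 : |L₁ 1| ≤ 3 * Q := d₁.abs_one_le (by norm_num) le_rfl
      have h4 : L₁ 1 * ((x / (y + 1) : ℕ) : ℝ) ^ (1 - β) / (1 - β) ≤
          3 * Q * ((x : ℝ) ^ (1 - β) / (1 - β)) := by
        rw [mul_div_assoc]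
        refine mul_le_mul ((le_abs_self _).trans hL1) ?_ (by positivity) (by positivity)
        exact div_le_div_of_nonneg_right (Real.rpow_le_rpow hN0.le hNx hc0.le) hc0.le
      have h5 : ((x / (y + 1) : ℕ) : ℝ) ^ (-(1 / 4) : ℝ) ≤ (x : ℝ) ^ (1 - β) :=
        (Real.rpow_le_one_of_one_le_of_nonpos hN (by norm_num)).trans hX1
      have h6 : 64 * Q * ((x / (y + 1) : ℕ) : ℝ) ^ (-(1 / 4) : ℝ) / (1 - β) ≤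
          64 * Q * ((x : ℝ) ^ (1 - β) / (1 - β)) := by
        rw [mul_div_assoc]
        exact mul_le_mul_of_nonneg_left (div_le_div_of_nonneg_right h5 hc0.le) (by positivity)
      linarith
  have hterm : ∀ b ∈ Finset.Icc 1 (x / (y + 1)),
      |(conv f₁ one b * (b : ℝ) ^ (-β)) *
        ∑ a ∈ Finset.Ioc y (x / b), conv f₂ f₃ a * (a : ℝ) ^ (-β)| ≤
      (conv f₁ one b * (b : ℝ) ^ (-β)) * (32 * Q * (y : ℝ) ^ (-(1 / 4) : ℝ)) := by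
    intro b _
    have hb0 : 0 ≤ conv f₁ one b * (b : ℝ) ^ (-β) :=
      mul_nonneg (hr b) (Real.rpow_nonneg (Nat.cast_nonneg _) _)
    rw [abs_mul, abs_of_nonneg hb0]
    exact mul_le_mul_of_nonneg_left (conv_tail d₂ d₃ (by linarith) h1.le hy _) hb0
  refine (Finset.abs_sum_le_sum_abs _ _).trans ((Finset.sum_le_sum hterm).trans ?_)
  rw [← Finset.sum_mul]
  calc _ ≤ 67 * Q * ((x : ℝ) ^ (1 - β) / (1 - β)) * (32 * Q * (y : ℝ) ^ (-(1 / 4) : ℝ)) :=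
        mul_le_mul_of_nonneg_right hR (by positivity)
    _ = 2144 * Q ^ 2 * (y : ℝ) ^ (-(1 / 4) : ℝ) * (x : ℝ) ^ (1 - β) / (1 - β) := by ring

theorem e3 {f₁ f₂ f₃ : ℕ → ℝ} {Q : ℝ} {L₁ L₂ L₃ : ℝ → ℝ} (d₁ : LD f₁ Q L₁) (d₂ : LD f₂ Q L₂) (d₃ : LD f₃ Q L₃) {β : ℝ}
    (h0 : 63 / 64 ≤ β) (h1 : β < 1) (hz : L₁ β = 0) (hr : ∀ n, 0 ≤ conv f₁ one n)
    (ha : ∀ n, 0 ≤ conv (conv f₁ one) (conv f₂ f₃) n) (ha1 : conv (conv f₁ one) (conv f₂ f₃) 1 = 1) {x : ℕ} (hx : 1 ≤ x) :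
    1 ≤ (L₁ 1 * L₂ 1 * L₃ 1) * ((x : ℝ) ^ (1 - β) / (1 - β)) + 10000 * Q ^ 3 * (x : ℝ) ^ (-(1 / 64) : ℝ) / (1 - β) := by
  have hc0 : 0 < 1 - β := by linarith
  have hQ := d₁.one_le
  have hX : (1 : ℝ) ≤ x := by exact_mod_cast hx
  have hX0 : (0 : ℝ) < x := by linarith
  have h8 : 1 ≤ (x : ℝ) ^ (1 / 8 : ℝ) := Real.one_le_rpow hX (by norm_num)
  obtain ⟨y, hy1, hyle, hyge⟩ : ∃ y : ℕ, 1 ≤ y ∧ (y : ℝ) ≤ (x : ℝ) ^ (1 / 8 : ℝ) ∧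
      (x : ℝ) ^ (1 / 8 : ℝ) / 2 ≤ y := by
    have h9 : 1 ≤ ⌊(x : ℝ) ^ (1 / 8 : ℝ)⌋₊ := by
      rw [Nat.one_le_floor_iff]
      exact h8
    refine ⟨⌊(x : ℝ) ^ (1 / 8 : ℝ)⌋₊, h9, Nat.floor_le (by positivity), ?_⟩
    have h10 := Nat.lt_floor_add_one ((x : ℝ) ^ (1 / 8 : ℝ))
    have h11 : (1 : ℝ) ≤ (⌊(x : ℝ) ^ (1 / 8 : ℝ)⌋₊ : ℝ) := by exact_mod_cast h9
    linarith
  have hY : (1 : ℝ) ≤ y := by exact_mod_cast hy1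
  have hY0 : (0 : ℝ) < y := by linarith
  have hyx : y ≤ x := by
    have : (x : ℝ) ^ (1 / 8 : ℝ) ≤ (x : ℝ) ^ (1 : ℝ) :=
      Real.rpow_le_rpow_of_exponent_le hX (by norm_num)
    rw [Real.rpow_one] at this
    exact_mod_cast hyle.trans this
  -- lower bound by the first term
  have hS1 : 1 ≤ ∑ n ∈ Finset.Icc 1 x, conv (conv f₁ one) (conv f₂ f₃) n * (n : ℝ) ^ (-β) := by
    have h12 := Finset.single_le_sum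
      (f := fun n : ℕ => conv (conv f₁ one) (conv f₂ f₃) n * (n : ℝ) ^ (-β))
      (fun n _ => mul_nonneg (ha n) (Real.rpow_nonneg (Nat.cast_nonneg _) _))
      (Finset.mem_Icc.2 ⟨le_rfl, hx⟩)
    simpa [ha1] using h12
  have hS2 : ∑ n ∈ Finset.Icc 1 x, conv (conv f₁ one) (conv f₂ f₃) n * (n : ℝ) ^ (-β) =
      ∑ a ∈ Finset.Icc 1 y, (conv f₂ f₃ a * (a : ℝ) ^ (-β)) *
        ∑ b ∈ Finset.Icc 1 (x / a), conv f₁ one b * (b : ℝ) ^ (-β) +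
      ∑ b ∈ Finset.Icc 1 (x / (y + 1)), (conv f₁ one b * (b : ℝ) ^ (-β)) *
        ∑ a ∈ Finset.Ioc y (x / b), conv f₂ f₃ a * (a : ℝ) ^ (-β) := by
    rw [← sum_conv (fun a => conv f₂ f₃ a * (a : ℝ) ^ (-β))
      (fun b => conv f₁ one b * (b : ℝ) ^ (-β)) x y]
    refine Finset.sum_congr rfl fun n _ => ?_
    rw [← conv_weight, conv_comm]
  have hp1 := part_one86 d₁ d₂ d₃ h0 h1 hz hy1 hyx
  have hp2 := part_two86 d₁ d₂ d₃ h0 h1 hz hr hx hy1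
  have hp1' := (abs_le.1 hp1).2
  have hp2' := (abs_le.1 hp2).2
  -- powers
  have hy4 : (y : ℝ) ^ (-(1 / 4) : ℝ) ≤ 2 * (x : ℝ) ^ (-(1 / 32) : ℝ) := by
    have h13 : (y : ℝ) ^ (-(1 / 4) : ℝ) ≤ ((x : ℝ) ^ (1 / 8 : ℝ) / 2) ^ (-(1 / 4) : ℝ) :=
      Real.rpow_le_rpow_of_nonpos (by positivity) hyge (by norm_num)
    refine h13.trans ?_
    rw [Real.div_rpow (by positivity) (by norm_num), ← Real.rpow_mul hX0.le]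
    have h14 : (1 / 8 : ℝ) * (-(1 / 4)) = -(1 / 32) := by norm_num
    rw [h14, div_le_iff₀ (by positivity)]
    have h15 : (1 : ℝ) / 2 ≤ (2 : ℝ) ^ (-(1 / 4) : ℝ) := by
      calc (1 : ℝ) / 2 = (2 : ℝ) ^ (-(1 : ℝ)) := by rw [Real.rpow_neg_one]; norm_num
        _ ≤ (2 : ℝ) ^ (-(1 / 4) : ℝ) :=
          Real.rpow_le_rpow_of_exponent_le (by norm_num) (by norm_num)
    have h16 : 0 < (x : ℝ) ^ (-(1 / 32) : ℝ) := by positivity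
    nlinarith
  have hxp : (x : ℝ) ^ (-(1 / 32) : ℝ) * (x : ℝ) ^ (1 - β) ≤ (x : ℝ) ^ (-(1 / 64) : ℝ) := by
    rw [← Real.rpow_add hX0]
    exact Real.rpow_le_rpow_of_exponent_le hX (by linarith)
  have hyxp : (y : ℝ) ^ (-(1 / 4) : ℝ) * (x : ℝ) ^ (1 - β) ≤ 2 * (x : ℝ) ^ (-(1 / 64) : ℝ) := by
    calc (y : ℝ) ^ (-(1 / 4) : ℝ) * (x : ℝ) ^ (1 - β)
        ≤ 2 * (x : ℝ) ^ (-(1 / 32) : ℝ) * (x : ℝ) ^ (1 - β) :=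
          mul_le_mul_of_nonneg_right hy4 (by positivity)
      _ = 2 * ((x : ℝ) ^ (-(1 / 32) : ℝ) * (x : ℝ) ^ (1 - β)) := by ring
      _ ≤ 2 * (x : ℝ) ^ (-(1 / 64) : ℝ) := mul_le_mul_of_nonneg_left hxp (by norm_num)
  have hy32 : (x : ℝ) ^ (-(1 / 4) : ℝ) * (y : ℝ) ^ (3 / 2 : ℝ) ≤ (x : ℝ) ^ (-(1 / 64) : ℝ) := by
    have h17 : (y : ℝ) ^ (3 / 2 : ℝ) ≤ (x : ℝ) ^ (3 / 16 : ℝ) := by
      calc (y : ℝ) ^ (3 / 2 : ℝ) ≤ ((x : ℝ) ^ (1 / 8 : ℝ)) ^ (3 / 2 : ℝ) :=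
            Real.rpow_le_rpow hY0.le hyle (by norm_num)
        _ = (x : ℝ) ^ (3 / 16 : ℝ) := by
            rw [← Real.rpow_mul hX0.le]
            norm_num
    calc (x : ℝ) ^ (-(1 / 4) : ℝ) * (y : ℝ) ^ (3 / 2 : ℝ)
        ≤ (x : ℝ) ^ (-(1 / 4) : ℝ) * (x : ℝ) ^ (3 / 16 : ℝ) :=
          mul_le_mul_of_nonneg_left h17 (by positivity)
      _ = (x : ℝ) ^ (-(1 / 4) + 3 / 16 : ℝ) := (Real.rpow_add hX0 _ _).symm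
      _ ≤ (x : ℝ) ^ (-(1 / 64) : ℝ) := Real.rpow_le_rpow_of_exponent_le hX (by norm_num)
  set W : ℝ := (x : ℝ) ^ (-(1 / 64) : ℝ) with hW
  have hW0 : 0 < W := by positivity
  have hQ2 : Q ^ 2 ≤ Q ^ 3 := pow_le_pow_right₀ hQ (by norm_num)
  have hQ1 : Q ≤ Q ^ 3 := by
    calc Q = Q ^ 1 := (pow_one _).symm
      _ ≤ Q ^ 3 := pow_le_pow_right₀ hQ (by norm_num)
  have hE1 : 384 * Q ^ 3 * (y : ℝ) ^ (-(1 / 4) : ℝ) * (x : ℝ) ^ (1 - β) / (1 - β) ≤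
      768 * Q ^ 3 * W / (1 - β) := by
    refine div_le_div_of_nonneg_right ?_ hc0.le
    calc 384 * Q ^ 3 * (y : ℝ) ^ (-(1 / 4) : ℝ) * (x : ℝ) ^ (1 - β)
        = 384 * Q ^ 3 * ((y : ℝ) ^ (-(1 / 4) : ℝ) * (x : ℝ) ^ (1 - β)) := by ring
      _ ≤ 384 * Q ^ 3 * (2 * W) := mul_le_mul_of_nonneg_left hyxp (by positivity)
      _ = 768 * Q ^ 3 * W := by ring
  have hE2 : 64 * Q * (x : ℝ) ^ (-(1 / 4) : ℝ) * (y : ℝ) ^ (3 / 2 : ℝ) / (1 - β) ≤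
      64 * Q ^ 3 * W / (1 - β) := by
    refine div_le_div_of_nonneg_right ?_ hc0.le
    calc 64 * Q * (x : ℝ) ^ (-(1 / 4) : ℝ) * (y : ℝ) ^ (3 / 2 : ℝ)
        = 64 * Q * ((x : ℝ) ^ (-(1 / 4) : ℝ) * (y : ℝ) ^ (3 / 2 : ℝ)) := by ring
      _ ≤ 64 * Q * W := mul_le_mul_of_nonneg_left hy32 (by positivity)
      _ ≤ 64 * Q ^ 3 * W := by nlinarith
  have hE3 : 2144 * Q ^ 2 * (y : ℝ) ^ (-(1 / 4) : ℝ) * (x : ℝ) ^ (1 - β) / (1 - β) ≤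
      4288 * Q ^ 3 * W / (1 - β) := by
    refine div_le_div_of_nonneg_right ?_ hc0.le
    calc 2144 * Q ^ 2 * (y : ℝ) ^ (-(1 / 4) : ℝ) * (x : ℝ) ^ (1 - β)
        = 2144 * Q ^ 2 * ((y : ℝ) ^ (-(1 / 4) : ℝ) * (x : ℝ) ^ (1 - β)) := by ring
      _ ≤ 2144 * Q ^ 2 * (2 * W) := mul_le_mul_of_nonneg_left hyxp (by positivity)
      _ ≤ 4288 * Q ^ 3 * W := by nlinarith
  have hE4 : 768 * Q ^ 3 * W / (1 - β) + 64 * Q ^ 3 * W / (1 - β) + 4288 * Q ^ 3 * W / (1 - β) ≤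
      10000 * Q ^ 3 * W / (1 - β) := by
    rw [← add_div, ← add_div]
    refine div_le_div_of_nonneg_right ?_ hc0.le
    have : 0 ≤ Q ^ 3 * W := by positivity
    nlinarith
  rw [hS2] at hS1
  linarith

end Pool.Agent.Helper68.LA
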