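import Pool.Agent.Helper68.LA.Defs

/-!
# Block LA-Hyp: the hyperbola identity

`sum_conv`: the pairs `(a, b)`, `a, b ≥ 1`, `a b ≤ x`: those with `a ≤ y` have `b ≤ x / a`; those with `a > y` have `b ≤ x / (y+1)` and `a ∈ Ioc y (x / b)`.
`sum_conv_fun`: the same with a function of both variables (prove this one first: `∑_{n ≤ x} ∑_{ab = n} F a b`).
`conv_weight`: `(a b)^(-β) = a^(-β) b^(-β)`.
`conv_comm`, `conv_abs`: `|u|, |v| ≤ 1` gives `|conv u v n| ≤ #divisors(n) ≤ n` (`Nat.card_divisors_le_self`).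
-/

set_option autoImplicit false

namespace Pool.Agent.Helper68.LA

theorem sum_conv_fun (F : ℕ → ℕ → ℝ) (x y : ℕ) :
    ∑ n ∈ Finset.Icc 1 x, ∑ p ∈ n.divisorsAntidiagonal, F p.1 p.2 =
      ∑ a ∈ Finset.Icc 1 y, ∑ b ∈ Finset.Icc 1 (x / a), F a b +
        ∑ b ∈ Finset.Icc 1 (x / (y + 1)), ∑ a ∈ Finset.Ioc y (x / b), F a b := by
  classical
  have hm : ∀ a b : ℕ, 1 ≤ a → (b ≤ x / a ↔ a * b ≤ x) := by
    intro a b ha
    rw [Nat.le_div_iff_mul_le (by omega), mul_comm]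
  obtain ⟨P, hP⟩ : ∃ P : Finset (ℕ × ℕ), P = ((Finset.Icc 1 x) ×ˢ (Finset.Icc 1 x)).filter
      (fun p => p.1 * p.2 ≤ x) := ⟨_, rfl⟩
  have memP : ∀ p : ℕ × ℕ, p ∈ P ↔ 1 ≤ p.1 ∧ 1 ≤ p.2 ∧ p.1 * p.2 ≤ x := by
    intro p
    rw [hP, Finset.mem_filter, Finset.mem_product, Finset.mem_Icc, Finset.mem_Icc]
    constructor
    · rintro ⟨⟨⟨h1, _⟩, h3, _⟩, h5⟩
      exact ⟨h1, h3, h5⟩
    · rintro ⟨h1, h2, h3⟩
      refine ⟨⟨⟨h1, ?_⟩, h2, ?_⟩, h3⟩
      · exact (Nat.le_mul_of_pos_right _ h2).trans h3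
      · exact (Nat.le_mul_of_pos_left _ h1).trans h3
  have e1 : ∑ n ∈ Finset.Icc 1 x, ∑ p ∈ n.divisorsAntidiagonal, F p.1 p.2 =
      ∑ p ∈ P, F p.1 p.2 := by
    rw [← Finset.sum_fiberwise_of_maps_to (s := P) (t := Finset.Icc 1 x) (g := fun p => p.1 * p.2)]
    · refine Finset.sum_congr rfl (fun n hn => Finset.sum_congr ?_ (fun _ _ => rfl))
      ext p
      rw [Finset.mem_Icc] at hn
      rw [Finset.mem_filter, memP, Nat.mem_divisorsAntidiagonal]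
      constructor
      · rintro ⟨h1, h2⟩
        have h3 : p.1 ≠ 0 := by
          intro h; rw [h, zero_mul] at h1; exact h2 h1.symm
        have h4 : p.2 ≠ 0 := by
          intro h; rw [h, mul_zero] at h1; exact h2 h1.symm
        exact ⟨⟨by omega, by omega, by omega⟩, h1⟩
      · rintro ⟨_, h1⟩
        exact ⟨h1, by omega⟩
    · intro p hp
      have h := (memP p).1 hp
      rw [Finset.mem_Icc]
      exact ⟨Nat.mul_pos h.1 h.2.1, h.2.2⟩
  have e2 : ∑ a ∈ Finset.Icc 1 y, ∑ b ∈ Finset.Icc 1 (x / a), F a b =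
      ∑ p ∈ P.filter (fun p => p.1 ≤ y), F p.1 p.2 := by
    rw [Finset.sum_sigma']
    refine Finset.sum_nbij' (fun s => (s.1, s.2)) (fun p => ⟨p.1, p.2⟩) ?_ ?_ ?_ ?_ ?_
    · rintro ⟨a, b⟩ h
      rw [Finset.mem_sigma, Finset.mem_Icc, Finset.mem_Icc] at h
      obtain ⟨⟨h1, h2⟩, h3, h4⟩ := h
      simp only at h1 h2 h3 h4
      rw [Finset.mem_filter, memP]
      exact ⟨⟨h1, h3, (hm a b h1).1 h4⟩, h2⟩
    · rintro ⟨a, b⟩ h
      rw [Finset.mem_filter, memP] at h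
      obtain ⟨⟨h1, h2, h3⟩, h4⟩ := h
      simp only at h1 h2 h3 h4
      rw [Finset.mem_sigma, Finset.mem_Icc, Finset.mem_Icc]
      exact ⟨⟨h1, h4⟩, h2, (hm a b h1).2 h3⟩
    · rintro ⟨a, b⟩ _; rfl
    · rintro ⟨a, b⟩ _; rfl
    · rintro ⟨a, b⟩ _; rfl
  have e3 : ∑ b ∈ Finset.Icc 1 (x / (y + 1)), ∑ a ∈ Finset.Ioc y (x / b), F a b =
      ∑ p ∈ P.filter (fun p => ¬ p.1 ≤ y), F p.1 p.2 := by
    rw [Finset.sum_sigma']
    refine Finset.sum_nbij' (fun s => (s.2, s.1)) (fun p => ⟨p.2, p.1⟩) ?_ ?_ ?_ ?_ ?_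
    · rintro ⟨b, a⟩ h
      rw [Finset.mem_sigma, Finset.mem_Icc, Finset.mem_Ioc] at h
      obtain ⟨⟨h1, h2⟩, h3, h4⟩ := h
      simp only at h1 h2 h3 h4
      rw [Finset.mem_filter, memP]
      have h5 := (hm b a h1).1 h4
      rw [mul_comm] at h5
      exact ⟨⟨(by omega : 1 ≤ a), h1, h5⟩, (by omega : ¬ a ≤ y)⟩
    · rintro ⟨a, b⟩ h
      rw [Finset.mem_filter, memP] at h
      obtain ⟨⟨h1, h2, h3⟩, h4⟩ := h
      simp only at h1 h2 h3 h4
      rw [Finset.mem_sigma, Finset.mem_Icc, Finset.mem_Ioc]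
      refine ⟨⟨h2, (hm (y + 1) b (by omega)).2 ?_⟩, (by omega : y < a), (hm b a h2).2 ?_⟩
      · exact (Nat.mul_le_mul_right b (by omega : y + 1 ≤ a)).trans h3
      · rw [mul_comm]; exact h3
    · rintro ⟨a, b⟩ _; rfl
    · rintro ⟨a, b⟩ _; rfl
    · rintro ⟨a, b⟩ _; rfl
  rw [e1, e2, e3, Finset.sum_filter_add_sum_filter_not]

theorem sum_conv (u v : ℕ → ℝ) (x y : ℕ) :
    ∑ n ∈ Finset.Icc 1 x, conv u v n =
      ∑ a ∈ Finset.Icc 1 y, u a * ∑ b ∈ Finset.Icc 1 (x / a), v b +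
        ∑ b ∈ Finset.Icc 1 (x / (y + 1)), v b * ∑ a ∈ Finset.Ioc y (x / b), u a := by
  have h := sum_conv_fun (fun a b => u a * v b) x y
  simp only [conv]
  rw [h]
  congr 1
  · refine Finset.sum_congr rfl (fun a _ => ?_)
    rw [Finset.mul_sum]
  · refine Finset.sum_congr rfl (fun b _ => ?_)
    rw [Finset.mul_sum]
    exact Finset.sum_congr rfl (fun a _ => mul_comm _ _)

theorem conv_weight (u v : ℕ → ℝ) (β : ℝ) (n : ℕ) :
    conv u v n * (n : ℝ) ^ (-β) =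
      conv (fun a => u a * (a : ℝ) ^ (-β)) (fun b => v b * (b : ℝ) ^ (-β)) n := by
  unfold conv
  rw [Finset.sum_mul]
  refine Finset.sum_congr rfl (fun p hp => ?_)
  have h1 := (Nat.mem_divisorsAntidiagonal.1 hp).1
  rw [← h1, Nat.cast_mul, Real.mul_rpow (Nat.cast_nonneg _) (Nat.cast_nonneg _)]
  ring

theorem conv_comm (u v : ℕ → ℝ) (n : ℕ) : conv u v n = conv v u n := by
  unfold conv
  have h : ∑ p ∈ n.divisorsAntidiagonal, u p.1 * v p.2 =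
      ∑ p ∈ (n.divisorsAntidiagonal).map (Equiv.prodComm ℕ ℕ).toEmbedding, u p.1 * v p.2 := by
    rw [Nat.map_swap_divisorsAntidiagonal]
  rw [h, Finset.sum_map]
  exact Finset.sum_congr rfl (fun p _ => mul_comm _ _)

theorem conv_abs {u v : ℕ → ℝ} (hu : ∀ n, |u n| ≤ 1) (hv : ∀ n, |v n| ≤ 1) (n : ℕ) : |conv u v n| ≤ n := by
  unfold conv
  have h1 : |∑ p ∈ n.divisorsAntidiagonal, u p.1 * v p.2| ≤
      ∑ p ∈ n.divisorsAntidiagonal, (1 : ℝ) := by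
    refine (Finset.abs_sum_le_sum_abs _ _).trans (Finset.sum_le_sum (fun p _ => ?_))
    rw [abs_mul]
    exact mul_le_one₀ (hu _) (abs_nonneg _) (hv _)
  refine h1.trans ?_
  rw [Finset.sum_const, nsmul_eq_mul, mul_one]
  have h2 : n.divisorsAntidiagonal.card ≤ n := by
    have h3 : n.divisorsAntidiagonal.card = n.divisors.card := by
      rw [← Nat.map_div_right_divisors, Finset.card_map]
    rw [h3]
    exact Nat.card_divisors_le_self n
  exact_mod_cast h2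

theorem conv_at_one (u v : ℕ → ℝ) : conv u v 1 = u 1 * v 1 := by
  simp [conv]

end Pool.Agent.Helper68.LA
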