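import Pool.Agent.Helper68.LA.Ps

/-!
# Block LA-Lim: the L-series as the limit of its partial sums, `re s > 1`

`lseries_psum`: `LSeriesSummable` for bounded `c` (`LSeriesSummable_of_bounded_of_one_lt_re`), `LSeries.term`, `Summable.hasSum`, `HasSum.tendsto_sum_nat`
(`range (M+1)`, the term at `0` vanishes, `n^(-s) = 1 / n^s`).
`lseries_tail`: let `b → ∞` in `psum` (`∑_{Icc 1 b} = ∑_{Icc 1 a} + ∑_{Ioc a b}`).
`lseries_le`: `‖∑_n c n n^(-s)‖ ≤ ∑ n^(-1-x) ≤ 1 + 1/x ≤ 2/x` for `re s = 1 + x`, `0 < x ≤ 1`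
(partial sums: `∑_{n ≤ M} n^(-1-x) ≤ 1 + ∫_1^M u^(-1-x) du ≤ 1 + 1/x`).
`psum_le_log`: `∑_{n ≤ M} ‖n^(-s)‖ ≤ ∑_{n ≤ M} 1/n ≤ 1 + log M` (Mathlib: `harmonic_le_one_add_log`) for `re s ≥ 1`.
-/

set_option autoImplicit false

namespace Pool.Agent.Helper68.LA

open Filter

private theorem sum_Icc_split_helper42 (f : ℕ → ℂ) {a b : ℕ} (ha : 1 ≤ a) (hab : a ≤ b) :
    ∑ n ∈ Finset.Icc 1 b, f n = ∑ n ∈ Finset.Icc 1 a, f n + ∑ n ∈ Finset.Ioc a b, f n := by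
  induction b, hab using Nat.le_induction with
  | base => simp
  | succ b hb ih =>
    rw [Finset.sum_Icc_succ_top (by omega), ih, Finset.sum_Ioc_succ_top (by omega)]
    ring

private theorem rpow_step_helper42 {x : ℝ} (hx : 0 < x) {M : ℕ} (hM : 1 ≤ M) :
    ((M + 1 : ℕ) : ℝ) ^ (-(1 + x)) ≤ ((M : ℝ) ^ (-x) - ((M + 1 : ℕ) : ℝ) ^ (-x)) / x := by
  have hM0 : (0 : ℝ) < M := by exact_mod_cast hM
  have hN0 : (0 : ℝ) < ((M + 1 : ℕ) : ℝ) := by positivity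
  have e1 : ((M + 1 : ℕ) : ℝ) ^ (-(1 + x)) = ((M + 1 : ℕ) : ℝ) ^ (-x) * (1 / ((M + 1 : ℕ) : ℝ)) := by
    rw [neg_add, Real.rpow_add hN0, Real.rpow_neg_one]
    ring
  have e2 : (M : ℝ) ^ (-x) = ((M + 1 : ℕ) : ℝ) ^ (-x) * Real.exp (x * (Real.log ((M + 1 : ℕ) : ℝ) - Real.log M)) := by
    rw [Real.rpow_def_of_pos hM0, Real.rpow_def_of_pos hN0, ← Real.exp_add]
    congr 1
    ring
  have e3 : 1 / ((M + 1 : ℕ) : ℝ) ≤ Real.log ((M + 1 : ℕ) : ℝ) - Real.log M := by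
    have h := Real.log_le_sub_one_of_pos (div_pos hM0 hN0)
    rw [Real.log_div hM0.ne' hN0.ne'] at h
    have h2 : (M : ℝ) / ((M + 1 : ℕ) : ℝ) - 1 = -(1 / ((M + 1 : ℕ) : ℝ)) := by
      field_simp
      push_cast
      ring
    rw [h2] at h
    linarith
  have e4 : 1 + x * (1 / ((M + 1 : ℕ) : ℝ)) ≤ Real.exp (x * (Real.log ((M + 1 : ℕ) : ℝ) - Real.log M)) := by
    have h := Real.add_one_le_exp (x * (Real.log ((M + 1 : ℕ) : ℝ) - Real.log M))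
    have h2 := mul_le_mul_of_nonneg_left e3 hx.le
    linarith
  have e5 : (0 : ℝ) < ((M + 1 : ℕ) : ℝ) ^ (-x) := by positivity
  rw [e1, e2, le_div_iff₀ hx]
  have e6 := mul_le_mul_of_nonneg_left e4 e5.le
  linarith

private theorem rpow_sum_helper42 {x : ℝ} (hx : 0 < x) {M : ℕ} (hM : 1 ≤ M) :
    ∑ n ∈ Finset.Icc 1 M, (n : ℝ) ^ (-(1 + x)) ≤ 1 + (1 - (M : ℝ) ^ (-x)) / x := by
  induction M, hM using Nat.le_induction with
  | base => simp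
  | succ M hM ih =>
    rw [Finset.sum_Icc_succ_top (by omega)]
    have h := rpow_step_helper42 hx hM
    have h2 : 1 + (1 - ((M + 1 : ℕ) : ℝ) ^ (-x)) / x =
        1 + (1 - (M : ℝ) ^ (-x)) / x + ((M : ℝ) ^ (-x) - ((M + 1 : ℕ) : ℝ) ^ (-x)) / x := by ring
    rw [h2]
    linarith

theorem lseries_psum {c : ℕ → ℂ} (hc : ∀ n, ‖c n‖ ≤ 1) {s : ℂ} (hs : 1 < s.re) :
    Tendsto (fun M : ℕ => ∑ n ∈ Finset.Icc 1 M, c n * (n : ℂ) ^ (-s)) atTop (nhds (LSeries c s)) := by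
  have hsum : LSeriesSummable c s := LSeriesSummable_of_bounded_of_one_lt_re (m := 1) (fun n _ => hc n) hs
  have h1 := (Summable.hasSum (f := LSeries.term c s) hsum).tendsto_sum_nat
  have h2 := h1.comp (tendsto_add_atTop_nat 1)
  refine h2.congr fun M => ?_
  simp only [Function.comp]
  induction M with
  | zero => simp
  | succ M ih =>
    rw [Finset.sum_range_succ, ih, Finset.sum_Icc_succ_top (by omega), LSeries.term_of_ne_zero (by omega), Complex.cpow_neg,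
      div_eq_mul_inv]

theorem lseries_tail {c : ℕ → ℂ} (hc : ∀ n, ‖c n‖ ≤ 1) {s : ℂ} (hs : 1 < s.re) {P : ℝ} {a : ℕ} (ha : 1 ≤ a)
    (hP : ∀ b, ‖∑ n ∈ Finset.Ioc a b, c n‖ ≤ P) :
    ‖LSeries c s - ∑ n ∈ Finset.Icc 1 a, c n * (n : ℂ) ^ (-s)‖ ≤ P * (1 + ‖s‖ / s.re) * (a : ℝ) ^ (-s.re) := by
  have h1 := ((lseries_psum hc hs).sub_const (∑ n ∈ Finset.Icc 1 a, c n * (n : ℂ) ^ (-s))).norm
  refine le_of_tendsto h1 ?_
  filter_upwards [eventually_ge_atTop a] with b hb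
  rw [sum_Icc_split_helper42 _ ha hb, add_sub_cancel_left]
  exact psum ha hP (by linarith) b

theorem lseries_le {c : ℕ → ℂ} (hc : ∀ n, ‖c n‖ ≤ 1) {x : ℝ} (hx : 0 < x) (hx1 : x ≤ 1) {s : ℂ} (hs : s.re = 1 + x) :
    ‖LSeries c s‖ ≤ 2 / x := by
  refine le_of_tendsto (lseries_psum hc (s := s) (by linarith)).norm ?_
  filter_upwards [eventually_ge_atTop 1] with M hM
  refine (norm_sum_le _ _).trans ?_
  have h1 : ∑ n ∈ Finset.Icc 1 M, ‖c n * (n : ℂ) ^ (-s)‖ ≤ ∑ n ∈ Finset.Icc 1 M, (n : ℝ) ^ (-(1 + x)) := by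
    refine Finset.sum_le_sum fun n hn => ?_
    have hn1 : 1 ≤ n := (Finset.mem_Icc.1 hn).1
    rw [norm_mul, Complex.norm_natCast_cpow_of_pos (by omega), Complex.neg_re, hs]
    have h0 : (0 : ℝ) ≤ (n : ℝ) ^ (-(1 + x)) := by positivity
    nlinarith [hc n]
  refine h1.trans ((rpow_sum_helper42 hx hM).trans ?_)
  have h3 : (0 : ℝ) ≤ (M : ℝ) ^ (-x) := by positivity
  have h4 : 1 + (1 - (M : ℝ) ^ (-x)) / x ≤ 1 + 1 / x := by
    have : (1 - (M : ℝ) ^ (-x)) / x ≤ 1 / x := by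
      apply div_le_div_of_nonneg_right _ hx.le
      linarith
    linarith
  refine h4.trans ?_
  have h5 : 1 ≤ 1 / x := by
    rw [le_div_iff₀ hx]
    linarith
  have h6 : 2 / x = 1 / x + 1 / x := by ring
  rw [h6]
  linarith

theorem psum_le_log {c : ℕ → ℂ} (hc : ∀ n, ‖c n‖ ≤ 1) {s : ℂ} (hs : 1 ≤ s.re) {M : ℕ} (hM : 1 ≤ M) :
    ‖∑ n ∈ Finset.Icc 1 M, c n * (n : ℂ) ^ (-s)‖ ≤ 1 + Real.log M := by
  refine (norm_sum_le _ _).trans ?_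
  have h1 : ∑ n ∈ Finset.Icc 1 M, ‖c n * (n : ℂ) ^ (-s)‖ ≤ ∑ n ∈ Finset.Icc 1 M, ((n : ℝ))⁻¹ := by
    refine Finset.sum_le_sum fun n hn => ?_
    have hn1 : 1 ≤ n := (Finset.mem_Icc.1 hn).1
    rw [norm_mul, Complex.norm_natCast_cpow_of_pos (by omega), Complex.neg_re]
    have h0 : (0 : ℝ) ≤ (n : ℝ) ^ (-s.re) := by positivity
    have h2 : (n : ℝ) ^ (-s.re) ≤ (n : ℝ)⁻¹ := by
      rw [← Real.rpow_neg_one]
      exact Real.rpow_le_rpow_of_exponent_le (by exact_mod_cast hn1) (by linarith)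
    nlinarith [hc n]
  refine h1.trans ?_
  have h2 := harmonic_le_one_add_log M
  rw [harmonic_eq_sum_Icc] at h2
  push_cast at h2
  exact h2

end Pool.Agent.Helper68.LA
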