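import Pool.Agent.Helper68.LA.E3

/-!
# Block LA-Low: the two lower bounds

`low1`: `1 ≤ ∑_{k ≤ t} conv f one k k^(-β) ≤ ζ L β + L 1 t^(1-β)/(1-β) + 64 Q t^(-1/4)/(1-β)` (`e1`; the term `k = 1` is `conv f one 1 = f 1 = 1`, `conv_at_one`, all terms `≥ 0`), `ζ ≤ 0 ≤ L β`.
With `t = (128 Q/(1-β))^4 ≥ 1` the last term is `1/2`, so `L 1 ≥ ((1-β)/2) t^(-(1-β))`.
`low3`: `e3` with `x = ⌈X⌉₊`, `X = (20000 Q³/(1-β))^64 ≥ 1`, `x ≤ 2 X`: the last term is at most `1/2`, so `L₁ 1 L₂ 1 L₃ 1 ≥ ((1-β)/2) x^(-(1-β)) ≥ ((1-β)/2) (2X)^(-(1-β))`.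
`pos_one`: `0 ≤ L 1`: in `e1` with `β = 3/4` the left side is `≥ 0` and if `L 1 < 0` then `ζ L(3/4) + 4 L 1 t^(1/4) + 256 Q t^(-1/4) → -∞`.
`upper_one`: `|L 1| ≤ 3 + log Q`... take `M = ⌈Q⌉₊` in `app`: `|∑_{n ≤ M} f n/n| ≤ 1 + log M ≤ 1 + log (2Q)` and the error is at most `2`; `log 2 ≤ 1`.
-/

set_option autoImplicit false

namespace Pool.Agent.Helper68.LA

/-- the term `1` of a sum of nonnegative terms -/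
private theorem one_le_sum50 {a : ℕ → ℝ} (ha : ∀ n, 0 ≤ a n) (h1 : a 1 = 1) {β : ℝ} {x : ℕ} (hx : 1 ≤ x) :
    1 ≤ ∑ k ∈ Finset.Icc 1 x, a k * (k : ℝ) ^ (-β) := by
  have h2 : a 1 * ((1 : ℕ) : ℝ) ^ (-β) ≤ ∑ k ∈ Finset.Icc 1 x, a k * (k : ℝ) ^ (-β) :=
    Finset.single_le_sum (f := fun k : ℕ => a k * (k : ℝ) ^ (-β)) (fun k _ => mul_nonneg (ha k) (by positivity))
      (Finset.mem_Icc.2 ⟨le_rfl, hx⟩)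
  rw [h1, Nat.cast_one, Real.one_rpow, mul_one] at h2
  exact h2

private theorem rp50 {X : ℝ} (hX : 0 < X) (n : ℕ) (y : ℝ) : (X ^ n) ^ y = X ^ ((n : ℝ) * y) := by
  rw [← Real.rpow_natCast, ← Real.rpow_mul hX.le]

theorem low1 {f : ℕ → ℝ} {Q : ℝ} {L : ℝ → ℝ} (d : LD f Q L) (hf1 : f 1 = 1) (hr : ∀ n, 0 ≤ conv f one n) {β : ℝ}
    (h0 : 3 / 4 ≤ β) (h1 : β < 1) (hL : 0 ≤ L β) :
    (1 - β) / 2 * (128 * Q / (1 - β)) ^ (-(4 * (1 - β))) ≤ L 1 := by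
  obtain ⟨ζ, hζ, he⟩ := e1 h0 h1
  have hQ := d.one_le
  obtain ⟨c, hc⟩ : ∃ c, c = 1 - β := ⟨_, rfl⟩
  have hc0 : 0 < c := by rw [hc]; linarith
  have hc1 : c ≤ 1 / 4 := by rw [hc]; linarith
  obtain ⟨X, hX⟩ : ∃ X, X = 128 * Q / c := ⟨_, rfl⟩
  have hX1 : 1 ≤ X := by
    rw [hX, le_div_iff₀ hc0]
    linarith
  have hX0 : 0 < X := by linarith
  have ht : 1 ≤ X ^ 4 := one_le_pow₀ hX1
  have h2 := he f Q L d (X ^ 4) ht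
  have h3 : 1 ≤ ∑ k ∈ Finset.Icc 1 ⌊X ^ 4⌋₊, conv f one k * (k : ℝ) ^ (-β) := by
    refine one_le_sum50 hr ?_ ?_
    · rw [conv_at_one, hf1]
      show (1 : ℝ) * 1 = 1
      ring
    · rw [Nat.one_le_floor_iff]
      exact ht
  have h4 : 64 * Q * (X ^ 4) ^ (-(1 / 4) : ℝ) / (1 - β) = 1 / 2 := by
    rw [rp50 hX0, ← hc]
    have e : ((4 : ℕ) : ℝ) * (-(1 / 4) : ℝ) = -1 := by push_cast; ring
    rw [e, Real.rpow_neg_one, hX]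
    field_simp
    norm_num
  rw [h4, ← hc] at h2
  have h5 := (abs_le.1 h2).2
  have h6 : ζ * L β ≤ 0 := mul_nonpos_of_nonpos_of_nonneg hζ hL
  have h7 : 1 / 2 ≤ L 1 * (X ^ 4) ^ c / c := by linarith
  rw [le_div_iff₀ hc0] at h7
  rw [rp50 hX0] at h7
  have hp : 0 < X ^ (((4 : ℕ) : ℝ) * c) := Real.rpow_pos_of_pos hX0 _
  rw [← hc, ← hX, Real.rpow_neg hX0.le]
  have e : (4 : ℝ) * c = ((4 : ℕ) : ℝ) * c := by push_cast; ring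
  rw [e, ← div_eq_mul_inv, div_le_iff₀ hp]
  linarith

theorem low3 {f₁ f₂ f₃ : ℕ → ℝ} {Q : ℝ} {L₁ L₂ L₃ : ℝ → ℝ} (d₁ : LD f₁ Q L₁) (d₂ : LD f₂ Q L₂) (d₃ : LD f₃ Q L₃) {β : ℝ}
    (h0 : 63 / 64 ≤ β) (h1 : β < 1) (hz : L₁ β = 0) (hr : ∀ n, 0 ≤ conv f₁ one n)
    (ha : ∀ n, 0 ≤ conv (conv f₁ one) (conv f₂ f₃) n) (ha1 : conv (conv f₁ one) (conv f₂ f₃) 1 = 1) :
    (1 - β) / 2 * (2 * (20000 * Q ^ 3 / (1 - β)) ^ 64) ^ (-(1 - β)) ≤ L₁ 1 * L₂ 1 * L₃ 1 := by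
  have hQ := d₁.one_le
  have hQ3 : 1 ≤ Q ^ 3 := one_le_pow₀ hQ
  obtain ⟨c, hc⟩ : ∃ c, c = 1 - β := ⟨_, rfl⟩
  have hc0 : 0 < c := by rw [hc]; linarith
  have hc1 : c ≤ 1 / 64 := by rw [hc]; linarith
  obtain ⟨Y, hY⟩ : ∃ Y, Y = 20000 * Q ^ 3 / c := ⟨_, rfl⟩
  have hY1 : 1 ≤ Y := by
    rw [hY, le_div_iff₀ hc0]
    linarith
  have hY0 : 0 < Y := by linarith
  obtain ⟨X, hX⟩ : ∃ X, X = Y ^ 64 := ⟨_, rfl⟩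
  have hX1 : 1 ≤ X := by rw [hX]; exact one_le_pow₀ hY1
  have hX0 : 0 < X := by linarith
  have hx1 : 1 ≤ ⌈X⌉₊ := by
    rw [Nat.one_le_ceil_iff]
    exact hX0
  have hxX : X ≤ (⌈X⌉₊ : ℝ) := Nat.le_ceil X
  have hx2 : (⌈X⌉₊ : ℝ) ≤ 2 * X := by
    have := (Nat.ceil_lt_add_one hX0.le).le
    linarith
  have hx0 : (0 : ℝ) < (⌈X⌉₊ : ℝ) := lt_of_lt_of_le hX0 hxX
  have h2 := e3 d₁ d₂ d₃ h0 h1 hz hr ha ha1 hx1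
  rw [← hc] at h2
  have h3 : 10000 * Q ^ 3 * ((⌈X⌉₊ : ℕ) : ℝ) ^ (-(1 / 64) : ℝ) / c ≤ 1 / 2 := by
    have h4 : ((⌈X⌉₊ : ℕ) : ℝ) ^ (-(1 / 64) : ℝ) ≤ X ^ (-(1 / 64) : ℝ) :=
      Real.rpow_le_rpow_of_nonpos hX0 hxX (by norm_num)
    have h5 : X ^ (-(1 / 64) : ℝ) = c / (20000 * Q ^ 3) := by
      rw [hX, rp50 hY0]
      have e : ((64 : ℕ) : ℝ) * (-(1 / 64) : ℝ) = -1 := by push_cast; ring
      rw [e, Real.rpow_neg_one, hY, inv_div]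
    rw [h5] at h4
    rw [div_le_iff₀ hc0]
    have h6 := mul_le_mul_of_nonneg_left h4 (show 0 ≤ 10000 * Q ^ 3 by positivity)
    refine h6.trans (le_of_eq ?_)
    field_simp
    norm_num
  have h7 : 1 / 2 ≤ (L₁ 1 * L₂ 1 * L₃ 1) * (((⌈X⌉₊ : ℕ) : ℝ) ^ c / c) := by linarith
  rw [mul_div_assoc', le_div_iff₀ hc0] at h7
  have hp : 0 < ((⌈X⌉₊ : ℕ) : ℝ) ^ c := Real.rpow_pos_of_pos hx0 _
  have h8 : c / 2 * ((⌈X⌉₊ : ℕ) : ℝ) ^ (-c) ≤ L₁ 1 * L₂ 1 * L₃ 1 := by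
    rw [Real.rpow_neg hx0.le, ← div_eq_mul_inv, div_le_iff₀ hp]
    linarith
  have h9 : (2 * X) ^ (-c) ≤ ((⌈X⌉₊ : ℕ) : ℝ) ^ (-c) := Real.rpow_le_rpow_of_nonpos hx0 hx2 (by linarith)
  rw [← hc, ← hY, ← hX]
  exact (mul_le_mul_of_nonneg_left h9 (by positivity)).trans h8

theorem pos_one {f : ℕ → ℝ} {Q : ℝ} {L : ℝ → ℝ} (d : LD f Q L) (hr : ∀ n, 0 ≤ conv f one n) : 0 ≤ L 1 := by
  obtain ⟨ζ, -, he⟩ := e1 (β := 3 / 4) le_rfl (by norm_num)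
  have hQ := d.one_le
  by_contra hcon
  rw [not_le] at hcon
  obtain ⟨s, hs⟩ : ∃ s, s = 1 + (|ζ * L (3 / 4)| + 256 * Q) / (-(4 * L 1)) := ⟨_, rfl⟩
  have hn : 0 < -(4 * L 1) := by linarith
  have hs1 : 1 ≤ s := by
    rw [hs]
    have : 0 ≤ (|ζ * L (3 / 4)| + 256 * Q) / (-(4 * L 1)) := by positivity
    linarith
  have hs0 : 0 < s := by linarith
  have h1 := (abs_le.1 (he f Q L d (s ^ 4) (one_le_pow₀ hs1))).2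
  have h2 : 0 ≤ ∑ k ∈ Finset.Icc 1 ⌊s ^ 4⌋₊, conv f one k * (k : ℝ) ^ (-(3 / 4) : ℝ) :=
    Finset.sum_nonneg fun k _ => mul_nonneg (hr k) (by positivity)
  rw [rp50 hs0, rp50 hs0] at h1
  have e1' : ((4 : ℕ) : ℝ) * (1 - 3 / 4) = 1 := by push_cast; ring
  have e2' : ((4 : ℕ) : ℝ) * (-(1 / 4) : ℝ) = -1 := by push_cast; ring
  rw [e1', e2', Real.rpow_one, Real.rpow_neg_one] at h1
  have h3 : s⁻¹ ≤ 1 := inv_le_one_of_one_le₀ hs1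
  have h4 : 64 * Q * s⁻¹ / (1 - 3 / 4) ≤ 256 * Q := by
    have : 64 * Q * s⁻¹ / (1 - 3 / 4) = 256 * Q * s⁻¹ := by ring
    rw [this]
    nlinarith
  have h5 : L 1 * s / (1 - 3 / 4) = 4 * L 1 - (|ζ * L (3 / 4)| + 256 * Q) := by
    have h8 : L 1 * ((|ζ * L (3 / 4)| + 256 * Q) / (-(4 * L 1))) = -((|ζ * L (3 / 4)| + 256 * Q) / 4) := by
      have := hcon.ne
      field_simp
    have h9 : L 1 * s = L 1 - (|ζ * L (3 / 4)| + 256 * Q) / 4 := by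
      rw [hs, mul_add, h8, mul_one]
      ring
    rw [h9]
    ring
  have h6 := le_abs_self (ζ * L (3 / 4))
  have h7 : ∑ k ∈ Finset.Icc 1 ⌊s ^ 4⌋₊, conv f one k * (k : ℝ) ^ (-(3 / 4 : ℝ)) =
      ∑ k ∈ Finset.Icc 1 ⌊s ^ 4⌋₊, conv f one k * (k : ℝ) ^ (-(3 / 4) : ℝ) := rfl
  rw [h5] at h1
  linarith

theorem upper_one {f : ℕ → ℝ} {Q : ℝ} {L : ℝ → ℝ} (d : LD f Q L) : |L 1| ≤ 4 + Real.log Q := by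
  have hQ := d.one_le
  have hQ0 : 0 < Q := by linarith
  have hM1 : 1 ≤ ⌈Q⌉₊ := by
    rw [Nat.one_le_ceil_iff]
    exact hQ0
  have hMQ : Q ≤ (⌈Q⌉₊ : ℝ) := Nat.le_ceil Q
  have hM2 : (⌈Q⌉₊ : ℝ) ≤ 2 * Q := by
    have := (Nat.ceil_lt_add_one hQ0.le).le
    linarith
  have hM0 : (0 : ℝ) < (⌈Q⌉₊ : ℝ) := by linarith
  have h1 := d.app 1 (by norm_num) le_rfl ⌈Q⌉₊ hM1
  have h2 : 2 * Q * (⌈Q⌉₊ : ℝ) ^ (-1 : ℝ) ≤ 2 := by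
    rw [Real.rpow_neg_one, ← div_eq_mul_inv, div_le_iff₀ hM0]
    linarith
  have h3 : |∑ n ∈ Finset.Icc 1 ⌈Q⌉₊, f n * (n : ℝ) ^ (-1 : ℝ)| ≤ 1 + Real.log ⌈Q⌉₊ := by
    have h4 := harmonic_le_one_add_log ⌈Q⌉₊
    have h5 : ((harmonic ⌈Q⌉₊ : ℚ) : ℝ) = ∑ b ∈ Finset.Icc 1 ⌈Q⌉₊, ((b : ℝ))⁻¹ := by
      rw [harmonic_eq_sum_Icc]
      push_cast
      rfl
    rw [h5] at h4
    refine (Finset.abs_sum_le_sum_abs _ _).trans (le_trans (Finset.sum_le_sum fun n _ => ?_) h4)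
    rw [Real.rpow_neg_one, abs_mul, abs_of_nonneg (a := ((n : ℝ))⁻¹) (inv_nonneg.2 (Nat.cast_nonneg n))]
    exact mul_le_of_le_one_left (inv_nonneg.2 (Nat.cast_nonneg n)) (d.bd n)
  have h6 : Real.log ⌈Q⌉₊ ≤ 1 + Real.log Q := by
    have h7 : Real.log ⌈Q⌉₊ ≤ Real.log (2 * Q) := Real.log_le_log hM0 hM2
    rw [Real.log_mul (by norm_num) hQ0.ne'] at h7
    have h8 := Real.log_two_lt_d9
    linarith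
  have h9 : |L 1| ≤ |∑ n ∈ Finset.Icc 1 ⌈Q⌉₊, f n * (n : ℝ) ^ (-1 : ℝ)| +
      |∑ n ∈ Finset.Icc 1 ⌈Q⌉₊, f n * (n : ℝ) ^ (-1 : ℝ) - L 1| := by
    have e : L 1 = ∑ n ∈ Finset.Icc 1 ⌈Q⌉₊, f n * (n : ℝ) ^ (-1 : ℝ) -
      (∑ n ∈ Finset.Icc 1 ⌈Q⌉₊, f n * (n : ℝ) ^ (-1 : ℝ) - L 1) := by ring
    conv_lhs => rw [e]
    exact abs_sub _ _
  linarith

end Pool.Agent.Helper68.LA
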