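import Pool.Agent.Helper68.LA.Pr
import Pool.Agent.Helper68.LA.Cmp

/-!
# Block LA-N2: principal character, the combination of two truncated sums

`s = 1 + x - iλ`, `T(z) = ∑_{n ≤ z, (n,q)=1} n^(-s)`.  `shift` (with `c` the indicator of `(n,q)=1`; `sum_filter`): `‖sn q λ z - T(z)‖ ≤ x (1 + log N)^2`, the same for `z/r`; `‖r^(iλ) - r^(-x+iλ)‖ = 1 - r^(-x) ≤ x log r ≤ x log N`,
`‖T(z/r)‖ ≤ 1 + log N` (`psum_le_log`).  So `sn q λ z - r^(iλ) sn q λ (z/r)` is `T(z) - r^(1-s) T(z/r)` up to `3 x (1 + log N)^2`.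
`principal_tail` at `z` and at `z/r ≥ 1`, the second one multiplied by `r^(1-s)` (norm `r^(-x) ≤ 1`; `r^(1-s) (z/r)^(1-s) = z^(1-s)` for positive reals, `Complex.mul_cpow_ofReal_nonneg`): the main terms cancel and
`T(z) - r^(1-s) T(z/r) = L (1 - r^(1-s)) + O(16 #divisors(q) (1 + ‖s‖) r/z)`, `‖s‖ ≤ 2 + |λ|`.
-/

set_option autoImplicit false

namespace Pool.Agent.Helper68.LA

/-- `∑_{n ≤ z, (n, q) = 1} n ^ (-1 + i λ)` -/
noncomputable def sn (q : ℕ) (lam z : ℝ) : ℂ :=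
  ∑ n ∈ (Finset.Icc 1 ⌊z⌋₊).filter fun n => n.Coprime q, (n : ℂ) ^ (-1 + lam * Complex.I : ℂ)

private theorem ind_sum99 (q m : ℕ) (f : ℕ → ℂ) :
    ∑ n ∈ (Finset.Icc 1 m).filter (fun n => n.Coprime q), f n =
      ∑ n ∈ Finset.Icc 1 m, (if n.Coprime q then (1 : ℂ) else 0) * f n := by
  rw [Finset.sum_filter]
  refine Finset.sum_congr rfl fun n _ => ?_
  split_ifs <;> simp

private theorem ind_le99 (q n : ℕ) : ‖(if n.Coprime q then (1 : ℂ) else 0)‖ ≤ 1 := by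
  split_ifs <;> simp

private theorem rot99 {r x lam : ℝ} (hr : 1 ≤ r) (hx : 0 ≤ x) :
    ‖(r : ℂ) ^ (lam * Complex.I : ℂ) - (r : ℂ) ^ (-x + lam * Complex.I : ℂ)‖ ≤ x * Real.log r := by
  have hr0 : 0 < r := by linarith
  have h1 : (r : ℂ) ^ (-x + lam * Complex.I : ℂ) =
      ((r ^ (-x) : ℝ) : ℂ) * (r : ℂ) ^ (lam * Complex.I : ℂ) := by
    rw [Complex.cpow_add _ _ (by exact_mod_cast hr0.ne'), Complex.ofReal_cpow hr0.le]
    push_cast
    rfl
  have h2 : (r : ℂ) ^ (lam * Complex.I : ℂ) - ((r ^ (-x) : ℝ) : ℂ) * (r : ℂ) ^ (lam * Complex.I : ℂ) =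
      ((1 - r ^ (-x) : ℝ) : ℂ) * (r : ℂ) ^ (lam * Complex.I : ℂ) := by
    push_cast
    ring
  have h3 : ‖(r : ℂ) ^ (lam * Complex.I : ℂ)‖ = 1 := by
    rw [Complex.norm_cpow_eq_rpow_re_of_pos hr0]
    simp
  rw [h1, h2, norm_mul, h3, mul_one, Complex.norm_real, Real.norm_eq_abs]
  have h4 : r ^ (-x) ≤ 1 := Real.rpow_le_one_of_one_le_of_nonpos hr (by linarith)
  rw [abs_of_nonneg (by linarith)]
  have h5 : 1 - x * Real.log r ≤ r ^ (-x) := by
    rw [Real.rpow_def_of_pos hr0]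
    have := Real.add_one_le_exp (Real.log r * -x)
    linarith
  linarith

theorem sn_comb {q N : ℕ} [NeZero q] {x lam z r : ℝ} (hx : 0 < x) (hx1 : x ≤ 1) (hr : 1 ≤ r) (hrz : r ≤ z) (hzN : z ≤ N) :
    ‖sn q lam z - (r : ℂ) ^ (lam * Complex.I : ℂ) * sn q lam (z / r) -
        LSeries (fun n => (1 : DirichletCharacter ℂ q) n) (1 + x - lam * Complex.I) * (1 - (r : ℂ) ^ (-x + lam * Complex.I : ℂ))‖ ≤
      4 * x * (1 + Real.log N) ^ 2 + 32 * q.divisors.card * (3 + |lam|) * r / z := by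
  have hr0 : 0 < r := by linarith
  have hz1 : 1 ≤ z := hr.trans hrz
  have hz0 : 0 < z := by linarith
  have hzr : 1 ≤ z / r := by rw [le_div_iff₀ hr0]; linarith
  have hzrz : z / r ≤ z := div_le_self hz0.le hr
  have hN1r : (1 : ℝ) ≤ N := hz1.trans hzN
  have hN1 : 1 ≤ N := by exact_mod_cast hN1r
  have hfl1 : ⌊z⌋₊ ≤ N := Nat.floor_le_of_le hzN
  have hfl2 : ⌊z / r⌋₊ ≤ N := Nat.floor_le_of_le (hzrz.trans hzN)
  have hlogN : 0 ≤ Real.log N := Real.log_nonneg hN1r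
  obtain ⟨s, hs⟩ : ∃ s : ℂ, s = 1 + x - lam * Complex.I := ⟨_, rfl⟩
  have hsre : s.re = 1 + x := by rw [hs]; simp
  have hs1 : 1 < s.re := by rw [hsre]; linarith
  have hsn : ‖s‖ ≤ 2 + |lam| := by
    rw [hs]
    calc ‖(1 + x - lam * Complex.I : ℂ)‖ ≤ ‖(1 + x : ℂ)‖ + ‖(lam * Complex.I : ℂ)‖ :=
          norm_sub_le _ _
      _ = (1 + x) + |lam| := by
          rw [norm_mul, Complex.norm_I, mul_one, Complex.norm_real, Real.norm_eq_abs,
            show (1 + x : ℂ) = ((1 + x : ℝ) : ℂ) by push_cast; rfl, Complex.norm_real,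
            Real.norm_eq_abs, abs_of_nonneg (by linarith : (0 : ℝ) ≤ 1 + x)]
      _ ≤ 2 + |lam| := by linarith
  -- the truncated sums
  obtain ⟨T, hT⟩ : ∃ T : ℝ → ℂ, T = fun y =>
    ∑ n ∈ (Finset.Icc 1 ⌊y⌋₊).filter (fun n => n.Coprime q), (n : ℂ) ^ (-s) := ⟨_, rfl⟩
  have hS : ∀ y : ℝ, ⌊y⌋₊ ≤ N → ‖sn q lam y - T y‖ ≤ x * (1 + Real.log N) ^ 2 := by
    intro y hy
    have h1 := shift (c := fun n => if n.Coprime q then (1 : ℂ) else 0) (fun n => ind_le99 q n)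
      (lam := lam) hx.le hy hN1
    rw [← ind_sum99, ← ind_sum99] at h1
    rw [hT, hs]
    exact h1
  have hTn : ‖T (z / r)‖ ≤ 1 + Real.log N := by
    have hfl : 1 ≤ ⌊z / r⌋₊ := Nat.le_floor (by rw [Nat.cast_one]; exact hzr)
    have h1 := psum_le_log (c := fun n => if n.Coprime q then (1 : ℂ) else 0)
      (fun n => ind_le99 q n) hs1.le hfl
    rw [← ind_sum99] at h1
    rw [hT]
    refine h1.trans ?_
    have h2 : Real.log (⌊z / r⌋₊ : ℝ) ≤ Real.log N := by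
      apply Real.log_le_log (by exact_mod_cast hfl)
      exact_mod_cast hfl2
    linarith
  -- the tails
  obtain ⟨Ls, hLs⟩ : ∃ Ls : ℂ, Ls = LSeries (fun n => (1 : DirichletCharacter ℂ q) n) s := ⟨_, rfl⟩
  have t1 := principal_tail (q := q) hs1 hz1
  have t2 := principal_tail (q := q) hs1 hzr
  have hd0 : (0 : ℝ) ≤ q.divisors.card := Nat.cast_nonneg _
  obtain ⟨ρ, hρ⟩ : ∃ ρ : ℂ, ρ = (r : ℂ) ^ (-x + lam * Complex.I : ℂ) := ⟨_, rfl⟩
  have h1s : (1 : ℂ) - s = -x + lam * Complex.I := by rw [hs]; ring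
  have hρn : ‖ρ‖ ≤ 1 := by
    rw [hρ, Complex.norm_cpow_eq_rpow_re_of_pos hr0]
    have : ((-x + lam * Complex.I : ℂ)).re = -x := by simp
    rw [this]
    exact Real.rpow_le_one_of_one_le_of_nonpos hr (by linarith)
  have hzz : (z : ℂ) ^ (1 - s) = ρ * (((z / r : ℝ) : ℂ)) ^ (1 - s) := by
    rw [hρ, ← h1s, ← Complex.mul_cpow_ofReal_nonneg hr0.le (by positivity)]
    have hrC : (r : ℂ) ≠ 0 := by exact_mod_cast hr0.ne'
    congr 1
    push_cast
    field_simp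
  have hE1 : ‖Ls - T z - (q.totient : ℂ) / q * ((z : ℂ) ^ (1 - s) / (s - 1))‖ ≤
      8 * q.divisors.card * (3 + |lam|) * r / z := by
    rw [hLs, hT]
    refine t1.trans ?_
    apply div_le_div_of_nonneg_right _ hz0.le
    have h3 : 1 + ‖s‖ ≤ (3 + |lam|) := by linarith
    have h4 : (0 : ℝ) ≤ 3 + |lam| := by have := abs_nonneg lam; linarith
    calc (8 : ℝ) * q.divisors.card * (1 + ‖s‖) ≤ 8 * q.divisors.card * (3 + |lam|) :=
          mul_le_mul_of_nonneg_left h3 (by positivity)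
      _ ≤ 8 * q.divisors.card * (3 + |lam|) * r := le_mul_of_one_le_right (by positivity) hr
  have hE2 : ‖Ls - T (z / r) - (q.totient : ℂ) / q * ((((z / r : ℝ) : ℂ)) ^ (1 - s) / (s - 1))‖ ≤
      8 * q.divisors.card * (3 + |lam|) * r / z := by
    rw [hLs, hT]
    refine t2.trans ?_
    rw [div_div_eq_mul_div]
    apply div_le_div_of_nonneg_right _ hz0.le
    apply mul_le_mul_of_nonneg_right _ hr0.le
    have h3 : 1 + ‖s‖ ≤ (3 + |lam|) := by linarith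
    exact mul_le_mul_of_nonneg_left h3 (by positivity)
  have hrot := rot99 (lam := lam) hr hx.le
  rw [← hρ] at hrot
  have hR : ‖(r : ℂ) ^ (lam * Complex.I : ℂ)‖ = 1 := by
    rw [Complex.norm_cpow_eq_rpow_re_of_pos hr0]
    simp
  obtain ⟨R, hRdef⟩ : ∃ R : ℂ, R = (r : ℂ) ^ (lam * Complex.I : ℂ) := ⟨_, rfl⟩
  rw [← hRdef] at hrot hR
  have hs' := hS z hfl1
  have hs'' := hS (z / r) hfl2
  have e1 : sn q lam z - (r : ℂ) ^ (lam * Complex.I : ℂ) * sn q lam (z / r) -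
        LSeries (fun n => (1 : DirichletCharacter ℂ q) n) (1 + x - lam * Complex.I) *
          (1 - (r : ℂ) ^ (-x + lam * Complex.I : ℂ)) =
      (sn q lam z - T z) - R * (sn q lam (z / r) - T (z / r)) - (R - ρ) * T (z / r) +
      (-(Ls - T z - (q.totient : ℂ) / q * ((z : ℂ) ^ (1 - s) / (s - 1))) +
        ρ * (Ls - T (z / r) - (q.totient : ℂ) / q * ((((z / r : ℝ) : ℂ)) ^ (1 - s) / (s - 1)))) := by
    rw [← hs, ← hLs, ← hRdef, ← hρ, hzz]
    ring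
  rw [e1]
  have n1 : ‖R * (sn q lam (z / r) - T (z / r))‖ ≤ x * (1 + Real.log N) ^ 2 := by
    rw [norm_mul, hR, one_mul]; exact hs''
  have n2 : ‖(R - ρ) * T (z / r)‖ ≤ x * (1 + Real.log N) ^ 2 := by
    rw [norm_mul]
    have h3 : Real.log r ≤ 1 + Real.log N := by
      have := Real.log_le_log hr0 (hrz.trans hzN)
      linarith
    calc ‖R - ρ‖ * ‖T (z / r)‖ ≤ (x * Real.log r) * (1 + Real.log N) :=
          mul_le_mul hrot hTn (norm_nonneg _) (mul_nonneg hx.le (Real.log_nonneg hr))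
      _ ≤ (x * (1 + Real.log N)) * (1 + Real.log N) :=
          mul_le_mul_of_nonneg_right (mul_le_mul_of_nonneg_left h3 hx.le) (by linarith)
      _ = x * (1 + Real.log N) ^ 2 := by ring
  have n3 : ‖ρ * (Ls - T (z / r) -
      (q.totient : ℂ) / q * ((((z / r : ℝ) : ℂ)) ^ (1 - s) / (s - 1)))‖ ≤
      8 * q.divisors.card * (3 + |lam|) * r / z := by
    rw [norm_mul]
    calc _ ≤ 1 * (8 * q.divisors.card * (3 + |lam|) * r / z) :=
          mul_le_mul hρn hE2 (norm_nonneg _) zero_le_one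
      _ = _ := one_mul _
  have hpos : 0 ≤ 8 * (q.divisors.card : ℝ) * (3 + |lam|) * r / z := by positivity
  have hpos2 : 0 ≤ x * (1 + Real.log N) ^ 2 := by positivity
  have hfin : 32 * (q.divisors.card : ℝ) * (3 + |lam|) * r / z =
      4 * (8 * (q.divisors.card : ℝ) * (3 + |lam|) * r / z) := by ring
  rw [hfin]
  refine (norm_add_le _ _).trans ?_
  have m1 := norm_sub_le (sn q lam z - T z - R * (sn q lam (z / r) - T (z / r)))
    ((R - ρ) * T (z / r))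
  have m2 := norm_sub_le (sn q lam z - T z) (R * (sn q lam (z / r) - T (z / r)))
  have m3 := norm_add_le (-(Ls - T z - (q.totient : ℂ) / q * ((z : ℂ) ^ (1 - s) / (s - 1))))
    (ρ * (Ls - T (z / r) - (q.totient : ℂ) / q * ((((z / r : ℝ) : ℂ)) ^ (1 - s) / (s - 1))))
  rw [norm_neg] at m3
  linarith

end Pool.Agent.Helper68.LA
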