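import Pool.Agent.Helper68.LA.Hyp

/-!
# Block LA-Pos: positivity of the coefficients

`f, g` completely multiplicative with values in `{0, 1, -1}`.  `conv f one` and `conv (conv f one) (conv g (f g))` are multiplicative (Dirichlet convolutions of multiplicative functions;
use `ArithmeticFunction.IsMultiplicative` with real values, `ArithmeticFunction.mul_apply`), so it suffices to look at prime powers (`IsMultiplicative.multiplicative_factorization`, `Finset.prod_nonneg`).
`r(p^k) = ∑_{i ≤ k} f(p)^i ≥ 0`: for `f(p) = -1` it is `1, 0, 1, 0, ...`; for `0`: `1`; for `1`: `k+1`.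
`conv g (f g) = g · conv f one` pointwise (`g` completely multiplicative), so the value of the second function at `p^k` is `∑_{i+j=k} r(p^i) g(p)^j r(p^j)`: clearly `≥ 0` for `g(p) = 0, 1`.  For `g(p) = -1`:
`k` odd: `0` by the symmetry `i ↔ j`; `k = 2l`: `f(p) = 1`: `∑_{i+j=2l} (-1)^j (i+1)(j+1) = l + 1`; `f(p) = -1`: only even `i, j` count: `l + 1`; `f(p) = 0`: `∑_{i+j=2l} (-1)^j = 1`.
(For odd/even `k` a convenient unified proof: induction on `k` in steps of two.)
-/

set_option autoImplicit false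

namespace Pool.Agent.Helper68.LA

private noncomputable def PS56 (u : ℕ → ℝ) (p : ℕ) : PowerSeries ℝ := PowerSeries.mk (fun k => u (p ^ k))

private noncomputable def A56 (c : ℝ) : PowerSeries ℝ := PowerSeries.mk (fun k => c ^ k)

private def NN56 (φ : PowerSeries ℝ) : Prop := ∀ n, 0 ≤ PowerSeries.coeff n φ

private theorem NNmul56 {φ ψ : PowerSeries ℝ} (h1 : NN56 φ) (h2 : NN56 ψ) : NN56 (φ * ψ) := by
  intro n
  rw [PowerSeries.coeff_mul]
  exact Finset.sum_nonneg fun x _ => mul_nonneg (h1 _) (h2 _)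

private theorem NN0_56 : NN56 (A56 0) := by
  intro n
  rw [A56, PowerSeries.coeff_mk]
  exact pow_nonneg le_rfl n

private theorem NN1_56 : NN56 (A56 1) := by
  intro n
  rw [A56, PowerSeries.coeff_mk, one_pow]
  norm_num

private theorem NNE_56 : NN56 (A56 (-1) * A56 1) := by
  intro n
  rw [PowerSeries.coeff_mul]
  have h := Finset.Nat.sum_antidiagonal_eq_sum_range_succ
    (fun i j => PowerSeries.coeff i (A56 (-1)) * PowerSeries.coeff j (A56 1)) n
  rw [h]
  have h2 : ∑ k ∈ Finset.range n.succ, PowerSeries.coeff k (A56 (-1)) * PowerSeries.coeff (n - k) (A56 1) =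
      ∑ k ∈ Finset.range n.succ, (-1 : ℝ) ^ k := by
    apply Finset.sum_congr rfl
    intro k _
    rw [A56, A56, PowerSeries.coeff_mk, PowerSeries.coeff_mk, one_pow, mul_one]
  rw [h2, neg_one_geom_sum]
  split_ifs <;> norm_num

private theorem PSconv56 (u v : ℕ → ℝ) {p : ℕ} (hp : p.Prime) :
    PS56 (conv u v) p = PS56 u p * PS56 v p := by
  ext n
  rw [PowerSeries.coeff_mul, PS56, PowerSeries.coeff_mk, conv,
    Nat.sum_divisorsAntidiagonal (fun a b => u a * v b), Nat.sum_divisors_prime_pow hp]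
  have h := Finset.Nat.sum_antidiagonal_eq_sum_range_succ
    (fun i j => PowerSeries.coeff i (PS56 u p) * PowerSeries.coeff j (PS56 v p)) n
  rw [h]
  apply Finset.sum_congr rfl
  intro k hk
  have hkn : k ≤ n := Nat.lt_succ_iff.1 (Finset.mem_range.1 hk)
  rw [PS56, PS56, PowerSeries.coeff_mk, PowerSeries.coeff_mk, Nat.pow_div hkn hp.pos]

private def M56 (u : ℕ → ℝ) : Prop :=
  u 1 = 1 ∧ ∀ m n : ℕ, m ≠ 0 → n ≠ 0 → m.Coprime n → u (m * n) = u m * u n

private noncomputable def AF56 (u : ℕ → ℝ) : ArithmeticFunction ℝ :=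
  ⟨fun n => if n = 0 then 0 else u n, by simp⟩

private theorem AFap56 (u : ℕ → ℝ) {n : ℕ} (hn : n ≠ 0) : AF56 u n = u n := by
  show (if n = 0 then 0 else u n) = u n
  rw [if_neg hn]

private theorem AFM56 {u : ℕ → ℝ} (hu : M56 u) : (AF56 u).IsMultiplicative := by
  rw [ArithmeticFunction.IsMultiplicative.iff_ne_zero]
  refine ⟨?_, ?_⟩
  · rw [AFap56 u one_ne_zero, hu.1]
  · intro m n hm hn hmn
    rw [AFap56 u (mul_ne_zero hm hn), AFap56 u hm, AFap56 u hn]
    exact hu.2 m n hm hn hmn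

private theorem AFconv56 (u v : ℕ → ℝ) (n : ℕ) : (AF56 u * AF56 v) n = conv u v n := by
  rw [ArithmeticFunction.mul_apply, conv]
  apply Finset.sum_congr rfl
  intro x hx
  have h := (Nat.mem_divisorsAntidiagonal.1 hx)
  have h1 : x.1 ≠ 0 := by
    intro h0
    rw [h0, zero_mul] at h
    exact h.2 h.1.symm
  have h2 : x.2 ≠ 0 := by
    intro h0
    rw [h0, mul_zero] at h
    exact h.2 h.1.symm
  rw [AFap56 u h1, AFap56 v h2]

private theorem Mconv56 {u v : ℕ → ℝ} (hu : M56 u) (hv : M56 v) : M56 (conv u v) := by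
  have h := (AFM56 hu).mul (AFM56 hv)
  rw [ArithmeticFunction.IsMultiplicative.iff_ne_zero] at h
  refine ⟨?_, ?_⟩
  · rw [← AFconv56]
    exact h.1
  · intro m n hm hn hmn
    rw [← AFconv56, ← AFconv56, ← AFconv56]
    exact h.2 hm hn hmn

private theorem nonneg_of_M56 {u : ℕ → ℝ} (hu : M56 u) (h0 : 0 ≤ u 0)
    (hp : ∀ p : ℕ, p.Prime → NN56 (PS56 u p)) (n : ℕ) : 0 ≤ u n := by
  induction n using Nat.recOnPosPrimePosCoprime with
  | prime_pow p k hpp _ =>
    have h := hp p hpp k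
    rw [PS56, PowerSeries.coeff_mk] at h
    exact h
  | zero => exact h0
  | one =>
    rw [hu.1]
    norm_num
  | coprime a b ha hb hab iha ihb =>
    rw [hu.2 a b (by omega) (by omega) hab]
    exact mul_nonneg iha ihb

private theorem PSpow56 {f : ℕ → ℝ} (h1 : f 1 = 1) (hm : ∀ m n, f (m * n) = f m * f n) (p : ℕ) :
    PS56 f p = A56 (f p) := by
  ext k
  rw [PS56, A56, PowerSeries.coeff_mk, PowerSeries.coeff_mk]
  induction k with
  | zero => rw [pow_zero, pow_zero, h1]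
  | succ k ih => rw [pow_succ, hm, ih, pow_succ]

private theorem Mf56 {f : ℕ → ℝ} (h1 : f 1 = 1) (hm : ∀ m n, f (m * n) = f m * f n) : M56 f :=
  ⟨h1, fun m n _ _ _ => hm m n⟩

private theorem Mone56 : M56 one := ⟨rfl, fun m n _ _ _ => by simp [one]⟩

private theorem PSone56 (p : ℕ) : PS56 one p = A56 1 := by
  ext k
  rw [PS56, A56, PowerSeries.coeff_mk, PowerSeries.coeff_mk, one_pow]
  rfl

private theorem conv_zero56 (u v : ℕ → ℝ) : conv u v 0 = 0 := by
  simp [conv]

theorem conv_one_nonneg {f : ℕ → ℝ} (h1 : f 1 = 1) (hm : ∀ m n, f (m * n) = f m * f n)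
    (hv : ∀ n, f n = 0 ∨ f n = 1 ∨ f n = -1) (n : ℕ) : 0 ≤ conv f one n := by
  apply nonneg_of_M56 (Mconv56 (Mf56 h1 hm) Mone56) (by rw [conv_zero56])
  intro p hp
  rw [PSconv56 f one hp, PSpow56 h1 hm, PSone56]
  rcases hv p with h | h | h
  · rw [h]
    exact NNmul56 NN0_56 NN1_56
  · rw [h]
    exact NNmul56 NN1_56 NN1_56
  · rw [h]
    exact NNE_56

theorem conv_four_nonneg {f g : ℕ → ℝ} (hf1 : f 1 = 1) (hfm : ∀ m n, f (m * n) = f m * f n)
    (hfv : ∀ n, f n = 0 ∨ f n = 1 ∨ f n = -1) (hg1 : g 1 = 1) (hgm : ∀ m n, g (m * n) = g m * g n)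
    (hgv : ∀ n, g n = 0 ∨ g n = 1 ∨ g n = -1) (n : ℕ) :
    0 ≤ conv (conv f one) (conv g (fun k => f k * g k)) n := by
  have hfg1 : (fun k => f k * g k) 1 = 1 := by
    show f 1 * g 1 = 1
    rw [hf1, hg1, one_mul]
  have hfgm : ∀ m n, (fun k => f k * g k) (m * n) = (fun k => f k * g k) m * (fun k => f k * g k) n := by
    intro m n
    show f (m * n) * g (m * n) = f m * g m * (f n * g n)
    rw [hfm, hgm]
    ring
  apply nonneg_of_M56 (Mconv56 (Mconv56 (Mf56 hf1 hfm) Mone56)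
    (Mconv56 (Mf56 hg1 hgm) (Mf56 hfg1 hfgm))) (by rw [conv_zero56])
  intro p hp
  rw [PSconv56 _ _ hp, PSconv56 _ _ hp, PSconv56 _ _ hp, PSpow56 hf1 hfm, PSone56, PSpow56 hg1 hgm,
    PSpow56 hfg1 hfgm]
  show NN56 (A56 (f p) * A56 1 * (A56 (g p) * A56 (f p * g p)))
  have hE := NNE_56
  have hE2 : NN56 (A56 1 * A56 (-1)) := by
    rw [mul_comm]
    exact hE
  have h11 := NNmul56 NN1_56 NN1_56
  have h01 := NNmul56 NN0_56 NN1_56
  have h10 := NNmul56 NN1_56 NN0_56
  have h00 := NNmul56 NN0_56 NN0_56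
  rcases hfv p with h | h | h <;> rcases hgv p with h' | h' | h' <;> rw [h, h']
  · rw [zero_mul]
    exact NNmul56 h01 h00
  · rw [zero_mul]
    exact NNmul56 h01 h10
  · rw [zero_mul]
    have e1 : A56 0 * A56 1 * (A56 (-1) * A56 0) = A56 0 * A56 0 * (A56 (-1) * A56 1) := by ring
    rw [e1]
    exact NNmul56 h00 hE
  · rw [mul_zero]
    exact NNmul56 h11 h00
  · rw [mul_one]
    exact NNmul56 h11 h11
  · rw [one_mul]
    have e1 : A56 1 * A56 1 * (A56 (-1) * A56 (-1)) = A56 (-1) * A56 1 * (A56 (-1) * A56 1) := by ring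
    rw [e1]
    exact NNmul56 hE hE
  · rw [mul_zero]
    exact NNmul56 hE h00
  · rw [mul_one]
    exact NNmul56 hE hE2
  · have e0 : (-1 : ℝ) * -1 = 1 := by norm_num
    rw [e0]
    exact NNmul56 hE hE

end Pool.Agent.Helper68.LA
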