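import Pool.Agent.Helper68.LA.Mob
import Pool.Agent.Helper7.GPC.Div
import Pool.Agent.Helper93.FFK.PV

/-!
# Block LA-Pv: Polya-Vinogradov for all nonprincipal characters

Let `χ ≠ 1` mod `q`, `f = χ.conductor ∣ q`, `f > 1` (`DirichletCharacter.conductor_eq_one_iff`), `ψ = χ.primitiveCharacter` mod `f`
(`primitiveCharacter_isPrimitive`), `χ n = ψ n` for `(n, q) = 1` and `χ n = 0` otherwise (`χ.factorsThrough_conductor`, `changeLevel_eq_cast_of_dvd`).  Hence by `sum_coprime`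
`∑_{n ∈ Ioc a b} χ n = ∑_{d ∣ q} μ(d) ψ(d) ∑_{m ∈ Ioc (a/d) (b/d)} ψ m`, and `polya_vinogradov` (`Pool.Agent.Helper93.FFK`) gives the bound
`#divisors(q) √f (1 + log f) ≤ #divisors(q) √q (1 + log q)`.  Finally `#divisors(q) ≤ C q^(δ/2)` (`Pool.Agent.Helper7.GPC.card_divisors_le`) and
`1 + log q ≤ C q^(δ/2)`.  (`a > b`: the interval is empty.)
-/

set_option autoImplicit false

namespace Pool.Agent.Helper68.LA

private lemma chi_eq15 (q : ℕ) [NeZero q] (χ : DirichletCharacter ℂ q) (n : ℕ) (h : n.Coprime q) :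
    χ (n : ZMod q) = χ.primitiveCharacter (n : ZMod χ.conductor) := by
  have h1 := DirichletCharacter.changeLevel_eq_cast_of_dvd χ.primitiveCharacter χ.conductor_dvd_level
    (ZMod.unitOfCoprime n h)
  rw [ZMod.coe_unitOfCoprime, χ.changeLevel_primitiveCharacter,
    ZMod.cast_natCast χ.conductor_dvd_level] at h1
  exact h1

theorem pv {δ : ℝ} (hδ : 0 < δ) : ∃ C : ℝ, 0 < C ∧ ∀ (q : ℕ) [NeZero q]
    (χ : DirichletCharacter ℂ q), χ ≠ 1 → ∀ a b : ℕ,
      ‖∑ n ∈ Finset.Ioc a b, χ (n : ZMod q)‖ ≤ C * (q : ℝ) ^ (1 / 2 + δ) := by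
  obtain ⟨C1, hC1, h1⟩ := Pool.Agent.Helper7.GPC.card_divisors_le (ε := δ / 2) (by positivity)
  refine ⟨C1 * (1 + 2 / δ), by positivity, fun q _ χ hχ a b => ?_⟩
  have hq0 : q ≠ 0 := NeZero.ne q
  have hq1 : (1 : ℝ) ≤ q := by exact_mod_cast Nat.one_le_iff_ne_zero.2 hq0
  have hqp : (0 : ℝ) < q := by linarith
  have hf0 : χ.conductor ≠ 0 := DirichletCharacter.conductor_ne_zero χ
  have : NeZero χ.conductor := ⟨hf0⟩
  have hf1 : χ.conductor ≠ 1 := fun h => hχ (DirichletCharacter.eq_one_iff_conductor_eq_one.2 h)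
  have hfq : χ.conductor ≤ q := Nat.le_of_dvd (Nat.pos_of_ne_zero hq0) χ.conductor_dvd_level
  have hf : (1 : ℝ) ≤ χ.conductor := by exact_mod_cast Nat.one_le_iff_ne_zero.2 hf0
  have hfq' : (χ.conductor : ℝ) ≤ q := by exact_mod_cast hfq
  have hlf : 0 ≤ Real.log χ.conductor := Real.log_nonneg hf
  have hlq : 0 ≤ Real.log q := Real.log_nonneg hq1
  have e1 : ∑ n ∈ Finset.Ioc a b, χ (n : ZMod q) =
      ∑ d ∈ q.divisors, (ArithmeticFunction.moebius d : ℂ) *
        ∑ m ∈ Finset.Ioc (a / d) (b / d), χ.primitiveCharacter ((d * m : ℕ) : ZMod χ.conductor) := by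
    rw [← sum_coprime hq0 (fun n => χ.primitiveCharacter (n : ZMod χ.conductor)) a b,
      Finset.sum_filter]
    refine Finset.sum_congr rfl fun n _ => ?_
    split_ifs with h
    · exact chi_eq15 q χ n h
    · exact χ.map_nonunit (fun hu => h ((ZMod.isUnit_iff_coprime n q).1 hu))
  have e2 : ∀ d ∈ q.divisors, ‖(ArithmeticFunction.moebius d : ℂ) *
      ∑ m ∈ Finset.Ioc (a / d) (b / d), χ.primitiveCharacter ((d * m : ℕ) : ZMod χ.conductor)‖ ≤
      Real.sqrt q * (1 + Real.log q) := by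
    intro d _
    have e3 : ∑ m ∈ Finset.Ioc (a / d) (b / d), χ.primitiveCharacter ((d * m : ℕ) : ZMod χ.conductor) =
        χ.primitiveCharacter (d : ZMod χ.conductor) *
          ∑ m ∈ Finset.Ioc (a / d) (b / d), χ.primitiveCharacter (m : ZMod χ.conductor) := by
      rw [Finset.mul_sum]
      refine Finset.sum_congr rfl fun m _ => ?_
      rw [Nat.cast_mul, map_mul]
    rw [e3, norm_mul, norm_mul]
    have e4 : ‖(ArithmeticFunction.moebius d : ℂ)‖ ≤ 1 := by
      rw [Complex.norm_intCast]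
      exact_mod_cast ArithmeticFunction.abs_moebius_le_one
    have e5 : ‖χ.primitiveCharacter (d : ZMod χ.conductor)‖ ≤ 1 := DirichletCharacter.norm_le_one _ _
    have e6 : ‖∑ m ∈ Finset.Ioc (a / d) (b / d), χ.primitiveCharacter (m : ZMod χ.conductor)‖ ≤
        Real.sqrt χ.conductor * (1 + Real.log χ.conductor) := by
      rcases le_total (b / d) (a / d) with h | h
      · rw [Finset.Ioc_eq_empty_of_le h, Finset.sum_empty, norm_zero]
        positivity
      · obtain ⟨k, hk⟩ := Nat.exists_eq_add_of_le h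
        rw [hk]
        exact Pool.Agent.Helper93.FFK.polya_vinogradov (by omega) χ.primitiveCharacter_isPrimitive (a / d) k
    have e7 : Real.sqrt χ.conductor * (1 + Real.log χ.conductor) ≤ Real.sqrt q * (1 + Real.log q) := by
      gcongr
    calc ‖(ArithmeticFunction.moebius d : ℂ)‖ * (‖χ.primitiveCharacter (d : ZMod χ.conductor)‖ *
          ‖∑ m ∈ Finset.Ioc (a / d) (b / d), χ.primitiveCharacter (m : ZMod χ.conductor)‖)
        ≤ 1 * (1 * (Real.sqrt q * (1 + Real.log q))) := by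
          gcongr
          exact e6.trans e7
      _ = Real.sqrt q * (1 + Real.log q) := by ring
  rw [e1]
  have e8 : Real.log q ≤ 2 / δ * (q : ℝ) ^ (δ / 2) := by
    have := Real.log_le_rpow_div hqp.le (ε := δ / 2) (by positivity)
    calc Real.log q ≤ (q : ℝ) ^ (δ / 2) / (δ / 2) := this
      _ = 2 / δ * (q : ℝ) ^ (δ / 2) := by field_simp
  have e9 : 1 ≤ (q : ℝ) ^ (δ / 2) := Real.one_le_rpow hq1 (by positivity)
  have e10 : 1 + Real.log q ≤ (1 + 2 / δ) * (q : ℝ) ^ (δ / 2) := by linarith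
  calc ‖∑ d ∈ q.divisors, (ArithmeticFunction.moebius d : ℂ) *
        ∑ m ∈ Finset.Ioc (a / d) (b / d), χ.primitiveCharacter ((d * m : ℕ) : ZMod χ.conductor)‖
      ≤ ∑ d ∈ q.divisors, Real.sqrt q * (1 + Real.log q) :=
        (norm_sum_le _ _).trans (Finset.sum_le_sum e2)
    _ = (q.divisors.card : ℝ) * (Real.sqrt q * (1 + Real.log q)) := by
        rw [Finset.sum_const, nsmul_eq_mul]
    _ ≤ (C1 * (q : ℝ) ^ (δ / 2)) * (Real.sqrt q * ((1 + 2 / δ) * (q : ℝ) ^ (δ / 2))) := by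
        gcongr
        exact h1 q hq0
    _ = C1 * (1 + 2 / δ) * ((q : ℝ) ^ (1 / 2 : ℝ) * ((q : ℝ) ^ (δ / 2) * (q : ℝ) ^ (δ / 2))) := by
        rw [← Real.sqrt_eq_rpow]
        ring
    _ = C1 * (1 + 2 / δ) * (q : ℝ) ^ (1 / 2 + δ) := by
        rw [← Real.rpow_add hqp, ← Real.rpow_add hqp]
        congr 2
        ring

end Pool.Agent.Helper68.LA
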