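import Pool.Agent.Helper68.LA.Defs
import Pool.Agent.Helper68.LA.Br

/-!
# Block LA-Re: real characters

Let `χ ^ 2 = 1`, so `χ n ∈ {0, 1, -1}` (`MulChar.isQuadratic_iff_sq_eq_one`) and `rc χ n = re χ(n)` has `χ n = rc χ n`.
`rc_val`, `rc_mul`, `rc_one`: immediate.
`ld_rc`: `br` and `sum_le_q`, real parts (`n^(-β)` is real: `Complex.ofReal_cpow`, `Complex.ofReal_natCast`).
`lf_real`: the partial sums are real, so their limit (`br_tendsto`) is.
`lf_cont`: `DirichletCharacter.differentiable_LFunction`.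
-/

set_option autoImplicit false

namespace Pool.Agent.Helper68.LA

/-- a real character as a real function -/
noncomputable def rc {q : ℕ} (χ : DirichletCharacter ℂ q) (n : ℕ) : ℝ := (χ (n : ZMod q)).re

/-- its L-function on the real line -/
noncomputable def lf {q : ℕ} [NeZero q] (χ : DirichletCharacter ℂ q) (β : ℝ) : ℝ := (DirichletCharacter.LFunction χ β).re

private theorem chi_val1 {q : ℕ} {χ : DirichletCharacter ℂ q} (h2 : χ ^ 2 = 1) (n : ℕ) :
    χ (n : ZMod q) = 0 ∨ χ (n : ZMod q) = 1 ∨ χ (n : ZMod q) = -1 :=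
  (MulChar.isQuadratic_iff_sq_eq_one.2 h2) (n : ZMod q)

theorem rc_val {q : ℕ} {χ : DirichletCharacter ℂ q} (h2 : χ ^ 2 = 1) (n : ℕ) : rc χ n = 0 ∨ rc χ n = 1 ∨ rc χ n = -1 := by
  unfold rc
  rcases chi_val1 h2 n with h | h | h <;> rw [h] <;> simp

theorem rc_eq {q : ℕ} {χ : DirichletCharacter ℂ q} (h2 : χ ^ 2 = 1) (n : ℕ) : χ (n : ZMod q) = (rc χ n : ℂ) := by
  unfold rc
  rcases chi_val1 h2 n with h | h | h <;> rw [h] <;> simp

theorem rc_mul {q : ℕ} {χ : DirichletCharacter ℂ q} (h2 : χ ^ 2 = 1) (m n : ℕ) : rc χ (m * n) = rc χ m * rc χ n := by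
  have h : ((rc χ (m * n) : ℝ) : ℂ) = ((rc χ m * rc χ n : ℝ) : ℂ) := by
    rw [← rc_eq h2, Complex.ofReal_mul, ← rc_eq h2, ← rc_eq h2, Nat.cast_mul, map_mul]
  exact_mod_cast h

theorem rc_one {q : ℕ} (χ : DirichletCharacter ℂ q) : rc χ 1 = 1 := by
  unfold rc
  rw [Nat.cast_one, map_one, Complex.one_re]

private theorem term_eq1 {q : ℕ} {χ : DirichletCharacter ℂ q} (h2 : χ ^ 2 = 1) (β : ℝ) (n : ℕ) :
    χ (n : ZMod q) * (n : ℂ) ^ (-(β : ℂ)) = ((rc χ n * (n : ℝ) ^ (-β) : ℝ) : ℂ) := by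
  rw [rc_eq h2, Complex.ofReal_mul, Complex.ofReal_cpow (Nat.cast_nonneg n), Complex.ofReal_natCast, Complex.ofReal_neg]

theorem ld_rc {q : ℕ} [NeZero q] {χ : DirichletCharacter ℂ q} (h2 : χ ^ 2 = 1) (hχ : χ ≠ 1) : LD (rc χ) q (lf χ) where
  one_le := by
    have : 1 ≤ q := Nat.one_le_iff_ne_zero.2 (NeZero.ne q)
    exact_mod_cast this
  bd n := by
    rcases rc_val h2 n with h | h | h <;> rw [h] <;> simp
  per a b := by
    have h := sum_le_q hχ a b
    have e : ∑ n ∈ Finset.Ioc a b, χ (n : ZMod q) = ((∑ n ∈ Finset.Ioc a b, rc χ n : ℝ) : ℂ) := by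
      rw [Complex.ofReal_sum]
      exact Finset.sum_congr rfl fun n _ => rc_eq h2 n
    rw [e, Complex.norm_real, Real.norm_eq_abs] at h
    exact h
  app β h0 h1 M hM := by
    have hβ : 0 < β := by linarith
    have h := br hχ hβ hM
    have e : ∑ n ∈ Finset.Icc 1 M, χ (n : ZMod q) * (n : ℂ) ^ (-(β : ℂ)) =
        ((∑ n ∈ Finset.Icc 1 M, rc χ n * (n : ℝ) ^ (-β) : ℝ) : ℂ) := by
      rw [Complex.ofReal_sum]
      exact Finset.sum_congr rfl fun n _ => term_eq1 h2 β n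
    rw [e] at h
    refine le_trans ?_ h
    have h3 := Complex.abs_re_le_norm (((∑ n ∈ Finset.Icc 1 M, rc χ n * (n : ℝ) ^ (-β) : ℝ) : ℂ) -
      DirichletCharacter.LFunction χ β)
    rw [Complex.sub_re, Complex.ofReal_re] at h3
    exact h3

theorem lf_real {q : ℕ} [NeZero q] {χ : DirichletCharacter ℂ q} (h2 : χ ^ 2 = 1) (hχ : χ ≠ 1) {β : ℝ} (hβ : 0 < β) :
    DirichletCharacter.LFunction χ β = (lf χ β : ℂ) := by
  have h := br_tendsto hχ hβ
  have him : Filter.Tendsto (fun M : ℕ => (∑ n ∈ Finset.Icc 1 M, χ (n : ZMod q) * (n : ℂ) ^ (-(β : ℂ))).im)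
      Filter.atTop (nhds (DirichletCharacter.LFunction χ β).im) :=
    (Complex.continuous_im.tendsto _).comp h
  have e : ∀ M : ℕ, (∑ n ∈ Finset.Icc 1 M, χ (n : ZMod q) * (n : ℂ) ^ (-(β : ℂ))).im = 0 := by
    intro M
    have e1 : ∑ n ∈ Finset.Icc 1 M, χ (n : ZMod q) * (n : ℂ) ^ (-(β : ℂ)) =
        ((∑ n ∈ Finset.Icc 1 M, rc χ n * (n : ℝ) ^ (-β) : ℝ) : ℂ) := by
      rw [Complex.ofReal_sum]
      exact Finset.sum_congr rfl fun n _ => term_eq1 h2 β n
    rw [e1, Complex.ofReal_im]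
  simp only [e] at him
  have h0 : (DirichletCharacter.LFunction χ β).im = 0 := tendsto_nhds_unique him tendsto_const_nhds
  unfold lf
  apply Complex.ext
  · rw [Complex.ofReal_re]
  · rw [Complex.ofReal_im, h0]

theorem lf_cont {q : ℕ} [NeZero q] {χ : DirichletCharacter ℂ q} (hχ : χ ≠ 1) : Continuous (lf χ) :=
  Complex.continuous_re.comp ((DirichletCharacter.differentiable_LFunction hχ).continuous.comp Complex.continuous_ofReal)

end Pool.Agent.Helper68.LA
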