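import Pool.Agent.Helper68.LA.Re
import Pool.Agent.Helper68.LA.Pos
import Pool.Agent.Helper68.LA.Low

/-!
# Block LA-Zero: real zeros and equal characters

`lf_pos`: `0 ≤ lf χ 1` by `pos_one` (`ld_rc`, `conv_one_nonneg` with `rc_one`, `rc_mul`, `rc_val`), and `LFunction χ 1 ≠ 0` (`DirichletCharacter.LFunction_apply_one_ne_zero`), `lf_real`.
`exists_zero`: intermediate value theorem on `[β₀, 1]` (`lf_cont`, `lf_pos`).
`zero_transfer`: `χ` mod `q`, `ψ` mod `r`, both real; if `χ` and `ψ` agree at level `r q` (`changeLevel`), then `LFunction χ β ∏_{p ∣ rq} (1 - χ p p^(-β)) = LFunction (changeLevel χ) β = LFunction ψ β ∏_{p ∣ rq} (1 - ψ p p^(-β))`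
(`DirichletCharacter.LFunction_changeLevel`, see `Mathlib/NumberTheory/LSeries/DirichletContinuation.lean`), and `1 - χ p p^(-β) ≠ 0` because `‖χ p p^(-β)‖ ≤ p^(-β) < 1`.
-/

set_option autoImplicit false

namespace Pool.Agent.Helper68.LA

theorem lf_pos {q : ℕ} [NeZero q] {χ : DirichletCharacter ℂ q} (h2 : χ ^ 2 = 1) (hχ : χ ≠ 1) : 0 < lf χ 1 := by
  have h1 : 0 ≤ lf χ 1 :=
    pos_one (ld_rc h2 hχ) (conv_one_nonneg (rc_one χ) (rc_mul h2) (rc_val h2))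
  rcases h1.lt_or_eq with h | h
  · exact h
  · exfalso
    have h3 := lf_real h2 hχ (β := 1) one_pos
    rw [← h] at h3
    exact DirichletCharacter.LFunction_apply_one_ne_zero hχ (by simpa using h3)

theorem exists_zero {q : ℕ} [NeZero q] {χ : DirichletCharacter ℂ q} (h2 : χ ^ 2 = 1) (hχ : χ ≠ 1) {β₀ : ℝ} (h1 : β₀ < 1)
    (hn : lf χ β₀ < 0) : ∃ β : ℝ, β₀ < β ∧ β < 1 ∧ lf χ β = 0 := by
  have hp := lf_pos h2 hχ
  obtain ⟨β, hβ, hβ0⟩ := intermediate_value_Icc h1.le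
    ((lf_cont hχ).continuousOn (s := Set.Icc β₀ 1)) ⟨hn.le, hp.le⟩
  refine ⟨β, lt_of_le_of_ne hβ.1 ?_, lt_of_le_of_ne hβ.2 ?_, hβ0⟩
  · intro he
    rw [he] at hn
    linarith
  · intro he
    rw [he] at hβ0
    linarith

theorem zero_transfer {r q : ℕ} [NeZero r] [NeZero q] {ψ : DirichletCharacter ℂ r} {χ : DirichletCharacter ℂ q}
    (hψ2 : ψ ^ 2 = 1) (hψ : ψ ≠ 1) (hχ2 : χ ^ 2 = 1) (hχ : χ ≠ 1)
    (h : DirichletCharacter.changeLevel (Dvd.intro q rfl : r ∣ r * q) ψ =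
      DirichletCharacter.changeLevel (Dvd.intro_left r rfl : q ∣ r * q) χ) {β : ℝ} (hβ : 0 < β) (h0 : lf ψ β = 0) :
    lf χ β = 0 := by
  haveI : NeZero (r * q) := ⟨Nat.mul_ne_zero (NeZero.ne r) (NeZero.ne q)⟩
  have h1 := DirichletCharacter.LFunction_changeLevel (Dvd.intro q rfl : r ∣ r * q) ψ
    (s := (β : ℂ)) (Or.inl hψ)
  have h3 := DirichletCharacter.LFunction_changeLevel (Dvd.intro_left r rfl : q ∣ r * q) χ
    (s := (β : ℂ)) (Or.inl hχ)
  rw [← h, h1, lf_real hψ2 hψ hβ, h0, Complex.ofReal_zero, zero_mul] at h3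
  rcases mul_eq_zero.1 h3.symm with h4 | h4
  · rw [lf, h4, Complex.zero_re]
  · exfalso
    rw [Finset.prod_eq_zero_iff] at h4
    obtain ⟨p, hp, hp0⟩ := h4
    have hpp := Nat.prime_of_mem_primeFactors hp
    have h5 : χ p * (p : ℂ) ^ (-(β : ℂ)) = 1 := (sub_eq_zero.1 hp0).symm
    have h6 : ‖χ p * (p : ℂ) ^ (-(β : ℂ))‖ < 1 := by
      rw [norm_mul, Complex.norm_natCast_cpow_of_pos hpp.pos]
      have h7 : (p : ℝ) ^ (-β) < 1 :=
        Real.rpow_lt_one_of_one_lt_of_neg (by exact_mod_cast hpp.one_lt) (by linarith)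
      have h8 : (0 : ℝ) ≤ (p : ℝ) ^ (-β) := by positivity
      have h9 : (-(β : ℂ)).re = -β := by simp
      rw [h9]
      have h10 : ‖χ p‖ ≤ 1 := χ.norm_le_one _
      nlinarith [norm_nonneg (χ (p : ZMod q))]
    rw [h5, norm_one] at h6
    exact lt_irrefl _ h6

end Pool.Agent.Helper68.LA
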